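import Mathlib

/- Points of short Weierstrass curves. -/

namespace Pool.Agent.Lib.MP_e97e2b_nt

open WeierstrassCurve

variable {F F' : Type} [Field F] [Field F']

/-- The curve `y^2 = x^3 + A x + B`. -/
def sw (A B : F) : WeierstrassCurve.Affine F := ⟨0, 0, 0, A, B⟩

/-- Nonsingular points of the short curve. -/
def NS (A B x y : F) : Prop := y ^ 2 = x ^ 3 + A * x + B ∧ (3 * x ^ 2 + A ≠ 0 ∨ 2 * y ≠ 0)

lemma ns_iff {A B x y : F} : (sw A B).Nonsingular x y ↔ NS A B x y := by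
  rw [Affine.nonsingular_iff', Affine.equation_iff]
  simp only [sw, NS]
  refine and_congr (by constructor <;> intro h <;> linear_combination h) (or_congr ?_ ?_)
  · constructor <;> intro h h' <;> apply h <;> linear_combination -h'
  · constructor <;> intro h h' <;> apply h <;> linear_combination h'

lemma ns_of_eq {A B x y : F} (h2 : (2 : F) ≠ 0) (hD : 4 * A ^ 3 + 27 * B ^ 2 ≠ 0)
    (h : y ^ 2 = x ^ 3 + A * x + B) : NS A B x y := by
  refine ⟨h, ?_⟩
  by_contra hc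
  push Not at hc
  obtain ⟨h1, h3⟩ := hc
  have hy : y = 0 := (mul_eq_zero.1 h3).resolve_left h2
  subst hy
  apply hD
  have hA : A = -3 * x ^ 2 := by linear_combination h1
  have hB : B = 2 * x ^ 3 := by rw [hA] at h; linear_combination -h
  rw [hA, hB]; ring

/-- The group of nonsingular points. -/
def Pt (A B : F) : Type := (sw A B).Point

noncomputable instance (A B : F) : AddCommGroup (Pt A B) :=
  @WeierstrassCurve.Affine.Point.instAddCommGroup F _ (sw A B) (Classical.decEq F)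

/-- An affine point. -/
def pt {A B : F} (x y : F) (h : NS A B x y) : Pt A B := Affine.Point.some x y (ns_iff.2 h)

variable {A B : F}

lemma Pt.cases (P : Pt A B) : P = 0 ∨ ∃ x y h, P = pt x y h := by
  rcases P with _ | ⟨x, y, h⟩
  · exact Or.inl rfl
  · exact Or.inr ⟨x, y, ns_iff.1 h, rfl⟩

lemma pt_ne_zero {x y : F} (h : NS A B x y) : pt x y h ≠ 0 := Affine.Point.some_ne_zero _

lemma pt_inj {x y x' y' : F} {h : NS A B x y} {h' : NS A B x' y'} :
    pt x y h = pt x' y' h' ↔ x = x' ∧ y = y' := by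
  constructor
  · intro e
    exact Affine.Point.some.inj e
  · rintro ⟨rfl, rfl⟩
    rfl

lemma NS.neg {x y : F} (h : NS A B x y) : NS A B x (-y) :=
  ⟨by rw [← h.1]; ring, h.2.imp id fun h1 h2 => h1 (by linear_combination -h2)⟩

lemma neg_pt {x y : F} (h : NS A B x y) : -pt x y h = pt x (-y) h.neg := by
  change Affine.Point.some _ _ _ = Affine.Point.some _ _ _
  congr 1
  simp [sw]

lemma add_neg_case {x₁ y₁ x₂ y₂ : F} (h₁ : NS A B x₁ y₁) (h₂ : NS A B x₂ y₂) (hx : x₁ = x₂)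
    (hy : y₁ = -y₂) : pt x₁ y₁ h₁ + pt x₂ y₂ h₂ = 0 := by
  subst hx hy
  rw [← neg_pt h₂, neg_add_cancel]

lemma exists_lam {x₁ y₁ x₂ y₂ : F} (h₁ : NS A B x₁ y₁) (h₂ : NS A B x₂ y₂)
    (hne : ¬(x₁ = x₂ ∧ y₁ = -y₂)) : ∃ l : F, l * (x₁ - x₂) = y₁ - y₂ ∧
      l * (y₁ + y₂) = x₁ ^ 2 + x₁ * x₂ + x₂ ^ 2 + A := by
  by_cases hx : x₁ = x₂
  · subst hx
    have hy : y₁ + y₂ ≠ 0 := fun h => hne ⟨rfl, by linear_combination h⟩
    have : (y₁ - y₂) * (y₁ + y₂) = 0 := by linear_combination h₁.1 - h₂.1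
    have h3 := (mul_eq_zero.1 this).resolve_right hy
    exact ⟨(3 * x₁ ^ 2 + A) / (y₁ + y₂), by rw [h3]; simp, by field_simp; ring⟩
  · have hx' : x₁ - x₂ ≠ 0 := sub_ne_zero.2 hx
    refine ⟨(y₁ - y₂) / (x₁ - x₂), by field_simp, ?_⟩
    field_simp
    linear_combination h₁.1 - h₂.1

lemma add_char {x₁ y₁ x₂ y₂ : F} (h₁ : NS A B x₁ y₁) (h₂ : NS A B x₂ y₂)
    (hne : ¬(x₁ = x₂ ∧ y₁ = -y₂)) {l : F} (e₁ : l * (x₁ - x₂) = y₁ - y₂)
    (e₂ : l * (y₁ + y₂) = x₁ ^ 2 + x₁ * x₂ + x₂ ^ 2 + A) :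
    ∃ h₃, pt x₁ y₁ h₁ + pt x₂ y₂ h₂ =
      pt (l ^ 2 - x₁ - x₂) (-(l * (l ^ 2 - x₁ - x₂ - x₁) + y₁)) h₃ := by
  let _ := Classical.decEq F
  have hne' : ¬(x₁ = x₂ ∧ y₁ = (sw A B).negY x₂ y₂) := by simpa [sw] using hne
  have hs : (sw A B).slope x₁ x₂ y₁ y₂ = l := by
    by_cases hx : x₁ = x₂
    · subst hx
      have hy : y₁ + y₂ ≠ 0 := fun h => hne ⟨rfl, by linear_combination h⟩
      have hyy : y₁ = y₂ := by linear_combination -e₁
      subst hyy
      rw [Affine.slope_of_Y_ne rfl fun h => hne' ⟨rfl, h⟩]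
      simp only [sw, Affine.negY]
      have : y₁ - (-y₁ - 0 * x₁ - 0) ≠ 0 := fun h => hy (by linear_combination h)
      rw [div_eq_iff this]
      linear_combination -e₂
    · rw [Affine.slope_of_X_ne hx, div_eq_iff (sub_ne_zero.2 hx)]
      linear_combination -e₁
  have hX : (sw A B).addX x₁ x₂ ((sw A B).slope x₁ x₂ y₁ y₂) = l ^ 2 - x₁ - x₂ := by
    rw [hs]; simp [sw]
  have hY : (sw A B).addY x₁ x₂ y₁ ((sw A B).slope x₁ x₂ y₁ y₂) =
      -(l * (l ^ 2 - x₁ - x₂ - x₁) + y₁) := by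
    rw [hs]; simp [sw, Affine.addY, Affine.negAddY]
  have h₃ := Affine.nonsingular_add (ns_iff.2 h₁) (ns_iff.2 h₂) hne'
  have e := Affine.Point.add_some hne' (h₁ := ns_iff.2 h₁) (h₂ := ns_iff.2 h₂)
  refine ⟨ns_iff.1 (by rw [← hY, ← hX]; exact h₃), e.trans ?_⟩
  change Affine.Point.some _ _ _ = Affine.Point.some _ _ _
  congr 1

lemma pt_eq_or {x y y' : F} (h : NS A B x y) (h' : NS A B x y') :
    pt x y h = pt x y' h' ∨ pt x y h = -pt x y' h' := by
  have : (y - y') * (y + y') = 0 := by linear_combination h.1 - h'.1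
  rcases mul_eq_zero.1 this with e | e
  · exact Or.inl (pt_inj.2 ⟨rfl, by linear_combination e⟩)
  · exact Or.inr (by rw [neg_pt]; exact pt_inj.2 ⟨rfl, by linear_combination e⟩)

section hom

variable {A' B' : F'} (f : F →+* F') (u : F') (hu : u ≠ 0) (hA : A' = u ^ 4 * f A)
  (hB : B' = u ^ 6 * f B)

include hu hA hB in
lemma NS.map_iff {x y : F} : NS A' B' (u ^ 2 * f x) (u ^ 3 * f y) ↔ NS A B x y := by
  have e1 : (u ^ 3 * f y) ^ 2 - ((u ^ 2 * f x) ^ 3 + A' * (u ^ 2 * f x) + B') =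
      u ^ 6 * f (y ^ 2 - (x ^ 3 + A * x + B)) := by
    rw [hA, hB]; simp only [map_sub, map_add, map_pow, map_mul]; ring
  have e2 : 3 * (u ^ 2 * f x) ^ 2 + A' = u ^ 4 * f (3 * x ^ 2 + A) := by
    rw [hA]; simp only [map_add, map_pow, map_mul, map_ofNat]; ring
  have e3 : 2 * (u ^ 3 * f y) = u ^ 3 * f (2 * y) := by
    simp only [map_mul, map_ofNat]; ring
  unfold NS
  rw [← sub_eq_zero, e1, e2, e3, ← sub_eq_zero (a := y ^ 2)]
  simp only [mul_eq_zero, pow_eq_zero_iff', hu, false_and, false_or, ne_eq, map_eq_zero]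

/-- The underlying map of `hom`. -/
noncomputable def homFun (P : Pt A B) : Pt A' B' :=
  match P with
  | .zero => 0
  | .some x y h => pt (u ^ 2 * f x) (u ^ 3 * f y) ((NS.map_iff f u hu hA hB).2 (ns_iff.1 h))

/-- The group homomorphism induced by a field homomorphism and a scaling. -/
noncomputable def hom : Pt A B →+ Pt A' B' where
  toFun := homFun f u hu hA hB
  map_zero' := rfl
  map_add' := by
    have hp : ∀ x y h, homFun f u hu hA hB (pt x y h) =
        pt (u ^ 2 * f x) (u ^ 3 * f y) ((NS.map_iff f u hu hA hB).2 h) := fun _ _ _ => rfl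
    have h0 : homFun f u hu hA hB 0 = 0 := rfl
    intro P Q
    rcases P.cases with rfl | ⟨x₁, y₁, h₁, rfl⟩
    · rw [zero_add, h0, zero_add]
    rcases Q.cases with rfl | ⟨x₂, y₂, h₂, rfl⟩
    · rw [add_zero, h0, add_zero]
    by_cases hne : x₁ = x₂ ∧ y₁ = -y₂
    · rw [add_neg_case h₁ h₂ hne.1 hne.2, h0, hp, hp, add_neg_case]
      · rw [hne.1]
      · rw [hne.2, map_neg]; ring
    obtain ⟨l, e₁, e₂⟩ := exists_lam h₁ h₂ hne
    obtain ⟨h₃, e⟩ := add_char h₁ h₂ hne e₁ e₂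
    have hne' : ¬(u ^ 2 * f x₁ = u ^ 2 * f x₂ ∧ u ^ 3 * f y₁ = -(u ^ 3 * f y₂)) := by
      rintro ⟨a, b⟩
      refine hne ⟨f.injective (mul_left_cancel₀ (pow_ne_zero 2 hu) a),
        f.injective (mul_left_cancel₀ (pow_ne_zero 3 hu) ?_)⟩
      rw [b, map_neg]; ring
    have f₁ := congrArg f e₁
    have f₂ := congrArg f e₂
    simp only [map_sub, map_add, map_pow, map_mul] at f₁ f₂
    obtain ⟨h₄, e'⟩ := add_char ((NS.map_iff f u hu hA hB).2 h₁) ((NS.map_iff f u hu hA hB).2 h₂)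
      hne' (l := u * f l) (by linear_combination u ^ 3 * f₁)
      (by rw [hA]; linear_combination u ^ 4 * f₂)
    rw [e, hp, hp, hp, e', pt_inj]
    simp only [map_sub, map_add, map_pow, map_mul, map_neg]
    constructor <;> ring

lemma hom_pt {x y : F} (h : NS A B x y) : hom f u hu hA hB (pt x y h) =
    pt (u ^ 2 * f x) (u ^ 3 * f y) ((NS.map_iff f u hu hA hB).2 h) := rfl

lemma hom_injective : Function.Injective (hom f u hu hA hB) := by
  rw [injective_iff_map_eq_zero]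
  intro P hP
  rcases P.cases with rfl | ⟨x, y, h, rfl⟩
  · rfl
  · rw [hom_pt] at hP
    exact absurd hP (pt_ne_zero _)

end hom

/-- The homomorphism induced by a field homomorphism. -/
noncomputable def fmap {A' B' : F'} (f : F →+* F') (hA : f A = A') (hB : f B = B') :
    Pt A B →+ Pt A' B' :=
  hom f 1 one_ne_zero (by simp [hA]) (by simp [hB])

lemma NS.fmap_iff {A' B' : F'} (f : F →+* F') (hA : f A = A') (hB : f B = B') {x y : F} :
    NS A' B' (f x) (f y) ↔ NS A B x y := by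
  simpa using NS.map_iff (A := A) (B := B) (A' := A') (B' := B') f 1 one_ne_zero (by simp [hA])
    (by simp [hB]) (x := x) (y := y)

lemma fmap_pt {A' B' : F'} (f : F →+* F') (hA : f A = A') (hB : f B = B') {x y : F}
    (h : NS A B x y) : fmap f hA hB (pt x y h) = pt (f x) (f y) ((NS.fmap_iff f hA hB).2 h) := by
  rw [fmap, hom_pt, pt_inj]; simp

lemma fmap_injective {A' B' : F'} (f : F →+* F') (hA : f A = A') (hB : f B = B') :
    Function.Injective (fmap f hA hB) := hom_injective _ _ _ _ _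

/-- Points whose coordinates lie in the image of `f` are in the image of `fmap`. -/
lemma mem_range_fmap {A' B' : F'} (f : F →+* F') (hA : f A = A') (hB : f B = B')
    (P : Pt A' B') : P ∈ (fmap f hA hB).range ↔
      ∀ x y h, P = pt x y h → x ∈ f.range ∧ y ∈ f.range := by
  constructor
  · rintro ⟨Q, rfl⟩ x y h e
    rcases Q.cases with rfl | ⟨a, b, hab, rfl⟩
    · rw [map_zero] at e
      exact absurd e.symm (pt_ne_zero _)
    · rw [fmap_pt, pt_inj] at e
      exact ⟨⟨a, e.1⟩, ⟨b, e.2⟩⟩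
  · intro H
    rcases P.cases with rfl | ⟨x, y, h, rfl⟩
    · exact zero_mem _
    · obtain ⟨⟨a, rfl⟩, ⟨b, rfl⟩⟩ := H x y h rfl
      exact ⟨pt a b ((NS.fmap_iff f hA hB).1 h), fmap_pt _ _ _ _⟩

end Pool.Agent.Lib.MP_e97e2b_nt
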