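import Pool.Agent.Lib.MP_e97e2b_nt.ABasic

/- Euler products, part one: formal properties of local factors and of twisting. -/

namespace Pool.Agent.Lib.MP_e97e2b_nt

open NumberField ArithmeticFunction Finset

/-- The geometric series with ratio `c`. -/
noncomputable def eu_geo (c : ℝ) : PowerSeries ℝ := PowerSeries.mk fun k => c ^ k

/-- Local factor. -/
noncomputable def eu_G (q : ℕ) (c : ℝ) : ArithmeticFunction ℝ := ofPowerSeries q (eu_geo c)

/-- Nonnegative coefficients. -/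
def eu_NN (φ : PowerSeries ℝ) : Prop := ∀ k, 0 ≤ PowerSeries.coeff k φ

/-- Nonnegative values. -/
def eu_Pos (f : ArithmeticFunction ℝ) : Prop := ∀ n, 0 ≤ f n

/-- Agreement up to `N`. -/
def eu_Eq (N : ℕ) (f g : ArithmeticFunction ℝ) : Prop := ∀ n ≤ N, f n = g n

lemma eu_NN.mul {φ ψ : PowerSeries ℝ} (h1 : eu_NN φ) (h2 : eu_NN ψ) : eu_NN (φ * ψ) := by
  intro k
  rw [PowerSeries.coeff_mul]
  exact sum_nonneg fun p _ => mul_nonneg (h1 _) (h2 _)

lemma eu_NN_geo {c : ℝ} (hc : 0 ≤ c) : eu_NN (eu_geo c) := by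
  intro k
  simp only [eu_geo, PowerSeries.coeff_mk]
  positivity

lemma eu_coeff_neg (r : ℝ) (k : ℕ) :
    PowerSeries.coeff k (eu_geo r * eu_geo (-1 * r)) = (r ^ k + (-r) ^ k) / 2 := by
  rw [mul_comm, PowerSeries.coeff_mul]
  simp only [eu_geo, PowerSeries.coeff_mk]
  have h1 : ∀ p ∈ antidiagonal k, (-1 * r) ^ p.1 * r ^ p.2 = (-1) ^ p.1 * r ^ k := by
    intro p hp
    rw [← mem_antidiagonal.1 hp, mul_pow, pow_add, mul_assoc]
  rw [sum_congr rfl h1, ← sum_mul,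
    Finset.Nat.sum_antidiagonal_eq_sum_range_succ (fun i _ => (-1 : ℝ) ^ i), neg_one_geom_sum]
  rcases Nat.even_or_odd k with h | h
  · rw [if_neg (by simpa [Nat.even_add_one] using h), h.neg_pow]; ring
  · rw [if_pos (by simpa [Nat.even_add_one] using h), h.neg_pow]; ring

lemma eu_half_nonneg {r : ℝ} (hr : 0 ≤ r) (k : ℕ) : 0 ≤ (r ^ k + (-r) ^ k) / 2 := by
  rcases Nat.even_or_odd k with h | h
  · rw [h.neg_pow]; positivity
  · rw [h.neg_pow]; simp

lemma eu_NN_two {r c : ℝ} (hr : 0 ≤ r) (hc : c = 0 ∨ c = 1 ∨ c = -1) :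
    eu_NN (eu_geo r * eu_geo (c * r)) := by
  rcases hc with rfl | rfl | rfl
  · exact (eu_NN_geo hr).mul (eu_NN_geo (by simp))
  · exact (eu_NN_geo hr).mul (eu_NN_geo (by simpa))
  · intro k
    rw [eu_coeff_neg]
    exact eu_half_nonneg hr k

lemma eu_NN_one {c : ℝ} (hc : c = 0 ∨ c = 1 ∨ c = -1) : eu_NN (eu_geo 1 * eu_geo c) := by
  have := eu_NN_two (r := 1) zero_le_one hc
  rwa [mul_one] at this

lemma eu_NN_four {a b : ℝ} (ha : a = 0 ∨ a = 1 ∨ a = -1) (hb : b = 0 ∨ b = 1 ∨ b = -1) :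
    eu_NN (eu_geo 1 * (eu_geo a * eu_geo b * eu_geo (a * b))) := by
  have z : eu_NN (eu_geo 0) := eu_NN_geo le_rfl
  rcases ha with rfl | rfl | rfl
  · have := ((eu_NN_one hb).mul z).mul z
    rw [zero_mul]
    rwa [show eu_geo 1 * (eu_geo 0 * eu_geo b * eu_geo 0) =
      eu_geo 1 * eu_geo b * eu_geo 0 * eu_geo 0 by ring]
  · have := (eu_NN_one hb).mul (eu_NN_one hb)
    rw [one_mul]
    rwa [show eu_geo 1 * (eu_geo 1 * eu_geo b * eu_geo b) =
      eu_geo 1 * eu_geo b * (eu_geo 1 * eu_geo b) by ring]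
  · have m : eu_NN (eu_geo 1 * eu_geo (-1)) := eu_NN_one (Or.inr (Or.inr rfl))
    rcases hb with rfl | rfl | rfl
    · have := (m.mul z).mul z
      rw [mul_zero]
      rwa [show eu_geo 1 * (eu_geo (-1) * eu_geo 0 * eu_geo 0) =
        eu_geo 1 * eu_geo (-1) * eu_geo 0 * eu_geo 0 by ring]
    · have := m.mul m
      rw [mul_one]
      rwa [show eu_geo 1 * (eu_geo (-1) * eu_geo 1 * eu_geo (-1)) =
        eu_geo 1 * eu_geo (-1) * (eu_geo 1 * eu_geo (-1)) by ring]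
    · have := m.mul m
      rw [show (-1 : ℝ) * -1 = 1 by ring]
      rwa [show eu_geo 1 * (eu_geo (-1) * eu_geo (-1) * eu_geo 1) =
        eu_geo 1 * eu_geo (-1) * (eu_geo 1 * eu_geo (-1)) by ring]

lemma eu_of_not_pow {q : ℕ} (hq : 1 < q) (φ : PowerSeries ℝ) {n : ℕ} (hn : ¬ ∃ k, q ^ k = n) :
    ofPowerSeries q φ n = 0 := by
  rw [ofPowerSeries_apply hq, Function.extend_apply' _ _ _ hn]
  rfl

lemma eu_Pos_of {q : ℕ} (hq : 1 < q) {φ : PowerSeries ℝ} (h : eu_NN φ) :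
    eu_Pos (ofPowerSeries q φ) := by
  intro n
  by_cases hn : ∃ k, q ^ k = n
  · obtain ⟨k, rfl⟩ := hn
    rw [ofPowerSeries_apply_pow hq]
    exact h k
  · rw [eu_of_not_pow hq φ hn]

lemma eu_Pos.mul {f g : ArithmeticFunction ℝ} (hf : eu_Pos f) (hg : eu_Pos g) :
    eu_Pos (f * g) := by
  intro n
  rw [ArithmeticFunction.mul_apply]
  exact sum_nonneg fun p _ => mul_nonneg (hf _) (hg _)

lemma eu_Pos_one : eu_Pos 1 := by
  intro n
  rw [ArithmeticFunction.one_apply]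
  split_ifs <;> norm_num

lemma eu_Pos_prod {ι : Type} (S : Finset ι) (F : ι → ArithmeticFunction ℝ)
    (h : ∀ i ∈ S, eu_Pos (F i)) : eu_Pos (∏ i ∈ S, F i) :=
  prod_induction F eu_Pos (fun _ _ => eu_Pos.mul) eu_Pos_one h

lemma eu_Eq.mul {N : ℕ} {f g f' g' : ArithmeticFunction ℝ} (h1 : eu_Eq N f f')
    (h2 : eu_Eq N g g') : eu_Eq N (f * g) (f' * g') := by
  intro n hn
  rw [ArithmeticFunction.mul_apply, ArithmeticFunction.mul_apply]
  refine sum_congr rfl fun p hp => ?_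
  obtain ⟨h, h0⟩ := Nat.mem_divisorsAntidiagonal.1 hp
  have a1 : p.1 ≤ n := Nat.le_of_dvd (Nat.pos_of_ne_zero h0) ⟨p.2, h.symm⟩
  have a2 : p.2 ≤ n := Nat.le_of_dvd (Nat.pos_of_ne_zero h0) ⟨p.1, by rw [← h, mul_comm]⟩
  rw [h1 _ (a1.trans hn), h2 _ (a2.trans hn)]

lemma eu_Eq.tw {N : ℕ} {f g : ArithmeticFunction ℝ} (h : eu_Eq N f g) (χ : ℕ → ℝ) :
    eu_Eq N (tw f χ) (tw g χ) := by
  intro n hn
  rw [tw_apply, tw_apply, h n hn]

/-- Completely multiplicative on positive integers. -/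
structure eu_CM (χ : ℕ → ℝ) : Prop where
  one : χ 1 = 1
  mul : ∀ a b, χ (a * b) = χ a * χ b

lemma eu_CM.pow {χ : ℕ → ℝ} (h : eu_CM χ) (q k : ℕ) : χ (q ^ k) = χ q ^ k := by
  induction k with
  | zero => simpa using h.one
  | succ k ih => rw [pow_succ, h.mul, ih, pow_succ]

lemma eu_CM.mul' {χ ψ : ℕ → ℝ} (h : eu_CM χ) (h' : eu_CM ψ) : eu_CM fun n => χ n * ψ n :=
  ⟨by rw [h.one, h'.one, mul_one], fun a b => by rw [h.mul, h'.mul]; ring⟩

lemma eu_CM_chi (M : ℕ) : eu_CM fun n => chi M n :=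
  ⟨by simpa using chi_one M, fun a b => by rw [Nat.cast_mul, chi_mul]⟩

lemma eu_CM_rpow (s : ℝ) : eu_CM fun n => (n : ℝ) ^ s :=
  ⟨by simp, fun a b => by
    rw [Nat.cast_mul, Real.mul_rpow (Nat.cast_nonneg _) (Nat.cast_nonneg _)]⟩

lemma eu_tw_mul {χ : ℕ → ℝ} (h : eu_CM χ) (f g : ArithmeticFunction ℝ) :
    tw (f * g) χ = tw f χ * tw g χ := by
  ext n
  rw [tw_apply, ArithmeticFunction.mul_apply, ArithmeticFunction.mul_apply, sum_mul]
  refine sum_congr rfl fun p hp => ?_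
  rw [← (Nat.mem_divisorsAntidiagonal.1 hp).1, h.mul, tw_apply, tw_apply]
  ring

lemma eu_tw_one {χ : ℕ → ℝ} (h : eu_CM χ) : tw 1 χ = 1 := by
  ext n
  rw [tw_apply, ArithmeticFunction.one_apply]
  split_ifs with hn
  · rw [hn, h.one, mul_one]
  · simp

lemma eu_tw_prod {χ : ℕ → ℝ} (h : eu_CM χ) {ι : Type} (S : Finset ι)
    (F : ι → ArithmeticFunction ℝ) : tw (∏ i ∈ S, F i) χ = ∏ i ∈ S, tw (F i) χ := by
  classical
  induction S using Finset.induction_on with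
  | empty => simpa using eu_tw_one h
  | insert a S ha ih => rw [prod_insert ha, prod_insert ha, eu_tw_mul h, ih]

lemma eu_tw_G {χ : ℕ → ℝ} (h : eu_CM χ) {q : ℕ} (hq : 1 < q) (c : ℝ) :
    tw (eu_G q c) χ = eu_G q (c * χ q) := by
  ext n
  rw [tw_apply, eu_G, eu_G]
  by_cases hn : ∃ k, q ^ k = n
  · obtain ⟨k, rfl⟩ := hn
    rw [ofPowerSeries_apply_pow hq, ofPowerSeries_apply_pow hq, h.pow]
    simp [eu_geo, mul_pow]
  · rw [eu_of_not_pow hq _ hn, eu_of_not_pow hq _ hn, zero_mul]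

lemma eu_X_apply {q : ℕ} (hq : 1 < q) (n : ℕ) :
    ofPowerSeries q (PowerSeries.X : PowerSeries ℝ) n = if n = q then 1 else 0 := by
  by_cases hn : ∃ k, q ^ k = n
  · obtain ⟨k, rfl⟩ := hn
    rw [ofPowerSeries_apply_pow hq, PowerSeries.coeff_X]
    by_cases hk : k = 1
    · simp [hk]
    · rw [if_neg hk, if_neg]
      intro e
      exact hk (Nat.pow_right_injective hq (by simpa using e))
  · rw [eu_of_not_pow hq _ hn, if_neg]
    rintro rfl
    exact hn ⟨1, by simp⟩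

lemma eu_X_mul {q : ℕ} (hq : 1 < q) (f : ArithmeticFunction ℝ) (n : ℕ) :
    (ofPowerSeries q (PowerSeries.X : PowerSeries ℝ) * f) n = if q ∣ n then f (n / q) else 0 := by
  rw [ArithmeticFunction.mul_apply]
  by_cases hn : n = 0
  · subst hn; simp
  by_cases hd : q ∣ n
  · rw [if_pos hd, sum_eq_single (q, n / q)]
    · rw [eu_X_apply hq, if_pos rfl, one_mul]
    · intro p hp hne
      rw [eu_X_apply hq, if_neg, zero_mul]
      intro e
      apply hne
      have h := (Nat.mem_divisorsAntidiagonal.1 hp).1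
      refine Prod.ext e ?_
      rw [← h, e, Nat.mul_div_cancel_left _ (by omega)]
    · intro h
      exact absurd (Nat.mem_divisorsAntidiagonal.2 ⟨Nat.mul_div_cancel' hd, hn⟩) h
  · rw [if_neg hd]
    refine sum_eq_zero fun p hp => ?_
    rw [eu_X_apply hq, if_neg, zero_mul]
    intro e
    exact hd ⟨p.2, by rw [← e, (Nat.mem_divisorsAntidiagonal.1 hp).1]⟩

lemma eu_geo_one : eu_geo 1 * (1 - PowerSeries.X) = 1 := by
  have : eu_geo 1 = PowerSeries.mk 1 := by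
    ext k; simp [eu_geo]
  rw [this]
  exact PowerSeries.mk_one_mul_one_sub_eq_one ℝ

/-- Solving the recursion of the smooth counting functions. -/
lemma eu_solve {q : ℕ} (hq : 1 < q) (f g : ArithmeticFunction ℝ)
    (h : ∀ n, f n = g n + if q ∣ n then f (n / q) else 0) : f = eu_G q 1 * g := by
  have h1 : g = (1 - ofPowerSeries q (PowerSeries.X : PowerSeries ℝ)) * f := by
    ext n
    rw [sub_mul, one_mul, sub_eq_add_neg, ArithmeticFunction.add_apply,
      ArithmeticFunction.neg_apply, eu_X_mul hq, h n]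
    ring
  have h2 : eu_G q 1 * (1 - ofPowerSeries q (PowerSeries.X : PowerSeries ℝ)) = 1 := by
    have := congrArg (ofPowerSeries q) eu_geo_one
    rwa [map_mul, map_sub, map_one] at this
  rw [h1, ← mul_assoc, h2, one_mul]

/-- Truncated sum. -/
noncomputable def eu_W (N : ℕ) (f : ArithmeticFunction ℝ) : ℝ := ∑ n ∈ Ioc 0 N, f n

lemma eu_W_nonneg (N : ℕ) {f : ArithmeticFunction ℝ} (hf : eu_Pos f) : 0 ≤ eu_W N f :=
  sum_nonneg fun n _ => hf n

lemma eu_W_mul (N : ℕ) {f g : ArithmeticFunction ℝ} (hf : eu_Pos f) (hg : eu_Pos g) :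
    eu_W N (f * g) ≤ eu_W N f * eu_W N g := by
  unfold eu_W
  rw [ArithmeticFunction.sum_Ioc_mul_eq_sum_prod_filter, sum_mul_sum, ← sum_product']
  exact sum_le_sum_of_subset_of_nonneg (filter_subset _ _)
    fun p _ _ => mul_nonneg (hf _) (hg _)

lemma eu_W_one (N : ℕ) : eu_W N 1 ≤ 1 := by
  unfold eu_W
  simp only [ArithmeticFunction.one_apply, sum_ite_eq']
  split_ifs <;> norm_num

lemma eu_W_prod (N : ℕ) {ι : Type} (S : Finset ι) (F : ι → ArithmeticFunction ℝ) (B : ι → ℝ)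
    (h : ∀ i ∈ S, eu_Pos (F i)) (hB : ∀ i ∈ S, eu_W N (F i) ≤ Real.exp (B i)) :
    eu_W N (∏ i ∈ S, F i) ≤ Real.exp (∑ i ∈ S, B i) := by
  classical
  induction S using Finset.induction_on with
  | empty => simpa using eu_W_one N
  | insert a S ha ih =>
    have h1 : ∀ i ∈ S, eu_Pos (F i) := fun i hi => h i (mem_insert_of_mem hi)
    rw [prod_insert ha, sum_insert ha, Real.exp_add]
    refine (eu_W_mul N (h a (mem_insert_self _ _)) (eu_Pos_prod S F h1)).trans ?_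
    exact mul_le_mul (hB a (mem_insert_self _ _))
      (ih h1 fun i hi => hB i (mem_insert_of_mem hi)) (eu_W_nonneg N (eu_Pos_prod S F h1))
      (Real.exp_pos _).le

lemma eu_W_of (N : ℕ) {q : ℕ} (hq : 1 < q) {φ : PowerSeries ℝ} (h : eu_NN φ) {s : ℝ}
    (hs : HasSum (fun k => PowerSeries.coeff k φ) s) : eu_W N (ofPowerSeries q φ) ≤ s := by
  classical
  unfold eu_W
  have h1 : ∑ n ∈ Ioc 0 N, ofPowerSeries q φ n ≤
      ∑ n ∈ (range (N + 1)).image (q ^ ·), ofPowerSeries q φ n := by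
    rw [← sum_filter_add_sum_filter_not (Ioc 0 N) (fun n => ∃ k, q ^ k = n),
      sum_eq_zero (s := (Ioc 0 N).filter fun n => ¬ ∃ k, q ^ k = n)
        (fun n hn => eu_of_not_pow hq φ (mem_filter.1 hn).2), add_zero]
    refine sum_le_sum_of_subset_of_nonneg ?_ fun n _ _ => eu_Pos_of hq h n
    intro n hn
    obtain ⟨hn1, k, rfl⟩ := mem_filter.1 hn
    refine mem_image.2 ⟨k, mem_range.2 ?_, rfl⟩
    have := Nat.lt_pow_self (n := k) hq
    have := (mem_Ioc.1 hn1).2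
    omega
  rw [sum_image fun a _ b _ e => Nat.pow_right_injective hq e] at h1
  simp only [ofPowerSeries_apply_pow hq] at h1
  exact h1.trans (sum_le_hasSum _ (fun k _ => h k) hs)

lemma eu_inv_le {r : ℝ} (h0 : 0 ≤ r) (h1 : r ≤ 2 / 3) : (1 - r)⁻¹ ≤ Real.exp (3 * r) := by
  have h2 : 0 < 1 - r := by linarith
  refine le_trans ?_ (Real.add_one_le_exp _)
  rw [inv_le_iff_one_le_mul₀ h2]
  nlinarith

lemma eu_W_G (N : ℕ) {q : ℕ} (hq : 1 < q) {r : ℝ} (h0 : 0 ≤ r) (h1 : r ≤ 2 / 3) :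
    eu_W N (eu_G q r) ≤ Real.exp (3 * r) := by
  refine le_trans (eu_W_of N hq (eu_NN_geo h0) (s := (1 - r)⁻¹) ?_) (eu_inv_le h0 h1)
  simpa [eu_geo] using hasSum_geometric_of_lt_one h0 (by linarith)

lemma eu_W_local (N : ℕ) {q : ℕ} (hq : 1 < q) {r c : ℝ} (h0 : 0 ≤ r) (h1 : r ≤ 2 / 3)
    (hc : c = 0 ∨ c = 1 ∨ c = -1) :
    eu_W N (eu_G q r * eu_G q (c * r)) ≤ Real.exp (6 * if c = -1 then r ^ 2 else r) := by
  by_cases hm : c = -1
  · rw [if_pos hm, hm, eu_G, eu_G, ← map_mul]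
    have h2 : r ^ 2 ≤ 2 / 3 := by nlinarith
    have h3 : HasSum (fun k => PowerSeries.coeff k (eu_geo r * eu_geo (-1 * r)))
        (((1 - r)⁻¹ + (1 - -r)⁻¹) / 2) := by
      simp only [eu_coeff_neg]
      refine HasSum.div_const (HasSum.add ?_ ?_) 2
      · exact hasSum_geometric_of_lt_one h0 (by linarith)
      · exact hasSum_geometric_of_abs_lt_one (by rw [abs_neg, abs_of_nonneg h0]; linarith)
    refine (eu_W_of N hq (eu_NN_two h0 (Or.inr (Or.inr rfl))) h3).trans ?_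
    have h4 : ((1 - r)⁻¹ + (1 - -r)⁻¹) / 2 = (1 - r ^ 2)⁻¹ := by
      have a1 : 1 - r ≠ 0 := by linarith
      have a2 : 1 - -r ≠ 0 := by linarith
      have a3 : 1 - r ^ 2 ≠ 0 := by linarith
      field_simp
      ring
    rw [h4]
    exact (eu_inv_le (by positivity) h2).trans (Real.exp_le_exp.2 (by nlinarith [sq_nonneg r]))
  · rw [if_neg hm]
    have hc0 : 0 ≤ c * r ∧ c * r ≤ r := by
      rcases hc with rfl | rfl | rfl
      · simpa using h0
      · simpa using h0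
      · exact absurd rfl hm
    refine (eu_W_mul N (eu_Pos_of hq (eu_NN_geo h0)) (eu_Pos_of hq (eu_NN_geo hc0.1))).trans ?_
    have e1 := eu_W_G N hq h0 h1
    have e2 := eu_W_G N hq hc0.1 (hc0.2.trans h1)
    calc eu_W N (eu_G q r) * eu_W N (eu_G q (c * r))
        ≤ Real.exp (3 * r) * Real.exp (3 * (c * r)) :=
          mul_le_mul e1 e2 (eu_W_nonneg N (eu_Pos_of hq (eu_NN_geo hc0.1))) (Real.exp_pos _).le
      _ ≤ Real.exp (6 * r) := by
          rw [← Real.exp_add]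
          exact Real.exp_le_exp.2 (by linarith [hc0.2])

end Pool.Agent.Lib.MP_e97e2b_nt
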