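import Pool.Agent.Lib.MP_e97e2b_nt.Abel

/- Siegel's argument in an abstract setting. -/

namespace Pool.Agent.Lib.MP_e97e2b_nt

open Filter Topology

/-- The function `n ↦ u n * n ^ (-s)`. -/
noncomputable def siW (u : ArithmeticFunction ℝ) (s : ℝ) : ArithmeticFunction ℝ :=
  tw u fun n => (n : ℝ) ^ (-s)

lemma si_W_apply (u : ArithmeticFunction ℝ) (s : ℝ) (n : ℕ) :
    siW u s n = u n * (n : ℝ) ^ (-s) := rfl

lemma si_W_mul (u v : ArithmeticFunction ℝ) (s : ℝ) : siW (u * v) s = siW u s * siW v s := by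
  ext n
  rw [si_W_apply, ArithmeticFunction.mul_apply, ArithmeticFunction.mul_apply, Finset.sum_mul]
  refine Finset.sum_congr rfl fun x hx => ?_
  have h := (Nat.mem_divisorsAntidiagonal.1 hx).1
  rw [si_W_apply, si_W_apply, ← h, Nat.cast_mul,
    Real.mul_rpow (Nat.cast_nonneg _) (Nat.cast_nonneg _)]
  ring

/-- Convergent initial sums with a rate, and a bound for the sums of absolute values. -/
structure SiGd (u : ArithmeticFunction ℝ) (D M η γ : ℝ) : Prop where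
  asy : ∀ x : ℝ, 1 ≤ x → |Sm u x - D| ≤ M * x ^ (-η)
  ab : ∀ x : ℝ, 1 ≤ x → Sm (fun n => |u n|) x ≤ M * x ^ γ

lemma SiGd.nonneg {u : ArithmeticFunction ℝ} {D M η γ : ℝ} (h : SiGd u D M η γ) : 0 ≤ M := by
  have := (abs_nonneg _).trans (h.asy 1 le_rfl)
  simpa using this

lemma SiGd.mono {u : ArithmeticFunction ℝ} {D M η γ M' η' γ' : ℝ} (h : SiGd u D M η γ)
    (hM : M ≤ M') (hη : η' ≤ η) (hγ : γ ≤ γ') : SiGd u D M' η' γ' := by
  have h0 := h.nonneg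
  refine ⟨fun x hx => (h.asy x hx).trans ?_, fun x hx => (h.ab x hx).trans ?_⟩
  · exact mul_le_mul hM (Real.rpow_le_rpow_of_exponent_le hx (by linarith)) (by positivity)
      (by linarith)
  · exact mul_le_mul hM (Real.rpow_le_rpow_of_exponent_le hx hγ) (by positivity) (by linarith)

lemma si_abs_Sm (f : ℕ → ℝ) (x : ℝ) : |Sm f x| ≤ Sm (fun n => |f n|) x :=
  Finset.abs_sum_le_sum_abs _ _

lemma si_Sm_abs_nonneg (f : ℕ → ℝ) (x : ℝ) : 0 ≤ Sm (fun n => |f n|) x :=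
  Finset.sum_nonneg fun _ _ => abs_nonneg _

lemma si_abs_mul (u v : ArithmeticFunction ℝ) (x : ℝ) :
    Sm (fun n => |(u * v) n|) x ≤ Sm (fun n => |u n|) x * Sm (fun n => |v n|) x := by
  let u' : ArithmeticFunction ℝ := ⟨fun n => |u n|, by simp⟩
  let v' : ArithmeticFunction ℝ := ⟨fun n => |v n|, by simp⟩
  have h1 : Sm (fun n => |(u * v) n|) x ≤ ∑ n ∈ Finset.Ioc 0 ⌊x⌋₊, (u' * v') n := by
    refine Finset.sum_le_sum fun n _ => ?_
    rw [ArithmeticFunction.mul_apply, ArithmeticFunction.mul_apply]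
    refine (Finset.abs_sum_le_sum_abs _ _).trans (Finset.sum_le_sum fun p _ => ?_)
    rw [abs_mul]
    exact le_rfl
  refine h1.trans ?_
  rw [ArithmeticFunction.sum_Ioc_mul_eq_sum_prod_filter]
  refine (Finset.sum_le_sum_of_subset_of_nonneg (Finset.filter_subset _ _)
    fun p _ _ => mul_nonneg (abs_nonneg _) (abs_nonneg _)).trans ?_
  rw [Finset.sum_product, Sm, Sm, Finset.sum_mul_sum]
  exact le_rfl

lemma si_inner (u : ℕ → ℝ) (S g : ℝ → ℝ) (y B : ℝ) (hy : 1 ≤ y)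
    (h : ∀ t, y ≤ t → |S t - g t| ≤ B) :
    |∑ m ∈ Finset.Ioc 0 ⌊y⌋₊, u m * S (y * y / m) -
      ∑ m ∈ Finset.Ioc 0 ⌊y⌋₊, u m * g (y * y / m)| ≤ B * Sm (fun n => |u n|) y := by
  rw [← Finset.sum_sub_distrib, Sm, Finset.mul_sum]
  refine (Finset.abs_sum_le_sum_abs _ _).trans (Finset.sum_le_sum fun m hm => ?_)
  rw [← mul_sub, abs_mul, mul_comm]
  refine mul_le_mul_of_nonneg_right (h _ ?_) (abs_nonneg _)
  obtain ⟨h1, h2⟩ := Finset.mem_Ioc.1 hm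
  have h3 : (0 : ℝ) < m := by exact_mod_cast h1
  have h4 : (m : ℝ) ≤ y := (Nat.le_floor_iff (by linarith)).1 h2
  rw [le_div_iff₀ h3]
  exact mul_le_mul_of_nonneg_left h4 (by linarith)

lemma si_rate {S : ℝ → ℝ} {g : ℝ → ℝ} {M η y : ℝ} (hM : 0 ≤ M) (hη : 0 ≤ η) (hy : 1 ≤ y)
    (h : ∀ x : ℝ, 1 ≤ x → |S x - g x| ≤ M * x ^ (-η)) :
    ∀ t, y ≤ t → |S t - g t| ≤ M * y ^ (-η) := by
  intro t ht
  refine (h t (hy.trans ht)).trans (mul_le_mul_of_nonneg_left ?_ hM)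
  exact Real.rpow_le_rpow_of_nonpos (by linarith) ht (by linarith)

lemma si_sqrt (x : ℝ) (hx : 1 ≤ x) : ∃ y : ℝ, 1 ≤ y ∧ x = y * y :=
  ⟨Real.sqrt x, Real.one_le_sqrt.2 hx, (Real.mul_self_sqrt (by linarith)).symm⟩

lemma si_sq_rpow (y t : ℝ) (hy : 1 ≤ y) : (y * y) ^ t = y ^ (2 * t) := by
  rw [Real.mul_rpow (by linarith) (by linarith), ← Real.rpow_add (by linarith)]
  ring_nf

lemma si_hyp (u v : ArithmeticFunction ℝ) (y : ℝ) (hy : 1 ≤ y) :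
    Sm (⇑(u * v)) (y * y) =
      ∑ m ∈ Finset.Ioc 0 ⌊y⌋₊, u m * Sm v (y * y / m) +
      ∑ n ∈ Finset.Ioc 0 ⌊y⌋₊, v n * Sm u (y * y / n) - Sm u y * Sm v y :=
  hyperbola u v y y hy hy

lemma SiGd.mul {u v : ArithmeticFunction ℝ} {D1 D2 M1 M2 η γ : ℝ} (h1 : SiGd u D1 M1 η γ)
    (h2 : SiGd v D2 M2 η γ) (hγ : 0 ≤ γ) (hη : 2 * γ ≤ η) :
    SiGd (u * v) (D1 * D2) (3 * (M1 * M2)) (η / 4) (2 * γ) := by
  have hM1 := h1.nonneg
  have hM2 := h2.nonneg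
  have hη0 : 0 ≤ η := by linarith
  constructor
  · intro x hx
    obtain ⟨y, hy, rfl⟩ := si_sqrt x hx
    have hy0 : 0 < y := by linarith
    rw [si_hyp u v y hy, si_sq_rpow _ _ hy]
    have e1 := si_inner u (Sm v) (fun _ => D2) y _ hy (si_rate hM2 hη0 hy h2.asy)
    have e2 := si_inner v (Sm u) (fun _ => D1) y _ hy (si_rate hM1 hη0 hy h1.asy)
    rw [← Finset.sum_mul] at e1 e2
    have e3 := h1.asy y hy
    have e4 := h2.asy y hy
    have e5 := h1.ab y hy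
    have e6 := h2.ab y hy
    have k1 : y ^ (-η) * y ^ γ ≤ y ^ (2 * -(η / 4)) := by
      rw [← Real.rpow_add hy0]
      exact Real.rpow_le_rpow_of_exponent_le hy (by linarith)
    have k2 : y ^ (-η) * y ^ (-η) ≤ y ^ (2 * -(η / 4)) := by
      rw [← Real.rpow_add hy0]
      exact Real.rpow_le_rpow_of_exponent_le hy (by linarith)
    have p1 : 0 ≤ y ^ (-η) := by positivity
    have f1 : M2 * y ^ (-η) * Sm (fun n => |u n|) y ≤ M1 * M2 * y ^ (2 * -(η / 4)) :=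
      calc _ ≤ M2 * y ^ (-η) * (M1 * y ^ γ) := mul_le_mul_of_nonneg_left e5 (by positivity)
        _ = M1 * M2 * (y ^ (-η) * y ^ γ) := by ring
        _ ≤ _ := mul_le_mul_of_nonneg_left k1 (by positivity)
    have f2 : M1 * y ^ (-η) * Sm (fun n => |v n|) y ≤ M1 * M2 * y ^ (2 * -(η / 4)) :=
      calc _ ≤ M1 * y ^ (-η) * (M2 * y ^ γ) := mul_le_mul_of_nonneg_left e6 (by positivity)
        _ = M1 * M2 * (y ^ (-η) * y ^ γ) := by ring
        _ ≤ _ := mul_le_mul_of_nonneg_left k1 (by positivity)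
    have f3 : |(Sm u y - D1) * (Sm v y - D2)| ≤ M1 * M2 * y ^ (2 * -(η / 4)) :=
      calc _ = |Sm u y - D1| * |Sm v y - D2| := abs_mul _ _
        _ ≤ (M1 * y ^ (-η)) * (M2 * y ^ (-η)) :=
          mul_le_mul e3 e4 (abs_nonneg _) (by positivity)
        _ = M1 * M2 * (y ^ (-η) * y ^ (-η)) := by ring
        _ ≤ _ := mul_le_mul_of_nonneg_left k2 (by positivity)
    have g1 := abs_le.1 (e1.trans f1)
    have g2 := abs_le.1 (e2.trans f2)
    have g3 := abs_le.1 f3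
    change _ ≤ _ - Sm u y * D2 ∧ _ - Sm u y * D2 ≤ _ at g1
    change _ ≤ _ - Sm v y * D1 ∧ _ - Sm v y * D1 ≤ _ at g2
    rw [abs_le]
    constructor <;> linarith [g1.1, g1.2, g2.1, g2.2, g3.1, g3.2]
  · intro x hx
    refine (si_abs_mul u v x).trans ?_
    have hx0 : 0 < x := by linarith
    calc _ ≤ (M1 * x ^ γ) * (M2 * x ^ γ) :=
          mul_le_mul (h1.ab x hx) (h2.ab x hx) (si_Sm_abs_nonneg _ _) (by positivity)
      _ = M1 * M2 * x ^ (2 * γ) := by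
          rw [two_mul, Real.rpow_add hx0]
          ring
      _ ≤ _ := by
          have : 0 ≤ M1 * M2 * x ^ (2 * γ) := by positivity
          linarith

/-- The main asymptotic formula for a convolution with a function of growing initial sums. -/
lemma si_E {u V : ArithmeticFunction ℝ} {κ p Z M0 M D D' η γ : ℝ} (hκ : 0 ≤ κ) (hp : 0 < p)
    (hpγ : p ≤ γ) (hη : 4 * γ ≤ η) (hM0 : 0 ≤ M0)
    (hu : ∀ x : ℝ, 1 ≤ x → |Sm u x - (κ * x ^ p / p + Z)| ≤ M0 * x ^ (-η))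
    (hu' : ∀ x : ℝ, 1 ≤ x → Sm (fun n => |u n|) x ≤ M0 * x ^ γ)
    (hV : SiGd V D M η γ) (hV' : SiGd (siW V p) D' M η γ) (x : ℝ) (hx : 1 ≤ x) :
    |Sm (⇑(u * V)) x - (κ * x ^ p / p * D' + Z * D)| ≤
      (κ / p + |Z| + 3 * M0) * M * x ^ (-(η / 4)) := by
  have hM := hV.nonneg
  have hη0 : 0 ≤ η := by linarith
  obtain ⟨y, hy, rfl⟩ := si_sqrt x hx
  have hy0 : 0 < y := by linarith
  rw [si_hyp u V y hy]
  have e1 := si_inner u (Sm V) (fun _ => D) y _ hy (si_rate hM hη0 hy hV.asy)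
  have e2 := si_inner V (Sm u) (fun t => κ * t ^ p / p + Z) y _ hy (si_rate hM0 hη0 hy hu)
  rw [← Finset.sum_mul] at e1
  have e2' : ∑ m ∈ Finset.Ioc 0 ⌊y⌋₊, V m * (κ * (y * y / m) ^ p / p + Z) =
      κ * (y * y) ^ p / p * Sm (siW V p) y + Z * Sm V y := by
    rw [Sm, Sm, Finset.mul_sum, Finset.mul_sum, ← Finset.sum_add_distrib]
    refine Finset.sum_congr rfl fun m _ => ?_
    rw [si_W_apply, Real.div_rpow (by positivity) (Nat.cast_nonneg _),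
      Real.rpow_neg (Nat.cast_nonneg _)]
    ring
  rw [e2'] at e2
  have e3 := hV.asy y hy
  have e4 := hV'.asy y hy
  have e5 := hu' y hy
  have e6 := hV.ab y hy
  have e7 := (si_abs_Sm u y).trans e5
  obtain ⟨w, hw⟩ : ∃ w, w = (y * y) ^ (-(η / 4)) := ⟨_, rfl⟩
  have hw' : w = y ^ (2 * -(η / 4)) := by rw [hw, si_sq_rpow _ _ hy]
  rw [← hw]
  have k1 : y ^ (-η) * y ^ γ ≤ w := by
    rw [hw', ← Real.rpow_add hy0]
    exact Real.rpow_le_rpow_of_exponent_le hy (by linarith)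
  have k2 : y ^ (-η) ≤ w := by
    rw [hw']
    exact Real.rpow_le_rpow_of_exponent_le hy (by linarith)
  have k3 : (y * y) ^ p * y ^ (-η) ≤ w := by
    rw [hw', si_sq_rpow _ _ hy, ← Real.rpow_add hy0]
    exact Real.rpow_le_rpow_of_exponent_le hy (by linarith)
  have f1 : M * y ^ (-η) * Sm (fun n => |u n|) y ≤ M0 * M * w :=
    calc _ ≤ M * y ^ (-η) * (M0 * y ^ γ) := mul_le_mul_of_nonneg_left e5 (by positivity)
      _ = M0 * M * (y ^ (-η) * y ^ γ) := by ring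
      _ ≤ _ := mul_le_mul_of_nonneg_left k1 (by positivity)
  have f2 : M0 * y ^ (-η) * Sm (fun n => |V n|) y ≤ M0 * M * w :=
    calc _ ≤ M0 * y ^ (-η) * (M * y ^ γ) := mul_le_mul_of_nonneg_left e6 (by positivity)
      _ = M0 * M * (y ^ (-η) * y ^ γ) := by ring
      _ ≤ _ := mul_le_mul_of_nonneg_left k1 (by positivity)
  have f3 : |Sm u y * (Sm V y - D)| ≤ M0 * M * w :=
    calc _ = |Sm u y| * |Sm V y - D| := abs_mul _ _
      _ ≤ (M0 * y ^ γ) * (M * y ^ (-η)) := mul_le_mul e7 e3 (abs_nonneg _) (by positivity)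
      _ = M0 * M * (y ^ (-η) * y ^ γ) := by ring
      _ ≤ _ := mul_le_mul_of_nonneg_left k1 (by positivity)
  have f4 : |κ * (y * y) ^ p / p * (Sm (siW V p) y - D')| ≤ κ / p * M * w :=
    calc _ = κ * (y * y) ^ p / p * |Sm (siW V p) y - D'| := by
          rw [abs_mul, abs_of_nonneg (by positivity)]
      _ ≤ κ * (y * y) ^ p / p * (M * y ^ (-η)) := mul_le_mul_of_nonneg_left e4 (by positivity)
      _ = κ / p * M * ((y * y) ^ p * y ^ (-η)) := by ring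
      _ ≤ _ := mul_le_mul_of_nonneg_left k3 (by positivity)
  have f5 : |Z * (Sm V y - D)| ≤ |Z| * M * w :=
    calc _ = |Z| * |Sm V y - D| := abs_mul _ _
      _ ≤ |Z| * (M * y ^ (-η)) := mul_le_mul_of_nonneg_left e3 (abs_nonneg _)
      _ = |Z| * M * y ^ (-η) := by ring
      _ ≤ _ := mul_le_mul_of_nonneg_left k2 (by positivity)
  have g1 := abs_le.1 (e1.trans f1)
  have g2 := abs_le.1 (e2.trans f2)
  have g3 := abs_le.1 f3
  have g4 := abs_le.1 f4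
  have g5 := abs_le.1 f5
  change _ ≤ _ - Sm u y * D ∧ _ - Sm u y * D ≤ _ at g1
  rw [abs_le]
  constructor <;> linarith [g1.1, g1.2, g2.1, g2.2, g3.1, g3.2, g4.1, g4.2, g5.1, g5.2]

lemma si_conc {u v p : ℝ} (hu : 0 < u) (hv : 0 ≤ v) (hp0 : 0 ≤ p) (hp1 : p ≤ 1) :
    v ^ p ≤ u ^ p + p * u ^ (p - 1) * (v - u) := by
  have h1 : -1 ≤ (v - u) / u := by
    rw [le_div_iff₀ hu]
    linarith
  have h2 := rpow_one_add_le_one_add_mul_self h1 hp0 hp1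
  have h3 : v = u * (1 + (v - u) / u) := by field_simp; ring
  have h4 : v ^ p = u ^ p * (1 + (v - u) / u) ^ p := by
    rw [← Real.mul_rpow hu.le (by linarith), ← h3]
  rw [h4, Real.rpow_sub_one hu.ne']
  calc _ ≤ u ^ p * (1 + p * ((v - u) / u)) := mul_le_mul_of_nonneg_left h2 (by positivity)
    _ = _ := by ring

lemma si_zeta (b : ℝ) (hb0 : 0 < b) (hb1 : b < 1) : ∃ z : ℝ, z ≤ 1 - 1 / (1 - b) ∧
    ∀ x : ℝ, 1 ≤ x →
      |Sm (fun n => (n : ℝ) ^ (-b)) x - (x ^ (1 - b) / (1 - b) + z)| ≤ 2 * x ^ (-b) := by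
  have hp : 0 < 1 - b := by linarith
  have hpb : 1 - b - 1 = -b := by ring
  let e : ℕ → ℝ := fun N => ∑ n ∈ Finset.Ioc 0 (N + 1), (n : ℝ) ^ (-b) -
    ((N + 1 : ℕ) : ℝ) ^ (1 - b) / (1 - b)
  let d : ℕ → ℝ := fun N => e N - ((N + 1 : ℕ) : ℝ) ^ (-b)
  have he : ∀ N, e (N + 1) = e N + ((N + 1 + 1 : ℕ) : ℝ) ^ (-b) -
      (((N + 1 + 1 : ℕ) : ℝ) ^ (1 - b) - ((N + 1 : ℕ) : ℝ) ^ (1 - b)) / (1 - b) := by
    intro N
    simp only [e]
    rw [Finset.sum_Ioc_succ_top (Nat.zero_le _)]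
    ring
  have hc : ∀ N : ℕ, ((N + 1 + 1 : ℕ) : ℝ) = ((N + 1 : ℕ) : ℝ) + 1 := fun N => by push_cast; ring
  have he' : Antitone e := by
    refine antitone_nat_of_succ_le fun N => ?_
    have h := si_conc (u := ((N + 1 + 1 : ℕ) : ℝ)) (v := ((N + 1 : ℕ) : ℝ)) (by positivity)
      (by positivity) hp.le (by linarith)
    rw [hpb] at h
    have h2 : ((N + 1 + 1 : ℕ) : ℝ) ^ (-b) ≤
        (((N + 1 + 1 : ℕ) : ℝ) ^ (1 - b) - ((N + 1 : ℕ) : ℝ) ^ (1 - b)) / (1 - b) := by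
      rw [le_div_iff₀ hp]
      have h3 : ((N + 1 : ℕ) : ℝ) - ((N + 1 + 1 : ℕ) : ℝ) = -1 := by rw [hc]; ring
      rw [h3] at h
      linarith
    rw [he]
    linarith
  have hd' : Monotone d := by
    refine monotone_nat_of_le_succ fun N => ?_
    have h := si_conc (u := ((N + 1 : ℕ) : ℝ)) (v := ((N + 1 + 1 : ℕ) : ℝ)) (by positivity)
      (by positivity) hp.le (by linarith)
    rw [hpb] at h
    have h2 : (((N + 1 + 1 : ℕ) : ℝ) ^ (1 - b) - ((N + 1 : ℕ) : ℝ) ^ (1 - b)) / (1 - b) ≤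
        ((N + 1 : ℕ) : ℝ) ^ (-b) := by
      rw [div_le_iff₀ hp]
      have h3 : ((N + 1 + 1 : ℕ) : ℝ) - ((N + 1 : ℕ) : ℝ) = 1 := by rw [hc]; ring
      rw [h3] at h
      linarith
    simp only [d]
    rw [he]
    linarith
  obtain ⟨z, hz1, hz2⟩ := exists_between_of_forall_le (Set.range_nonempty d)
    (Set.range_nonempty e) (by
      rintro _ ⟨i, rfl⟩ _ ⟨j, rfl⟩
      have h1 := hd' (le_max_left i j)
      have h2 := he' (le_max_right i j)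
      have h3 : 0 ≤ ((max i j + 1 : ℕ) : ℝ) ^ (-b) := by positivity
      have h4 : d (max i j) = e (max i j) - ((max i j + 1 : ℕ) : ℝ) ^ (-b) := rfl
      linarith)
  refine ⟨z, ?_, fun x hx => ?_⟩
  · have := hz2 ⟨0, rfl⟩
    simpa [e] using this
  · have hx0 : 0 < x := by linarith
    obtain ⟨N, hN⟩ : ∃ N : ℕ, ⌊x⌋₊ = N + 1 :=
      ⟨⌊x⌋₊ - 1, by have := (Nat.one_le_floor_iff x).2 hx; omega⟩
    have h1 : d N ≤ z := hz1 ⟨N, rfl⟩
    have h2 : z ≤ e N := hz2 ⟨N, rfl⟩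
    have h3 : ((N + 1 : ℕ) : ℝ) ≤ x := by rw [← hN]; exact Nat.floor_le hx0.le
    have h4 : x < ((N + 1 : ℕ) : ℝ) + 1 := by rw [← hN]; exact Nat.lt_floor_add_one x
    have h5 : (1 : ℝ) ≤ ((N + 1 : ℕ) : ℝ) := by exact_mod_cast Nat.le_add_left 1 N
    have h6 : Sm (fun n => (n : ℝ) ^ (-b)) x = e N + ((N + 1 : ℕ) : ℝ) ^ (1 - b) / (1 - b) := by
      simp only [Sm, hN, e]
      ring
    have h7 : d N = e N - ((N + 1 : ℕ) : ℝ) ^ (-b) := rfl
    generalize ((N + 1 : ℕ) : ℝ) = y at h3 h4 h5 h6 h7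
    have hy0 : 0 < y := by linarith
    have h8 := si_conc hy0 hx0.le hp.le (by linarith : 1 - b ≤ 1)
    rw [hpb] at h8
    have h9 : y ^ (1 - b) ≤ x ^ (1 - b) := Real.rpow_le_rpow hy0.le h3 hp.le
    have h10 : 0 ≤ y ^ (-b) := by positivity
    have h11 : x ^ (1 - b) / (1 - b) ≤ y ^ (1 - b) / (1 - b) + y ^ (-b) := by
      rw [div_add' _ _ _ hp.ne', div_le_div_iff_of_pos_right hp]
      have : (1 - b) * y ^ (-b) * (x - y) ≤ (1 - b) * y ^ (-b) * 1 :=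
        mul_le_mul_of_nonneg_left (by linarith) (by positivity)
      linarith
    have h12 : y ^ (1 - b) / (1 - b) ≤ x ^ (1 - b) / (1 - b) := by gcongr
    have h13 : y ^ (-b) ≤ 2 * x ^ (-b) := by
      have k1 : y ^ (-b) ≤ (x / 2) ^ (-b) :=
        Real.rpow_le_rpow_of_nonpos (by positivity) (by linarith) (by linarith)
      have k2 : (x / 2) ^ (-b) = 2 ^ b * x ^ (-b) := by
        rw [Real.div_rpow hx0.le (by norm_num), Real.rpow_neg (by norm_num : (0 : ℝ) ≤ 2)]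
        field_simp
      have k3 : (2 : ℝ) ^ b ≤ 2 ^ (1 : ℝ) :=
        Real.rpow_le_rpow_of_exponent_le (by norm_num) hb1.le
      rw [Real.rpow_one] at k3
      have k4 : (2 : ℝ) ^ b * x ^ (-b) ≤ 2 * x ^ (-b) :=
        mul_le_mul_of_nonneg_right k3 (by positivity)
      linarith
    rw [h6, abs_le]
    constructor <;> linarith

lemma si_tail {f : ℕ → ℝ} {Q θ s : ℝ} (hθ : 0 < θ) (hθ' : θ ≤ 1 / 2)
    (hf : ∀ x : ℝ, 1 ≤ x → |Sm f x| ≤ Q * x ^ (1 - θ)) (hs0 : 1 - θ / 2 ≤ s) (hs1 : s ≤ 1)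
    (x : ℝ) (hx : 1 ≤ x) :
    |Sm (fun n => f n * (n : ℝ) ^ (-s)) x - Lv f s| ≤ (2 + 4 / θ) * Q * x ^ (-(θ / 2)) := by
  have hQ : 0 ≤ Q := by simpa using (abs_nonneg _).trans (hf 1 le_rfl)
  refine (abel_tail f Q (θ / 2) s 1 (by positivity) (by linarith) hs1 hQ le_rfl (1 - θ)
    (by linarith) hf x hx).trans ?_
  have h1 : 2 / (θ / 2) = 4 / θ := by field_simp; ring
  rw [h1]
  exact mul_le_mul_of_nonneg_left (Real.rpow_le_rpow_of_exponent_le hx (by linarith))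
    (by positivity)

lemma si_cont {f : ℕ → ℝ} {Q θ : ℝ} (hθ : 0 < θ) (hθ' : θ ≤ 1 / 2)
    (hf : ∀ x : ℝ, 1 ≤ x → |Sm f x| ≤ Q * x ^ (1 - θ)) :
    ContinuousOn (Lv f) (Set.Icc (1 - θ / 2) 1) := by
  have h1 : Tendsto (fun N : ℕ => (2 + 4 / θ) * Q * (N : ℝ) ^ (-(θ / 2))) atTop (𝓝 0) := by
    have := ((tendsto_rpow_neg_atTop (half_pos hθ)).comp
      tendsto_natCast_atTop_atTop).const_mul ((2 + 4 / θ) * Q)
    simpa using this
  have h2 : TendstoUniformlyOn (fun (N : ℕ) (s : ℝ) => Sm (fun n => f n * (n : ℝ) ^ (-s)) N)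
      (Lv f) atTop (Set.Icc (1 - θ / 2) 1) := by
    rw [Metric.tendstoUniformlyOn_iff]
    intro ε hε
    filter_upwards [h1.eventually (gt_mem_nhds hε), eventually_ge_atTop 1] with N hN hN1 s hs
    rw [dist_comm, Real.dist_eq]
    exact (si_tail hθ hθ' hf hs.1 hs.2 N (by exact_mod_cast hN1)).trans_lt hN
  refine h2.continuousOn (Frequently.of_forall fun N => ?_)
  refine Continuous.continuousOn (continuous_finsetSum _ fun n hn => ?_)
  have hn0 : (n : ℝ) ≠ 0 := by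
    have := (Finset.mem_Ioc.1 hn).1
    positivity
  exact continuous_const.mul ((Real.continuous_const_rpow hn0).comp continuous_neg)

lemma si_Z {a : ArithmeticFunction ℝ} {κ θ C : ℝ} (hκ : 0 < κ) (hθ : 0 < θ) (hθ' : θ ≤ 1 / 2)
    (S0 : ∀ x : ℝ, 1 ≤ x → |Sm a x - κ * x| ≤ C * x ^ (1 - θ)) :
    ∃ c M0 : ℝ, 0 ≤ c ∧ 0 ≤ M0 ∧ ∀ b : ℝ, 1 - θ / 2 ≤ b → b < 1 → ∃ Z : ℝ,
      Z ≤ c - κ / (1 - b) ∧ ∀ x : ℝ, 1 ≤ x →
        |Sm (siW a b) x - (κ * x ^ (1 - b) / (1 - b) + Z)| ≤ M0 * x ^ (-(θ / 2)) := by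
  have hC : 0 ≤ C := by simpa using (abs_nonneg _).trans (S0 1 le_rfl)
  have hf : ∀ x : ℝ, 1 ≤ x → |Sm (fun n => a n - κ) x| ≤ (C + κ) * x ^ (1 - θ) := by
    intro x hx
    have h1 : Sm (fun n => a n - κ) x = Sm a x - κ * ⌊x⌋₊ := by
      simp [Sm, Finset.sum_sub_distrib, mul_comm]
    have h2 := abs_le.1 (S0 x hx)
    have h3 : (⌊x⌋₊ : ℝ) ≤ x := Nat.floor_le (by linarith)
    have h4 := Nat.lt_floor_add_one x
    have h5 : 1 ≤ x ^ (1 - θ) := Real.one_le_rpow hx (by linarith)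
    rw [h1, abs_le]
    constructor <;> nlinarith [h2.1, h2.2]
  refine ⟨|a 1| + (2 + 4 / θ) * (C + κ), (2 + 4 / θ) * (C + κ) + 2 * κ, by positivity,
    by positivity, fun b hb0 hb1 => ?_⟩
  obtain ⟨z, hz, hz'⟩ := si_zeta b (by linarith) hb1
  have ht := si_tail hθ hθ' hf hb0 hb1.le
  refine ⟨κ * z + Lv (fun n => a n - κ) b, ?_, fun x hx => ?_⟩
  · have h1 := abs_le.1 (ht 1 le_rfl)
    simp only [Sm, Nat.floor_one, Nat.Ioc_succ_singleton, zero_add, Finset.sum_singleton,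
      Nat.cast_one, Real.one_rpow, mul_one] at h1
    have h2 : κ * z ≤ κ * (1 - 1 / (1 - b)) := mul_le_mul_of_nonneg_left hz hκ.le
    have h3 : κ * (1 - 1 / (1 - b)) = κ - κ / (1 - b) := by ring
    linarith [h1.1, le_abs_self (a 1)]
  · have h1 : Sm (siW a b) x = Sm (fun n => (a n - κ) * (n : ℝ) ^ (-b)) x +
        κ * Sm (fun n => (n : ℝ) ^ (-b)) x := by
      rw [Sm, Sm, Sm, Finset.mul_sum, ← Finset.sum_add_distrib]
      refine Finset.sum_congr rfl fun n _ => ?_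
      rw [si_W_apply]
      ring
    have h2 := abs_le.1 (ht x hx)
    have h3 := abs_le.1 ((hz' x hx).trans (mul_le_mul_of_nonneg_left
      (Real.rpow_le_rpow_of_exponent_le hx (show -b ≤ -(θ / 2) by linarith)) zero_le_two))
    have h4 := mul_le_mul_of_nonneg_left h3.1 hκ.le
    have h5 := mul_le_mul_of_nonneg_left h3.2 hκ.le
    have h6 : κ * x ^ (1 - b) / (1 - b) = κ * (x ^ (1 - b) / (1 - b)) := by ring
    rw [h1, h6, abs_le]
    constructor <;> linarith [h2.1, h2.2]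

lemma si_W_W (V : ArithmeticFunction ℝ) (b : ℝ) : siW (siW V b) (1 - b) = siW V 1 := by
  ext n
  rcases Nat.eq_zero_or_pos n with rfl | hn
  · simp
  · have h : (0 : ℝ) < n := by exact_mod_cast hn
    rw [si_W_apply, si_W_apply, si_W_apply, mul_assoc, ← Real.rpow_add h]
    ring_nf

lemma si_W_le {F : ArithmeticFunction ℝ} (hF : ∀ n, 0 ≤ F n) {s b : ℝ} (h : b ≤ s) (x : ℝ) :
    Sm (siW F s) x ≤ Sm (siW F b) x := by
  refine Finset.sum_le_sum fun n hn => ?_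
  have h1 : (1 : ℝ) ≤ n := by exact_mod_cast (Finset.mem_Ioc.1 hn).1
  exact mul_le_mul_of_nonneg_left (Real.rpow_le_rpow_of_exponent_le h1 (by linarith)) (hF n)

lemma si_one_le {F : ArithmeticFunction ℝ} (hF : ∀ n, 0 ≤ F n) (h1 : F 1 = 1) (s x : ℝ)
    (hx : 1 ≤ x) : 1 ≤ Sm (siW F s) x := by
  have h2 : siW F s 1 = 1 := by simp [si_W_apply, h1]
  rw [← h2]
  refine Finset.single_le_sum (f := fun n => siW F s n) (fun n _ => ?_) ?_
  · exact mul_nonneg (hF n) (by positivity)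
  · exact Finset.mem_Ioc.2 ⟨one_pos, (Nat.one_le_floor_iff x).2 hx⟩

lemma si_abs_tw {a : ArithmeticFunction ℝ} (ha : ∀ n, 0 ≤ a n) {g : ℕ → ℝ} (hg : ∀ n, |g n| ≤ 1)
    (s x : ℝ) : Sm (fun n => |siW (tw a g) s n|) x ≤ Sm (siW a s) x := by
  refine Finset.sum_le_sum fun n _ => ?_
  have h1 : 0 ≤ (n : ℝ) ^ (-s) := by positivity
  rw [si_W_apply, si_W_apply, tw_apply, abs_mul, abs_mul, abs_of_nonneg (ha n), abs_of_nonneg h1]
  exact mul_le_mul_of_nonneg_right (mul_le_of_le_one_right (ha n) (hg n)) h1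

lemma si_pack {a : ArithmeticFunction ℝ} {κ θ C : ℝ} (hκ : 0 < κ) (hθ : 0 < θ) (hθ' : θ ≤ 1 / 2)
    (ha : ∀ n, 0 ≤ a n) (S0 : ∀ x : ℝ, 1 ≤ x → |Sm a x - κ * x| ≤ C * x ^ (1 - θ)) :
    ∃ c : ℝ, 0 ≤ c ∧ ∀ ε : ℝ, 0 < ε → ε ≤ θ / 512 → ∃ N : ℝ, 0 ≤ N ∧
      (∀ s, 1 - ε ≤ s → ∀ x : ℝ, 1 ≤ x → Sm (siW a s) x ≤ N * x ^ ε) ∧
      ∀ b, 1 - ε ≤ b → b < 1 → ∃ Z k : ℝ, 0 ≤ k ∧ Z ≤ c - κ / (1 - b) ∧
        ∀ (V : ArithmeticFunction ℝ) (D : ℝ → ℝ) (M : ℝ),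
          (∀ s ∈ Set.Icc (1 - ε) 1, SiGd (siW V s) (D s) M (θ / 32) (4 * ε)) →
          ∀ x : ℝ, 1 ≤ x → |Sm (siW (a * V) b) x - (κ * x ^ (1 - b) / (1 - b) * D 1 + Z * D b)| ≤
            k * M * x ^ (-(θ / 128)) := by
  obtain ⟨c, M0, hc, hM0, hZ⟩ := si_Z hκ hθ hθ' S0
  refine ⟨c, hc, fun ε hε hε' => ?_⟩
  obtain ⟨Z0, -, hZ0⟩ := hZ (1 - ε) (by linarith) (by linarith)
  have hN : ∀ s, 1 - ε ≤ s → ∀ x : ℝ, 1 ≤ x →
      Sm (siW a s) x ≤ (κ / ε + |Z0| + M0) * x ^ ε := by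
    intro s hs x hx
    refine (si_W_le ha hs x).trans ?_
    have h1 := (abs_le.1 (hZ0 x hx)).2
    rw [sub_sub_cancel] at h1
    have h2 : 1 ≤ x ^ ε := Real.one_le_rpow hx hε.le
    have h3 : x ^ (-(θ / 2)) ≤ x ^ ε := Real.rpow_le_rpow_of_exponent_le hx (by linarith)
    have h4 := mul_le_mul_of_nonneg_left h3 hM0
    have h5 := mul_le_mul_of_nonneg_left h2 (abs_nonneg Z0)
    have h6 : κ * x ^ ε / ε = κ / ε * x ^ ε := by ring
    linarith [le_abs_self Z0]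
  have hN0 : 0 ≤ κ / ε + |Z0| + M0 := by positivity
  refine ⟨_, hN0, hN, fun b hb0 hb1 => ?_⟩
  obtain ⟨Z, hZ1, hZ2⟩ := hZ b (by linarith) hb1
  have hp : 0 < 1 - b := by linarith
  refine ⟨Z, κ / (1 - b) + |Z| + 3 * (κ / ε + |Z0| + M0), by positivity, hZ1,
    fun V D M hV x hx => ?_⟩
  have h := si_E (u := siW a b) (V := siW V b) (κ := κ) (p := 1 - b) (Z := Z)
    (M0 := κ / ε + |Z0| + M0) (M := M) (D := D b) (D' := D 1) (η := θ / 32) (γ := 4 * ε) hκ.le hp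
    (by linarith) (by linarith) hN0 ?_ ?_ (hV b ⟨hb0, hb1.le⟩)
    (by rw [si_W_W]; exact hV 1 ⟨by linarith, le_rfl⟩) x hx
  · rw [si_W_mul]
    have h1 : θ / 32 / 4 = θ / 128 := by ring
    rw [h1] at h
    exact h
  · intro t ht
    refine (hZ2 t ht).trans (mul_le_mul ?_
      (Real.rpow_le_rpow_of_exponent_le ht (by linarith)) (by positivity) hN0)
    have : 0 ≤ κ / ε + |Z0| := by positivity
    linarith
  · intro t ht
    have h1 : Sm (fun n => |siW a b n|) t = Sm (siW a b) t :=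
      Finset.sum_congr rfl fun n _ => abs_of_nonneg (mul_nonneg (ha n) (by positivity))
    rw [h1]
    exact (hN b hb0 t ht).trans (mul_le_mul_of_nonneg_left
      (Real.rpow_le_rpow_of_exponent_le ht (by linarith)) hN0)

lemma si_lim {S : ℝ → ℝ} {w K ρ : ℝ} (hρ : 0 < ρ)
    (h : ∀ x : ℝ, 1 ≤ x → |S x - w| ≤ K * x ^ (-ρ)) : Tendsto S atTop (𝓝 w) := by
  have h1 : Tendsto (fun x : ℝ => K * x ^ (-ρ)) atTop (𝓝 0) := by
    simpa using (tendsto_rpow_neg_atTop hρ).const_mul K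
  rw [tendsto_iff_dist_tendsto_zero]
  refine squeeze_zero' (Eventually.of_forall fun _ => dist_nonneg) ?_ h1
  filter_upwards [eventually_ge_atTop 1] with x hx
  rw [Real.dist_eq]
  exact h x hx

lemma si_nonneg {κ p D w K ρ : ℝ} (hκ : 0 < κ) (hp : 0 < p) (hρ : 0 ≤ ρ) (hK : 0 ≤ K)
    (h : ∀ x : ℝ, 1 ≤ x → 1 ≤ κ * x ^ p / p * D + w + K * x ^ (-ρ)) : 0 ≤ D := by
  by_contra hD
  push Not at hD
  have h1 : Tendsto (fun x : ℝ => κ / p * -D * x ^ p) atTop atTop :=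
    (tendsto_rpow_atTop hp).const_mul_atTop (mul_pos (by positivity) (by linarith))
  obtain ⟨x, hx1, hx2⟩ := ((h1.eventually (eventually_ge_atTop (w + K))).and
    (eventually_ge_atTop 1)).exists
  have h2 := h x hx2
  have h3 : x ^ (-ρ) ≤ 1 := Real.rpow_le_one_of_one_le_of_nonpos hx2 (by linarith)
  have h4 := mul_le_mul_of_nonneg_left h3 hK
  have h5 : κ * x ^ p / p * D = -(κ / p * -D * x ^ p) := by ring
  linarith

lemma si_big {bad : Set ℕ} (hinf : bad.Infinite) {τ : ℝ} (hτ : 0 < τ) (c1 c2 : ℝ) (l1 : ℕ) :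
    ∃ l ∈ bad, 1 ≤ l ∧ l ≠ l1 ∧ c1 * (l : ℝ) ^ (-τ) < 1 / 4 ∧ c2 * (l : ℝ) ^ (-1 : ℝ) < 1 / 4 := by
  have h : ∀ t : ℝ, 0 < t → ∀ c : ℝ, ∀ᶠ l : ℕ in atTop, c * (l : ℝ) ^ (-t) < 1 / 4 := by
    intro t ht c
    have h1 : Tendsto (fun l : ℕ => c * (l : ℝ) ^ (-t)) atTop (𝓝 0) := by
      simpa using ((tendsto_rpow_neg_atTop ht).comp tendsto_natCast_atTop_atTop).const_mul c
    exact h1.eventually (gt_mem_nhds (by norm_num))
  obtain ⟨l, hl, ⟨h1, h2⟩, h3⟩ := ((Nat.frequently_atTop_iff_infinite.2 hinf).and_eventually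
    (((h τ hτ c1).and (h 1 one_pos c2)).and (eventually_gt_atTop l1))).exists
  exact ⟨l, hl, by omega, by omega, h1, h2⟩

lemma si_choose {l θ δ ε : ℝ} (hl : 1 ≤ l) (hθ : 0 < θ) (hε' : ε ≤ δ * θ / 1536) :
    ∃ x : ℝ, 1 ≤ x ∧ l ^ (-δ) * (x ^ ε * x ^ ε) ≤ l ^ (-(δ / 2)) ∧
      l * l * x ^ (-(θ / 128)) = l ^ (-1 : ℝ) := by
  have hl0 : 0 < l := by linarith
  refine ⟨l ^ (384 / θ), Real.one_le_rpow hl (by positivity), ?_, ?_⟩
  · rw [← Real.rpow_mul hl0.le, ← Real.rpow_add hl0, ← Real.rpow_add hl0]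
    refine Real.rpow_le_rpow_of_exponent_le hl ?_
    have h1 : 384 / θ * ε ≤ 384 / θ * (δ * θ / 1536) :=
      mul_le_mul_of_nonneg_left hε' (by positivity)
    have h2 : 384 / θ * (δ * θ / 1536) = δ / 4 := by field_simp; ring
    linarith
  · rw [← Real.rpow_mul hl0.le]
    have h1 : 384 / θ * -(θ / 128) = -1 - 1 - 1 := by field_simp; ring
    rw [h1, Real.rpow_sub_one hl0.ne', Real.rpow_sub_one hl0.ne']
    field_simp

theorem siegel (a : ArithmeticFunction ℝ) (κ θ C δ : ℝ) (hκ : 0 < κ) (hθ : 0 < θ)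
    (hθ' : θ ≤ 1 / 2) (hδ : 0 < δ) (χ : ℕ → ℕ → ℝ) (bad : Set ℕ) (hinf : bad.Infinite)
    (ha : ∀ n, 0 ≤ a n) (ha1 : a 1 = 1) (hχ : ∀ l n, |χ l n| ≤ 1) (hχ1 : ∀ l, χ l 1 = 1)
    (S0 : ∀ x : ℝ, 1 ≤ x → |Sm a x - κ * x| ≤ C * x ^ (1 - θ))
    (S1 : ∀ l ∈ bad, ∀ x : ℝ, 1 ≤ x → |Sm (tw a (χ l)) x| ≤ C * l * x ^ (1 - θ))
    (S1' : ∀ l ∈ bad, ∀ l' ∈ bad, l ≠ l' → ∀ x : ℝ, 1 ≤ x →
      |Sm (tw a fun n => χ l n * χ l' n) x| ≤ C * (l * l') * x ^ (1 - θ))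
    (P2 : ∀ l ∈ bad, ∀ n, 0 ≤ (a * tw a (χ l)) n)
    (P4 : ∀ l ∈ bad, ∀ l' ∈ bad, ∀ n,
      0 ≤ (a * (tw a (χ l) * tw a (χ l') * tw a fun n => χ l n * χ l' n)) n)
    (small : ∀ l ∈ bad, Lv (tw a (χ l)) 1 ≤ C * (l : ℝ) ^ (-δ)) : False := by
  have hC : 0 ≤ C := by simpa using (abs_nonneg _).trans (S0 1 le_rfl)
  obtain ⟨c, hc, hpack⟩ := si_pack hκ hθ hθ' ha S0
  obtain ⟨ε, hε, hε1, hε2, hε3⟩ : ∃ ε : ℝ, 0 < ε ∧ ε ≤ θ / 512 ∧ ε ≤ δ * θ / 1536 ∧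
      ε ≤ κ / (c + 1) :=
    ⟨min (θ / 512) (min (δ * θ / 1536) (κ / (c + 1))), by positivity, min_le_left _ _,
      (min_le_right _ _).trans (min_le_left _ _), (min_le_right _ _).trans (min_le_right _ _)⟩
  obtain ⟨N, hN0, hN, hE⟩ := hpack ε hε hε1
  obtain ⟨A, hA⟩ : ∃ A : ℝ, A = (2 + 4 / θ) * C + N := ⟨_, rfl⟩
  have hA1 : 0 ≤ (2 + 4 / θ) * C := by positivity
  have hA0 : 0 ≤ A := by rw [hA]; positivity
  have hρ : 0 < θ / 128 := by positivity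
  have hsub : Set.Icc (1 - ε) 1 ⊆ Set.Icc (1 - θ / 2) 1 := Set.Icc_subset_Icc_left (by linarith)
  have hχ2 : ∀ l l' n, |χ l n * χ l' n| ≤ 1 := fun l l' n => by
    rw [abs_mul]
    exact mul_le_one₀ (hχ l n) (abs_nonneg _) (hχ l' n)
  -- good bounds for the twisted functions
  have gd : ∀ (g : ℕ → ℝ) (q : ℝ), (∀ n, |g n| ≤ 1) → 1 ≤ q →
      (∀ x : ℝ, 1 ≤ x → |Sm (tw a g) x| ≤ C * q * x ^ (1 - θ)) →
      ∀ s ∈ Set.Icc (1 - ε) 1, SiGd (siW (tw a g) s) (Lv (tw a g) s) (A * q) (θ / 2) ε := by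
    intro g q hg hq hS s hs
    refine ⟨fun x hx => (si_tail hθ hθ' hS (hsub hs).1 hs.2 x hx).trans ?_, fun x hx =>
      ((si_abs_tw ha hg s x).trans (hN s hs.1 x hx)).trans ?_⟩
    · refine mul_le_mul_of_nonneg_right ?_ (by positivity)
      rw [hA]
      nlinarith
    · refine mul_le_mul_of_nonneg_right ?_ (by positivity)
      rw [hA]
      nlinarith
  have G1 : ∀ l ∈ bad, 1 ≤ l → ∀ s ∈ Set.Icc (1 - ε) 1,
      SiGd (siW (tw a (χ l)) s) (Lv (tw a (χ l)) s) (A * l) (θ / 2) ε :=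
    fun l hl h1 => gd _ _ (hχ l) (by exact_mod_cast h1) (S1 l hl)
  have G1' : ∀ l ∈ bad, 1 ≤ l → ∀ s ∈ Set.Icc (1 - ε) 1,
      SiGd (siW (tw a (χ l)) s) (Lv (tw a (χ l)) s) (A * l) (θ / 32) (4 * ε) :=
    fun l hl h1 s hs => (G1 l hl h1 s hs).mono le_rfl (by linarith) (by linarith)
  have G2 : ∀ l ∈ bad, 1 ≤ l → ∀ l' ∈ bad, 1 ≤ l' → l ≠ l' → ∀ s ∈ Set.Icc (1 - ε) 1,
      SiGd (siW (tw a fun n => χ l n * χ l' n) s) (Lv (tw a fun n => χ l n * χ l' n) s)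
        (A * (l * l')) (θ / 2) ε :=
    fun l hl h1 l' hl' h1' hne => gd _ _ (hχ2 l l')
      (one_le_mul_of_one_le_of_one_le (by exact_mod_cast h1) (by exact_mod_cast h1'))
      (S1' l hl l' hl' hne)
  have G3 : ∀ l ∈ bad, 1 ≤ l → ∀ l' ∈ bad, 1 ≤ l' → l ≠ l' → ∀ s ∈ Set.Icc (1 - ε) 1,
      SiGd (siW (tw a (χ l) * tw a (χ l') * tw a fun n => χ l n * χ l' n) s)
        (Lv (tw a (χ l)) s * Lv (tw a (χ l')) s * Lv (tw a fun n => χ l n * χ l' n) s)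
        (3 * (3 * (A * l * (A * l')) * (A * (l * l')))) (θ / 32) (4 * ε) := by
    intro l hl h1 l' hl' h1' hne s hs
    rw [si_W_mul, si_W_mul]
    exact (((G1 l hl h1 s hs).mul (G1 l' hl' h1' s hs) hε.le (by linarith)).mul
      ((G2 l hl h1 l' hl' h1' hne s hs).mono le_rfl (by linarith) (by linarith)) (by linarith)
      (by linarith)).mono le_rfl (by linarith) (by linarith)
  have one2 : ∀ l ∈ bad, ∀ s x : ℝ, 1 ≤ x → 1 ≤ Sm (siW (a * tw a (χ l)) s) x :=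
    fun l hl s x hx => si_one_le (P2 l hl)
      (by simp [ha1, hχ1]) s x hx
  have one4 : ∀ l ∈ bad, ∀ l' ∈ bad, ∀ s x : ℝ, 1 ≤ x →
      1 ≤ Sm (siW (a * (tw a (χ l) * tw a (χ l') * tw a fun n => χ l n * χ l' n)) s) x :=
    fun l hl l' hl' s x hx => si_one_le (P4 l hl l' hl')
      (by simp [ha1, hχ1]) s x hx
  obtain ⟨Z0, k0, hk0, hZ0, hE0⟩ := hE (1 - ε) le_rfl (by linarith)
  rw [sub_sub_cancel] at hZ0 hE0
  have hZ0' : Z0 ≤ 0 := by
    have : c + 1 ≤ κ / ε := by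
      rw [le_div_iff₀ hε]
      rw [le_div_iff₀ (by positivity)] at hε3
      linarith
    linarith
  have E2 : ∀ l ∈ bad, 1 ≤ l → ∀ x : ℝ, 1 ≤ x → 1 ≤ κ * x ^ ε / ε * Lv (tw a (χ l)) 1 +
      Z0 * Lv (tw a (χ l)) (1 - ε) + k0 * (A * l) * x ^ (-(θ / 128)) := by
    intro l hl h1 x hx
    have h2 := (abs_le.1 (hE0 _ _ _ (G1' l hl h1) x hx)).2
    linarith [one2 l hl (1 - ε) x hx]
  have pos : ∀ l ∈ bad, 1 ≤ l → 0 ≤ Lv (tw a (χ l)) 1 := fun l hl h1 =>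
    si_nonneg hκ hε hρ.le (by positivity) (E2 l hl h1)
  -- a modulus with negative value at `1 - ε`
  obtain ⟨l1, hl1, h11, hneg⟩ : ∃ l ∈ bad, 1 ≤ l ∧ Lv (tw a (χ l)) (1 - ε) < 0 := by
    obtain ⟨l, hl, h1, -, h2, h3⟩ := si_big hinf (half_pos hδ) (κ / ε * C) (k0 * A) 0
    have hl1 : (1 : ℝ) ≤ l := by exact_mod_cast h1
    refine ⟨l, hl, h1, ?_⟩
    obtain ⟨x, hx, hx1, hx2⟩ := si_choose hl1 hθ hε2
    have h4 := E2 l hl h1 x hx
    have h5 : 1 ≤ x ^ ε := Real.one_le_rpow hx hε.le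
    have h6 : κ * x ^ ε / ε * Lv (tw a (χ l)) 1 ≤ κ / ε * C * (l : ℝ) ^ (-(δ / 2)) :=
      calc _ ≤ κ * x ^ ε / ε * (C * (l : ℝ) ^ (-δ)) :=
            mul_le_mul_of_nonneg_left (small l hl) (by positivity)
        _ = κ / ε * C * ((l : ℝ) ^ (-δ) * (x ^ ε * 1)) := by ring
        _ ≤ κ / ε * C * ((l : ℝ) ^ (-δ) * (x ^ ε * x ^ ε)) := by gcongr
        _ ≤ _ := mul_le_mul_of_nonneg_left hx1 (by positivity)
    have h7 : k0 * (A * l) * x ^ (-(θ / 128)) ≤ k0 * A * (l : ℝ) ^ (-1 : ℝ) :=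
      calc _ = k0 * A * (l * 1 * x ^ (-(θ / 128))) := by ring
        _ ≤ k0 * A * (l * l * x ^ (-(θ / 128))) := by gcongr
        _ = _ := by rw [hx2]
    by_contra h8
    push Not at h8
    have h9 := mul_nonpos_of_nonpos_of_nonneg hZ0' h8
    linarith
  have hc1 : ContinuousOn (Lv (tw a (χ l1))) (Set.Icc (1 - ε) 1) :=
    (si_cont hθ hθ' (S1 l1 hl1)).mono hsub
  -- the key inequality
  obtain ⟨c1, c2, hc1', hc2', key⟩ : ∃ c1 c2 : ℝ, 0 ≤ c1 ∧ 0 ≤ c2 ∧ ∀ l ∈ bad, 1 ≤ l → l ≠ l1 →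
      ∀ x : ℝ, 1 ≤ x → 1 ≤ c1 * (Lv (tw a (χ l)) 1 *
        |Lv (tw a fun n => χ l1 n * χ l n) 1| * x ^ ε) + c2 * (l * l * x ^ (-(θ / 128))) := by
    rcases (pos l1 hl1 h11).eq_or_lt with h0 | h0
    · refine ⟨|Z0 * Lv (tw a (χ l1)) (1 - ε)|, 0, abs_nonneg _, le_rfl, fun l hl h1 hne x hx => ?_⟩
      have hT0 : Tendsto (Sm (siW (a * tw a (χ l1)) (1 - ε))) atTop
          (𝓝 (Z0 * Lv (tw a (χ l1)) (1 - ε))) := by
        refine si_lim (K := k0 * (A * l1)) hρ fun t ht => ?_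
        have := hE0 _ _ _ (G1' l1 hl1 h11) t ht
        rwa [← h0, mul_zero, zero_add] at this
      have hb : ∀ b ∈ Set.Ico (1 - ε) 1, (1 : ℝ) ≤ |Z0 * Lv (tw a (χ l1)) (1 - ε)| *
          |Lv (tw a (χ l)) b * Lv (tw a fun n => χ l1 n * χ l n) b| := by
        intro b hb
        obtain ⟨Z, k, -, -, hEb⟩ := hE b hb.1 hb.2
        have hT1 : Tendsto (Sm (siW (a * tw a (χ l1)) b)) atTop
            (𝓝 (Z * Lv (tw a (χ l1)) b)) := by
          refine si_lim (K := k * (A * l1)) hρ fun t ht => ?_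
          have := hEb _ _ _ (G1' l1 hl1 h11) t ht
          rwa [← h0, mul_zero, zero_add] at this
        have hT2 := si_lim hρ fun t ht => by
          have := hEb _ _ _ (G3 l1 hl1 h11 l hl h1 hne.symm) t ht
          rwa [← h0, zero_mul, zero_mul, mul_zero, zero_add] at this
        have k1 : 1 ≤ Z * Lv (tw a (χ l1)) b :=
          ge_of_tendsto hT1 ((eventually_ge_atTop 1).mono fun t ht => one2 l1 hl1 b t ht)
        have k2 : Z * Lv (tw a (χ l1)) b ≤ Z0 * Lv (tw a (χ l1)) (1 - ε) :=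
          le_of_tendsto_of_tendsto' hT1 hT0 fun t => si_W_le (P2 l1 hl1) hb.1 t
        have k3 := ge_of_tendsto hT2
          ((eventually_ge_atTop 1).mono fun t ht => one4 l1 hl1 l hl b t ht)
        calc (1 : ℝ) ≤ _ := k3
          _ = Z * Lv (tw a (χ l1)) b *
              (Lv (tw a (χ l)) b * Lv (tw a fun n => χ l1 n * χ l n) b) := by ring
          _ ≤ Z * Lv (tw a (χ l1)) b *
              |Lv (tw a (χ l)) b * Lv (tw a fun n => χ l1 n * χ l n) b| :=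
            mul_le_mul_of_nonneg_left (le_abs_self _) (by linarith)
          _ ≤ _ := mul_le_mul_of_nonneg_right (k2.trans (le_abs_self _)) (abs_nonneg _)
      have hcl : closure (Set.Ico (1 - ε) 1) = Set.Icc (1 - ε) 1 := closure_Ico (by linarith)
      have hlim := le_on_closure hb continuousOn_const (by
        rw [hcl]
        exact continuousOn_const.mul ((((si_cont hθ hθ' (S1 l hl)).mono hsub).mul
          ((si_cont hθ hθ' (S1' l1 hl1 l hl hne.symm)).mono hsub)).abs))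
        (show (1 : ℝ) ∈ _ by rw [hcl]; exact ⟨by linarith, le_rfl⟩)
      rw [abs_mul (Lv (tw a (χ l)) 1), abs_of_nonneg (pos l hl h1)] at hlim
      have h5 : 1 ≤ x ^ ε := Real.one_le_rpow hx hε.le
      rw [zero_mul, add_zero]
      refine hlim.trans (mul_le_mul_of_nonneg_left ?_ (abs_nonneg _))
      exact le_mul_of_one_le_right (mul_nonneg (pos l hl h1) (abs_nonneg _)) h5
    · obtain ⟨b, hb, hb0⟩ := intermediate_value_Ico (by linarith : 1 - ε ≤ 1) hc1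
        (show (0 : ℝ) ∈ _ from ⟨hneg.le, h0⟩)
      obtain ⟨Z, k, hk, -, hEb⟩ := hE b hb.1 hb.2
      have hp : 0 < 1 - b := by linarith [hb.2]
      refine ⟨κ / (1 - b) * Lv (tw a (χ l1)) 1, k * (9 * A ^ 3 * (l1 : ℝ) ^ 2), by positivity,
        by positivity, fun l hl h1 hne x hx => ?_⟩
      have h2 := (abs_le.1 (hEb _ _ _ (G3 l1 hl1 h11 l hl h1 hne.symm) x hx)).2
      rw [hb0, zero_mul, zero_mul, mul_zero, add_zero] at h2
      have h3 := one4 l1 hl1 l hl b x hx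
      have h4 : x ^ (1 - b) ≤ x ^ ε := Real.rpow_le_rpow_of_exponent_le hx (by linarith [hb.1])
      have h5 := pos l hl h1
      have h6 : κ * x ^ (1 - b) / (1 - b) * (Lv (tw a (χ l1)) 1 * Lv (tw a (χ l)) 1 *
          Lv (tw a fun n => χ l1 n * χ l n) 1) ≤ κ / (1 - b) * Lv (tw a (χ l1)) 1 *
          (Lv (tw a (χ l)) 1 * |Lv (tw a fun n => χ l1 n * χ l n) 1| * x ^ ε) :=
        calc _ = κ / (1 - b) * Lv (tw a (χ l1)) 1 *
              (Lv (tw a (χ l)) 1 * Lv (tw a fun n => χ l1 n * χ l n) 1 * x ^ (1 - b)) := by ring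
          _ ≤ _ := by
            refine mul_le_mul_of_nonneg_left ?_ (by positivity)
            exact mul_le_mul (mul_le_mul_of_nonneg_left (le_abs_self _) h5) h4 (by positivity)
              (by positivity)
      linarith
  -- conclusion
  obtain ⟨l, hl, h1, hne, h2, h3⟩ := si_big hinf (half_pos hδ) (c1 * (C * (N + A * l1))) c2 l1
  have hl1' : (1 : ℝ) ≤ l := by exact_mod_cast h1
  obtain ⟨x, hx, hx1, hx2⟩ := si_choose hl1' hθ hε2
  have h4 := key l hl h1 hne x hx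
  have h5 : 1 ≤ x ^ ε := Real.one_le_rpow hx hε.le
  have h6 : |Lv (tw a fun n => χ l1 n * χ l n) 1| ≤ (N + A * l1) * x ^ ε := by
    have k1 := (G2 l1 hl1 h11 l hl h1 hne.symm 1 ⟨by linarith, le_rfl⟩).asy x hx
    have k2 := ((si_abs_Sm _ x).trans (si_abs_tw ha (hχ2 l1 l) 1 x)).trans
      (hN 1 (by linarith) x hx)
    have k3 : x ^ (-(θ / 2)) ≤ x ^ (-(θ / 128)) :=
      Real.rpow_le_rpow_of_exponent_le hx (by linarith)
    have k4 : (l : ℝ) ^ (-1 : ℝ) ≤ 1 := Real.rpow_le_one_of_one_le_of_nonpos hl1' (by norm_num)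
    have k5 : A * (l1 * l) * x ^ (-(θ / 2)) ≤ A * l1 * x ^ ε :=
      calc _ = A * l1 * (l * 1 * x ^ (-(θ / 2))) := by ring
        _ ≤ A * l1 * (l * l * x ^ (-(θ / 128))) := by gcongr
        _ ≤ _ := by
          rw [hx2]
          exact mul_le_mul_of_nonneg_left (k4.trans h5) (by positivity)
    have k6 := abs_le.1 (k1.trans k5)
    have k7 := abs_le.1 k2
    rw [abs_le]
    constructor <;> linarith [k6.1, k6.2, k7.1, k7.2]
  have h7 : c1 * (Lv (tw a (χ l)) 1 * |Lv (tw a fun n => χ l1 n * χ l n) 1| * x ^ ε) ≤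
      c1 * (C * (N + A * l1)) * (l : ℝ) ^ (-(δ / 2)) :=
    calc _ ≤ c1 * (C * (l : ℝ) ^ (-δ) * ((N + A * l1) * x ^ ε) * x ^ ε) := by
          refine mul_le_mul_of_nonneg_left (mul_le_mul_of_nonneg_right ?_ (by positivity)) hc1'
          exact mul_le_mul (small l hl) h6 (abs_nonneg _) (by positivity)
      _ = c1 * (C * (N + A * l1)) * ((l : ℝ) ^ (-δ) * (x ^ ε * x ^ ε)) := by ring
      _ ≤ _ := mul_le_mul_of_nonneg_left hx1 (by positivity)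
  rw [hx2] at h4
  linarith

end Pool.Agent.Lib.MP_e97e2b_nt
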