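import Mathlib

/- Common definitions for the analytic part. -/

namespace Pool.Agent.Lib.MP_e97e2b_nt

open NumberField

/-- The Jacobi symbol `(n / M)` as a real number. -/
noncomputable def chi (M : ℕ) (n : ℤ) : ℝ := (jacobiSym n M : ℝ)

/-- Admissible moduli: a prime above `l0`, or a product of two distinct primes above `l0`. -/
def Adm (l0 M : ℕ) : Prop :=
  (M.Prime ∧ l0 < M) ∨ ∃ p q : ℕ, p.Prime ∧ q.Prime ∧ p ≠ q ∧ l0 < p ∧ l0 < q ∧ M = p * q

/-- Number of ideals of norm `n` (zero for `n = 0`). -/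
noncomputable def cnt (K : Type) [Field K] [NumberField K] : ArithmeticFunction ℝ :=
  ⟨fun n => if n = 0 then 0 else (Nat.card {I : Ideal (𝓞 K) // Ideal.absNorm I = n} : ℝ), by simp⟩

/-- Twist of an arithmetic function by a function. -/
noncomputable def tw (a : ArithmeticFunction ℝ) (f : ℕ → ℝ) : ArithmeticFunction ℝ :=
  ⟨fun n => a n * f n, by simp⟩

/-- Summatory function. -/
noncomputable def Sm (f : ℕ → ℝ) (x : ℝ) : ℝ := ∑ n ∈ Finset.Ioc 0 ⌊x⌋₊, f n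

/-- Weighted lattice sum. -/
noncomputable def LS {ι : Type} (g : (ι → ℤ) → ℝ) (F : (ι → ℝ) → ℝ) (H : ℝ) : ℝ :=
  ∑' v : ι → ℤ, g v * F (fun i => (v i : ℝ) / H)

/-- Lipschitz weights supported in the sup-norm ball of radius `ρ`. -/
structure Wt {ι : Type} [Fintype ι] (ρ Λ : ℝ) (F : (ι → ℝ) → ℝ) : Prop where
  lip : ∀ x y, |F x - F y| ≤ Λ * ‖x - y‖
  bdd : ∀ x, |F x| ≤ 1
  supp : ∀ x, ρ < ‖x‖ → F x = 0

/-- Lipschitz bumps supported in `[1/4, 2]`. -/
structure Bump (Λ : ℝ) (U : ℝ → ℝ) : Prop where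
  lip : ∀ s t, |U s - U t| ≤ Λ * |s - t|
  bdd : ∀ t, |U t| ≤ 1
  lo : ∀ t, t < 1 / 4 → U t = 0
  hi : ∀ t, 2 < t → U t = 0

/-- `e` is a coordinate system for the nonzero ideal `c`. -/
structure Lat {K : Type} [Field K] [NumberField K] (c : Ideal (𝓞 K))
    (e : (Fin (Module.finrank ℚ K) → ℤ) →+ 𝓞 K) : Prop where
  ne : c ≠ ⊥
  inj : Function.Injective e
  mem : ∀ x, x ∈ c ↔ ∃ v, e v = x

/-- The residue ring modulo `M`. -/
abbrev RM (K : Type) [Field K] [NumberField K] (M : ℕ) : Type :=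
  𝓞 K ⧸ Ideal.span {(M : 𝓞 K)}

/-- The character `chi M ∘ norm` on the residue ring. -/
noncomputable def etaQ (K : Type) [Field K] [NumberField K] (M : ℕ) (x : RM K M) : ℝ :=
  chi M (Algebra.norm ℤ (Quotient.out x : 𝓞 K))

/-- The conclusion of the elliptic curve analysis at the prime `l`. -/
def Bad (K : Type) [Field K] [NumberField K] (l : ℕ) : Prop :=
  ∀ v : IsDedekindDomain.HeightOneSpectrum (𝓞 K), ((6 * l : ℕ) : 𝓞 K) ∉ v.asIdeal →
    jacobiSym (Ideal.absNorm v.asIdeal : ℕ) l = 1 →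
    ∃ a : ℤ, a ^ 2 ≤ 4 * (Ideal.absNorm v.asIdeal : ℕ) ∧
      (l : ℤ) ∣ a ^ 2 - 4 * (Ideal.absNorm v.asIdeal : ℕ)

@[simp] lemma tw_apply (a : ArithmeticFunction ℝ) (f : ℕ → ℝ) (n : ℕ) : tw a f n = a n * f n := rfl

lemma chi_mul (M : ℕ) (a b : ℤ) : chi M (a * b) = chi M a * chi M b := by
  simp [chi, jacobiSym.mul_left]

lemma chi_one (M : ℕ) : chi M 1 = 1 := by simp [chi]

lemma chi_cases (M : ℕ) (a : ℤ) : chi M a = 0 ∨ chi M a = 1 ∨ chi M a = -1 := by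
  rcases jacobiSym.trichotomy a M with h | h | h <;> simp [chi, h]

lemma abs_chi_le (M : ℕ) (a : ℤ) : |chi M a| ≤ 1 := by
  rcases chi_cases M a with h | h | h <;> simp [h]

lemma chi_mul_right (p q : ℕ) (hp : p ≠ 0) (hq : q ≠ 0) (a : ℤ) :
    chi (p * q) a = chi p a * chi q a := by
  simp [chi, jacobiSym.mul_right' a hp hq]

lemma cnt_nonneg (K : Type) [Field K] [NumberField K] (n : ℕ) : 0 ≤ cnt K n := by
  change 0 ≤ (if n = 0 then (0 : ℝ) else _)
  split_ifs <;> positivity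

end Pool.Agent.Lib.MP_e97e2b_nt
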