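import Pool.Agent.Lib.MP_e97e2b_nt.Euler1

/- Euler products: positivity and the Rankin bound. -/

namespace Pool.Agent.Lib.MP_e97e2b_nt

open NumberField ArithmeticFunction Finset IsDedekindDomain

variable (K : Type) [Field K] [NumberField K]

/-- The ideals of norm `n`. -/
noncomputable def eu_T (n : ℕ) : Finset (Ideal (𝓞 K)) :=
  (Ideal.finite_setOfPred_absNorm_eq (S := 𝓞 K) n).toFinset

lemma eu_mem_T {n : ℕ} {I : Ideal (𝓞 K)} : I ∈ eu_T K n ↔ Ideal.absNorm I = n := by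
  simp [eu_T]

lemma eu_cnt_apply {n : ℕ} (hn : n ≠ 0) : cnt K n = (eu_T K n).card := by
  change (if n = 0 then (0 : ℝ) else _) = _
  rw [if_neg hn, eu_T, ← Set.ncard_eq_toFinset_card _ (Ideal.finite_setOfPred_absNorm_eq n)]
  rfl

lemma cnt_one : cnt K 1 = 1 := by
  rw [eu_cnt_apply K one_ne_zero]
  have : eu_T K 1 = {⊤} := by
    ext I
    rw [eu_mem_T, Ideal.absNorm_eq_one_iff, mem_singleton]
  rw [this]
  simp

open Classical in
/-- Number of `S`-smooth ideals of norm `n`. -/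
noncomputable def eu_sm (S : Finset (HeightOneSpectrum (𝓞 K))) : ArithmeticFunction ℝ :=
  ⟨fun n => if n = 0 then 0 else
    (((eu_T K n).filter fun I => ∀ v : HeightOneSpectrum (𝓞 K), v.asIdeal ∣ I → v ∈ S).card : ℝ),
    by simp⟩

open Classical in
lemma eu_sm_apply (S : Finset (HeightOneSpectrum (𝓞 K))) {n : ℕ} (hn : n ≠ 0) :
    eu_sm K S n = (((eu_T K n).filter fun I =>
      ∀ v : HeightOneSpectrum (𝓞 K), v.asIdeal ∣ I → v ∈ S).card : ℝ) := by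
  change (if n = 0 then (0 : ℝ) else _) = _
  rw [if_neg hn]

lemma eu_one_lt (v : HeightOneSpectrum (𝓞 K)) : 1 < Ideal.absNorm v.asIdeal :=
  NumberField.HeightOneSpectrum.one_lt_absNorm v

lemma eu_sm_empty : eu_sm K ∅ = 1 := by
  classical
  ext n
  by_cases hn : n = 0
  · subst hn; simp
  rw [eu_sm_apply K _ hn, ArithmeticFunction.one_apply]
  by_cases h1 : n = 1
  · subst h1
    rw [if_pos rfl]
    have : ((eu_T K 1).filter fun I =>
        ∀ v : HeightOneSpectrum (𝓞 K), v.asIdeal ∣ I → v ∈ (∅ : Finset _)) = {⊤} := by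
      ext I
      rw [mem_filter, eu_mem_T, Ideal.absNorm_eq_one_iff, mem_singleton]
      refine ⟨fun h => h.1, fun h => ⟨h, fun v hv => ?_⟩⟩
      rw [h, Ideal.dvd_iff_le, top_le_iff] at hv
      exact absurd hv v.isPrime.ne_top
    rw [this]
    simp
  · rw [if_neg h1, Nat.cast_eq_zero, card_eq_zero, filter_eq_empty_iff]
    intro I hI h
    rw [eu_mem_T] at hI
    have hb : I ≠ ⊥ := fun e => hn (by rw [← hI, e, Ideal.absNorm_bot])
    have ht : I ≠ ⊤ := fun e => h1 (by rw [← hI, e, Ideal.absNorm_top])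
    obtain ⟨P, hP, hIP⟩ := Ideal.exists_le_maximal I ht
    have hPb : P ≠ ⊥ := fun e => hb (le_bot_iff.1 (e ▸ hIP))
    exact absurd (h ⟨P, hP.isPrime, hPb⟩ (Ideal.dvd_iff_le.2 hIP)) (notMem_empty _)

open Classical in
lemma eu_sm_insert (S : Finset (HeightOneSpectrum (𝓞 K))) (w : HeightOneSpectrum (𝓞 K))
    (hw : w ∉ S) : eu_sm K (insert w S) = eu_G (Ideal.absNorm w.asIdeal) 1 * eu_sm K S := by
  refine eu_solve (eu_one_lt K w) _ _ fun n => ?_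
  by_cases hn : n = 0
  · subst hn; simp
  have hq := eu_one_lt K w
  rw [eu_sm_apply K _ hn, eu_sm_apply K _ hn, ← card_filter_add_card_filter_not
    (fun I => ¬ w.asIdeal ∣ I), Nat.cast_add]
  refine congrArg₂ (· + ·) ?_ ?_
  · refine congrArg _ (congrArg _ ?_)
    ext I
    simp only [mem_filter, mem_insert]
    constructor
    · rintro ⟨⟨h1, h2⟩, h3⟩
      refine ⟨h1, fun v hv => (h2 v hv).resolve_left ?_⟩
      rintro rfl
      exact h3 hv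
    · rintro ⟨h1, h2⟩
      exact ⟨⟨h1, fun v hv => Or.inr (h2 v hv)⟩, fun h => hw (h2 w h)⟩
  · by_cases hd : Ideal.absNorm w.asIdeal ∣ n
    · obtain ⟨m, rfl⟩ := hd
      have hm : m ≠ 0 := fun e => hn (by rw [e, mul_zero])
      rw [if_pos (dvd_mul_right _ _), Nat.mul_div_cancel_left _ (by omega), eu_sm_apply K _ hm]
      refine congrArg _ (card_bij (fun J _ => w.asIdeal * J) ?_ ?_ ?_).symm
      · intro J hJ
        simp only [mem_filter, eu_mem_T, not_not] at hJ ⊢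
        refine ⟨⟨by rw [map_mul, hJ.1], fun v hv => ?_⟩, dvd_mul_right _ _⟩
        rcases v.prime.dvd_or_dvd hv with h | h
        · have : v = w := HeightOneSpectrum.ext
            (w.isMaximal.eq_of_le v.isPrime.ne_top (Ideal.dvd_iff_le.1 h)).symm
          rw [this]
          exact mem_insert_self _ _
        · exact hJ.2 v h
      · intro J _ J' _ e
        exact mul_left_cancel₀ w.ne_bot e
      · intro I hI
        simp only [mem_filter, eu_mem_T, not_not] at hI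
        obtain ⟨⟨h1, h2⟩, J, rfl⟩ := hI
        refine ⟨J, ?_, rfl⟩
        simp only [mem_filter, eu_mem_T]
        rw [map_mul] at h1
        exact ⟨Nat.eq_of_mul_eq_mul_left (by omega) h1, fun v hv => h2 v (hv.mul_left _)⟩
    · rw [if_neg hd, Nat.cast_eq_zero, card_eq_zero, filter_eq_empty_iff]
      intro I hI h
      rw [not_not] at h
      have h1 := (eu_mem_T K).1 (mem_filter.1 hI).1
      exact hd (h1 ▸ map_dvd Ideal.absNorm h)

lemma eu_sm_prod (S : Finset (HeightOneSpectrum (𝓞 K))) :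
    eu_sm K S = ∏ v ∈ S, eu_G (Ideal.absNorm v.asIdeal) 1 := by
  classical
  induction S using Finset.induction_on with
  | empty => simpa using eu_sm_empty K
  | insert w S hw ih =>
    rw [prod_insert hw, ← ih, ← eu_sm_insert K S w hw]

lemma eu_exists (N : ℕ) : ∃ S : Finset (HeightOneSpectrum (𝓞 K)),
    (∀ v ∈ S, Ideal.absNorm v.asIdeal ≤ N) ∧
      eu_Eq N (cnt K) (∏ v ∈ S, eu_G (Ideal.absNorm v.asIdeal) 1) := by
  classical
  have hf : {v : HeightOneSpectrum (𝓞 K) | Ideal.absNorm v.asIdeal ≤ N}.Finite :=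
    (Ideal.finite_setOfPred_absNorm_le (S := 𝓞 K) N).preimage
      (fun a _ b _ e => HeightOneSpectrum.ext e)
  refine ⟨hf.toFinset, fun v hv => by simpa using hv, fun n hn => ?_⟩
  rw [← eu_sm_prod]
  by_cases h0 : n = 0
  · subst h0; simp
  rw [eu_cnt_apply K h0, eu_sm_apply K _ h0, filter_true_of_mem]
  intro I hI v hv
  have h1 : Ideal.absNorm v.asIdeal ∣ n := (eu_mem_T K).1 hI ▸ map_dvd Ideal.absNorm hv
  simpa using (Nat.le_of_dvd (Nat.pos_of_ne_zero h0) h1).trans hn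

lemma eu_tw_cnt {χ : ℕ → ℝ} (h : eu_CM χ) {N : ℕ} {S : Finset (HeightOneSpectrum (𝓞 K))}
    (hS : eu_Eq N (cnt K) (∏ v ∈ S, eu_G (Ideal.absNorm v.asIdeal) 1)) :
    eu_Eq N (tw (cnt K) χ)
      (∏ v ∈ S, eu_G (Ideal.absNorm v.asIdeal) (χ (Ideal.absNorm v.asIdeal))) := by
  have := hS.tw χ
  rw [eu_tw_prod h] at this
  rwa [prod_congr rfl fun v _ => by rw [eu_tw_G h (eu_one_lt K v), one_mul]] at this

theorem pos2 (M : ℕ) (n : ℕ) : 0 ≤ (cnt K * tw (cnt K) fun n => chi M n) n := by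
  obtain ⟨S, -, hS⟩ := eu_exists K n
  rw [hS.mul (eu_tw_cnt K (eu_CM_chi M) hS) n le_rfl, ← prod_mul_distrib]
  refine eu_Pos_prod S _ (fun v _ => ?_) n
  rw [eu_G, eu_G, ← map_mul]
  exact eu_Pos_of (eu_one_lt K v) (eu_NN_one (chi_cases M _))

theorem pos4 (M M' : ℕ) (n : ℕ) :
    0 ≤ (cnt K * ((tw (cnt K) fun n => chi M n) * (tw (cnt K) fun n => chi M' n) *
      (tw (cnt K) fun n => chi M n * chi M' n))) n := by
  obtain ⟨S, -, hS⟩ := eu_exists K n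
  rw [hS.mul (((eu_tw_cnt K (eu_CM_chi M) hS).mul (eu_tw_cnt K (eu_CM_chi M') hS)).mul
    (eu_tw_cnt K ((eu_CM_chi M).mul' (eu_CM_chi M')) hS)) n le_rfl, ← prod_mul_distrib,
    ← prod_mul_distrib, ← prod_mul_distrib]
  refine eu_Pos_prod S _ (fun v _ => ?_) n
  rw [eu_G, eu_G, eu_G, eu_G, ← map_mul, ← map_mul, ← map_mul]
  exact eu_Pos_of (eu_one_lt K v) (eu_NN_four (chi_cases M _) (chi_cases M' _))

lemma eu_mem_of_dvd {p : ℕ} (hp : p.Prime) (v : HeightOneSpectrum (𝓞 K))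
    (h : p ∣ Ideal.absNorm v.asIdeal) : (p : 𝓞 K) ∈ v.asIdeal := by
  obtain ⟨P, hP, hu, hd⟩ := Ideal.exists_isMaximal_dvd_of_dvd_absNorm' hp v.asIdeal h
  have e : v.asIdeal = P := v.isMaximal.eq_of_le hP.ne_top (Ideal.dvd_iff_le.1 hd)
  have h1 : (p : ℤ) ∈ P.under ℤ := by
    rw [hu]
    exact Ideal.mem_span_singleton_self _
  rw [e]
  simpa [Ideal.under, Ideal.mem_comap] using h1

lemma eu_card_le {p : ℕ} (hp : p.Prime) (T : Finset (HeightOneSpectrum (𝓞 K)))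
    (hT : ∀ v ∈ T, (p : 𝓞 K) ∈ v.asIdeal) : T.card ≤ Module.finrank ℚ K := by
  have hd : ∀ v ∈ T, v.asIdeal ∣ Ideal.span {(p : 𝓞 K)} := fun v hv =>
    Ideal.dvd_iff_le.2 ((Ideal.span_singleton_le_iff_mem _).2 (hT v hv))
  have h1 : ∏ v ∈ T, v.asIdeal ∣ Ideal.span {(p : 𝓞 K)} :=
    Finset.prod_dvd_of_coprime (fun a _ b _ hab => a.isCoprime_of_ne b hab) hd
  have h2 := map_dvd Ideal.absNorm h1
  rw [map_prod, Ideal.absNorm_span_natCast, RingOfIntegers.rank] at h2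
  have h3 : p ^ T.card ≤ ∏ v ∈ T, Ideal.absNorm v.asIdeal := by
    refine Finset.pow_card_le_prod T _ p fun v hv => ?_
    have h4 := map_dvd Ideal.absNorm (hd v hv)
    rw [Ideal.absNorm_span_natCast] at h4
    obtain ⟨k, -, hk⟩ := (Nat.dvd_prime_pow hp).1 h4
    have h5 := eu_one_lt K v
    rw [hk] at h5 ⊢
    exact Nat.le_self_pow (fun e => by simp [e] at h5) p
  exact (Nat.pow_le_pow_iff_right hp.one_lt).1
    (h3.trans (Nat.le_of_dvd (pow_pos hp.pos _) h2))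

lemma eu_sum_norm (S : Finset (HeightOneSpectrum (𝓞 K))) (N : ℕ)
    (hS : ∀ v ∈ S, Ideal.absNorm v.asIdeal ≤ N) (h : ℕ → ℝ) (h0 : ∀ n, 0 ≤ h n) :
    ∑ v ∈ S, h (Ideal.absNorm v.asIdeal) ≤ Module.finrank ℚ K * ∑ n ∈ Ioc 0 N, h n := by
  classical
  rw [← sum_fiberwise_of_maps_to (g := fun v : HeightOneSpectrum (𝓞 K) =>
    Ideal.absNorm v.asIdeal) (t := Ioc 0 N)
    (fun v hv => mem_Ioc.2 ⟨by have := eu_one_lt K v; omega, hS v hv⟩), mul_sum]
  refine sum_le_sum fun n _ => ?_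
  rw [sum_congr rfl (g := fun _ => h n) fun v hv => by rw [(mem_filter.1 hv).2], sum_const,
    nsmul_eq_mul]
  refine mul_le_mul_of_nonneg_right ?_ (h0 n)
  by_cases h1 : n = 1
  · rw [filter_false_of_mem]
    · simp
    · intro v _ e
      have := eu_one_lt K v
      omega
  · exact_mod_cast eu_card_le K (Nat.minFac_prime h1)
      (S.filter fun v => Ideal.absNorm v.asIdeal = n) fun v hv =>
      eu_mem_of_dvd K (Nat.minFac_prime h1) v ((mem_filter.1 hv).2 ▸ Nat.minFac_dvd n)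

open Classical in
lemma eu_card_bad {l : ℕ} (hl : l.Prime) (S : Finset (HeightOneSpectrum (𝓞 K))) :
    (S.filter fun v => ((6 * l : ℕ) : 𝓞 K) ∈ v.asIdeal).card ≤ 3 * Module.finrank ℚ K := by
  have hsub : (S.filter fun v => ((6 * l : ℕ) : 𝓞 K) ∈ v.asIdeal) ⊆
      (S.filter fun v => ((2 : ℕ) : 𝓞 K) ∈ v.asIdeal) ∪
        (S.filter fun v => ((3 : ℕ) : 𝓞 K) ∈ v.asIdeal) ∪
          (S.filter fun v => (l : 𝓞 K) ∈ v.asIdeal) := by
    intro v hv
    obtain ⟨h1, h2⟩ := mem_filter.1 hv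
    rw [show 6 * l = 2 * 3 * l by ring, Nat.cast_mul, Nat.cast_mul] at h2
    simp only [mem_union, mem_filter]
    rcases v.isPrime.mem_or_mem h2 with h | h
    · rcases v.isPrime.mem_or_mem h with h | h
      · exact Or.inl (Or.inl ⟨h1, h⟩)
      · exact Or.inl (Or.inr ⟨h1, h⟩)
    · exact Or.inr ⟨h1, h⟩
  have a1 := eu_card_le K Nat.prime_two _ fun v
    (hv : v ∈ S.filter fun v => ((2 : ℕ) : 𝓞 K) ∈ v.asIdeal) => (mem_filter.1 hv).2
  have a2 := eu_card_le K Nat.prime_three _ fun v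
    (hv : v ∈ S.filter fun v => ((3 : ℕ) : 𝓞 K) ∈ v.asIdeal) => (mem_filter.1 hv).2
  have a3 := eu_card_le K hl _ fun v
    (hv : v ∈ S.filter fun v => (l : 𝓞 K) ∈ v.asIdeal) => (mem_filter.1 hv).2
  have b1 := (card_le_card hsub).trans (card_union_le _ _)
  have b2 := card_union_le (S.filter fun v => ((2 : ℕ) : 𝓞 K) ∈ v.asIdeal)
    (S.filter fun v => ((3 : ℕ) : 𝓞 K) ∈ v.asIdeal)
  omega

lemma eu_sum_pow (M : ℕ) :
    ∑ m ∈ Ioc 0 M, (m : ℝ) ^ (-(39 / 40) : ℝ) ≤ 40 * (M : ℝ) ^ (1 / 40 : ℝ) := by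
  induction M with
  | zero => simp
  | succ M ih =>
    rw [sum_Ioc_succ_top (Nat.zero_le M)]
    have hp : (0 : ℝ) < (M + 1 : ℕ) := by positivity
    set y : ℝ := ((M + 1 : ℕ) : ℝ) with hy
    have hy1 : (1 : ℝ) ≤ y := by rw [hy]; exact_mod_cast Nat.succ_le_succ (Nat.zero_le M)
    have h1 : (1 + -y⁻¹) ^ (1 / 40 : ℝ) ≤ 1 + 1 / 40 * -y⁻¹ :=
      rpow_one_add_le_one_add_mul_self (by
        have := inv_le_one_of_one_le₀ hy1
        linarith) (by norm_num) (by norm_num)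
    have h2 : (M : ℝ) = y * (1 + -y⁻¹) := by
      rw [mul_add, mul_neg, mul_inv_cancel₀ hp.ne', hy]
      push_cast
      ring
    have h3 : 0 ≤ 1 + -y⁻¹ := by
      have := inv_le_one_of_one_le₀ hy1
      linarith
    have h4 : y ^ (-(39 / 40) : ℝ) = y ^ (1 / 40 : ℝ) * y⁻¹ := by
      rw [← Real.rpow_neg_one, ← Real.rpow_add hp]
      norm_num
    have h5 : (M : ℝ) ^ (1 / 40 : ℝ) ≤ y ^ (1 / 40 : ℝ) * (1 + 1 / 40 * -y⁻¹) := by
      rw [h2, Real.mul_rpow hp.le h3]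
      exact mul_le_mul_of_nonneg_left h1 (Real.rpow_nonneg hp.le _)
    rw [h4]
    nlinarith

lemma eu_zeta : ∃ Z : ℝ, ∀ N : ℕ, ∑ n ∈ Ioc 0 N, ((n : ℝ) ^ (-(39 / 40) : ℝ)) ^ 2 ≤ Z := by
  have hs : Summable fun n : ℕ => (n : ℝ) ^ (-(39 / 20) : ℝ) :=
    Real.summable_nat_rpow.2 (by norm_num)
  refine ⟨∑' n : ℕ, (n : ℝ) ^ (-(39 / 20) : ℝ), fun N => ?_⟩
  refine le_trans (le_of_eq (sum_congr rfl fun n _ => ?_))
    (hs.sum_le_tsum (Ioc 0 N) fun n _ => Real.rpow_nonneg (Nat.cast_nonneg n) _)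
  rw [← Real.rpow_natCast, ← Real.rpow_mul (Nat.cast_nonneg n)]
  norm_num

lemma eu_sum_sq (N : ℕ) :
    ∑ n ∈ Ioc 0 N, (if IsSquare n then (n : ℝ) ^ (-(39 / 40) : ℝ) else 0) ≤
      ∑ n ∈ Ioc 0 N, ((n : ℝ) ^ (-(39 / 40) : ℝ)) ^ 2 := by
  classical
  rw [← sum_filter]
  have h1 : (Ioc 0 N).filter IsSquare ⊆ (Ioc 0 N).image fun s => s ^ 2 := by
    intro n hn
    obtain ⟨hn1, s, rfl⟩ := mem_filter.1 hn
    obtain ⟨a, b⟩ := mem_Ioc.1 hn1
    have hs : 0 < s := Nat.pos_of_ne_zero fun e => by simp [e] at a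
    exact mem_image.2 ⟨s, mem_Ioc.2 ⟨hs, by nlinarith⟩, by ring⟩
  refine (sum_le_sum_of_subset_of_nonneg h1
    fun n _ _ => Real.rpow_nonneg (Nat.cast_nonneg n) _).trans ?_
  refine (sum_image_le_of_nonneg fun n _ => Real.rpow_nonneg (Nat.cast_nonneg n) _).trans ?_
  refine le_of_eq (sum_congr rfl fun s _ => ?_)
  exact (eu_CM_rpow _).pow s 2

open Classical in
lemma eu_sum_rep {l : ℕ} (hl : 1 ≤ l) (N : ℕ) (hN : (N : ℝ) ≤ (l : ℝ) ^ (19 / 10 : ℝ)) :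
    ∑ n ∈ Ioc 0 N, (if ∃ a m : ℕ, 0 < m ∧ 4 * n = a ^ 2 + l * m then
      (n : ℝ) ^ (-(39 / 40) : ℝ) else 0) ≤ 1920 := by
  have hL : (1 : ℝ) ≤ l := by exact_mod_cast hl
  have hL0 : (0 : ℝ) < l := by linarith
  set A := ⌊2 * (l : ℝ) ^ (19 / 20 : ℝ)⌋₊ with hA
  set M := ⌊4 * (l : ℝ) ^ (9 / 10 : ℝ)⌋₊ with hM
  rw [← sum_filter]
  have h1 : (Ioc 0 N).filter (fun n => ∃ a m : ℕ, 0 < m ∧ 4 * n = a ^ 2 + l * m) ⊆
      ((range (A + 1) ×ˢ Ioc 0 M).filter fun p => 4 ∣ p.1 ^ 2 + l * p.2).image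
        fun p => (p.1 ^ 2 + l * p.2) / 4 := by
    intro n hn
    obtain ⟨hn1, a, m, hm, e⟩ := mem_filter.1 hn
    have hnN : (n : ℝ) ≤ (l : ℝ) ^ (19 / 10 : ℝ) :=
      le_trans (by exact_mod_cast (mem_Ioc.1 hn1).2) hN
    have e' : (4 : ℝ) * n = (a : ℝ) ^ 2 + l * m := by exact_mod_cast e
    refine mem_image.2 ⟨(a, m), mem_filter.2 ⟨mem_product.2 ⟨mem_range.2 ?_, mem_Ioc.2 ⟨hm, ?_⟩⟩,
      ⟨n, e.symm⟩⟩, by simp only; omega⟩
    · refine Nat.lt_succ_of_le (Nat.le_floor ?_)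
      have h2 : ((l : ℝ) ^ (19 / 20 : ℝ)) ^ 2 = (l : ℝ) ^ (19 / 10 : ℝ) := by
        rw [← Real.rpow_natCast, ← Real.rpow_mul hL0.le]
        norm_num
      refine le_of_sq_le_sq ?_ (by positivity)
      have h3 : (0 : ℝ) ≤ l * m := by positivity
      rw [mul_pow, h2]
      linarith
    · refine Nat.le_floor ?_
      have h2 : (l : ℝ) ^ (19 / 10 : ℝ) = l * (l : ℝ) ^ (9 / 10 : ℝ) := by
        rw [show (19 / 10 : ℝ) = 1 + 9 / 10 by norm_num, Real.rpow_add hL0, Real.rpow_one]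
      refine le_of_mul_le_mul_left ?_ hL0
      nlinarith [sq_nonneg (a : ℝ)]
  refine (sum_le_sum_of_subset_of_nonneg h1
    fun n _ _ => Real.rpow_nonneg (Nat.cast_nonneg n) _).trans ?_
  refine (sum_image_le_of_nonneg fun n _ => Real.rpow_nonneg (Nat.cast_nonneg n) _).trans ?_
  have h2 : ∀ p ∈ (range (A + 1) ×ˢ Ioc 0 M).filter fun p => 4 ∣ p.1 ^ 2 + l * p.2,
      (((p.1 ^ 2 + l * p.2) / 4 : ℕ) : ℝ) ^ (-(39 / 40) : ℝ) ≤
        4 * (l : ℝ) ^ (-(39 / 40) : ℝ) * (p.2 : ℝ) ^ (-(39 / 40) : ℝ) := by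
    intro p hp
    obtain ⟨hp1, n, e⟩ := mem_filter.1 hp
    have hm : (0 : ℝ) < p.2 := by exact_mod_cast (mem_Ioc.1 (mem_product.1 hp1).2).1
    rw [e, Nat.mul_div_cancel_left _ (by norm_num)]
    have e' : (p.1 : ℝ) ^ 2 + l * p.2 = 4 * n := by exact_mod_cast e
    have h3 : (1 / 4 : ℝ) * (l * p.2) ≤ n := by nlinarith [sq_nonneg (p.1 : ℝ)]
    refine (Real.rpow_le_rpow_of_nonpos (by positivity) h3 (by norm_num)).trans ?_
    rw [Real.mul_rpow (by norm_num) (by positivity), Real.mul_rpow hL0.le hm.le, mul_assoc]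
    refine mul_le_mul_of_nonneg_right ?_ (by positivity)
    calc (1 / 4 : ℝ) ^ (-(39 / 40) : ℝ) ≤ (1 / 4 : ℝ) ^ (-1 : ℝ) :=
          Real.rpow_le_rpow_of_exponent_ge (by norm_num) (by norm_num) (by norm_num)
      _ = 4 := by rw [Real.rpow_neg_one]; norm_num
  refine (sum_le_sum h2).trans ?_
  refine (sum_le_sum_of_subset_of_nonneg (filter_subset _ _)
    fun p _ _ => by positivity).trans ?_
  rw [sum_product]
  simp only [← mul_sum, sum_const, card_range, nsmul_eq_mul]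
  have a1 : ((A + 1 : ℕ) : ℝ) ≤ 3 * (l : ℝ) ^ (19 / 20 : ℝ) := by
    have b1 : (A : ℝ) ≤ 2 * (l : ℝ) ^ (19 / 20 : ℝ) := Nat.floor_le (by positivity)
    have b2 : (1 : ℝ) ≤ (l : ℝ) ^ (19 / 20 : ℝ) := Real.one_le_rpow hL (by norm_num)
    push_cast
    linarith
  have a2 : (M : ℝ) ^ (1 / 40 : ℝ) ≤ 4 * (l : ℝ) ^ (9 / 400 : ℝ) := by
    have b1 : (M : ℝ) ≤ 4 * (l : ℝ) ^ (9 / 10 : ℝ) := Nat.floor_le (by positivity)
    refine (Real.rpow_le_rpow (Nat.cast_nonneg M) b1 (by norm_num)).trans ?_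
    rw [Real.mul_rpow (by norm_num) (by positivity), ← Real.rpow_mul hL0.le,
      show (9 / 10 * (1 / 40) : ℝ) = 9 / 400 by norm_num]
    refine mul_le_mul_of_nonneg_right ?_ (by positivity)
    calc (4 : ℝ) ^ (1 / 40 : ℝ) ≤ (4 : ℝ) ^ (1 : ℝ) :=
          Real.rpow_le_rpow_of_exponent_le (by norm_num) (by norm_num)
      _ = 4 := Real.rpow_one _
  have a3 := (eu_sum_pow M).trans (mul_le_mul_of_nonneg_left a2 (by norm_num))
  have a4 : (l : ℝ) ^ (19 / 20 : ℝ) * (l : ℝ) ^ (-(39 / 40) : ℝ) * (l : ℝ) ^ (9 / 400 : ℝ) ≤ 1 := by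
    rw [← Real.rpow_add hL0, ← Real.rpow_add hL0]
    exact Real.rpow_le_one_of_one_le_of_nonpos hL (by norm_num)
  calc 4 * (l : ℝ) ^ (-(39 / 40) : ℝ) * (((A + 1 : ℕ) : ℝ) *
        ∑ m ∈ Ioc 0 M, (m : ℝ) ^ (-(39 / 40) : ℝ))
      ≤ 4 * (l : ℝ) ^ (-(39 / 40) : ℝ) * ((3 * (l : ℝ) ^ (19 / 20 : ℝ)) *
        (40 * (4 * (l : ℝ) ^ (9 / 400 : ℝ)))) := by
        refine mul_le_mul_of_nonneg_left (mul_le_mul a1 a3 ?_ (by positivity)) (by positivity)
        exact sum_nonneg fun m _ => by positivity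
    _ = 1920 * ((l : ℝ) ^ (19 / 20 : ℝ) * (l : ℝ) ^ (-(39 / 40) : ℝ) *
        (l : ℝ) ^ (9 / 400 : ℝ)) := by ring
    _ ≤ 1920 := by linarith

lemma eu_r_le {q : ℕ} (hq : 1 < q) : (q : ℝ) ^ (-(39 / 40) : ℝ) ≤ 2 / 3 := by
  have h1 : (2 : ℝ) ≤ q := by exact_mod_cast hq
  refine (Real.rpow_le_rpow_of_nonpos (by norm_num) h1 (by norm_num)).trans ?_
  rw [Real.rpow_neg (by norm_num), inv_le_comm₀ (by positivity) (by norm_num),
    Real.rpow_def_of_pos (by norm_num)]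
  refine le_trans ?_ (Real.add_one_le_exp _)
  have := Real.log_two_gt_d9
  linarith

open Classical in
lemma eu_local_le {l : ℕ} (hl : l.Prime) (hB : Bad K l) (v : HeightOneSpectrum (𝓞 K)) :
    (if chi l (Ideal.absNorm v.asIdeal : ℕ) = -1 then
        ((Ideal.absNorm v.asIdeal : ℝ) ^ (-(39 / 40) : ℝ)) ^ 2
      else (Ideal.absNorm v.asIdeal : ℝ) ^ (-(39 / 40) : ℝ)) ≤
      (if ((6 * l : ℕ) : 𝓞 K) ∈ v.asIdeal then 1 else 0) +
        (((Ideal.absNorm v.asIdeal : ℝ) ^ (-(39 / 40) : ℝ)) ^ 2 +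
          (if IsSquare (Ideal.absNorm v.asIdeal) then
            (Ideal.absNorm v.asIdeal : ℝ) ^ (-(39 / 40) : ℝ) else 0) +
          (if ∃ a m : ℕ, 0 < m ∧ 4 * Ideal.absNorm v.asIdeal = a ^ 2 + l * m then
            (Ideal.absNorm v.asIdeal : ℝ) ^ (-(39 / 40) : ℝ) else 0)) := by
  have hr := eu_r_le (eu_one_lt K v)
  have hB' := hB v
  have hz := eu_mem_of_dvd K hl v
  set q := Ideal.absNorm v.asIdeal with hq
  have hr0 : 0 ≤ (q : ℝ) ^ (-(39 / 40) : ℝ) := Real.rpow_nonneg (Nat.cast_nonneg q) _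
  set r := (q : ℝ) ^ (-(39 / 40) : ℝ) with hrr
  have p1 : (0 : ℝ) ≤ if ((6 * l : ℕ) : 𝓞 K) ∈ v.asIdeal then 1 else 0 := by
    split_ifs <;> norm_num
  have p2 : (0 : ℝ) ≤ if IsSquare q then r else 0 := by split_ifs <;> simp [hr0]
  have p3 : (0 : ℝ) ≤ if ∃ a m : ℕ, 0 < m ∧ 4 * q = a ^ 2 + l * m then r else 0 := by
    split_ifs <;> simp [hr0]
  have p4 : 0 ≤ r ^ 2 := sq_nonneg r
  by_cases hm : chi l q = -1
  · rw [if_pos hm]; linarith
  rw [if_neg hm]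
  by_cases h6 : ((6 * l : ℕ) : 𝓞 K) ∈ v.asIdeal
  · rw [if_pos h6]; linarith
  have hj : jacobiSym q l = 1 := by
    rcases jacobiSym.trichotomy q l with h | h | h
    · exfalso
      have h1 := (jacobiSym.eq_zero_iff.1 h).2
      rw [Int.gcd_natCast_natCast] at h1
      have h2 : l ∣ q := by
        by_contra hn
        exact h1 (Nat.Coprime.symm ((Nat.Prime.coprime_iff_not_dvd hl).2 hn))
      apply h6
      rw [Nat.cast_mul]
      exact Ideal.mul_mem_left _ _ (hz h2)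
    · exact h
    · exact absurd (by simp [chi, h]) hm
  obtain ⟨a, ha, c, hc⟩ := hB' h6 hj
  have hl0 : (0 : ℤ) < l := by exact_mod_cast hl.pos
  have hc0 : 0 ≤ -c := by nlinarith
  have e : 4 * q = a.natAbs ^ 2 + l * (-c).toNat := by
    zify
    rw [sq_abs, Int.toNat_of_nonneg hc0]
    linarith
  rcases Nat.eq_zero_or_pos (-c).toNat with h0 | h0
  · have hs : IsSquare q := by
      rw [h0, mul_zero, add_zero] at e
      have h2 : 2 ∣ a.natAbs := Nat.prime_two.dvd_of_dvd_pow (n := 2) ⟨2 * q, by omega⟩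
      obtain ⟨s, hs⟩ := h2
      rw [hs] at e
      exact ⟨s, by nlinarith⟩
    rw [if_pos hs]; linarith
  · rw [if_pos (⟨_, _, h0, e⟩ : ∃ a m : ℕ, 0 < m ∧ 4 * q = a ^ 2 + l * m)]; linarith

theorem rankin : ∃ C : ℝ, ∀ l : ℕ, l.Prime → Bad K l →
    Sm (⇑(cnt K * tw (cnt K) fun n => chi l n)) ((l : ℝ) ^ (19 / 10 : ℝ)) ≤
      C * ((l : ℝ) ^ (19 / 10 : ℝ)) ^ (39 / 40 : ℝ) := by
  classical
  obtain ⟨Z, hZ⟩ := eu_zeta
  refine ⟨Real.exp (6 * (3 * Module.finrank ℚ K + Module.finrank ℚ K * (Z + Z + 1920))),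
    fun l hl hB => ?_⟩
  have hl0 : (0 : ℝ) < l := by exact_mod_cast hl.pos
  set x := (l : ℝ) ^ (19 / 10 : ℝ) with hx
  have hx0 : 0 < x := Real.rpow_pos_of_pos hl0 _
  set N := ⌊x⌋₊ with hN
  have hNx : (N : ℝ) ≤ x := Nat.floor_le hx0.le
  obtain ⟨S, hS1, hS⟩ := eu_exists K N
  have hcm := eu_CM_rpow (-(39 / 40))
  have h1 := (hS.mul (eu_tw_cnt K (eu_CM_chi l) hS)).tw fun n => (n : ℝ) ^ (-(39 / 40) : ℝ)
  rw [← prod_mul_distrib, eu_tw_prod hcm, prod_congr rfl fun v _ => by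
    rw [eu_tw_mul hcm, eu_tw_G hcm (eu_one_lt K v), eu_tw_G hcm (eu_one_lt K v), one_mul]] at h1
  have h2 := eu_W_prod N S _ _ (fun v _ => by
      rw [eu_G, eu_G, ← map_mul]
      exact eu_Pos_of (eu_one_lt K v)
        (eu_NN_two (Real.rpow_nonneg (Nat.cast_nonneg _) _) (chi_cases l _)))
    fun v _ => eu_W_local N (eu_one_lt K v) (c := chi l (Ideal.absNorm v.asIdeal : ℕ))
      (Real.rpow_nonneg (Nat.cast_nonneg _) (-(39 / 40))) (eu_r_le (eu_one_lt K v))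
      (chi_cases l _)
  have h3 := sum_le_sum fun v (_ : v ∈ S) => eu_local_le K hl hB v
  rw [sum_add_distrib, sum_boole] at h3
  have h4 : ((S.filter fun v => ((6 * l : ℕ) : 𝓞 K) ∈ v.asIdeal).card : ℝ) ≤
      3 * Module.finrank ℚ K := by exact_mod_cast eu_card_bad K hl S
  have h5 := eu_sum_norm K S N hS1 (fun n => ((n : ℝ) ^ (-(39 / 40) : ℝ)) ^ 2 +
      (if IsSquare n then (n : ℝ) ^ (-(39 / 40) : ℝ) else 0) +
      (if ∃ a m : ℕ, 0 < m ∧ 4 * n = a ^ 2 + l * m then (n : ℝ) ^ (-(39 / 40) : ℝ) else 0))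
    fun n => by split_ifs <;> positivity
  rw [sum_add_distrib (s := Ioc 0 N), sum_add_distrib (s := Ioc 0 N)] at h5
  have h6 := eu_sum_rep hl.one_lt.le N hNx
  have h7 := (eu_sum_sq N).trans (hZ N)
  have h8 := mul_le_mul_of_nonneg_left (add_le_add (add_le_add (hZ N) h7) h6)
    (Nat.cast_nonneg (α := ℝ) (Module.finrank ℚ K))
  rw [← mul_sum] at h2
  have h9 := h2.trans (Real.exp_le_exp.2 (mul_le_mul_of_nonneg_left
    (h3.trans (add_le_add h4 (h5.trans h8))) (by norm_num : (0 : ℝ) ≤ 6)))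
  refine le_trans ?_ (mul_le_mul_of_nonneg_right h9 (Real.rpow_nonneg hx0.le _))
  unfold Sm eu_W
  rw [sum_mul]
  refine sum_le_sum fun n hn => ?_
  obtain ⟨hn0, hnN⟩ := mem_Ioc.1 hn
  have hn1 : (0 : ℝ) < n := by exact_mod_cast hn0
  have hn2 : (n : ℝ) ≤ x := le_trans (by exact_mod_cast hnN) hNx
  rw [← h1 n hnN, tw_apply, mul_assoc]
  refine le_mul_of_one_le_right (pos2 K l n) ?_
  rw [Real.rpow_neg hn1.le, ← div_eq_inv_mul, one_le_div (Real.rpow_pos_of_pos hn1 _)]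
  exact Real.rpow_le_rpow hn1.le hn2 (by norm_num)

end Pool.Agent.Lib.MP_e97e2b_nt
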