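import Pool.Agent.Lib.MP_e97e2b_nt.Abel

/- The value at 1 is small when few primes split. -/

namespace Pool.Agent.Lib.MP_e97e2b_nt

/-- Weighted sums of a nonnegative function of linear growth. -/
lemma up_W (a : ℕ → ℝ) (D ε β : ℝ) (hε : 0 < ε) (hβ : 0 ≤ β) (hD : 0 ≤ D) (ha : ∀ n, 0 ≤ a n)
    (hS : ∀ t : ℝ, 1 ≤ t → |Sm a t| ≤ D * t) (t : ℝ) (ht : 1 ≤ t) :
    ∑ m ∈ Finset.Ioc 0 ⌊t⌋₊, a m * (m : ℝ) ^ (β - 1) ≤ (3 + (1 + ε) / ε) * D * t ^ (β + ε) := by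
  have ht0 : 0 < t := by linarith
  have h := ab_diff a D ε (1 + ε) hε (by linarith) hD 1 le_rfl 1 t one_pos ht
    (fun u hu => by rw [Real.rpow_one]; exact hS u hu)
  rw [Real.one_rpow, mul_one, ab_Sm_one, Nat.cast_one, Real.one_rpow, mul_one] at h
  have h1 : a 1 ≤ D := by
    have := hS 1 le_rfl
    rw [ab_Sm_one, mul_one] at this
    exact (le_abs_self _).trans this
  have h2 : Sm (fun n => a n * (n : ℝ) ^ (-(1 + ε))) t ≤ (3 + (1 + ε) / ε) * D := by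
    have := (le_abs_self _).trans h
    linarith
  calc ∑ m ∈ Finset.Ioc 0 ⌊t⌋₊, a m * (m : ℝ) ^ (β - 1)
      ≤ ∑ m ∈ Finset.Ioc 0 ⌊t⌋₊, a m * (m : ℝ) ^ (-(1 + ε)) * t ^ (β + ε) := by
        refine Finset.sum_le_sum fun m hm => ?_
        rw [Finset.mem_Ioc] at hm
        have hm0 : (0 : ℝ) < m := by exact_mod_cast hm.1
        have hmt : (m : ℝ) ≤ t := (Nat.le_floor_iff ht0.le).1 hm.2
        have e : β - 1 = -(1 + ε) + (β + ε) := by ring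
        rw [e, Real.rpow_add hm0, mul_assoc]
        refine mul_le_mul_of_nonneg_left (mul_le_mul_of_nonneg_left ?_
          (Real.rpow_pos_of_pos hm0 _).le) (ha m)
        exact Real.rpow_le_rpow hm0.le hmt (by linarith)
    _ = Sm (fun n => a n * (n : ℝ) ^ (-(1 + ε))) t * t ^ (β + ε) := by
        rw [Sm, Finset.sum_mul]
    _ ≤ (3 + (1 + ε) / ε) * D * t ^ (β + ε) :=
        mul_le_mul_of_nonneg_right h2 (Real.rpow_pos_of_pos ht0 _).le

/-- Geometric interpolation of two upper bounds. -/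
lemma up_interp {S A B lam : ℝ} (hS : 0 ≤ S) (hA : S ≤ A) (hB : S ≤ B) (h0 : 0 ≤ lam)
    (h1 : lam ≤ 1) : S ≤ A ^ (1 - lam) * B ^ lam := by
  calc S = S ^ (1 - lam) * S ^ lam := by
        rw [← Real.rpow_add' hS (by simp), sub_add_cancel, Real.rpow_one]
    _ ≤ A ^ (1 - lam) * B ^ lam :=
        mul_le_mul (Real.rpow_le_rpow hS hA (by linarith)) (Real.rpow_le_rpow hS hB h0)
          (Real.rpow_nonneg hS _) (Real.rpow_nonneg (hS.trans hA) _)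

lemma up_tail (b : ℕ → ℝ) (θ C δ l z : ℝ) (hθ : 0 < θ) (hδ : 0 < δ) (hC : 0 ≤ C)
    (hl : 1 ≤ l) (hz : 1 ≤ z)
    (h1 : ∀ x : ℝ, 1 ≤ x → |Sm b x| ≤ C * l * x ^ (1 - θ))
    (h2 : ∀ x : ℝ, z ≤ x → |Sm b x| ≤ C * x * l ^ (-δ)) :
    |Sm (fun n => b n * (n : ℝ) ^ (-1 : ℝ)) z - Lv b 1| ≤
      (2 + 2 / (δ / (2 * (1 + δ)) * θ)) * C * l ^ (-(δ / 2)) := by
  set lam := δ / (2 * (1 + δ)) with hlam
  have hl0 : 0 < l := by linarith
  have hlam0 : 0 < lam := by positivity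
  have hlam1 : lam ≤ 1 := by
    rw [hlam, div_le_one (by positivity)]
    linarith
  have hη : 0 < lam * θ := mul_pos hlam0 hθ
  have hM : 0 ≤ C * l ^ (-(δ / 2)) := mul_nonneg hC (Real.rpow_pos_of_pos hl0 _).le
  have h := abel_tail b (C * l ^ (-(δ / 2))) (lam * θ) 1 z hη zero_le_one le_rfl hM hz
    (1 - lam * θ) (by linarith) (fun t ht => by
      have ht1 : 1 ≤ t := hz.trans ht
      have ht0 : 0 < t := by linarith
      refine (up_interp (abs_nonneg _) (h2 t ht) (h1 t ht1) hlam0.le hlam1).trans (le_of_eq ?_)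
      have e1 : C ^ (1 - lam) * C ^ lam = C := by
        rw [← Real.rpow_add' hC (by simp), sub_add_cancel, Real.rpow_one]
      have e2 : (l ^ (-δ)) ^ (1 - lam) * l ^ lam = l ^ (-(δ / 2)) := by
        rw [← Real.rpow_mul hl0.le, ← Real.rpow_add hl0]
        have : -δ * (1 - lam) + lam = -(δ / 2) := by
          rw [hlam]
          field_simp
          ring
        rw [this]
      have e3 : t ^ (1 - lam) * (t ^ (1 - θ)) ^ lam = t ^ (1 - lam * θ) := by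
        rw [← Real.rpow_mul ht0.le, ← Real.rpow_add ht0]
        have : 1 - lam + (1 - θ) * lam = 1 - lam * θ := by ring
        rw [this]
      rw [Real.mul_rpow (mul_nonneg hC ht0.le) (Real.rpow_pos_of_pos hl0 _).le,
        Real.mul_rpow hC ht0.le,
        Real.mul_rpow (mul_nonneg hC hl0.le) (Real.rpow_pos_of_pos ht0 _).le,
        Real.mul_rpow hC hl0.le]
      calc C ^ (1 - lam) * t ^ (1 - lam) * (l ^ (-δ)) ^ (1 - lam) *
            (C ^ lam * l ^ lam * (t ^ (1 - θ)) ^ lam)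
          = (C ^ (1 - lam) * C ^ lam) * ((l ^ (-δ)) ^ (1 - lam) * l ^ lam) *
            (t ^ (1 - lam) * (t ^ (1 - θ)) ^ lam) := by ring
        _ = C * l ^ (-(δ / 2)) * t ^ (1 - lam * θ) := by rw [e1, e2, e3]) z le_rfl
  refine h.trans ?_
  have h3 : z ^ (1 - lam * θ - 1) ≤ 1 := Real.rpow_le_one_of_one_le_of_nonpos hz (by linarith)
  have h4 : 0 ≤ (2 + 2 / (lam * θ)) * (C * l ^ (-(δ / 2))) := mul_nonneg (by positivity) hM
  calc (2 + 2 / (lam * θ)) * (C * l ^ (-(δ / 2))) * z ^ (1 - lam * θ - 1)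
      ≤ (2 + 2 / (lam * θ)) * (C * l ^ (-(δ / 2))) * 1 := mul_le_mul_of_nonneg_left h3 h4
    _ = (2 + 2 / (lam * θ)) * C * l ^ (-(δ / 2)) := by ring

lemma up_first (a b : ℕ → ℝ) (D C δ l y z : ℝ) (hδ : 0 < δ) (hC : 0 ≤ C) (hD : 0 ≤ D)
    (hl : 0 < l) (hy : 1 ≤ y) (hz : 1 ≤ z) (ha : ∀ n, 0 ≤ a n)
    (hS : ∀ t : ℝ, 1 ≤ t → |Sm a t| ≤ D * t)
    (h2 : ∀ x : ℝ, z ≤ x → |Sm b x| ≤ C * x * l ^ (-δ)) :
    |∑ m ∈ Finset.Ioc 0 ⌊y⌋₊, a m * Sm b (y * z / m)| ≤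
      C * (y * z) * l ^ (-δ) * ((3 + (1 + δ) / δ) * D * y ^ δ) := by
  have hy0 : 0 < y := by linarith
  have hz0 : 0 < z := by linarith
  have hW := up_W a D δ 0 hδ le_rfl hD ha hS y hy
  rw [zero_add] at hW
  have hK : 0 ≤ C * (y * z) * l ^ (-δ) := by positivity
  refine (Finset.abs_sum_le_sum_abs _ _).trans (le_trans ?_ (mul_le_mul_of_nonneg_left hW hK))
  rw [Finset.mul_sum]
  refine Finset.sum_le_sum fun m hm => ?_
  rw [Finset.mem_Ioc] at hm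
  have hm0 : (0 : ℝ) < m := by exact_mod_cast hm.1
  have hmt : (m : ℝ) ≤ y := (Nat.le_floor_iff hy0.le).1 hm.2
  have hx : z ≤ y * z / m := by
    rw [le_div_iff₀ hm0, mul_comm y z]
    exact mul_le_mul_of_nonneg_left hmt hz0.le
  rw [abs_mul, abs_of_nonneg (ha m), zero_sub, Real.rpow_neg_one]
  calc a m * |Sm b (y * z / m)| ≤ a m * (C * (y * z / m) * l ^ (-δ)) :=
        mul_le_mul_of_nonneg_left (h2 _ hx) (ha m)
    _ = C * (y * z) * l ^ (-δ) * (a m * (m : ℝ)⁻¹) := by ring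

lemma up_second (a b : ℕ → ℝ) (κ θ D C ε y z : ℝ) (hθ : 0 < θ) (hε : 0 < ε) (hC : 0 ≤ C)
    (hD : 0 ≤ D) (hy : 1 ≤ y) (hz : 1 ≤ z) (ha : ∀ n, 0 ≤ a n) (hb : ∀ n, |b n| ≤ a n)
    (hS : ∀ t : ℝ, 1 ≤ t → |Sm a t| ≤ D * t)
    (h0 : ∀ x : ℝ, 1 ≤ x → |Sm a x - κ * x| ≤ C * x ^ (1 - θ)) :
    |∑ n ∈ Finset.Ioc 0 ⌊z⌋₊, b n * Sm a (y * z / n) -
        κ * (y * z) * Sm (fun n => b n * (n : ℝ) ^ (-1 : ℝ)) z| ≤
      C * (y * z) ^ (1 - θ) * ((3 + (1 + ε) / ε) * D * z ^ (θ + ε)) := by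
  have hy0 : 0 < y := by linarith
  have hz0 : 0 < z := by linarith
  have hW := up_W a D ε θ hε hθ.le hD ha hS z hz
  have hK : 0 ≤ C * (y * z) ^ (1 - θ) := by positivity
  have e : ∑ n ∈ Finset.Ioc 0 ⌊z⌋₊, b n * Sm a (y * z / n) -
        κ * (y * z) * Sm (fun n => b n * (n : ℝ) ^ (-1 : ℝ)) z =
      ∑ n ∈ Finset.Ioc 0 ⌊z⌋₊, b n * (Sm a (y * z / n) - κ * (y * z / n)) := by
    have e' : Sm (fun n => b n * (n : ℝ) ^ (-1 : ℝ)) z =
        ∑ n ∈ Finset.Ioc 0 ⌊z⌋₊, b n * (n : ℝ) ^ (-1 : ℝ) := rfl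
    rw [e', Finset.mul_sum, ← Finset.sum_sub_distrib]
    refine Finset.sum_congr rfl fun n _ => ?_
    rw [Real.rpow_neg_one]
    ring
  rw [e]
  refine (Finset.abs_sum_le_sum_abs _ _).trans (le_trans ?_ (mul_le_mul_of_nonneg_left hW hK))
  rw [Finset.mul_sum]
  refine Finset.sum_le_sum fun n hn => ?_
  rw [Finset.mem_Ioc] at hn
  have hn0 : (0 : ℝ) < n := by exact_mod_cast hn.1
  have hnt : (n : ℝ) ≤ z := (Nat.le_floor_iff hz0.le).1 hn.2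
  have hx : 1 ≤ y * z / n := by
    rw [le_div_iff₀ hn0, one_mul]
    exact hnt.trans (le_mul_of_one_le_left hz0.le hy)
  rw [abs_mul]
  calc |b n| * |Sm a (y * z / n) - κ * (y * z / n)| ≤ a n * (C * (y * z / n) ^ (1 - θ)) :=
        mul_le_mul (hb n) (h0 _ hx) (abs_nonneg _) (ha n)
    _ = C * (y * z) ^ (1 - θ) * (a n * (n : ℝ) ^ (θ - 1)) := by
        rw [Real.div_rpow (by positivity) hn0.le, ← neg_sub 1 θ, Real.rpow_neg hn0.le]
        ring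

theorem lv_upper (κ θ C δ : ℝ) (hκ : 0 < κ) (hθ : 0 < θ) (hθ' : θ ≤ 1 / 2) (hδ : 0 < δ) :
    ∃ C' δ' : ℝ, 0 < δ' ∧ ∀ (a : ArithmeticFunction ℝ) (χ : ℕ → ℝ) (l : ℝ), 1 ≤ l →
    (∀ n, 0 ≤ a n) → (∀ n, |χ n| ≤ 1) →
    (∀ x : ℝ, 1 ≤ x → |Sm a x - κ * x| ≤ C * x ^ (1 - θ)) →
    (∀ x : ℝ, 1 ≤ x → |Sm (tw a χ) x| ≤ C * l * x ^ (1 - θ)) →
    (∀ x : ℝ, l ^ (93 / 50 : ℝ) ≤ x → |Sm (tw a χ) x| ≤ C * x * l ^ (-δ)) →
    Sm (⇑(a * tw a χ)) (l ^ (19 / 10 : ℝ)) ≤ C * (l ^ (19 / 10 : ℝ)) ^ (39 / 40 : ℝ) →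
    Lv (tw a χ) 1 ≤ C' * l ^ (-δ') := by
  set K1 : ℝ := (3 + (1 + δ) / δ) * (κ + C) with hK1
  set K2 : ℝ := (3 + (1 + θ / 100) / (θ / 100)) * (κ + C) with hK2
  set K3 : ℝ := (2 + 2 / (δ / (2 * (1 + δ)) * θ)) * C with hK3
  set δ' : ℝ := min (19 / 400) (min (δ / 2) (θ / 50)) with hδ'
  refine ⟨(C + C * K1 + C * K2 + (κ + C) * C) / κ + K3, δ', by positivity, ?_⟩
  intro a χ l hl ha hχ h0 h1 h2 h3
  have _ := hθ'
  have hl0 : 0 < l := by linarith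
  have hC : 0 ≤ C := by
    have := h0 1 le_rfl
    rw [Real.one_rpow, mul_one, mul_one] at this
    exact (abs_nonneg _).trans this
  have hD : 0 ≤ κ + C := by linarith
  have hS : ∀ t : ℝ, 1 ≤ t → |Sm a t| ≤ (κ + C) * t := by
    intro t ht
    have h := h0 t ht
    have h4 : t ^ (1 - θ) ≤ t := by
      have := Real.rpow_le_rpow_of_exponent_le ht (show 1 - θ ≤ 1 by linarith)
      rwa [Real.rpow_one] at this
    have h5 : C * t ^ (1 - θ) ≤ C * t := mul_le_mul_of_nonneg_left h4 hC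
    have h6 : 0 ≤ κ * t := by positivity
    rw [abs_le] at h ⊢
    constructor <;> nlinarith [h.1, h.2]
  have hb : ∀ n, |tw a χ n| ≤ a n := by
    intro n
    rw [tw_apply, abs_mul, abs_of_nonneg (ha n)]
    exact mul_le_of_le_one_right (ha n) (hχ n)
  set y : ℝ := l ^ (1 / 25 : ℝ) with hy
  set z : ℝ := l ^ (93 / 50 : ℝ) with hz
  have hy1 : 1 ≤ y := Real.one_le_rpow hl (by norm_num)
  have hz1 : 1 ≤ z := Real.one_le_rpow hl (by norm_num)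
  have hyz : y * z = l ^ (19 / 10 : ℝ) := by
    rw [hy, hz, ← Real.rpow_add hl0]
    norm_num
  have hx0 : 0 < y * z := by positivity
  have hH := hyperbola a (tw a χ) y z hy1 hz1
  have hF := up_first a (tw a χ) (κ + C) C δ l y z hδ hC hD hl0 hy1 hz1 ha hS h2
  have hG := up_second a (tw a χ) κ θ (κ + C) C (θ / 100) y z hθ (by positivity) hC hD hy1 hz1
    ha hb hS h0
  have hT := up_tail (tw a χ) θ C δ l z hθ hδ hC hl hz1 h1 h2
  rw [← hK1] at hF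
  rw [← hK2] at hG
  rw [← hK3] at hT
  have hK1' : 0 ≤ K1 := by positivity
  have hK2' : 0 ≤ K2 := by positivity
  have hK3' : 0 ≤ K3 := by positivity
  have hd1 : δ' ≤ 19 / 400 := min_le_left _ _
  have hd2 : δ' ≤ δ / 2 := (min_le_right _ _).trans (min_le_left _ _)
  have hd3 : δ' ≤ θ / 50 := (min_le_right _ _).trans (min_le_right _ _)
  set E : ℝ := l ^ (-δ') with hE
  have hE0 : 0 < E := Real.rpow_pos_of_pos hl0 _
  have hpow : ∀ e : ℝ, e ≤ -δ' → l ^ e ≤ E := fun e he =>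
    Real.rpow_le_rpow_of_exponent_le hl he
  have b0 : Sm (⇑(a * tw a χ)) (y * z) ≤ C * (y * z) * E := by
    rw [hyz]
    refine h3.trans ?_
    rw [mul_assoc]
    refine mul_le_mul_of_nonneg_left ?_ hC
    have e : (l ^ (19 / 10 : ℝ)) ^ (39 / 40 : ℝ) = l ^ (19 / 10 : ℝ) * l ^ (-(19 / 400) : ℝ) := by
      rw [← Real.rpow_mul hl0.le, ← Real.rpow_add hl0]
      norm_num
    rw [e]
    exact mul_le_mul_of_nonneg_left (hpow _ (by linarith)) (Real.rpow_pos_of_pos hl0 _).le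
  have b1 : C * (y * z) * l ^ (-δ) * (K1 * y ^ δ) ≤ C * K1 * (y * z) * E := by
    have e : l ^ (-δ) * y ^ δ ≤ E := by
      rw [hy, ← Real.rpow_mul hl0.le, ← Real.rpow_add hl0]
      exact hpow _ (by linarith)
    calc C * (y * z) * l ^ (-δ) * (K1 * y ^ δ) = C * K1 * (y * z) * (l ^ (-δ) * y ^ δ) := by ring
      _ ≤ C * K1 * (y * z) * E := mul_le_mul_of_nonneg_left e (by positivity)
  have b2 : C * (y * z) ^ (1 - θ) * (K2 * z ^ (θ + θ / 100)) ≤ C * K2 * (y * z) * E := by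
    have e : (y * z) ^ (1 - θ) * z ^ (θ + θ / 100) ≤ (y * z) * E := by
      have e1 : (y * z) ^ (1 - θ) = (y * z) * (y * z) ^ (-θ) := by
        rw [sub_eq_add_neg, Real.rpow_add hx0, Real.rpow_one]
      rw [e1, mul_assoc]
      refine mul_le_mul_of_nonneg_left ?_ hx0.le
      rw [hyz, hz, ← Real.rpow_mul hl0.le, ← Real.rpow_mul hl0.le, ← Real.rpow_add hl0]
      exact hpow _ (by linarith)
    calc C * (y * z) ^ (1 - θ) * (K2 * z ^ (θ + θ / 100))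
        = C * K2 * ((y * z) ^ (1 - θ) * z ^ (θ + θ / 100)) := by ring
      _ ≤ C * K2 * ((y * z) * E) := mul_le_mul_of_nonneg_left e (by positivity)
      _ = C * K2 * (y * z) * E := by ring
  have b3 : |Sm a y * Sm (tw a χ) z| ≤ (κ + C) * C * (y * z) * E := by
    rw [abs_mul]
    calc |Sm a y| * |Sm (tw a χ) z| ≤ (κ + C) * y * (C * z * l ^ (-δ)) :=
          mul_le_mul (hS y hy1) (h2 z le_rfl) (abs_nonneg _) (by positivity)
      _ = (κ + C) * C * (y * z) * l ^ (-δ) := by ring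
      _ ≤ (κ + C) * C * (y * z) * E :=
          mul_le_mul_of_nonneg_left (hpow _ (by linarith)) (by positivity)
  have b4 : K3 * l ^ (-(δ / 2)) ≤ K3 * E :=
    mul_le_mul_of_nonneg_left (hpow _ (by linarith)) hK3'
  set P : ℝ := Sm (fun n => tw a χ n * (n : ℝ) ^ (-1 : ℝ)) z with hP
  have c1 : κ * (y * z) * P ≤ (C + C * K1 + C * K2 + (κ + C) * C) * (y * z) * E := by
    have f1 := abs_le.1 (hF.trans b1)
    have f2 := abs_le.1 (hG.trans b2)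
    have f3 := abs_le.1 b3
    linarith [f1.1, f2.1, f3.2]
  have c2 : P ≤ (C + C * K1 + C * K2 + (κ + C) * C) / κ * E := by
    rw [div_mul_eq_mul_div, le_div_iff₀ hκ]
    refine le_of_mul_le_mul_left ?_ hx0
    linarith
  have c3 := abs_le.1 (hT.trans b4)
  linarith [c3.1]

end Pool.Agent.Lib.MP_e97e2b_nt
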