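import Pool.Agent.Lib.MP_e97e2b_nt.Sharp
import Pool.Agent.Lib.MP_e97e2b_nt.Euler
import Pool.Agent.Lib.MP_e97e2b_nt.Upper
import Pool.Agent.Lib.MP_e97e2b_nt.Siegel

namespace Pool.Agent.Lib.MP_e97e2b_nt

open NumberField

theorem an_main (K : Type) [Field K] [NumberField K] (hd : Module.finrank ℚ K ≤ 7) :
    ∃ l0 : ℕ, ∀ l : ℕ, l.Prime → l0 < l → ¬ Bad K l := by
  by_contra hcon
  push Not at hcon
  obtain ⟨κ, C0, hκ, h0⟩ := sharp0 K
  obtain ⟨C1, l1, h1⟩ := sharp1 K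
  obtain ⟨δ, C2, l2, hδ, h2⟩ := sharp2 K (11 / 100) (by norm_num)
  obtain ⟨C3, h3⟩ := rankin K
  have hd1 : (1 : ℝ) ≤ Module.finrank ℚ K := by exact_mod_cast Module.finrank_pos
  have hd7 : (Module.finrank ℚ K : ℝ) ≤ 7 := by exact_mod_cast hd
  set θ : ℝ := 1 / (2 * (Module.finrank ℚ K : ℝ)) with hθdef
  have hθ : 0 < θ := by positivity
  have hθ' : θ ≤ 1 / 2 := one_div_le_one_div_of_le (by norm_num) (by linarith)
  set C : ℝ := |C0| + |C1| + |C2| + |C3| with hC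
  have a0 := abs_nonneg C0
  have a1 := abs_nonneg C1
  have a2 := abs_nonneg C2
  have a3 := abs_nonneg C3
  have b0 : C0 ≤ C := by linarith [le_abs_self C0]
  have b1 : C1 ≤ C := by linarith [le_abs_self C1]
  have b2 : C2 ≤ C := by linarith [le_abs_self C2]
  have b3 : C3 ≤ C := by linarith [le_abs_self C3]
  obtain ⟨C', δ', hδ', hup⟩ := lv_upper κ θ C δ hκ hθ hθ' hδ
  set bad : Set ℕ := {l | l.Prime ∧ l1 + l2 < l ∧ Bad K l} with hbad
  have hinf : bad.Infinite := by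
    refine Set.infinite_of_forall_exists_gt fun n => ?_
    obtain ⟨l, hl, hlt, hb⟩ := hcon (n + l1 + l2)
    exact ⟨l, ⟨hl, by omega, hb⟩, by omega⟩
  have S0 : ∀ D : ℝ, C ≤ D → ∀ x : ℝ, 1 ≤ x → |Sm (cnt K) x - κ * x| ≤ D * x ^ (1 - θ) := by
    intro D hD x hx
    refine (h0 x hx).trans ?_
    gcongr
    linarith
  have S1 : ∀ D : ℝ, C ≤ D → ∀ M, Adm l1 M → ∀ x : ℝ, 1 ≤ x →
      |Sm (tw (cnt K) fun n => chi M n) x| ≤ D * M * x ^ (1 - θ) := by
    intro D hD M hM x hx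
    refine (h1 M hM x hx).trans ?_
    gcongr
    linarith
  have hCD : C ≤ C + |C'| := by linarith [abs_nonneg C']
  refine siegel (cnt K) κ θ (C + |C'|) δ' hκ hθ hθ' hδ' (fun l n => chi l n) bad hinf
    (cnt_nonneg K) (cnt_one K) (fun l n => abs_chi_le _ _) (fun l => by simpa using chi_one l)
    (S0 _ hCD) ?_ ?_ (fun l _ n => pos2 K l n) (fun l _ l' _ n => pos4 K l l' n) ?_
  · intro l hl x hx
    exact S1 _ hCD l (Or.inl ⟨hl.1, by have := hl.2.1; omega⟩) x hx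
  · intro l hl l' hl' hne x hx
    have := S1 _ hCD (l * l') (Or.inr ⟨l, l', hl.1, hl'.1, hne, by have := hl.2.1; omega,
      by have := hl'.2.1; omega, rfl⟩) x hx
    simpa only [chi_mul_right l l' hl.1.ne_zero hl'.1.ne_zero, Nat.cast_mul] using this
  · intro l hl
    have hl1 : (1 : ℝ) ≤ l := by exact_mod_cast hl.1.one_lt.le
    refine (hup (cnt K) (fun n => chi l n) l hl1 (cnt_nonneg K) (fun n => abs_chi_le _ _)
      (S0 _ le_rfl) (S1 _ le_rfl l (Or.inl ⟨hl.1, by have := hl.2.1; omega⟩)) ?_ ?_).trans ?_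
    · intro x hx
      have hx0 : 0 ≤ x := le_trans (by positivity) hx
      refine (h2 l hl.1 (by have := hl.2.1; omega) x (le_trans ?_ hx)).trans ?_
      · exact Real.rpow_le_rpow_of_exponent_le hl1 (by linarith)
      · gcongr
    · refine (h3 l hl.1 hl.2.2).trans ?_
      gcongr
    · gcongr
      linarith [le_abs_self C']

end Pool.Agent.Lib.MP_e97e2b_nt
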