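import Pool.Agent.Lib.MP_e97e2b_nt.ABasic

/- Summation by parts and the hyperbola identity. -/

namespace Pool.Agent.Lib.MP_e97e2b_nt

open Filter Topology

/-- The value at a real point `s` of the Dirichlet series of `f`, as a limit of finite sums. -/
noncomputable def Lv (f : ℕ → ℝ) (s : ℝ) : ℝ :=
  limUnder atTop fun N : ℕ => ∑ n ∈ Finset.Ioc 0 N, f n * (n : ℝ) ^ (-s)

lemma ab_Sm_nat (f : ℕ → ℝ) (N : ℕ) : Sm f N = ∑ n ∈ Finset.Ioc 0 N, f n := by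
  simp [Sm]

lemma ab_Sm_one (f : ℕ → ℝ) : Sm f 1 = f 1 := by
  simp [Sm]

lemma ab_sum_Icc (f : ℕ → ℝ) (N : ℕ) :
    ∑ k ∈ Finset.Icc 0 N, (if k = 0 then 0 else f k) = ∑ k ∈ Finset.Ioc 0 N, f k := by
  rw [Finset.Icc_eq_cons_Ioc (Nat.zero_le N), Finset.sum_cons, if_pos rfl, zero_add]
  refine Finset.sum_congr rfl fun k hk => ?_
  rw [if_neg (Finset.mem_Ioc.1 hk).1.ne']

lemma ab_Sm_sub (f : ℕ → ℝ) {a b : ℝ} (hab : a ≤ b) :
    Sm f b - Sm f a = ∑ k ∈ Finset.Ioc ⌊a⌋₊ ⌊b⌋₊, f k := by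
  have h := Finset.sum_Ioc_consecutive f (Nat.zero_le ⌊a⌋₊) (Nat.floor_le_floor hab)
  unfold Sm
  linarith

/-- Summation by parts between two points. -/
lemma ab_diff (f : ℕ → ℝ) (M η s : ℝ) (hη : 0 < η) (hs0 : 0 ≤ s) (hM : 0 ≤ M) (γ : ℝ)
    (hγ : γ + η ≤ s) (a b : ℝ) (ha : 0 < a) (hab : a ≤ b)
    (hf : ∀ t, a ≤ t → |Sm f t| ≤ M * t ^ γ) :
    |Sm (fun n => f n * (n : ℝ) ^ (-s)) b - Sm (fun n => f n * (n : ℝ) ^ (-s)) a| ≤
      (2 + s / η) * M * a ^ (γ - s) := by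
  have hb : 0 < b := ha.trans_le hab
  have hder : ∀ t : ℝ, 0 < t → HasDerivAt (fun t : ℝ => t ^ (-s)) (-s * t ^ (-s - 1)) t :=
    fun t ht => Real.hasDerivAt_rpow_const (Or.inl ht.ne')
  have hint : MeasureTheory.IntegrableOn (deriv fun t : ℝ => t ^ (-s)) (Set.Icc a b) := by
    have hc : ContinuousOn (fun t : ℝ => -s * t ^ (-s - 1)) (Set.Icc a b) :=
      continuousOn_const.mul (continuousOn_id.rpow_const fun t ht =>
        Or.inl (ha.trans_le ht.1).ne')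
    refine (hc.congr fun t ht => (hder t (ha.trans_le ht.1)).deriv).integrableOn_Icc
  have key := sum_mul_eq_sub_sub_integral_mul (fun k => if k = 0 then 0 else f k)
    (f := fun t : ℝ => t ^ (-s)) ha.le hab
    (fun t ht => (hder t (ha.trans_le ht.1)).differentiableAt) hint
  simp only [ab_sum_Icc] at key
  have e1 : Sm (fun n => f n * (n : ℝ) ^ (-s)) b - Sm (fun n => f n * (n : ℝ) ^ (-s)) a =
      ∑ k ∈ Finset.Ioc ⌊a⌋₊ ⌊b⌋₊, (k : ℝ) ^ (-s) * (if k = 0 then 0 else f k) := by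
    rw [ab_Sm_sub _ hab]
    refine Finset.sum_congr rfl fun k hk => ?_
    have : k ≠ 0 := by
      have := (Finset.mem_Ioc.1 hk).1
      omega
    rw [if_neg this, mul_comm]
  rw [e1, key]
  have hneg : γ - s < 0 := by linarith
  have hpa : 0 < a ^ (γ - s) := Real.rpow_pos_of_pos ha _
  have hterm : ∀ t, a ≤ t → |t ^ (-s) * ∑ k ∈ Finset.Ioc 0 ⌊t⌋₊, f k| ≤ M * a ^ (γ - s) := by
    intro t ht
    have ht0 : 0 < t := ha.trans_le ht
    rw [abs_mul, abs_of_pos (Real.rpow_pos_of_pos ht0 _)]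
    calc t ^ (-s) * |∑ k ∈ Finset.Ioc 0 ⌊t⌋₊, f k| ≤ t ^ (-s) * (M * t ^ γ) :=
          mul_le_mul_of_nonneg_left (hf t ht) (Real.rpow_pos_of_pos ht0 _).le
      _ = M * t ^ (γ - s) := by
          rw [sub_eq_add_neg, Real.rpow_add ht0]; ring
      _ ≤ M * a ^ (γ - s) :=
          mul_le_mul_of_nonneg_left (Real.rpow_le_rpow_of_nonpos ha ht hneg.le) hM
  have hI : |∫ t in Set.Ioc a b, deriv (fun t : ℝ => t ^ (-s)) t * ∑ k ∈ Finset.Ioc 0 ⌊t⌋₊, f k| ≤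
      s / η * M * a ^ (γ - s) := by
    have hc : ContinuousOn (fun t : ℝ => s * M * t ^ (γ - s - 1)) (Set.Icc a b) :=
      continuousOn_const.mul (continuousOn_id.rpow_const fun t ht =>
        Or.inl (ha.trans_le ht.1).ne')
    have hi : MeasureTheory.IntegrableOn (fun t : ℝ => s * M * t ^ (γ - s - 1)) (Set.Ioc a b) :=
      hc.integrableOn_Icc.mono_set Set.Ioc_subset_Icc_self
    have h1 := MeasureTheory.norm_integral_le_of_norm_le
      (f := fun t : ℝ => deriv (fun t : ℝ => t ^ (-s)) t * ∑ k ∈ Finset.Ioc 0 ⌊t⌋₊, f k) hi (by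
        refine (MeasureTheory.ae_restrict_iff' measurableSet_Ioc).2 (Eventually.of_forall ?_)
        intro t ht
        have ht0 : 0 < t := ha.trans ht.1
        rw [(hder t ht0).deriv, Real.norm_eq_abs, abs_mul, abs_mul, abs_neg, abs_of_nonneg hs0,
          abs_of_pos (Real.rpow_pos_of_pos ht0 _)]
        calc s * t ^ (-s - 1) * |∑ k ∈ Finset.Ioc 0 ⌊t⌋₊, f k| ≤ s * t ^ (-s - 1) * (M * t ^ γ) :=
              mul_le_mul_of_nonneg_left (hf t ht.1.le)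
                (mul_nonneg hs0 (Real.rpow_pos_of_pos ht0 _).le)
          _ = s * M * t ^ (γ - s - 1) := by
              have : γ - s - 1 = γ + (-s - 1) := by ring
              rw [this, Real.rpow_add ht0]; ring)
    rw [Real.norm_eq_abs] at h1
    refine h1.trans ?_
    rw [← intervalIntegral.integral_of_le hab, intervalIntegral.integral_const_mul,
      integral_rpow (Or.inr ⟨by linarith, ?_⟩)]
    · have e : γ - s - 1 + 1 = γ - s := by ring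
      rw [e]
      have hpb : 0 < b ^ (γ - s) := Real.rpow_pos_of_pos hb _
      have h2 : (b ^ (γ - s) - a ^ (γ - s)) / (γ - s) ≤ a ^ (γ - s) / η := by
        have e2 : (b ^ (γ - s) - a ^ (γ - s)) / (γ - s) =
            (a ^ (γ - s) - b ^ (γ - s)) / (s - γ) := by
          rw [← neg_sub (a ^ (γ - s)), ← neg_sub s, neg_div_neg_eq]
        rw [e2]
        exact div_le_div₀ hpa.le (by linarith) hη (by linarith)
      calc s * M * ((b ^ (γ - s) - a ^ (γ - s)) / (γ - s)) ≤ s * M * (a ^ (γ - s) / η) :=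
            mul_le_mul_of_nonneg_left h2 (mul_nonneg hs0 hM)
        _ = s / η * M * a ^ (γ - s) := by ring
    · rw [Set.uIcc_of_le hab]
      intro h
      exact absurd h.1 (not_le.2 ha)
  have h1 := hterm b hab
  have h2 := hterm a le_rfl
  have h3 := abs_sub (b ^ (-s) * ∑ k ∈ Finset.Ioc 0 ⌊b⌋₊, f k - a ^ (-s) * ∑ k ∈ Finset.Ioc 0 ⌊a⌋₊, f k)
    (∫ t in Set.Ioc a b, deriv (fun t : ℝ => t ^ (-s)) t * ∑ k ∈ Finset.Ioc 0 ⌊t⌋₊, f k)
  have h4 := abs_sub (b ^ (-s) * ∑ k ∈ Finset.Ioc 0 ⌊b⌋₊, f k)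
    (a ^ (-s) * ∑ k ∈ Finset.Ioc 0 ⌊a⌋₊, f k)
  linarith

/-- The finite sums converge to `Lv`. -/
lemma ab_tendsto (f : ℕ → ℝ) (M η s y : ℝ) (hη : 0 < η) (hs0 : 0 ≤ s)
    (hM : 0 ≤ M) (hy : 0 < y) (γ : ℝ) (hγ : γ + η ≤ s) (hf : ∀ t, y ≤ t → |Sm f t| ≤ M * t ^ γ) :
    Tendsto (fun N : ℕ => ∑ n ∈ Finset.Ioc 0 N, f n * (n : ℝ) ^ (-s)) atTop (𝓝 (Lv f s)) := by
  refine CauchySeq.tendsto_limUnder ?_
  rw [Metric.cauchySeq_iff']
  intro ε hε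
  have h0 : Tendsto (fun N : ℕ => (2 + s / η) * M * (N : ℝ) ^ (γ - s)) atTop (𝓝 0) := by
    have h1 : Tendsto (fun x : ℝ => x ^ (-(s - γ))) atTop (𝓝 0) :=
      tendsto_rpow_neg_atTop (by linarith)
    rw [neg_sub] at h1
    have h2 := (h1.comp tendsto_natCast_atTop_atTop).const_mul ((2 + s / η) * M)
    rw [mul_zero] at h2
    exact h2
  obtain ⟨N, hN1, hN2⟩ := ((h0.eventually (gt_mem_nhds hε)).and
    (tendsto_natCast_atTop_atTop.eventually_ge_atTop y)).exists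
  refine ⟨N, fun n hn => ?_⟩
  have h := ab_diff f M η s hη hs0 hM γ hγ N n (hy.trans_le hN2) (Nat.cast_le.2 hn)
    (fun t ht => hf t (hN2.trans ht))
  rw [ab_Sm_nat, ab_Sm_nat] at h
  rw [Real.dist_eq]
  exact h.trans_lt hN1

/-- Tail bound by summation by parts; the hypothesis is only needed beyond `y`. -/
theorem abel_tail (f : ℕ → ℝ) (M η s y : ℝ) (hη : 0 < η) (hs0 : 0 ≤ s) (hs : s ≤ 1)
    (hM : 0 ≤ M) (hy : 1 ≤ y) (γ : ℝ) (hγ : γ + η ≤ s) (hf : ∀ t, y ≤ t → |Sm f t| ≤ M * t ^ γ)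
    (x : ℝ) (hx : y ≤ x) :
    |Sm (fun n => f n * (n : ℝ) ^ (-s)) x - Lv f s| ≤ (2 + 2 / η) * M * x ^ (γ - s) := by
  have hy0 : 0 < y := by linarith
  have hx0 : 0 < x := hy0.trans_le hx
  have ht := ab_tendsto f M η s y hη hs0 hM hy0 γ hγ hf
  have ht2 := (ht.const_sub (Sm (fun n => f n * (n : ℝ) ^ (-s)) x)).abs
  refine le_of_tendsto ht2 ?_
  filter_upwards [tendsto_natCast_atTop_atTop.eventually_ge_atTop x] with N hN
  have h := ab_diff f M η s hη hs0 hM γ hγ x N hx0 hN (fun t ht => hf t (hx.trans ht))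
  rw [ab_Sm_nat, abs_sub_comm] at h
  refine h.trans (mul_le_mul_of_nonneg_right (mul_le_mul_of_nonneg_right ?_ hM)
    (Real.rpow_pos_of_pos hx0 _).le)
  have : s / η ≤ 2 / η := div_le_div_of_nonneg_right (by linarith) hη.le
  linarith

lemma ab_row (u v : ℕ → ℝ) (X Y : ℕ) :
    ∑ p ∈ (Finset.Ioc 0 Y ×ˢ Finset.Ioc 0 X).filter (fun p => p.1 * p.2 ≤ X), u p.1 * v p.2 =
      ∑ m ∈ Finset.Ioc 0 Y, u m * ∑ n ∈ Finset.Ioc 0 (X / m), v n := by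
  rw [Finset.sum_filter, Finset.sum_product]
  refine Finset.sum_congr rfl fun m hm => ?_
  rw [← Finset.sum_filter, Finset.mul_sum]
  refine Finset.sum_congr ?_ fun _ _ => rfl
  have hm0 : 0 < m := (Finset.mem_Ioc.1 hm).1
  ext n
  simp only [Finset.mem_filter, Finset.mem_Ioc]
  rw [Nat.le_div_iff_mul_le hm0, mul_comm n m]
  constructor
  · rintro ⟨⟨h1, _⟩, h3⟩
    exact ⟨h1, h3⟩
  · rintro ⟨h1, h3⟩
    exact ⟨⟨h1, (Nat.le_mul_of_pos_left n hm0).trans h3⟩, h3⟩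

lemma ab_col (u v : ℕ → ℝ) (X Z : ℕ) :
    ∑ p ∈ (Finset.Ioc 0 X ×ˢ Finset.Ioc 0 Z).filter (fun p => p.1 * p.2 ≤ X), u p.1 * v p.2 =
      ∑ n ∈ Finset.Ioc 0 Z, v n * ∑ m ∈ Finset.Ioc 0 (X / n), u m := by
  rw [← ab_row v u X Z]
  refine Finset.sum_nbij' Prod.swap Prod.swap ?_ ?_ ?_ ?_ ?_
  · intro p hp
    simp only [Finset.mem_filter, Finset.mem_product, Prod.fst_swap, Prod.snd_swap] at hp ⊢
    exact ⟨⟨hp.1.2, hp.1.1⟩, by rw [mul_comm]; exact hp.2⟩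
  · intro p hp
    simp only [Finset.mem_filter, Finset.mem_product, Prod.fst_swap, Prod.snd_swap] at hp ⊢
    exact ⟨⟨hp.1.2, hp.1.1⟩, by rw [mul_comm]; exact hp.2⟩
  · intro p _
    rfl
  · intro p _
    rfl
  · intro p _
    simp only [Prod.fst_swap, Prod.snd_swap]
    ring

/-- Dirichlet's hyperbola identity. -/
theorem hyperbola (u v : ArithmeticFunction ℝ) (y z : ℝ) (hy : 1 ≤ y) (hz : 1 ≤ z) :
    Sm (⇑(u * v)) (y * z) =
      ∑ m ∈ Finset.Ioc 0 ⌊y⌋₊, u m * Sm v (y * z / m) +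
      ∑ n ∈ Finset.Ioc 0 ⌊z⌋₊, v n * Sm u (y * z / n) - Sm u y * Sm v z := by
  have hy0 : 0 ≤ y := by linarith
  have hz0 : 0 ≤ z := by linarith
  have hyz : 0 ≤ y * z := mul_nonneg hy0 hz0
  unfold Sm
  simp only [Nat.floor_div_natCast]
  set X := ⌊y * z⌋₊ with hX
  set Y := ⌊y⌋₊ with hY
  set Z := ⌊z⌋₊ with hZ
  have hYZ : Y * Z ≤ X := by
    rw [hX]
    refine Nat.le_floor ?_
    push_cast
    exact mul_le_mul (Nat.floor_le hy0) (Nat.floor_le hz0) (Nat.cast_nonneg _) hy0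
  have hY1 : 0 < Y := Nat.floor_pos.2 hy
  have hZ1 : 0 < Z := Nat.floor_pos.2 hz
  have hYX : Y ≤ X := (Nat.le_mul_of_pos_right Y hZ1).trans hYZ
  have hZX : Z ≤ X := (Nat.le_mul_of_pos_left Z hY1).trans hYZ
  rw [ArithmeticFunction.sum_Ioc_mul_eq_sum_prod_filter, ← ab_row u v X Y, ← ab_col u v X Z,
    ← Finset.sum_union_inter, Finset.sum_mul_sum, ← Finset.sum_product']
  have e1 : (Finset.Ioc 0 Y ×ˢ Finset.Ioc 0 X).filter (fun p => p.1 * p.2 ≤ X) ∪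
      (Finset.Ioc 0 X ×ˢ Finset.Ioc 0 Z).filter (fun p => p.1 * p.2 ≤ X) =
      (Finset.Ioc 0 X ×ˢ Finset.Ioc 0 X).filter (fun p => p.1 * p.2 ≤ X) := by
    ext ⟨m, n⟩
    simp only [Finset.mem_union, Finset.mem_filter, Finset.mem_product, Finset.mem_Ioc]
    constructor
    · rintro (⟨⟨⟨h1, h2⟩, h3⟩, h4⟩ | ⟨⟨h1, h2, h3⟩, h4⟩)
      · exact ⟨⟨⟨h1, h2.trans hYX⟩, h3⟩, h4⟩
      · exact ⟨⟨h1, h2, h3.trans hZX⟩, h4⟩
    · rintro ⟨⟨h1, h2⟩, h3⟩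
      by_cases hm : m ≤ Y
      · exact Or.inl ⟨⟨⟨h1.1, hm⟩, h2⟩, h3⟩
      · refine Or.inr ⟨⟨h1, h2.1, ?_⟩, h3⟩
        by_contra hn
        have hm' : y < m := Nat.lt_of_floor_lt (not_le.1 hm)
        have hn' : z < n := Nat.lt_of_floor_lt (not_le.1 hn)
        have h4 : ((m * n : ℕ) : ℝ) ≤ y * z := (Nat.le_floor_iff hyz).1 h3
        push_cast at h4
        have h5 : y * z < m * n := mul_lt_mul'' hm' hn' hy0 hz0
        linarith
  have e2 : (Finset.Ioc 0 Y ×ˢ Finset.Ioc 0 X).filter (fun p => p.1 * p.2 ≤ X) ∩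
      (Finset.Ioc 0 X ×ˢ Finset.Ioc 0 Z).filter (fun p => p.1 * p.2 ≤ X) =
      Finset.Ioc 0 Y ×ˢ Finset.Ioc 0 Z := by
    ext ⟨m, n⟩
    simp only [Finset.mem_inter, Finset.mem_filter, Finset.mem_product, Finset.mem_Ioc]
    constructor
    · rintro ⟨⟨⟨h1, _⟩, _⟩, ⟨_, h2⟩, _⟩
      exact ⟨h1, h2⟩
    · rintro ⟨h1, h2⟩
      have h3 : m * n ≤ X := (Nat.mul_le_mul h1.2 h2.2).trans hYZ
      exact ⟨⟨⟨h1, h2.1, h2.2.trans hZX⟩, h3⟩, ⟨⟨h1.1, h1.2.trans hYX⟩, h2⟩, h3⟩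
  rw [e1, e2]
  ring

end Pool.Agent.Lib.MP_e97e2b_nt
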