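import Pool.Agent.Lib.MP_e97e2b_nt.ABasic

/- Counting lemmas in ideal lattices and the multiplicative energy bound. -/

namespace Pool.Agent.Lib.MP_e97e2b_nt

open NumberField

variable {K : Type} [Field K] [NumberField K]

/-- The box `[-N, N]^d`. -/
noncomputable def box (K : Type) [Field K] [NumberField K] (N : ℕ) :
    Finset (Fin (Module.finrank ℚ K) → ℤ) :=
  Fintype.piFinset fun _ => Finset.Icc (-(N : ℤ)) N

lemma en_mem_box {N : ℕ} {v : Fin (Module.finrank ℚ K) → ℤ} :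
    v ∈ box K N ↔ ∀ i, -(N : ℤ) ≤ v i ∧ v i ≤ N := by
  simp only [box, Fintype.mem_piFinset, Finset.mem_Icc]

lemma en_box_abs {N : ℕ} {v : Fin (Module.finrank ℚ K) → ℤ} (hv : v ∈ box K N) (i) :
    |(v i : ℝ)| ≤ N := by
  obtain ⟨h1, h2⟩ := en_mem_box.1 hv i
  rw [abs_le]
  constructor
  · exact_mod_cast h1
  · exact_mod_cast h2

lemma en_card_box (N : ℕ) : (box K N).card = (2 * N + 1) ^ Module.finrank ℚ K := by
  rw [box, Fintype.card_piFinset, Finset.prod_const, Finset.card_univ, Fintype.card_fin,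
    Int.card_Icc]
  congr 1
  omega

/-- The norm of a principal ideal as a product over the embeddings. -/
lemma en_norm_prod (x : 𝓞 K) :
    (Ideal.absNorm (Ideal.span {x}) : ℝ) = ∏ σ : K →ₐ[ℚ] ℂ, ‖σ (x : K)‖ := by
  rw [Ideal.absNorm_span_singleton, ← norm_prod, ← Algebra.norm_eq_prod_embeddings ℚ ℂ (x : K),
    ← Algebra.coe_norm_int, Nat.cast_natAbs]
  simp

lemma en_norm_le (x : 𝓞 K) (B : ℝ) (h : ∀ σ : K →ₐ[ℚ] ℂ, ‖σ (x : K)‖ ≤ B) :
    (Ideal.absNorm (Ideal.span {x}) : ℝ) ≤ B ^ Module.finrank ℚ K := by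
  rw [en_norm_prod, ← AlgHom.card ℚ K ℂ, ← Finset.card_univ, ← Finset.prod_const]
  exact Finset.prod_le_prod (fun σ _ => norm_nonneg _) (fun σ _ => h σ)

lemma en_norm_ge (x : 𝓞 K) (B : ℝ) (hB : 0 ≤ B) (h : ∀ σ : K →ₐ[ℚ] ℂ, B ≤ ‖σ (x : K)‖) :
    B ^ Module.finrank ℚ K ≤ (Ideal.absNorm (Ideal.span {x}) : ℝ) := by
  rw [en_norm_prod, ← AlgHom.card ℚ K ℂ, ← Finset.card_univ, ← Finset.prod_const]
  exact Finset.prod_le_prod (fun σ _ => hB) (fun σ _ => h σ)

/-- An element of an ideal with small conjugates vanishes. -/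
lemma en_eq_zero (h : Ideal (𝓞 K)) (x : 𝓞 K) (hx : x ∈ h) (B : ℝ)
    (hB : ∀ σ : K →ₐ[ℚ] ℂ, ‖σ (x : K)‖ ≤ B)
    (hlt : B ^ Module.finrank ℚ K < Ideal.absNorm h) : x = 0 := by
  by_contra h0
  have h1 : Ideal.absNorm h ∣ Ideal.absNorm (Ideal.span {x}) :=
    Ideal.absNorm_dvd_absNorm_of_le ((Ideal.span_singleton_le_iff_mem _).2 hx)
  have h2 : Ideal.absNorm (Ideal.span {x}) ≠ 0 := by
    rw [Ne, Ideal.absNorm_eq_zero_iff, Ideal.span_singleton_eq_bot]
    exact h0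
  have h3 : (Ideal.absNorm h : ℝ) ≤ Ideal.absNorm (Ideal.span {x}) := by
    exact_mod_cast Nat.le_of_dvd (Nat.pos_of_ne_zero h2) h1
  have h4 := en_norm_le x B hB
  linarith

lemma en_expand (e : (Fin (Module.finrank ℚ K) → ℤ) →+ 𝓞 K)
    (v : Fin (Module.finrank ℚ K) → ℤ) : e v = ∑ i, (v i : 𝓞 K) * e (Pi.single i 1) := by
  have h : v = ∑ i, v i • (Pi.single i 1 : Fin (Module.finrank ℚ K) → ℤ) := by
    ext j
    simp [Finset.sum_apply, Pi.single_apply]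
  conv_lhs => rw [h]
  rw [map_sum]
  refine Finset.sum_congr rfl (fun i _ => ?_)
  rw [map_zsmul, zsmul_eq_mul]

/-- The house bound. -/
lemma en_house (e : (Fin (Module.finrank ℚ K) → ℤ) →+ 𝓞 K) : ∃ c0 : ℝ, 1 ≤ c0 ∧
    ∀ (v : Fin (Module.finrank ℚ K) → ℤ) (R : ℝ), 0 ≤ R → (∀ i, |(v i : ℝ)| ≤ R) →
      ∀ σ : K →ₐ[ℚ] ℂ, ‖σ (e v : K)‖ ≤ c0 * R := by
  refine ⟨1 + ∑ σ : K →ₐ[ℚ] ℂ, ∑ i, ‖σ (e (Pi.single i 1) : K)‖, ?_, ?_⟩
  · have : 0 ≤ ∑ σ : K →ₐ[ℚ] ℂ, ∑ i, ‖σ (e (Pi.single i 1) : K)‖ := by positivity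
    linarith
  · intro v R hR hv σ
    have h1 : σ (e v : K) = ∑ i, (v i : ℂ) * σ (e (Pi.single i 1) : K) := by
      rw [en_expand e v]
      simp [map_sum]
    have h2 : ‖σ (e v : K)‖ ≤ (∑ i, ‖σ (e (Pi.single i 1) : K)‖) * R := by
      rw [h1, Finset.sum_mul]
      refine le_trans (norm_sum_le _ _) (Finset.sum_le_sum (fun i _ => ?_))
      rw [norm_mul, Complex.norm_intCast, mul_comm]
      exact mul_le_mul_of_nonneg_left (hv i) (norm_nonneg _)
    have h3 : ∑ i, ‖σ (e (Pi.single i 1) : K)‖ ≤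
        ∑ σ : K →ₐ[ℚ] ℂ, ∑ i, ‖σ (e (Pi.single i 1) : K)‖ :=
      Finset.single_le_sum (f := fun σ : K →ₐ[ℚ] ℂ => ∑ i, ‖σ (e (Pi.single i 1) : K)‖)
        (fun _ _ => by positivity) (Finset.mem_univ σ)
    refine le_trans h2 (mul_le_mul_of_nonneg_right (by linarith) hR)

/-- Points of a box in one coset of an ideal. -/
theorem count_coset (c : Ideal (𝓞 K)) (e : (Fin (Module.finrank ℚ K) → ℤ) →+ 𝓞 K)
    (he : Lat c e) : ∃ C : ℝ, ∀ (h : Ideal (𝓞 K)), h ≠ ⊥ → ∀ N : ℕ,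
    ∀ S : Finset (Fin (Module.finrank ℚ K) → ℤ), S ⊆ box K N →
    (∀ v ∈ S, ∀ w ∈ S, e v - e w ∈ h) →
    (S.card : ℝ) ≤ C * (1 + (N : ℝ) ^ Module.finrank ℚ K / Ideal.absNorm h) := by
  obtain ⟨c0, hc0, hhouse⟩ := en_house e
  have hd : Module.finrank ℚ K ≠ 0 := Module.finrank_pos.ne'
  refine ⟨2 ^ (Module.finrank ℚ K - 1) * (2 * c0) ^ Module.finrank ℚ K, ?_⟩
  intro h hh N S hS hcos
  have hn : (0 : ℝ) < Ideal.absNorm h := by
    have : Ideal.absNorm h ≠ 0 := fun h0 => hh (Ideal.absNorm_eq_zero_iff.1 h0)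
    exact_mod_cast Nat.pos_of_ne_zero this
  obtain ⟨t0, ht0, ht0d⟩ : ∃ t0 : ℝ, 0 < t0 ∧ t0 ^ Module.finrank ℚ K = Ideal.absNorm h :=
    ⟨(Ideal.absNorm h : ℝ) ^ ((Module.finrank ℚ K : ℝ)⁻¹), Real.rpow_pos_of_pos hn _,
      Real.rpow_inv_natCast_pow hn.le hd⟩
  have hc0' : 0 < c0 := by linarith
  have ht : 0 < t0 / c0 := div_pos ht0 hc0'
  obtain ⟨m, hm1, hm2, hm3⟩ : ∃ m : ℕ, 0 < m ∧ t0 / c0 ≤ m ∧ (m : ℝ) - 1 < t0 / c0 :=
    ⟨⌈t0 / c0⌉₊, Nat.ceil_pos.2 ht, Nat.le_ceil _, by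
      have := Nat.ceil_lt_add_one ht.le
      linarith⟩
  have hmz : (0 : ℤ) < m := by exact_mod_cast hm1
  have hmr : (1 : ℝ) ≤ m := by exact_mod_cast hm1
  have hcard : S.card ≤ (Fintype.piFinset fun _ : Fin (Module.finrank ℚ K) =>
      Finset.Icc (0 : ℤ) ((2 * N / m : ℕ) : ℤ)).card := by
    refine Finset.card_le_card_of_injOn (fun v i => (v i + N) / m) ?_ ?_
    · intro v hv
      rw [Finset.mem_coe, Fintype.mem_piFinset]
      intro i
      rw [Finset.mem_Icc]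
      obtain ⟨h1, h2⟩ := en_mem_box.1 (hS hv) i
      refine ⟨Int.ediv_nonneg (by linarith) hmz.le, ?_⟩
      push_cast
      exact Int.ediv_le_ediv hmz (by linarith)
    · intro v hv w hw hvw
      apply he.inj
      rw [← sub_eq_zero]
      refine en_eq_zero h _ (hcos v hv w hw) (c0 * (m - 1)) ?_ ?_
      · rw [← map_sub]
        refine hhouse (v - w) _ (by linarith) (fun i => ?_)
        have h1 : (v i + N) / m = (w i + N) / m := congrFun hvw i
        have h2 := Int.mul_ediv_add_emod (v i + N) m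
        have h3 := Int.mul_ediv_add_emod (w i + N) m
        have h4 := Int.emod_nonneg (v i + N) hmz.ne'
        have h5 := Int.emod_nonneg (w i + N) hmz.ne'
        have h6 := Int.emod_lt_of_pos (v i + N) hmz
        have h7 := Int.emod_lt_of_pos (w i + N) hmz
        rw [h1] at h2
        have h8 : |v i - w i| ≤ (m : ℤ) - 1 := by
          rw [abs_le]
          constructor <;> linarith
        have h9 : ((|v i - w i| : ℤ) : ℝ) ≤ (((m : ℤ) - 1 : ℤ) : ℝ) := by exact_mod_cast h8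
        simpa using h9
      · rw [← ht0d]
        refine pow_lt_pow_left₀ ?_ (mul_nonneg hc0'.le (by linarith)) hd
        rw [lt_div_iff₀ hc0'] at hm3
        linarith
  rw [Fintype.card_piFinset, Finset.prod_const, Finset.card_univ, Fintype.card_fin,
    Int.card_Icc] at hcard
  have e1 : (((2 * N / m : ℕ) : ℤ) + 1 - 0).toNat = 2 * N / m + 1 := by
    generalize 2 * N / m = q
    omega
  rw [e1] at hcard
  have h1 : (S.card : ℝ) ≤ (((2 * N / m : ℕ) : ℝ) + 1) ^ Module.finrank ℚ K := by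
    exact_mod_cast hcard
  have h2 : ((2 * N / m : ℕ) : ℝ) ≤ 2 * c0 * (N / t0) := by
    refine le_trans Nat.cast_div_le ?_
    push_cast
    have h3 : 2 * c0 * (N / t0) = 2 * N / (t0 / c0) := by
      field_simp
    rw [h3]
    exact div_le_div_of_nonneg_left (by positivity) ht hm2
  have h3 : ((2 * N / m : ℕ) : ℝ) + 1 ≤ 2 * c0 * (1 + N / t0) := by linarith
  refine le_trans h1 (le_trans (pow_le_pow_left₀ (by positivity) h3 _) ?_)
  have h4 := add_pow_le (zero_le_one' ℝ) (show (0 : ℝ) ≤ N / t0 by positivity)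
    (Module.finrank ℚ K)
  rw [one_pow, div_pow, ht0d] at h4
  rw [mul_pow, mul_comm (2 ^ (Module.finrank ℚ K - 1)), mul_assoc ((2 * c0) ^ _)]
  exact mul_le_mul_of_nonneg_left h4 (by positivity)

/-- Linear bound for the number of ideals of bounded norm. -/
lemma en_count (K : Type) [Field K] [NumberField K] : ∃ C : ℝ, 0 ≤ C ∧ ∀ n : ℕ, 1 ≤ n →
    ∀ F : Finset (Ideal (𝓞 K)), (∀ D ∈ F, Ideal.absNorm D ≤ n) → (F.card : ℝ) ≤ C * n := by
  have h1 := (Ideal.tendsto_norm_le_div_atTop K).comp tendsto_natCast_atTop_atTop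
  obtain ⟨C, hC⟩ := h1.bddAbove_range
  refine ⟨max C 0, le_max_right _ _, fun n hn F hF => ?_⟩
  have h2 : (Nat.card {I : Ideal (𝓞 K) // (Ideal.absNorm I : ℝ) ≤ (n : ℝ)} : ℝ) / n ≤ C :=
    hC ⟨n, rfl⟩
  have hn' : (0 : ℝ) < n := by exact_mod_cast hn
  rw [div_le_iff₀ hn'] at h2
  have hfin : {I : Ideal (𝓞 K) | (Ideal.absNorm I : ℝ) ≤ (n : ℝ)}.Finite := by
    refine (Ideal.finite_setOfPred_absNorm_le n).subset (fun I hI => ?_)
    exact Nat.cast_le.1 (show (Ideal.absNorm I : ℝ) ≤ (n : ℝ) from hI)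
  have h3 : F.card ≤ Nat.card {I : Ideal (𝓞 K) // (Ideal.absNorm I : ℝ) ≤ (n : ℝ)} := by
    rw [← Set.ncard_coe_finset]
    refine Set.ncard_le_ncard (t := {I : Ideal (𝓞 K) | (Ideal.absNorm I : ℝ) ≤ (n : ℝ)})
      (fun I hI => ?_) hfin
    exact (Nat.cast_le (α := ℝ)).2 (hF I hI)
  have h4 : (F.card : ℝ) ≤ Nat.card {I : Ideal (𝓞 K) // (Ideal.absNorm I : ℝ) ≤ (n : ℝ)} := by
    exact_mod_cast h3
  have h5 : C * n ≤ max C 0 * n := mul_le_mul_of_nonneg_right (le_max_left _ _) hn'.le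
  linarith

/-- Harmonic sum over ideals. -/
lemma en_harm (K : Type) [Field K] [NumberField K] : ∃ C : ℝ, 0 ≤ C ∧ ∀ j : ℕ,
    ∀ F : Finset (Ideal (𝓞 K)), (∀ D ∈ F, Ideal.absNorm D ≤ 2 ^ j) →
      ∑ D ∈ F, (1 : ℝ) / Ideal.absNorm D ≤ C * (1 + j) := by
  obtain ⟨C, hC, hcount⟩ := en_count K
  refine ⟨2 * C, by linarith, fun j => ?_⟩
  induction j with
  | zero =>
    intro F hF
    have h1 := hcount 1 le_rfl F (fun D hD => by simpa using hF D hD)
    have h2 : ∑ D ∈ F, (1 : ℝ) / Ideal.absNorm D ≤ F.card • (1 : ℝ) := by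
      refine Finset.sum_le_card_nsmul _ _ _ (fun D _ => ?_)
      rw [one_div]
      exact Nat.cast_inv_le_one _
    rw [nsmul_eq_mul] at h2
    push_cast at h1 ⊢
    linarith
  | succ j ih =>
    intro F hF
    rw [← Finset.sum_filter_add_sum_filter_not F (fun D => Ideal.absNorm D ≤ 2 ^ j)]
    have h1 := ih (F.filter (fun D => Ideal.absNorm D ≤ 2 ^ j))
      (fun D hD => (Finset.mem_filter.1 hD).2)
    have h2 := hcount (2 ^ (j + 1)) Nat.one_le_two_pow
      (F.filter (fun D => ¬ Ideal.absNorm D ≤ 2 ^ j))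
      (fun D hD => hF D (Finset.mem_filter.1 hD).1)
    have h3 : ∑ D ∈ F.filter (fun D => ¬ Ideal.absNorm D ≤ 2 ^ j), (1 : ℝ) / Ideal.absNorm D ≤
        (F.filter (fun D => ¬ Ideal.absNorm D ≤ 2 ^ j)).card • ((1 : ℝ) / 2 ^ j) := by
      refine Finset.sum_le_card_nsmul _ _ _ (fun D hD => ?_)
      have h4 : 2 ^ j ≤ Ideal.absNorm D := (not_le.1 (Finset.mem_filter.1 hD).2).le
      have h5 : (2 : ℝ) ^ j ≤ Ideal.absNorm D := by exact_mod_cast h4
      exact one_div_le_one_div_of_le (by positivity) h5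
    rw [nsmul_eq_mul] at h3
    have h4 := mul_le_mul_of_nonneg_right h2 (show (0 : ℝ) ≤ 1 / 2 ^ j by positivity)
    have h5 : C * ((2 ^ (j + 1) : ℕ) : ℝ) * (1 / 2 ^ j) = 2 * C := by
      push_cast
      field_simp
      ring
    rw [h5] at h4
    push_cast
    linarith

lemma en_absNorm_nat (l : ℕ) :
    Ideal.absNorm (Ideal.span {(l : 𝓞 K)}) = l ^ Module.finrank ℚ K := by
  rw [Ideal.absNorm_span_natCast, RingOfIntegers.rank]

omit [NumberField K] in
/-- A proper ideal containing the prime `l` contains only the integers divisible by `l`. -/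
lemma en_dvd_of_mem (P : Ideal (𝓞 K)) (hP : P ≠ ⊤) (l : ℕ) (hl : l.Prime) (hlP : (l : 𝓞 K) ∈ P)
    (k : ℤ) (hk : (k : 𝓞 K) ∈ P) : (l : ℤ) ∣ k := by
  by_contra hnd
  apply hP
  have hcop : IsCoprime (l : ℤ) k :=
    (Nat.prime_iff_prime_int.1 hl).irreducible.coprime_iff_not_dvd.2 hnd
  obtain ⟨a, b, hab⟩ := hcop
  rw [Ideal.eq_top_iff_one]
  have h1 : (1 : 𝓞 K) = (a : 𝓞 K) * (l : 𝓞 K) + (b : 𝓞 K) * (k : 𝓞 K) := by
    have h2 := congrArg (Int.cast : ℤ → 𝓞 K) hab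
    push_cast at h2
    exact h2.symm
  rw [h1]
  exact P.add_mem (P.mul_mem_left _ hlP) (P.mul_mem_left _ hk)

omit [NumberField K] in
/-- A non-unit modulo `l` lies in a maximal ideal containing `l`. -/
lemma en_nonunit (l : ℕ) (x : 𝓞 K)
    (hx : ¬ IsUnit (Ideal.Quotient.mk (Ideal.span {(l : 𝓞 K)}) x)) :
    ∃ P : Ideal (𝓞 K), P.IsMaximal ∧ (l : 𝓞 K) ∈ P ∧ x ∈ P := by
  have h1 : Ideal.span {(l : 𝓞 K)} ⊔ Ideal.span {x} ≠ ⊤ := by
    intro h
    apply hx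
    rw [Ideal.eq_top_iff_one, Submodule.mem_sup] at h
    obtain ⟨y, hy, z, hz, hyz⟩ := h
    obtain ⟨b, rfl⟩ := Ideal.mem_span_singleton'.1 hz
    refine IsUnit.of_mul_eq_one (Ideal.Quotient.mk _ b) ?_
    rw [← map_mul, ← map_one (Ideal.Quotient.mk (Ideal.span {(l : 𝓞 K)})), Ideal.Quotient.eq]
    have h2 : x * b - 1 = -y := by rw [← hyz]; ring
    rw [h2]
    exact Submodule.neg_mem _ hy
  obtain ⟨P, hP, hle⟩ := Ideal.exists_le_maximal _ h1
  exact ⟨P, hP, hle (Ideal.mem_sup_left (Ideal.mem_span_singleton_self _)),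
    hle (Ideal.mem_sup_right (Ideal.mem_span_singleton_self _))⟩

/-- At most `d` maximal ideals contain the prime `l`. -/
lemma en_primes (l : ℕ) (hl : l.Prime) : ∃ F : Finset (Ideal (𝓞 K)),
    F.card ≤ Module.finrank ℚ K ∧ (∀ P ∈ F, P.IsPrime ∧ (l : 𝓞 K) ∈ P) ∧
      ∀ P : Ideal (𝓞 K), P.IsMaximal → (l : 𝓞 K) ∈ P → P ∈ F := by
  have : Fact l.Prime := ⟨hl⟩
  have hp0 : Ideal.span {(l : ℤ)} ≠ ⊥ := by
    rw [Ne, Ideal.span_singleton_eq_bot]
    exact_mod_cast hl.ne_zero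
  refine ⟨IsDedekindDomain.primesOverFinset (Ideal.span {(l : ℤ)}) (𝓞 K),
    Ideal.card_primesOverFinset_le_finrank (𝓞 K) ℚ K hp0, ?_, ?_⟩
  · intro P hP
    obtain ⟨h1, h2⟩ := (IsDedekindDomain.mem_primesOverFinset_iff hp0 _).1 hP
    refine ⟨h1, ?_⟩
    have h3 := (Ideal.mem_of_liesOver P (Ideal.span {(l : ℤ)}) (l : ℤ)).1
      (Ideal.mem_span_singleton_self _)
    simpa using h3
  · intro P hP hlP
    refine (IsDedekindDomain.mem_primesOverFinset_iff hp0 _).2 ⟨hP.isPrime, ⟨?_⟩⟩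
    ext k
    rw [Ideal.mem_span_singleton, Ideal.under_def, Ideal.mem_comap]
    constructor
    · rintro ⟨b, rfl⟩
      simp only [map_mul, map_natCast]
      exact P.mul_mem_right _ hlP
    · intro hk
      exact en_dvd_of_mem P hP.ne_top l hl hlP k (by simpa using hk)

open Classical in
/-- Few points of a translated cube fall into a prime above `l`. -/
lemma en_few (c : Ideal (𝓞 K)) (e : (Fin (Module.finrank ℚ K) → ℤ) →+ 𝓞 K)
    (he : Lat c e) (l : ℕ) (hl : l.Prime) (hl0 : Ideal.absNorm c < l) (A : ℕ) (hA : A ≤ l)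
    (P : Ideal (𝓞 K)) (hP : P.IsPrime) (hlP : (l : 𝓞 K) ∈ P)
    (u : Fin (Module.finrank ℚ K) → ℤ) :
    A * ((Fintype.piFinset fun _ : Fin (Module.finrank ℚ K) => Finset.Ico (0 : ℤ) A).filter
      (fun w => e (u + w) ∈ P)).card ≤ A ^ Module.finrank ℚ K := by
  obtain ⟨i, hi⟩ : ∃ i, e (Pi.single i 1) ∉ P := by
    by_contra hcon
    have h1 : ∀ i, e (Pi.single i 1) ∈ P := by
      intro i
      by_contra h
      exact hcon ⟨i, h⟩
    obtain ⟨v, hv⟩ := (he.mem _).1 (Ideal.absNorm_mem c)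
    have h2 : ((Ideal.absNorm c : ℤ) : 𝓞 K) ∈ P := by
      push_cast
      rw [← hv, en_expand e v]
      exact P.sum_mem (fun j _ => P.mul_mem_left _ (h1 j))
    have h3 := en_dvd_of_mem P hP.ne_top l hl hlP _ h2
    have h4 : Ideal.absNorm c ≠ 0 := fun h0 => he.ne (Ideal.absNorm_eq_zero_iff.1 h0)
    have h5 := Nat.le_of_dvd (Nat.pos_of_ne_zero h4) (Int.natCast_dvd_natCast.1 h3)
    omega
  have hc : ((Finset.Ico (0 : ℤ) A) ×ˢ
      ((Fintype.piFinset fun _ : Fin (Module.finrank ℚ K) => Finset.Ico (0 : ℤ) A).filter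
      (fun w => e (u + w) ∈ P))).card ≤
      (Fintype.piFinset fun _ : Fin (Module.finrank ℚ K) => Finset.Ico (0 : ℤ) A).card := by
    refine Finset.card_le_card_of_injOn (fun p => Function.update p.2 i p.1) ?_ ?_
    · intro p hp
      rw [Finset.mem_coe, Finset.mem_product, Finset.mem_filter, Fintype.mem_piFinset] at hp
      rw [Finset.mem_coe, Fintype.mem_piFinset]
      intro j
      by_cases hj : j = i
      · rw [hj]
        simpa using hp.1
      · simpa [Function.update_of_ne hj] using hp.2.1 j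
    · intro p hp q hq hpq
      rw [Finset.mem_coe, Finset.mem_product, Finset.mem_filter, Fintype.mem_piFinset] at hp hq
      have h1 : p.1 = q.1 := by simpa using congrFun hpq i
      have h2 : ∀ j, j ≠ i → p.2 j = q.2 j := by
        intro j hj
        simpa [Function.update_of_ne hj] using congrFun hpq j
      have h3 : (u + p.2) - (u + q.2) =
          (p.2 i - q.2 i) • (Pi.single i 1 : Fin (Module.finrank ℚ K) → ℤ) := by
        ext j
        by_cases hj : j = i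
        · rw [hj]
          simp
        · simp [Pi.single_eq_of_ne hj, h2 j hj]
      have h4 : ((p.2 i - q.2 i : ℤ) : 𝓞 K) * e (Pi.single i 1) ∈ P := by
        rw [← zsmul_eq_mul, ← map_zsmul, ← h3, map_sub]
        exact P.sub_mem hp.2.2 hq.2.2
      have h5 := en_dvd_of_mem P hP.ne_top l hl hlP _ ((hP.mem_or_mem h4).resolve_right hi)
      have h6 := Finset.mem_Ico.1 (hp.2.1 i)
      have h7 := Finset.mem_Ico.1 (hq.2.1 i)
      have h8 : p.2 i - q.2 i = 0 := by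
        refine Int.eq_zero_of_abs_lt_dvd h5 ?_
        have h9 : (A : ℤ) ≤ l := by exact_mod_cast hA
        rw [abs_lt]
        constructor <;> linarith [h6.1, h6.2, h7.1, h7.2]
      refine Prod.ext h1 (funext (fun j => ?_))
      by_cases hj : j = i
      · rw [hj]
        linarith
      · exact h2 j hj
  rw [Finset.card_product, Fintype.card_piFinset, Finset.prod_const, Finset.card_univ,
    Fintype.card_fin, Int.card_Ico] at hc
  simpa using hc

/-- The coset count with a nonnegative constant. -/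
lemma en_coset (c : Ideal (𝓞 K)) (e : (Fin (Module.finrank ℚ K) → ℤ) →+ 𝓞 K)
    (he : Lat c e) : ∃ C : ℝ, 0 ≤ C ∧ ∀ (h : Ideal (𝓞 K)), h ≠ ⊥ → ∀ N : ℕ,
    ∀ S : Finset (Fin (Module.finrank ℚ K) → ℤ), S ⊆ box K N →
    (∀ v ∈ S, ∀ w ∈ S, e v - e w ∈ h) →
    (S.card : ℝ) ≤ C * (1 + (N : ℝ) ^ Module.finrank ℚ K / Ideal.absNorm h) := by
  obtain ⟨C, hC⟩ := count_coset c e he
  refine ⟨max C 0, le_max_right _ _, fun h hh N S hS hcos => le_trans (hC h hh N S hS hcos) ?_⟩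
  exact mul_le_mul_of_nonneg_right (le_max_left _ _) (by positivity)

lemma en_absNorm_pos {D : Ideal (𝓞 K)} (hD : D ≠ ⊥) : (0 : ℝ) < Ideal.absNorm D := by
  have : Ideal.absNorm D ≠ 0 := fun h0 => hD (Ideal.absNorm_eq_zero_iff.1 h0)
  exact_mod_cast Nat.pos_of_ne_zero this

lemma en_absNorm_le {D : Ideal (𝓞 K)} {x : 𝓞 K} (hx : x ∈ D) (h0 : x ≠ 0) :
    Ideal.absNorm D ≤ Ideal.absNorm (Ideal.span {x}) := by
  refine Nat.le_of_dvd (Nat.pos_of_ne_zero ?_)
    (Ideal.absNorm_dvd_absNorm_of_le ((Ideal.span_singleton_le_iff_mem _).2 hx))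
  rw [Ne, Ideal.absNorm_eq_zero_iff, Ideal.span_singleton_eq_bot]
  exact h0

/-- The sum of the norms of greatest common divisors. -/
lemma en_gcd_sum (c : Ideal (𝓞 K)) (e : (Fin (Module.finrank ℚ K) → ℤ) →+ 𝓞 K)
    (he : Lat c e) : ∃ C : ℝ, 0 ≤ C ∧ ∀ M j : ℕ,
      ∀ T : Finset (Fin (Module.finrank ℚ K) → ℤ), T ⊆ box K M → (∀ a ∈ T, e a ≠ 0) →
      (∀ a ∈ T, Ideal.absNorm (Ideal.span {e a}) ≤ 2 ^ j) →
      ∑ p ∈ T ×ˢ T, (Ideal.absNorm (Ideal.span {e p.1} ⊔ Ideal.span {e p.2}) : ℝ) ≤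
        C * ((M : ℝ) ^ Module.finrank ℚ K) ^ 2 * (1 + j) := by
  classical
  obtain ⟨c0, hc0, hhouse⟩ := en_house e
  obtain ⟨C0, hC0, hcos⟩ := en_coset c e he
  obtain ⟨C2, hC2, hharm⟩ := en_harm K
  refine ⟨(C0 * (2 * c0 ^ Module.finrank ℚ K)) ^ 2 * C2, by positivity, ?_⟩
  intro M j T hT hne hj
  obtain ⟨W, hW⟩ : ∃ W : ℝ, W = (M : ℝ) ^ Module.finrank ℚ K := ⟨_, rfl⟩
  obtain ⟨Q, hQ⟩ : ∃ Q : ℝ, Q = c0 ^ Module.finrank ℚ K := ⟨_, rfl⟩
  have hW0 : 0 ≤ W := by rw [hW]; positivity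
  have hQ1 : 1 ≤ Q := by rw [hQ]; exact one_le_pow₀ hc0
  rw [← hW, ← hQ]
  let g : (Fin (Module.finrank ℚ K) → ℤ) × (Fin (Module.finrank ℚ K) → ℤ) → Ideal (𝓞 K) :=
    fun p => Ideal.span {e p.1} ⊔ Ideal.span {e p.2}
  have hg1 : ∀ p, e p.1 ∈ g p := fun p => Ideal.mem_sup_left (Ideal.mem_span_singleton_self _)
  have hg2 : ∀ p, e p.2 ∈ g p := fun p => Ideal.mem_sup_right (Ideal.mem_span_singleton_self _)
  have hF : ∀ D ∈ (T ×ˢ T).image g, ∃ a ∈ T, e a ∈ D := by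
    intro D hD
    obtain ⟨p, hp, rfl⟩ := Finset.mem_image.1 hD
    exact ⟨p.1, (Finset.mem_product.1 hp).1, hg1 p⟩
  have h1 := Finset.sum_comp (s := T ×ˢ T) (fun D : Ideal (𝓞 K) => (Ideal.absNorm D : ℝ)) g
  have h2 := hharm j ((T ×ˢ T).image g) (fun D hD => by
    obtain ⟨a, ha, haD⟩ := hF D hD
    exact le_trans (en_absNorm_le haD (hne a ha)) (hj a ha))
  have h3 : ∀ D ∈ (T ×ˢ T).image g,
      ((T ×ˢ T).filter (fun p => g p = D)).card • (Ideal.absNorm D : ℝ) ≤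
        (C0 * (2 * Q) * W) ^ 2 * (1 / Ideal.absNorm D) := by
    intro D hD
    obtain ⟨a, ha, haD⟩ := hF D hD
    have hD0 : D ≠ ⊥ := by
      intro h
      rw [h, Ideal.mem_bot] at haD
      exact hne a ha haD
    have hn := en_absNorm_pos hD0
    have h4 : (Ideal.absNorm D : ℝ) ≤ Q * W := by
      have h5 : (Ideal.absNorm D : ℝ) ≤ Ideal.absNorm (Ideal.span {e a}) := by
        exact_mod_cast en_absNorm_le haD (hne a ha)
      have h6 := en_norm_le (e a) _ (hhouse a M (Nat.cast_nonneg _) (en_box_abs (hT ha)))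
      rw [mul_pow, ← hW, ← hQ] at h6
      linarith
    have h5 := hcos D hD0 M (T.filter (fun a => e a ∈ D))
      (le_trans (Finset.filter_subset _ _) hT)
      (fun v hv w hw => D.sub_mem (Finset.mem_filter.1 hv).2 (Finset.mem_filter.1 hw).2)
    rw [← hW] at h5
    have h6 : 1 + W / Ideal.absNorm D ≤ 2 * Q * W / Ideal.absNorm D := by
      rw [le_div_iff₀ hn, add_mul, div_mul_cancel₀ _ hn.ne']
      nlinarith
    have h7 : ((T.filter (fun a => e a ∈ D)).card : ℝ) ≤ C0 * (2 * Q * W / Ideal.absNorm D) :=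
      le_trans h5 (mul_le_mul_of_nonneg_left h6 hC0)
    have h8 : ((T ×ˢ T).filter (fun p => g p = D)).card ≤
        (T.filter (fun a => e a ∈ D)).card ^ 2 := by
      rw [sq, ← Finset.card_product]
      refine Finset.card_le_card (fun p hp => ?_)
      obtain ⟨hp1, hp2⟩ := Finset.mem_filter.1 hp
      obtain ⟨hp3, hp4⟩ := Finset.mem_product.1 hp1
      exact Finset.mem_product.2 ⟨Finset.mem_filter.2 ⟨hp3, hp2 ▸ hg1 p⟩,
        Finset.mem_filter.2 ⟨hp4, hp2 ▸ hg2 p⟩⟩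
    have h9 : (((T ×ˢ T).filter (fun p => g p = D)).card : ℝ) ≤
        (C0 * (2 * Q * W / Ideal.absNorm D)) ^ 2 := by
      refine le_trans ?_ (pow_le_pow_left₀ (Nat.cast_nonneg _) h7 2)
      exact_mod_cast h8
    rw [nsmul_eq_mul]
    refine le_trans (mul_le_mul_of_nonneg_right h9 hn.le) (le_of_eq ?_)
    field_simp
  refine le_trans (le_of_eq h1) (le_trans (Finset.sum_le_sum h3) ?_)
  rw [← Finset.mul_sum]
  refine le_trans (mul_le_mul_of_nonneg_left h2 (by positivity)) (le_of_eq ?_)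
  ring

/-- Multiples of `y` divisible by `x` come from the ideal `(x) / gcd (x, y)`. -/
lemma en_colon (x y : 𝓞 K) (hx : x ≠ 0) : ∃ h : Ideal (𝓞 K), h ≠ ⊥ ∧
    Ideal.absNorm (Ideal.span {x} ⊔ Ideal.span {y}) * Ideal.absNorm h =
      Ideal.absNorm (Ideal.span {x}) ∧ ∀ z, z * y ∈ Ideal.span {x} → z ∈ h := by
  obtain ⟨h, hh⟩ : (Ideal.span {x} ⊔ Ideal.span {y}) ∣ Ideal.span {x} :=
    Ideal.dvd_iff_le.2 le_sup_left
  have hx0 : Ideal.span {x} ≠ ⊥ := by
    rw [Ne, Ideal.span_singleton_eq_bot]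
    exact hx
  have hg : Ideal.span {x} ⊔ Ideal.span {y} ≠ ⊥ := by
    intro h0
    exact hx0 (le_bot_iff.1 (h0 ▸ le_sup_left))
  refine ⟨h, ?_, ?_, fun z hz => ?_⟩
  · intro h0
    rw [h0, Ideal.mul_bot] at hh
    exact hx0 hh
  · rw [← map_mul, ← hh]
  · have h1 : (Ideal.span {x} ⊔ Ideal.span {y}) * Ideal.span {z} ≤ Ideal.span {x} := by
      rw [Ideal.sup_mul, Ideal.span_singleton_mul_span_singleton,
        Ideal.span_singleton_mul_span_singleton, sup_le_iff, Ideal.span_singleton_le_iff_mem,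
        Ideal.span_singleton_le_iff_mem]
      exact ⟨Ideal.mul_mem_right _ _ (Ideal.mem_span_singleton_self _), by rwa [mul_comm]⟩
    have h2 : (Ideal.span {x} ⊔ Ideal.span {y}) * h ∣
        (Ideal.span {x} ⊔ Ideal.span {y}) * Ideal.span {z} := by
      rw [← hh]
      exact Ideal.dvd_iff_le.2 h1
    have h3 : h ∣ Ideal.span {z} := (mul_dvd_mul_iff_left hg).1 h2
    exact (Ideal.span_singleton_le_iff_mem _).1 (Ideal.dvd_iff_le.1 h3)

open Classical in
/-- The number of exact coincidences. -/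
lemma en_exact (c : Ideal (𝓞 K)) (e : (Fin (Module.finrank ℚ K) → ℤ) →+ 𝓞 K)
    (he : Lat c e) : ∃ C : ℝ, 0 ≤ C ∧ ∀ (N : ℕ) (L : ℝ), 0 < L →
      ∀ T : Finset (Fin (Module.finrank ℚ K) → ℤ),
      (∀ a ∈ T, L ≤ Ideal.absNorm (Ideal.span {e a})) →
      ((((box K N ×ˢ T) ×ˢ (box K N ×ˢ T)).filter fun z =>
          e z.1.1 * e z.2.2 = e z.2.1 * e z.1.2).card : ℝ) ≤
        C * ((T.card : ℝ) ^ 2 + (N : ℝ) ^ Module.finrank ℚ K / L *
          ∑ p ∈ T ×ˢ T, (Ideal.absNorm (Ideal.span {e p.1} ⊔ Ideal.span {e p.2}) : ℝ)) := by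
  obtain ⟨C0, hC0, hcos⟩ := en_coset c e he
  refine ⟨C0, hC0, fun N L hL T hT => ?_⟩
  have hne : ∀ a ∈ T, e a ≠ 0 := by
    intro a ha h0
    have h1 := hT a ha
    rw [h0, Ideal.span_singleton_eq_bot.2 rfl, Ideal.absNorm_bot, Nat.cast_zero] at h1
    linarith
  rw [Finset.card_eq_sum_card_fiberwise (f := fun z => (z.1.2, z.2.2)) (t := T ×ˢ T) (by
    intro z hz
    rw [Finset.mem_coe, Finset.mem_filter, Finset.mem_product, Finset.mem_product,
      Finset.mem_product] at hz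
    exact Finset.mem_coe.2 (Finset.mem_product.2 ⟨hz.1.1.2, hz.1.2.2⟩))]
  have e1 : (T.card : ℝ) ^ 2 = ∑ _p ∈ T ×ˢ T, (1 : ℝ) := by
    rw [Finset.sum_const, Finset.card_product, nsmul_eq_mul]
    push_cast
    ring
  rw [e1, Finset.mul_sum, ← Finset.sum_add_distrib, Finset.mul_sum, Nat.cast_sum]
  refine Finset.sum_le_sum (fun p hp => ?_)
  obtain ⟨hp1, hp2⟩ := Finset.mem_product.1 hp
  obtain ⟨h, hh0, hhn, hh⟩ := en_colon (e p.1) (e p.2) (hne _ hp1)
  have h1 := hcos h hh0 N ((box K N).filter (fun v => e v ∈ h)) (Finset.filter_subset _ _)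
    (fun v hv w hw => h.sub_mem (Finset.mem_filter.1 hv).2 (Finset.mem_filter.1 hw).2)
  have h2 : ((((box K N ×ˢ T) ×ˢ (box K N ×ˢ T)).filter fun z =>
      e z.1.1 * e z.2.2 = e z.2.1 * e z.1.2).filter (fun z => (z.1.2, z.2.2) = p)).card ≤
      ((box K N).filter (fun v => e v ∈ h)).card := by
    refine Finset.card_le_card_of_injOn (fun z => z.1.1) ?_ ?_
    · intro z hz
      rw [Finset.mem_coe, Finset.mem_filter, Finset.mem_filter, Finset.mem_product,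
        Finset.mem_product, Finset.mem_product] at hz
      obtain ⟨⟨hz1, hz2⟩, hz3⟩ := hz
      refine Finset.mem_coe.2 (Finset.mem_filter.2 ⟨hz1.1.1, hh _ ?_⟩)
      rw [← hz3]
      show e z.1.1 * e z.2.2 ∈ Ideal.span {e z.1.2}
      rw [hz2]
      exact Ideal.mul_mem_left _ _ (Ideal.mem_span_singleton_self _)
    · intro z hz w hw hzw
      rw [Finset.mem_coe, Finset.mem_filter, Finset.mem_filter] at hz hw
      have h3 : z.1.1 = w.1.1 := hzw
      have h4 : z.1.2 = p.1 := congrArg Prod.fst hz.2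
      have h5 : z.2.2 = p.2 := (Prod.ext_iff.1 hz.2).2
      have h6 : w.1.2 = p.1 := congrArg Prod.fst hw.2
      have h7 : w.2.2 = p.2 := (Prod.ext_iff.1 hw.2).2
      have h8 := hz.1.2
      have h9 := hw.1.2
      rw [h3, h4, h5] at h8
      rw [h6, h7, h8] at h9
      have h10 : z.2.1 = w.2.1 := he.inj (mul_right_cancel₀ (hne _ hp1) h9)
      exact Prod.ext (Prod.ext h3 (h4.trans h6.symm)) (Prod.ext h10 (h5.trans h7.symm))
  refine le_trans (Nat.cast_le.2 h2) (le_trans h1 (mul_le_mul_of_nonneg_left ?_ hC0))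
  have hn := en_absNorm_pos hh0
  have h3 : L ≤ (Ideal.absNorm (Ideal.span {e p.1} ⊔ Ideal.span {e p.2}) : ℝ) *
      Ideal.absNorm h := by
    have h4 := hT _ hp1
    rw [← hhn] at h4
    exact_mod_cast h4
  have h4 : (1 : ℝ) / Ideal.absNorm h ≤
      (Ideal.absNorm (Ideal.span {e p.1} ⊔ Ideal.span {e p.2}) : ℝ) / L := by
    rw [div_le_div_iff₀ hn hL]
    linarith
  have h5 := mul_le_mul_of_nonneg_left h4
    (show (0 : ℝ) ≤ (N : ℝ) ^ Module.finrank ℚ K by positivity)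
  rw [mul_one_div] at h5
  have h6 : (N : ℝ) ^ Module.finrank ℚ K *
      ((Ideal.absNorm (Ideal.span {e p.1} ⊔ Ideal.span {e p.2}) : ℝ) / L) =
      (N : ℝ) ^ Module.finrank ℚ K / L *
        (Ideal.absNorm (Ideal.span {e p.1} ⊔ Ideal.span {e p.2}) : ℝ) := by ring
  linarith

open Classical in
/-- The energy of a single multiplier. -/
lemma en_single (c : Ideal (𝓞 K)) (e : (Fin (Module.finrank ℚ K) → ℤ) →+ 𝓞 K)
    (he : Lat c e) : ∃ C : ℝ, 0 ≤ C ∧ ∀ (l N : ℕ), l ≠ 0 → 1 ≤ N →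
      ∀ a : Fin (Module.finrank ℚ K) → ℤ,
      IsUnit (Ideal.Quotient.mk (Ideal.span {(l : 𝓞 K)}) (e a)) →
      ((((box K N ×ˢ {a}) ×ˢ (box K N ×ˢ {a})).filter fun z =>
          e z.1.1 * e z.2.2 - e z.2.1 * e z.1.2 ∈ Ideal.span {(l : 𝓞 K)}).card : ℝ) ≤
        C * (N : ℝ) ^ Module.finrank ℚ K * (1 + ((N : ℝ) / l) ^ Module.finrank ℚ K) := by
  obtain ⟨C0, hC0, hcos⟩ := en_coset c e he
  refine ⟨3 ^ Module.finrank ℚ K * C0, by positivity, fun l N hl hN a ha => ?_⟩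
  have hl0 : Ideal.span {(l : 𝓞 K)} ≠ ⊥ := by
    rw [Ne, Ideal.span_singleton_eq_bot]
    exact_mod_cast hl
  rw [Finset.card_eq_sum_card_fiberwise (f := fun z => z.1.1) (t := box K N) (by
    intro z hz
    rw [Finset.mem_coe, Finset.mem_filter, Finset.mem_product, Finset.mem_product] at hz
    exact Finset.mem_coe.2 hz.1.1.1), Nat.cast_sum]
  refine le_trans (Finset.sum_le_card_nsmul _ _
    (C0 * (1 + ((N : ℝ) / l) ^ Module.finrank ℚ K)) (fun v _ => ?_)) ?_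
  · have h1 := hcos _ hl0 N
      ((box K N).filter (fun w => e v * e a - e w * e a ∈ Ideal.span {(l : 𝓞 K)}))
      (Finset.filter_subset _ _) (fun w hw w' hw' => by
        have h2 := Ideal.sub_mem _ (Finset.mem_filter.1 hw').2 (Finset.mem_filter.1 hw).2
        have h3 : e v * e a - e w' * e a - (e v * e a - e w * e a) = (e w - e w') * e a := by ring
        rw [h3, ← Ideal.Quotient.eq_zero_iff_mem, map_mul] at h2
        rw [← Ideal.Quotient.eq_zero_iff_mem]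
        exact ha.mul_left_eq_zero.1 h2)
    rw [en_absNorm_nat, Nat.cast_pow, ← div_pow] at h1
    refine le_trans (Nat.cast_le.2 ?_) h1
    refine Finset.card_le_card_of_injOn (fun z => z.2.1) ?_ ?_
    · intro z hz
      rw [Finset.mem_coe, Finset.mem_filter, Finset.mem_filter, Finset.mem_product,
        Finset.mem_product, Finset.mem_product, Finset.mem_singleton, Finset.mem_singleton] at hz
      obtain ⟨⟨hz1, hz2⟩, hz3⟩ := hz
      rw [hz3, hz1.1.2, hz1.2.2] at hz2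
      exact Finset.mem_coe.2 (Finset.mem_filter.2 ⟨hz1.2.1, hz2⟩)
    · intro z hz w hw hzw
      rw [Finset.mem_coe, Finset.mem_filter, Finset.mem_filter, Finset.mem_product,
        Finset.mem_product, Finset.mem_product, Finset.mem_singleton,
        Finset.mem_singleton] at hz hw
      exact Prod.ext (Prod.ext (hz.2.trans hw.2.symm) (hz.1.1.1.2.trans hw.1.1.1.2.symm))
        (Prod.ext hzw (hz.1.1.2.2.trans hw.1.1.2.2.symm))
  · rw [nsmul_eq_mul, en_card_box]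
    have h1 : (((2 * N + 1) ^ Module.finrank ℚ K : ℕ) : ℝ) ≤
        3 ^ Module.finrank ℚ K * (N : ℝ) ^ Module.finrank ℚ K := by
      rw [← mul_pow]
      push_cast
      have h2 : (1 : ℝ) ≤ N := by exact_mod_cast hN
      exact pow_le_pow_left₀ (by positivity) (by linarith) _
    refine le_trans (mul_le_mul_of_nonneg_right h1 (by positivity)) (le_of_eq ?_)
    ring

open Classical in
/-- The set of multipliers for large `A`. -/
lemma en_set (c : Ideal (𝓞 K)) (e : (Fin (Module.finrank ℚ K) → ℤ) →+ 𝓞 K)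
    (he : Lat c e) : ∃ C1 : ℕ, 1 ≤ C1 ∧ ∀ l : ℕ, l.Prime → Ideal.absNorm c < l →
    ∀ A : ℕ, 2 * Module.finrank ℚ K ≤ A → A ≤ l →
    ∃ T : Finset (Fin (Module.finrank ℚ K) → ℤ), T ⊆ box K (C1 * A) ∧
      A ^ Module.finrank ℚ K ≤ 2 * T.card ∧ T.card ≤ A ^ Module.finrank ℚ K ∧
      (∀ a ∈ T, IsUnit (Ideal.Quotient.mk (Ideal.span {(l : 𝓞 K)}) (e a))) ∧
      ∀ a ∈ T, (A : ℝ) ^ Module.finrank ℚ K ≤ Ideal.absNorm (Ideal.span {e a}) := by
  obtain ⟨c0, hc0, hhouse⟩ := en_house e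
  obtain ⟨a0, ha0⟩ := (he.mem _).1 (Ideal.absNorm_mem c)
  have hn0 : 1 ≤ Ideal.absNorm c :=
    Nat.pos_of_ne_zero (fun h0 => he.ne (Ideal.absNorm_eq_zero_iff.1 h0))
  have hd : 0 < Module.finrank ℚ K := Module.finrank_pos
  obtain ⟨K0, hK0⟩ : ∃ K0 : ℕ, c0 + 1 ≤ K0 := exists_nat_ge _
  obtain ⟨M0, hM0⟩ : ∃ M0 : ℕ, ∀ i, |a0 i| ≤ M0 := by
    refine ⟨∑ i, (a0 i).natAbs, fun i => ?_⟩
    rw [← Int.natCast_natAbs]
    exact_mod_cast Finset.single_le_sum (f := fun i => (a0 i).natAbs)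
      (fun _ _ => Nat.zero_le _) (Finset.mem_univ i)
  refine ⟨K0 * M0 + 1, by omega, fun l hl hl0 A hA hAl => ?_⟩
  obtain ⟨F, hF1, hF2, hF3⟩ := en_primes (K := K) l hl
  obtain ⟨u, hu⟩ : ∃ u : Fin (Module.finrank ℚ K) → ℤ, u = ((K0 * A : ℕ) : ℤ) • a0 := ⟨_, rfl⟩
  obtain ⟨Cu, hCu⟩ : ∃ Cu : Finset (Fin (Module.finrank ℚ K) → ℤ),
    Cu = Fintype.piFinset fun _ : Fin (Module.finrank ℚ K) => Finset.Ico (0 : ℤ) A := ⟨_, rfl⟩
  have hCc : Cu.card = A ^ Module.finrank ℚ K := by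
    rw [hCu, Fintype.card_piFinset, Finset.prod_const, Finset.card_univ,
      Fintype.card_fin, Int.card_Ico]
    simp
  have hCm : ∀ w ∈ Cu, ∀ i, 0 ≤ w i ∧ w i < A := by
    intro w hw i
    rw [hCu, Fintype.mem_piFinset] at hw
    exact Finset.mem_Ico.1 (hw i)
  have hcard : ((Cu.filter (fun w =>
      IsUnit (Ideal.Quotient.mk (Ideal.span {(l : 𝓞 K)}) (e (u + w))))).image
        (fun w => u + w)).card = (Cu.filter (fun w =>
      IsUnit (Ideal.Quotient.mk (Ideal.span {(l : 𝓞 K)}) (e (u + w))))).card :=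
    Finset.card_image_of_injective _ (add_right_injective u)
  refine ⟨(Cu.filter (fun w =>
    IsUnit (Ideal.Quotient.mk (Ideal.span {(l : 𝓞 K)}) (e (u + w))))).image (fun w => u + w),
    ?_, ?_, ?_, ?_, ?_⟩
  · intro a ha
    obtain ⟨w, hw, rfl⟩ := Finset.mem_image.1 ha
    rw [en_mem_box]
    intro i
    obtain ⟨h1, h2⟩ := hCm w (Finset.mem_filter.1 hw).1 i
    obtain ⟨h3, h4⟩ := abs_le.1 (hM0 i)
    have h5 : (0 : ℤ) ≤ (K0 : ℤ) * A := by positivity
    have h6 := mul_le_mul_of_nonneg_left h3 h5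
    have h7 := mul_le_mul_of_nonneg_left h4 h5
    rw [hu]
    simp only [Pi.add_apply, Pi.smul_apply, smul_eq_mul]
    push_cast
    constructor <;> nlinarith
  · rw [hcard]
    have h1 := Finset.card_filter_add_card_filter_not (s := Cu) (fun w =>
      IsUnit (Ideal.Quotient.mk (Ideal.span {(l : 𝓞 K)}) (e (u + w))))
    have h2 : (Cu.filter (fun w =>
        ¬ IsUnit (Ideal.Quotient.mk (Ideal.span {(l : 𝓞 K)}) (e (u + w))))).card ≤
        ∑ P ∈ F, (Cu.filter (fun w => e (u + w) ∈ P)).card := by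
      refine le_trans (Finset.card_le_card (fun w hw => ?_)) Finset.card_biUnion_le
      obtain ⟨hw1, hw2⟩ := Finset.mem_filter.1 hw
      obtain ⟨P, hP1, hP2, hP3⟩ := en_nonunit l _ hw2
      exact Finset.mem_biUnion.2 ⟨P, hF3 P hP1 hP2, Finset.mem_filter.2 ⟨hw1, hP3⟩⟩
    have h3 : A * ∑ P ∈ F, (Cu.filter (fun w => e (u + w) ∈ P)).card ≤
        F.card * A ^ Module.finrank ℚ K := by
      rw [Finset.mul_sum, ← smul_eq_mul]
      refine Finset.sum_le_card_nsmul _ _ _ (fun P hP => ?_)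
      rw [hCu]
      exact en_few c e he l hl hl0 A hAl P (hF2 P hP).1 (hF2 P hP).2 u
    have h4 : A * (2 * ∑ P ∈ F, (Cu.filter (fun w => e (u + w) ∈ P)).card) ≤
        A * A ^ Module.finrank ℚ K := by
      have h5 : 2 * F.card * A ^ Module.finrank ℚ K ≤ A * A ^ Module.finrank ℚ K :=
        Nat.mul_le_mul_right _ (by omega)
      nlinarith
    have h5 := Nat.le_of_mul_le_mul_left h4 (by omega)
    omega
  · rw [hcard, ← hCc]
    exact Finset.card_filter_le _ _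
  · intro a ha
    obtain ⟨w, hw, rfl⟩ := Finset.mem_image.1 ha
    exact (Finset.mem_filter.1 hw).2
  · intro a ha
    obtain ⟨w, hw, rfl⟩ := Finset.mem_image.1 ha
    refine en_norm_ge _ _ (Nat.cast_nonneg _) (fun σ => ?_)
    have h1 := hhouse w A (Nat.cast_nonneg _) (fun i => by
      obtain ⟨h1, h2⟩ := hCm w (Finset.mem_filter.1 hw).1 i
      have h3 : (0 : ℝ) ≤ w i := by exact_mod_cast h1
      rw [abs_of_nonneg h3]
      exact_mod_cast h2.le) σ
    have h2 : σ (e (u + w) : K) =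
        ((K0 * A * Ideal.absNorm c : ℕ) : ℂ) + σ (e w : K) := by
      rw [map_add, hu, map_zsmul, ha0]
      simp
    have h3 := norm_sub_norm_le ((K0 * A * Ideal.absNorm c : ℕ) : ℂ) (- σ (e w : K))
    rw [sub_neg_eq_add, ← h2, norm_neg, Complex.norm_natCast] at h3
    have h4 : (K0 : ℝ) * A ≤ ((K0 * A * Ideal.absNorm c : ℕ) : ℝ) := by
      exact_mod_cast Nat.le_mul_of_pos_right _ hn0
    have h5 : (c0 + 1) * A ≤ (K0 : ℝ) * A := mul_le_mul_of_nonneg_right hK0 (Nat.cast_nonneg _)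
    linarith

open Classical in
/-- The energy bound for large `A`. -/
lemma en_big (c : Ideal (𝓞 K)) (e : (Fin (Module.finrank ℚ K) → ℤ) →+ 𝓞 K)
    (he : Lat c e) : ∃ C : ℝ, 1 ≤ C ∧ ∀ l : ℕ, l.Prime → Ideal.absNorm c < l →
    ∀ A N : ℕ, 2 * Module.finrank ℚ K ≤ A → A ≤ N → C * N * A ≤ l →
    ∃ T : Finset (Fin (Module.finrank ℚ K) → ℤ),
      (A : ℝ) ^ Module.finrank ℚ K ≤ C * T.card ∧
      (∀ a ∈ T, ∀ i, |(a i : ℝ)| ≤ C * A) ∧
      (∀ a ∈ T, IsUnit (Ideal.Quotient.mk (Ideal.span {(l : 𝓞 K)}) (e a))) ∧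
      ((((box K N ×ˢ T) ×ˢ (box K N ×ˢ T)).filter fun z =>
          e z.1.1 * e z.2.2 - e z.2.1 * e z.1.2 ∈ Ideal.span {(l : 𝓞 K)}).card : ℝ) ≤
        C * ((N : ℝ) * A) ^ Module.finrank ℚ K * (1 + Real.log l) := by
  obtain ⟨c0, hc0, hhouse⟩ := en_house e
  obtain ⟨C1, hC1, hset⟩ := en_set c e he
  obtain ⟨C2, hC2, hgcd⟩ := en_gcd_sum c e he
  obtain ⟨C3, hC3, hex⟩ := en_exact c e he
  have hd : 0 < Module.finrank ℚ K := Module.finrank_pos
  have hC1' : (1 : ℝ) ≤ C1 := by exact_mod_cast hC1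
  obtain ⟨C4, hC4⟩ : ∃ C4 : ℝ, C4 = C3 * (1 + C2 * ((C1 : ℝ) ^ Module.finrank ℚ K) ^ 2 *
    (1 + 2 * Module.finrank ℚ K)) := ⟨_, rfl⟩
  have hC40 : 0 ≤ C4 := by rw [hC4]; positivity
  have hc00 : 1 ≤ c0 * c0 * C1 := by
    have h1 : 1 ≤ c0 * c0 := by nlinarith
    nlinarith
  have hc01 : c0 * C1 ≤ c0 * c0 * C1 := by
    have h1 : c0 ≤ c0 * c0 := by nlinarith
    exact mul_le_mul_of_nonneg_right h1 (by linarith)
  have hc02 : (C1 : ℝ) ≤ c0 * C1 := by nlinarith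
  refine ⟨3 * (c0 * c0 * C1) + C4, by linarith, fun l hl hl0 A N hA hAN hC => ?_⟩
  have hA1 : (1 : ℝ) ≤ A := by exact_mod_cast (by omega : 1 ≤ A)
  have hAN' : (A : ℝ) ≤ N := by exact_mod_cast hAN
  have hN1 : (1 : ℝ) ≤ N := by linarith
  have hNA : (A : ℝ) ≤ N * A := by nlinarith
  have hC' : 3 * (c0 * c0 * C1) * (N * A) ≤ l := by
    have h1 : 0 ≤ C4 * (N * A) := by positivity
    nlinarith
  have hAl : A ≤ l := by
    have h1 : (A : ℝ) ≤ l := by nlinarith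
    exact_mod_cast h1
  obtain ⟨T, hT1, hT2, hT3, hT4, hT5⟩ := hset l hl hl0 A hA hAl
  have habs : ∀ a ∈ T, ∀ i, |(a i : ℝ)| ≤ C1 * A := by
    intro a ha i
    have h1 := en_box_abs (hT1 ha) i
    push_cast at h1
    exact h1
  refine ⟨T, ?_, fun a ha i => le_trans (habs a ha i) ?_, hT4, ?_⟩
  · have h1 : (A : ℝ) ^ Module.finrank ℚ K ≤ 2 * T.card := by exact_mod_cast hT2
    refine le_trans h1 (mul_le_mul_of_nonneg_right (by linarith) (Nat.cast_nonneg _))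
  · exact mul_le_mul_of_nonneg_right (by linarith) (by linarith)
  have hfil : (((box K N ×ˢ T) ×ˢ (box K N ×ˢ T)).filter fun z =>
      e z.1.1 * e z.2.2 - e z.2.1 * e z.1.2 ∈ Ideal.span {(l : 𝓞 K)}).card ≤
      (((box K N ×ˢ T) ×ˢ (box K N ×ˢ T)).filter fun z =>
        e z.1.1 * e z.2.2 = e z.2.1 * e z.1.2).card := by
    refine Finset.card_le_card (fun z hz => ?_)
    obtain ⟨hz1, hz2⟩ := Finset.mem_filter.1 hz
    refine Finset.mem_filter.2 ⟨hz1, ?_⟩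
    rw [Finset.mem_product, Finset.mem_product, Finset.mem_product] at hz1
    rw [← sub_eq_zero]
    refine en_eq_zero _ _ hz2 (2 * (c0 * c0 * C1) * (N * A)) (fun σ => ?_) ?_
    · have h1 := hhouse _ N (Nat.cast_nonneg _) (en_box_abs hz1.1.1) σ
      have h2 := hhouse _ N (Nat.cast_nonneg _) (en_box_abs hz1.2.1) σ
      have h3 := hhouse _ _ (by positivity) (habs _ hz1.1.2) σ
      have h4 := hhouse _ _ (by positivity) (habs _ hz1.2.2) σ
      have h5 := mul_le_mul h1 h4 (norm_nonneg _) (by positivity)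
      have h6 := mul_le_mul h2 h3 (norm_nonneg _) (by positivity)
      have h7 : σ ((e z.1.1 * e z.2.2 - e z.2.1 * e z.1.2 : 𝓞 K) : K) =
          σ (e z.1.1 : K) * σ (e z.2.2 : K) - σ (e z.2.1 : K) * σ (e z.1.2 : K) := by
        simp
      rw [h7]
      refine le_trans (norm_sub_le _ _) ?_
      rw [norm_mul, norm_mul]
      linarith
    · rw [en_absNorm_nat, Nat.cast_pow]
      refine pow_lt_pow_left₀ ?_ (by positivity) hd.ne'
      have h1 : 0 < c0 * c0 * C1 * (N * A) := by positivity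
      linarith
  have hApos : (0 : ℝ) < (A : ℝ) ^ Module.finrank ℚ K := by positivity
  have h1 := hex N _ hApos T hT5
  have hne : ∀ a ∈ T, e a ≠ 0 := by
    intro a ha h0
    have h2 := hT5 a ha
    rw [h0, Ideal.span_singleton_eq_bot.2 rfl, Ideal.absNorm_bot, Nat.cast_zero] at h2
    linarith
  have h2 := hgcd (C1 * A) (Module.finrank ℚ K * (Nat.log 2 l + 1)) T hT1 hne (fun a ha => by
    have h3 := en_norm_le (e a) _ (hhouse a _ (by positivity) (habs a ha))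
    have h4 : c0 * (C1 * A) ≤ (2 : ℝ) ^ (Nat.log 2 l + 1) := by
      have h5 : (l : ℝ) ≤ (2 : ℝ) ^ (Nat.log 2 l + 1) := by
        exact_mod_cast (Nat.lt_pow_succ_log_self one_lt_two l).le
      have h6 : c0 * C1 * A ≤ c0 * c0 * C1 * (N * A) :=
        mul_le_mul hc01 hNA (by linarith) (by linarith)
      have h7 : 0 ≤ c0 * c0 * C1 * (N * A) := by positivity
      linarith
    have h5 := pow_le_pow_left₀ (by positivity) h4 (Module.finrank ℚ K)
    rw [← pow_mul, mul_comm (Nat.log 2 l + 1)] at h5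
    have h6 := le_trans h3 h5
    exact_mod_cast h6)
  have hlog0 : 0 ≤ Real.log l := Real.log_natCast_nonneg l
  have hlog : (Nat.log 2 l : ℝ) ≤ 2 * Real.log l := by
    have h3 : ((2 : ℝ)) ^ Nat.log 2 l ≤ l := by
      exact_mod_cast Nat.pow_log_le_self 2 hl.ne_zero
    have h4 := Real.log_le_log (by positivity) h3
    rw [Real.log_pow] at h4
    have h5 := Real.log_two_gt_d9
    have h6 : (0 : ℝ) ≤ Nat.log 2 l := Nat.cast_nonneg _
    nlinarith
  have hj : (1 : ℝ) + ((Module.finrank ℚ K * (Nat.log 2 l + 1) : ℕ) : ℝ) ≤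
      (1 + 2 * Module.finrank ℚ K) * (1 + Real.log l) := by
    push_cast
    have h3 : (0 : ℝ) ≤ Module.finrank ℚ K := Nat.cast_nonneg _
    have h4 := mul_le_mul_of_nonneg_left hlog h3
    nlinarith
  have h3 : (T.card : ℝ) ≤ (A : ℝ) ^ Module.finrank ℚ K := by exact_mod_cast hT3
  have h4 : (A : ℝ) ^ Module.finrank ℚ K ≤ (N : ℝ) ^ Module.finrank ℚ K :=
    pow_le_pow_left₀ (by linarith) hAN' _
  rw [Nat.cast_mul, mul_pow] at h2
  rw [mul_pow]
  obtain ⟨X, hX⟩ : ∃ X : ℝ, X = (A : ℝ) ^ Module.finrank ℚ K := ⟨_, rfl⟩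
  obtain ⟨Y, hY⟩ : ∃ Y : ℝ, Y = (N : ℝ) ^ Module.finrank ℚ K := ⟨_, rfl⟩
  obtain ⟨Z, hZ⟩ : ∃ Z : ℝ, Z = (C1 : ℝ) ^ Module.finrank ℚ K := ⟨_, rfl⟩
  rw [← hX, ← hY] at h1 h4 ⊢
  rw [← hX] at h3 hApos
  rw [← hX, ← hZ] at h2
  rw [← hZ] at hC4
  have hY0 : 0 < Y := by linarith
  have h5 : (T.card : ℝ) ^ 2 ≤ Y * X * (1 + Real.log l) := by
    have h6 : (T.card : ℝ) ^ 2 ≤ X ^ 2 := pow_le_pow_left₀ (Nat.cast_nonneg _) h3 2
    have h7 : X ^ 2 ≤ Y * X := by nlinarith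
    have h8 : 0 ≤ Y * X * Real.log l := by positivity
    linarith
  have h6 := le_trans h2 (mul_le_mul_of_nonneg_left hj (by positivity))
  have h7 := mul_le_mul_of_nonneg_left h6 (show 0 ≤ Y / X by positivity)
  have h8 : Y / X * (C2 * (Z * X) ^ 2 * ((1 + 2 * Module.finrank ℚ K) * (1 + Real.log l))) =
      C2 * Z ^ 2 * (1 + 2 * Module.finrank ℚ K) * (Y * X * (1 + Real.log l)) := by
    field_simp
  rw [h8] at h7
  have h9 := mul_le_mul_of_nonneg_left (add_le_add h5 h7) hC3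
  have h10 : C3 * (Y * X * (1 + Real.log l) +
      C2 * Z ^ 2 * (1 + 2 * Module.finrank ℚ K) * (Y * X * (1 + Real.log l))) =
      C4 * (Y * X) * (1 + Real.log l) := by
    rw [hC4]
    ring
  rw [h10] at h9
  refine le_trans (Nat.cast_le.2 hfil) (le_trans h1 (le_trans h9 ?_))
  refine mul_le_mul_of_nonneg_right (mul_le_mul_of_nonneg_right (by linarith) ?_) (by linarith)
  positivity

open Classical in
/-- A large set of multipliers with small multiplicative energy modulo `l`. -/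
theorem energy (c : Ideal (𝓞 K)) (e : (Fin (Module.finrank ℚ K) → ℤ) →+ 𝓞 K)
    (he : Lat c e) : ∃ (C : ℝ) (l0 : ℕ), 1 ≤ C ∧ ∀ l : ℕ, l.Prime → l0 < l →
    ∀ A N : ℕ, 1 ≤ A → A ≤ N → (A = 1 ∨ C * N * A ≤ l) →
    ∃ T : Finset (Fin (Module.finrank ℚ K) → ℤ),
      (A : ℝ) ^ Module.finrank ℚ K ≤ C * T.card ∧
      (∀ a ∈ T, ∀ i, |(a i : ℝ)| ≤ C * A) ∧
      (∀ a ∈ T, IsUnit (Ideal.Quotient.mk (Ideal.span {(l : 𝓞 K)}) (e a))) ∧
      ((((box K N ×ˢ T) ×ˢ (box K N ×ˢ T)).filter fun z =>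
          e z.1.1 * e z.2.2 - e z.2.1 * e z.1.2 ∈ Ideal.span {(l : 𝓞 K)}).card : ℝ) ≤
        C * ((N : ℝ) * A) ^ Module.finrank ℚ K * (1 + Real.log l) *
          (1 + ((N : ℝ) / l) ^ Module.finrank ℚ K) := by
  obtain ⟨C1, hC1, hsingle⟩ := en_single c e he
  obtain ⟨C2, hC2, hbig⟩ := en_big c e he
  obtain ⟨a0, ha0⟩ := (he.mem _).1 (Ideal.absNorm_mem c)
  have hd : 0 < Module.finrank ℚ K := Module.finrank_pos
  have hM : ∀ i, |(a0 i : ℝ)| ≤ ∑ j, |(a0 j : ℝ)| := fun i =>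
    Finset.single_le_sum (f := fun j => |(a0 j : ℝ)|) (fun _ _ => abs_nonneg _)
      (Finset.mem_univ i)
  have hM0 : 0 ≤ ∑ j, |(a0 j : ℝ)| := Finset.sum_nonneg (fun _ _ => abs_nonneg _)
  have hD0 : (0 : ℝ) ≤ (2 * Module.finrank ℚ K : ℝ) ^ Module.finrank ℚ K := by positivity
  refine ⟨C1 + C2 + ∑ j, |(a0 j : ℝ)| + (2 * Module.finrank ℚ K : ℝ) ^ Module.finrank ℚ K,
    Ideal.absNorm c, by linarith, fun l hl hl0 A N hA hAN hor => ?_⟩
  have hA1 : (1 : ℝ) ≤ A := by exact_mod_cast hA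
  have hlog0 : 0 ≤ Real.log l := Real.log_natCast_nonneg l
  have hNl : (0 : ℝ) ≤ ((N : ℝ) / l) ^ Module.finrank ℚ K := by positivity
  by_cases hA2 : 2 * Module.finrank ℚ K ≤ A
  · have h1 := hor.resolve_left (by omega)
    obtain ⟨T, hT1, hT2, hT3, hT4⟩ := hbig l hl hl0 A N hA2 hAN (le_trans
      (mul_le_mul_of_nonneg_right (mul_le_mul_of_nonneg_right (by linarith) (Nat.cast_nonneg _))
        (Nat.cast_nonneg _)) h1)
    refine ⟨T, le_trans hT1 (mul_le_mul_of_nonneg_right (by linarith) (Nat.cast_nonneg _)),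
      fun a ha i => le_trans (hT2 a ha i) (mul_le_mul_of_nonneg_right (by linarith) (by linarith)),
      hT3, le_trans hT4 ?_⟩
    refine le_trans ?_ (le_mul_of_one_le_right (by positivity) (by linarith))
    exact mul_le_mul_of_nonneg_right (mul_le_mul_of_nonneg_right (by linarith) (by positivity))
      (by linarith)
  · have hu : IsUnit (Ideal.Quotient.mk (Ideal.span {(l : 𝓞 K)}) (e a0)) := by
      by_contra hu
      obtain ⟨P, hP1, hP2, hP3⟩ := en_nonunit l _ hu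
      have h3 := en_dvd_of_mem P hP1.ne_top l hl hP2 (Ideal.absNorm c) (by
        rw [ha0] at hP3
        exact_mod_cast hP3)
      have h4 : Ideal.absNorm c ≠ 0 := fun h0 => he.ne (Ideal.absNorm_eq_zero_iff.1 h0)
      have h5 := Nat.le_of_dvd (Nat.pos_of_ne_zero h4) (Int.natCast_dvd_natCast.1 h3)
      omega
    refine ⟨{a0}, ?_, ?_, ?_, le_trans (hsingle l N hl.ne_zero (le_trans hA hAN) a0 hu) ?_⟩
    · have h1 : (A : ℝ) ≤ 2 * Module.finrank ℚ K := by exact_mod_cast (not_le.1 hA2).le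
      have h2 := pow_le_pow_left₀ (by linarith) h1 (Module.finrank ℚ K)
      rw [Finset.card_singleton, Nat.cast_one, mul_one]
      linarith
    · intro a ha i
      rw [Finset.mem_singleton.1 ha]
      refine le_trans (hM i) (le_trans ?_ (le_mul_of_one_le_right (by linarith) hA1))
      linarith
    · intro a ha
      rw [Finset.mem_singleton.1 ha]
      exact hu
    · refine mul_le_mul_of_nonneg_right ?_ (by linarith)
      refine le_trans ?_ (le_mul_of_one_le_right (by positivity) (by linarith))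
      refine mul_le_mul (by linarith) ?_ (by positivity) (by linarith)
      exact pow_le_pow_left₀ (Nat.cast_nonneg _)
        (le_mul_of_one_le_right (Nat.cast_nonneg _) hA1) _

end Pool.Agent.Lib.MP_e97e2b_nt
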