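import Pool.Agent.Lib.MP_e97e2b_nt.ABasic

/- Elementary estimates for weighted lattice sums. -/

namespace Pool.Agent.Lib.MP_e97e2b_nt

variable {ι : Type} [Fintype ι]

/-- A box of lattice points containing the supports of all weights shifted by at most `1`. -/
theorem la_box (ρ H : ℝ) (hH : 1 ≤ H) : ∃ B : Finset (ι → ℤ),
    (B.card : ℝ) ≤ (2 * |ρ| + 5) ^ Fintype.card ι * H ^ Fintype.card ι ∧
    ∀ v ∉ B, ∀ τ : ι → ℝ, ‖τ‖ ≤ 1 → ρ < ‖(fun i => (v i : ℝ) / H) + τ‖ := by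
  classical
  have hH0 : 0 < H := by linarith
  have hρ := abs_nonneg ρ
  set N : ℕ := ⌈(|ρ| + 1) * H⌉₊ with hN
  have hN1 : (|ρ| + 1) * H ≤ N := Nat.le_ceil _
  have hN2 : (N : ℝ) < (|ρ| + 1) * H + 1 := Nat.ceil_lt_add_one (by positivity)
  refine ⟨Fintype.piFinset fun _ => Finset.Icc (-(N : ℤ)) N, ?_, ?_⟩
  · rw [Fintype.card_piFinset, Finset.prod_const, Finset.card_univ, Int.card_Icc, ← mul_pow]
    have h1 : ((N : ℤ) + 1 - -(N : ℤ)).toNat = 2 * N + 1 := by omega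
    rw [h1]
    push_cast
    refine pow_le_pow_left₀ (by positivity) ?_ _
    nlinarith
  · intro v hv τ hτ
    rw [Fintype.mem_piFinset, not_forall] at hv
    obtain ⟨i, hi⟩ := hv
    have h1 : (N : ℤ) + 1 ≤ |v i| := by
      rw [Finset.mem_Icc] at hi
      rcases abs_cases (v i) with h | h <;> omega
    have h2 : (N : ℝ) + 1 ≤ |(v i : ℝ)| := by exact_mod_cast h1
    have h3 : |τ i| ≤ 1 := (norm_le_pi_norm τ i).trans hτ
    have h4 : |ρ| + 1 < |(v i : ℝ) / H| := by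
      rw [abs_div, abs_of_pos hH0, lt_div_iff₀ hH0]
      linarith
    have h5 := norm_le_pi_norm ((fun i => (v i : ℝ) / H) + τ) i
    have h6 : |(v i : ℝ) / H| ≤ |(v i : ℝ) / H + τ i| + |τ i| := by
      have h7 := abs_sub ((v i : ℝ) / H + τ i) (τ i)
      rwa [add_sub_cancel_right] at h7
    have h8 := le_abs_self ρ
    rw [Pi.add_apply, Real.norm_eq_abs] at h5
    linarith

theorem la_summable {ρ Λ : ℝ} {F : (ι → ℝ) → ℝ} (hF : Wt ρ Λ F) {H : ℝ} (hH : 1 ≤ H)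
    (g : (ι → ℤ) → ℝ) : Summable fun v : ι → ℤ => g v * F fun i => (v i : ℝ) / H := by
  obtain ⟨B, -, hB⟩ := la_box (ι := ι) ρ H hH
  refine summable_of_ne_finset_zero (s := B) fun v hv => ?_
  have h1 := hB v hv 0 (by simp)
  rw [add_zero] at h1
  rw [hF.supp _ h1, mul_zero]

/-- The trivial bound. -/
theorem la_triv {ρ Λ : ℝ} {F : (ι → ℝ) → ℝ} (hF : Wt ρ Λ F) {H : ℝ} (hH : 1 ≤ H)
    (g : (ι → ℤ) → ℝ) (hg : ∀ v, |g v| ≤ 1) :
    |LS g F H| ≤ (2 * |ρ| + 5) ^ Fintype.card ι * H ^ Fintype.card ι := by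
  obtain ⟨B, hc, hB⟩ := la_box (ι := ι) ρ H hH
  have h0 : LS g F H = ∑ v ∈ B, g v * F fun i => (v i : ℝ) / H := by
    refine tsum_eq_sum fun v hv => ?_
    have h1 := hB v hv 0 (by simp)
    rw [add_zero] at h1
    rw [hF.supp _ h1, mul_zero]
  rw [h0]
  refine (Finset.abs_sum_le_sum_abs _ _).trans (le_trans ?_ hc)
  refine (Finset.sum_le_card_nsmul _ _ 1 fun v _ => ?_).trans (by simp)
  rw [abs_mul]
  exact mul_le_one₀ (hg v) (abs_nonneg _) (hF.bdd _)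

/-- Real shifts of the weight. -/
theorem la_basic {ρ Λ : ℝ} {F : (ι → ℝ) → ℝ} (hΛ : 0 ≤ Λ) (hF : Wt ρ Λ F) {H : ℝ} (hH : 1 ≤ H)
    (g : (ι → ℤ) → ℝ) (hg : ∀ v, |g v| ≤ 1) (τ : ι → ℝ) {t : ℝ} (hτ : ‖τ‖ ≤ t) (ht : t ≤ 1) :
    |∑' v : ι → ℤ, g v * F ((fun i => (v i : ℝ) / H) + τ) - LS g F H| ≤
      (2 * |ρ| + 5) ^ Fintype.card ι * H ^ Fintype.card ι * (Λ * t) := by
  obtain ⟨B, hc, hB⟩ := la_box (ι := ι) ρ H hH
  have ht0 : 0 ≤ t := (norm_nonneg τ).trans hτ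
  have h0 : LS g F H = ∑ v ∈ B, g v * F fun i => (v i : ℝ) / H := by
    refine tsum_eq_sum fun v hv => ?_
    have h1 := hB v hv 0 (by simp)
    rw [add_zero] at h1
    rw [hF.supp _ h1, mul_zero]
  have h1 : ∑' v : ι → ℤ, g v * F ((fun i => (v i : ℝ) / H) + τ) =
      ∑ v ∈ B, g v * F ((fun i => (v i : ℝ) / H) + τ) :=
    tsum_eq_sum fun v hv => by rw [hF.supp _ (hB v hv τ (hτ.trans ht)), mul_zero]
  rw [h0, h1, ← Finset.sum_sub_distrib]
  refine (Finset.abs_sum_le_sum_abs _ _).trans ?_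
  refine (Finset.sum_le_card_nsmul _ _ (Λ * t) fun v _ => ?_).trans ?_
  · rw [← mul_sub, abs_mul]
    have h2 := hF.lip ((fun i => (v i : ℝ) / H) + τ) fun i => (v i : ℝ) / H
    rw [add_sub_cancel_left] at h2
    have h3 : Λ * ‖τ‖ ≤ Λ * t := mul_le_mul_of_nonneg_left hτ hΛ
    exact (mul_le_of_le_one_left (abs_nonneg _) (hg v)).trans (h2.trans h3)
  · rw [nsmul_eq_mul]
    exact mul_le_mul_of_nonneg_right hc (mul_nonneg hΛ ht0)

omit [Fintype ι] in
/-- Division with remainder in each coordinate. -/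
theorem la_bij (k : ℕ) (hk : 1 ≤ k) : Function.Bijective
    fun (p : (ι → Fin k) × (ι → ℤ)) (i : ι) => (k : ℤ) * p.2 i + ((p.1 i : ℕ) : ℤ) := by
  have hk0 : (0 : ℤ) < k := by exact_mod_cast hk
  constructor
  · rintro ⟨s, w⟩ ⟨s', w'⟩ h
    have h1 : ∀ i, w i = w' i ∧ s i = s' i := by
      intro i
      have h2 : (k : ℤ) * w i + ((s i : ℕ) : ℤ) = (k : ℤ) * w' i + ((s' i : ℕ) : ℤ) :=
        congrFun h i
      have h3 : ((s i : ℕ) : ℤ) < k := by exact_mod_cast (s i).2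
      have h4 : ((s' i : ℕ) : ℤ) < k := by exact_mod_cast (s' i).2
      have h5 : (0 : ℤ) ≤ ((s i : ℕ) : ℤ) := Int.natCast_nonneg _
      have h6 : (0 : ℤ) ≤ ((s' i : ℕ) : ℤ) := Int.natCast_nonneg _
      have h7 : w i = w' i := by
        apply le_antisymm
        · by_contra h8
          have h9 : w' i + 1 ≤ w i := by omega
          nlinarith
        · by_contra h8
          have h9 : w i + 1 ≤ w' i := by omega
          nlinarith
      refine ⟨h7, Fin.ext ?_⟩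
      rw [h7] at h2
      omega
    exact Prod.ext (funext fun i => (h1 i).2) (funext fun i => (h1 i).1)
  · intro v
    have h1 : ∀ i, (v i % k).toNat < k := by
      intro i
      have h2 := Int.emod_lt_of_pos (v i) hk0
      have h3 := Int.emod_nonneg (v i) hk0.ne'
      omega
    refine ⟨(fun i => ⟨_, h1 i⟩, fun i => v i / k), funext fun i => ?_⟩
    have h3 := Int.emod_nonneg (v i) hk0.ne'
    change (k : ℤ) * (v i / k) + (((v i % k).toNat : ℕ) : ℤ) = v i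
    rw [Int.toNat_of_nonneg h3]
    exact Int.mul_ediv_add_emod _ _

theorem la_split [DecidableEq ι] (k : ℕ) (hk : 1 ≤ k) (Φ : (ι → ℤ) → ℝ) (hΦ : Summable Φ) :
    ∑' v, Φ v = ∑ s : ι → Fin k, ∑' w : ι → ℤ, Φ fun i => (k : ℤ) * w i + ((s i : ℕ) : ℤ) := by
  have h1 := (Equiv.ofBijective _ (la_bij (ι := ι) k hk)).tsum_eq Φ
  have h2 := (Equiv.ofBijective _ (la_bij (ι := ι) k hk)).summable_iff.mpr hΦ
  rw [← h1]
  refine (h2.tsum_prod).trans ?_
  rw [tsum_fintype]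
  rfl

theorem la_norm (k : ℕ) (s : ι → Fin k) {T : ℝ} (hT : 0 < T) :
    ‖fun i => ((s i : ℕ) : ℝ) / T‖ ≤ k / T := by
  refine (pi_norm_le_iff_of_nonneg (by positivity)).mpr fun i => ?_
  rw [Real.norm_eq_abs, abs_of_nonneg (by positivity)]
  refine div_le_div_of_nonneg_right ?_ hT.le
  exact_mod_cast (s i).2.le

/-- Integer shifts. -/
theorem LS_shift (ρ : ℝ) : ∃ C : ℝ, ∀ (Λ : ℝ) (F : (ι → ℝ) → ℝ), 0 ≤ Λ → Wt ρ Λ F →
    ∀ (H σ : ℝ), 1 ≤ H → 0 ≤ σ → σ ≤ H → ∀ g : (ι → ℤ) → ℝ, (∀ v, |g v| ≤ 1) →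
    ∀ s : ι → ℤ, (∀ i, |(s i : ℝ)| ≤ σ) →
    |LS g F H - LS (fun v => g (v + s)) F H| ≤ C * Λ * H ^ Fintype.card ι * (σ / H) := by
  refine ⟨(2 * |ρ| + 5) ^ Fintype.card ι, fun Λ F hΛ hF H σ hH hσ hσH g hg s hs => ?_⟩
  have hH0 : 0 < H := by linarith
  have h1 : ‖fun i => (s i : ℝ) / H‖ ≤ σ / H := by
    refine (pi_norm_le_iff_of_nonneg (by positivity)).mpr fun i => ?_
    rw [Real.norm_eq_abs, abs_div, abs_of_pos hH0]
    exact div_le_div_of_nonneg_right (hs i) hH0.le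
  have h2 := la_basic hΛ hF hH (fun v => g (v + s)) (fun v => hg _) _ h1
    ((div_le_one hH0).mpr hσH)
  have h3 : LS g F H = ∑' v : ι → ℤ,
      g (v + s) * F ((fun i => (v i : ℝ) / H) + fun i => (s i : ℝ) / H) := by
    rw [LS, ← (Equiv.addRight s).tsum_eq]
    refine tsum_congr fun v => ?_
    rw [Equiv.coe_addRight]
    refine congrArg _ (congrArg _ (funext fun i => ?_))
    simp only [Pi.add_apply, Int.cast_add, add_div]
  rw [h3]
  refine h2.trans (le_of_eq ?_)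
  ring

/-- Scaling by an integer factor. -/
theorem LS_scale (ρ : ℝ) : ∃ C : ℝ, ∀ (Λ : ℝ) (F : (ι → ℝ) → ℝ), 0 ≤ Λ → Wt ρ Λ F →
    ∀ H : ℝ, 1 ≤ H → ∀ k : ℕ, 1 ≤ k →
    |LS (fun _ => 1) F (k * H) - (k : ℝ) ^ Fintype.card ι * LS (fun _ => 1) F H| ≤
      C * Λ * (k : ℝ) ^ Fintype.card ι * (H ^ Fintype.card ι / H) := by
  classical
  refine ⟨(2 * |ρ| + 5) ^ Fintype.card ι, fun Λ F hΛ hF H hH k hk => ?_⟩
  have hH0 : 0 < H := by linarith
  have hk1 : (1 : ℝ) ≤ k := by exact_mod_cast hk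
  have hk0 : (0 : ℝ) < k := by linarith
  have hkH : 1 ≤ (k : ℝ) * H := one_le_mul_of_one_le_of_one_le hk1 hH
  have hc : (Finset.univ : Finset (ι → Fin k)).card = k ^ Fintype.card ι := by simp
  have h1 : LS (fun _ => 1) F (k * H) = ∑ s : ι → Fin k, ∑' w : ι → ℤ,
      1 * F ((fun i => (w i : ℝ) / H) + fun i => ((s i : ℕ) : ℝ) / (k * H)) := by
    rw [LS, la_split k hk _ (la_summable hF hkH fun _ => 1)]
    refine Finset.sum_congr rfl fun s _ => tsum_congr fun w => ?_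
    refine congrArg _ (congrArg _ (funext fun i => ?_))
    rw [Pi.add_apply]
    push_cast
    field_simp
  have h2 : (k : ℝ) ^ Fintype.card ι * LS (fun _ => 1) F H =
      ∑ _s : ι → Fin k, LS (fun _ => 1) F H := by
    rw [Finset.sum_const, hc, nsmul_eq_mul, Nat.cast_pow]
  rw [h1, h2, ← Finset.sum_sub_distrib]
  refine (Finset.abs_sum_le_sum_abs _ _).trans ?_
  refine (Finset.sum_le_card_nsmul _ _
    ((2 * |ρ| + 5) ^ Fintype.card ι * H ^ Fintype.card ι * (Λ * (1 / H))) fun s _ => ?_).trans ?_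
  · refine la_basic hΛ hF hH (fun _ => 1) (fun _ => by simp) _ ?_ ((div_le_one hH0).mpr hH)
    refine (la_norm k s (by positivity)).trans (le_of_eq ?_)
    field_simp
  · rw [hc, nsmul_eq_mul, Nat.cast_pow]
    refine le_of_eq ?_
    ring

/-- Periodic coefficients with mean zero. -/
theorem LS_periodic (ρ : ℝ) : ∃ C : ℝ, ∀ (Λ : ℝ) (F : (ι → ℝ) → ℝ), 1 ≤ Λ → Wt ρ Λ F →
    ∀ H : ℝ, 1 ≤ H → ∀ M : ℕ, 1 ≤ M → ∀ g : (ι → ℤ) → ℝ, (∀ v, |g v| ≤ 1) →
    (∀ v w : ι → ℤ, (∀ i, (M : ℤ) ∣ v i - w i) → g v = g w) →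
    (∑ᶠ s : ι → Fin M, g (fun i => ((s i : ℕ) : ℤ)) = 0) →
    |LS g F H| ≤ C * Λ * M * (H ^ Fintype.card ι / H) := by
  classical
  refine ⟨(2 * |ρ| + 5) ^ Fintype.card ι, fun Λ F hΛ hF H hH M hM g hg hper h0 => ?_⟩
  have hH0 : 0 < H := by linarith
  have hM1 : (1 : ℝ) ≤ M := by exact_mod_cast hM
  have hM0 : (0 : ℝ) < M := by linarith
  have hρ := abs_nonneg ρ
  rcases lt_or_ge H M with hlt | hle
  · refine (la_triv hF hH g hg).trans ?_
    have h1 : 1 ≤ Λ * (M / H) :=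
      one_le_mul_of_one_le_of_one_le hΛ ((one_le_div hH0).mpr hlt.le)
    refine (le_mul_of_one_le_right (by positivity) h1).trans (le_of_eq ?_)
    ring
  · have hHM : 1 ≤ H / M := (one_le_div hM0).mpr hle
    have hc : (Finset.univ : Finset (ι → Fin M)).card = M ^ Fintype.card ι := by simp
    rw [finsum_eq_sum_of_fintype] at h0
    have h1 : LS g F H = ∑ s : ι → Fin M, g (fun i => ((s i : ℕ) : ℤ)) * ∑' w : ι → ℤ,
        1 * F ((fun i => (w i : ℝ) / (H / M)) + fun i => ((s i : ℕ) : ℝ) / H) := by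
      rw [LS, la_split M hM _ (la_summable hF hH g)]
      refine Finset.sum_congr rfl fun s _ => ?_
      rw [← tsum_mul_left]
      refine tsum_congr fun w => ?_
      rw [one_mul, hper _ (fun i => ((s i : ℕ) : ℤ)) fun i => by simp]
      refine congrArg _ (congrArg _ (funext fun i => ?_))
      rw [Pi.add_apply]
      push_cast
      field_simp
    have h2 : ∑ s : ι → Fin M, g (fun i => ((s i : ℕ) : ℤ)) * LS (fun _ => 1) F (H / M) = 0 := by
      rw [← Finset.sum_mul, h0, zero_mul]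
    rw [h1, ← sub_zero (∑ s : ι → Fin M, _), ← h2, ← Finset.sum_sub_distrib]
    refine (Finset.abs_sum_le_sum_abs _ _).trans ?_
    refine (Finset.sum_le_card_nsmul _ _ ((2 * |ρ| + 5) ^ Fintype.card ι *
      (H / M) ^ Fintype.card ι * (Λ * (M / H))) fun s _ => ?_).trans ?_
    · rw [← mul_sub, abs_mul]
      refine (mul_le_of_le_one_left (abs_nonneg _) (hg _)).trans ?_
      exact la_basic (by linarith) hF hHM (fun _ => 1) (fun _ => by simp) _ (la_norm M s hH0)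
        ((div_le_one hH0).mpr hle)
    · rw [hc, nsmul_eq_mul, Nat.cast_pow, div_pow]
      refine le_of_eq ?_
      field_simp

end Pool.Agent.Lib.MP_e97e2b_nt
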