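import Mathlib

/- Definitions used in the statement. -/

namespace Pool.Agent.Lib.MP_e97e2b_nt

open NumberField IsDedekindDomain WeierstrassCurve

variable {K : Type} [Field K] [NumberField K]

/-- Good reduction at `v`: some Weierstrass model over `K` has `v`-integral coefficients and
`v`-unit discriminant. -/
def GoodAt (W : WeierstrassCurve K) (v : HeightOneSpectrum (𝓞 K)) : Prop :=
  ∃ C : VariableChange K, v.valuation K (C • W).a₁ ≤ 1 ∧ v.valuation K (C • W).a₂ ≤ 1 ∧
    v.valuation K (C • W).a₃ ≤ 1 ∧ v.valuation K (C • W).a₄ ≤ 1 ∧ v.valuation K (C • W).a₆ ≤ 1 ∧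
    v.valuation K (C • W).Δ = 1

/-- The field `K(μ_l)`, inside the algebraic closure. -/
noncomputable def cycField (K : Type) [Field K] (l : ℕ) :
    IntermediateField K (AlgebraicClosure K) :=
  IntermediateField.adjoin K {z | z ^ l = 1}

open Classical in
/-- The field `K(W[l])` generated by the coordinates of the `l`-torsion points. -/
noncomputable def torsField (W : WeierstrassCurve K) (l : ℕ) :
    IntermediateField K (AlgebraicClosure K) :=
  IntermediateField.adjoin K {z | ∃ (x y : AlgebraicClosure K)
    (h : (W.baseChange (AlgebraicClosure K)).toAffine.Nonsingular x y),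
    l • Affine.Point.some x y h = 0 ∧ (z = x ∨ z = y)}

/-- Good reduction away from `l`, and `K(μ_l, W[l]) / K(μ_l)` has `l`-power degree. -/
def Heavenly (W : WeierstrassCurve K) (l : ℕ) : Prop :=
  (∀ v : HeightOneSpectrum (𝓞 K), (l : 𝓞 K) ∉ v.asIdeal → GoodAt W v) ∧
    ∃ n : ℕ, (cycField K l).relfinrank (cycField K l ⊔ torsField W l) = l ^ n

end Pool.Agent.Lib.MP_e97e2b_nt
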