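import Pool.Agent.Lib.MP_e97e2b_nt.Short

/- The Galois action on points. -/

namespace Pool.Agent.Lib.MP_e97e2b_nt

variable {K L : Type} [Field K] [Field L] [Algebra K L] {A B : K}

/-- Points over `L` of a short curve defined over `K`. -/
abbrev PtL (L : Type) [Field L] [Algebra K L] (A B : K) : Type :=
  Pt (algebraMap K L A) (algebraMap K L B)

/-- The Galois action on points. -/
noncomputable def gal (σ : L ≃ₐ[K] L) : PtL L A B →+ PtL L A B :=
  fmap (σ : L →+* L) (σ.commutes A) (σ.commutes B)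

lemma NS.gal (σ : L ≃ₐ[K] L) {x y : L} (h : NS (algebraMap K L A) (algebraMap K L B) x y) :
    NS (algebraMap K L A) (algebraMap K L B) (σ x) (σ y) :=
  (NS.fmap_iff (σ : L →+* L) (σ.commutes A) (σ.commutes B)).2 h

lemma gal_pt (σ : L ≃ₐ[K] L) {x y : L} (h : NS (algebraMap K L A) (algebraMap K L B) x y) :
    gal σ (pt x y h) = pt (σ x) (σ y) (h.gal σ) := fmap_pt _ _ _ h

lemma gal_one (P : PtL L A B) : gal 1 P = P := by
  rcases P.cases with rfl | ⟨x, y, h, rfl⟩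
  · exact map_zero _
  · rw [gal_pt]; rfl

lemma gal_mul (σ τ : L ≃ₐ[K] L) (P : PtL L A B) : gal (σ * τ) P = gal σ (gal τ P) := by
  rcases P.cases with rfl | ⟨x, y, h, rfl⟩
  · simp only [map_zero]
  · rw [gal_pt, gal_pt, gal_pt]; rfl

lemma gal_injective (σ : L ≃ₐ[K] L) : Function.Injective (gal σ : PtL L A B → PtL L A B) :=
  fmap_injective _ _ _

lemma gal_pow (σ : L ≃ₐ[K] L) {P : PtL L A B} {c : ℕ} (h : gal σ P = c • P) (n : ℕ) :
    gal (σ ^ n) P = c ^ n • P := by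
  induction n with
  | zero => rw [pow_zero, pow_zero, gal_one, one_nsmul]
  | succ n ih => rw [pow_succ', gal_mul, ih, map_nsmul, h, ← mul_nsmul, pow_succ']

lemma gal_pow_zeta (σ : L ≃ₐ[K] L) {ζ : L} {t : ℕ} (h : σ ζ = ζ ^ t) (n : ℕ) :
    (σ ^ n) ζ = ζ ^ t ^ n := by
  induction n with
  | zero => simp
  | succ n ih => rw [pow_succ', AlgEquiv.mul_apply, ih, map_pow, h, ← pow_mul, pow_succ']

lemma nsmul_eq_iff {G : Type} [AddCommGroup G] {l : ℕ} (hl : l.Prime) {P : G} (hP : P ≠ 0)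
    (hlP : l • P = 0) {m n : ℕ} : m • P = n • P ↔ (m : ZMod l) = n := by
  have : Fact l.Prime := ⟨hl⟩
  rw [nsmul_eq_nsmul_iff_modEq, addOrderOf_eq_prime hlP hP, ZMod.natCast_eq_natCast_iff]

lemma nsmul_eq_zero_iff' {G : Type} [AddCommGroup G] {l : ℕ} (hl : l.Prime) {P : G} (hP : P ≠ 0)
    (hlP : l • P = 0) {m : ℕ} : m • P = 0 ↔ (m : ZMod l) = 0 := by
  simpa using nsmul_eq_iff hl hP hlP (m := m) (n := 0)

end Pool.Agent.Lib.MP_e97e2b_nt
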