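import Pool.Agent.Lib.MP_e97e2b_nt.Triple

/- The generic point and division polynomials. -/

namespace Pool.Agent.Lib.MP_e97e2b_nt

open Polynomial

variable {k : Type} [Field k]

/-- The cubic as a rational function. -/
noncomputable def fp (A B : k) : RatFunc k := algebraMap k[X] (RatFunc k) (X ^ 3 + C A * X + C B)

lemma natDegree_cubic' (A B : k) : (X ^ 3 + C A * X + C B : k[X]).natDegree = 3 := by
  compute_degree!

instance (A B : k) : Fact (∀ r : RatFunc k, r ^ 2 ≠ fp A B + 0 * r) := ⟨by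
  intro r hr
  rw [zero_mul, add_zero] at hr
  have h3 : (fp A B).intDegree = 3 := by
    rw [fp, RatFunc.intDegree_polynomial, natDegree_cubic']; rfl
  by_cases h0 : r = 0
  · subst h0
    rw [← hr] at h3
    simp at h3
  · rw [← hr, pow_two, RatFunc.intDegree_mul h0 h0] at h3
    omega⟩

/-- The function field of the curve. -/
abbrev FF (A B : k) : Type := QuadraticAlgebra (RatFunc k) (fp A B) 0

/-- The embedding of polynomials in the function field. -/
noncomputable def io (A B : k) : k[X] →+* FF A B :=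
  (algebraMap (RatFunc k) (FF A B)).comp (algebraMap k[X] (RatFunc k))

lemma io_injective (A B : k) : Function.Injective (io A B) :=
  (algebraMap (RatFunc k) (FF A B)).injective.comp (IsFractionRing.injective _ _)

/-- Ring homomorphisms out of the function field. -/
noncomputable def ffLift {A B : k} {E : Type} [Field E] (ρ : RatFunc k →+* E) (y : E)
    (hy : y ^ 2 = ρ (fp A B)) : FF A B →+* E where
  toFun z := ρ z.re + ρ z.im * y
  map_one' := by
    rw [QuadraticAlgebra.re_one, QuadraticAlgebra.im_one]; simp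
  map_zero' := by simp
  map_add' z w := by simp only [QuadraticAlgebra.re_add, QuadraticAlgebra.im_add, map_add]; ring
  map_mul' z w := by
    simp only [QuadraticAlgebra.re_mul, QuadraticAlgebra.im_mul, map_add, map_mul, map_zero]
    linear_combination -ρ z.im * ρ w.im * hy

variable {A B : k}

lemma ffLift_alg {E : Type} [Field E] (ρ : RatFunc k →+* E) (y : E) (hy : y ^ 2 = ρ (fp A B))
    (r : RatFunc k) : ffLift ρ y hy (algebraMap _ (FF A B) r) = ρ r := by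
  change ρ r + ρ 0 * y = _
  simp

lemma ffLift_om {E : Type} [Field E] (ρ : RatFunc k →+* E) (y : E) (hy : y ^ 2 = ρ (fp A B)) :
    ffLift ρ y hy (QuadraticAlgebra.omega : FF A B) = y := by
  change ρ 0 + ρ 1 * y = _
  simp

lemma om_sq : (QuadraticAlgebra.omega : FF A B) ^ 2 = algebraMap _ (FF A B) (fp A B) := by
  rw [pow_two, QuadraticAlgebra.omega_mul_omega_eq_mk]; rfl

lemma ff_eq (z : FF A B) :
    z = algebraMap _ (FF A B) z.re + algebraMap _ (FF A B) z.im * QuadraticAlgebra.omega := by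
  ext <;> simp

/-- The hyperelliptic involution. -/
noncomputable def cj (A B : k) : FF A B →+* FF A B :=
  ffLift (algebraMap _ _) (-QuadraticAlgebra.omega) (by rw [neg_sq, om_sq])

lemma cj_io (p : k[X]) : cj A B (io A B p) = io A B p := ffLift_alg _ _ _ _

lemma cj_om : cj A B QuadraticAlgebra.omega = -QuadraticAlgebra.omega := ffLift_om _ _ _

lemma io_two (h2 : (2 : k) ≠ 0) : (2 : FF A B) ≠ 0 := by
  have := ((isUnit_C.2 (Ne.isUnit h2)).map (io A B)).ne_zero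
  rwa [map_ofNat, map_ofNat] at this

lemma gen_ns (h2 : (2 : k) ≠ 0) :
    NS (io A B (C A)) (io A B (C B)) (io A B X) QuadraticAlgebra.omega := by
  refine ⟨?_, Or.inr (mul_ne_zero (io_two h2) fun h => ?_)⟩
  · rw [om_sq, ← map_pow, ← map_mul, ← map_add, ← map_add]; rfl
  · simpa using congrArg QuadraticAlgebra.im h

/-- The generic point. -/
noncomputable def gen (A B : k) (h2 : (2 : k) ≠ 0) : Pt (io A B (C A)) (io A B (C B)) :=
  pt _ _ (gen_ns h2)

/-- The points on which the involution acts as `-1`. -/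
noncomputable def minus (A B : k) : AddSubgroup (Pt (io A B (C A)) (io A B (C B))) :=
  (fmap (cj A B) (cj_io _) (cj_io _) + AddMonoidHom.id _).ker

lemma mem_minus {R : Pt (io A B (C A)) (io A B (C B))} :
    R ∈ minus A B ↔ fmap (cj A B) (cj_io _) (cj_io _) R = -R := by
  simp [minus, AddMonoidHom.mem_ker, add_eq_zero_iff_eq_neg]

lemma gen_mem (h2 : (2 : k) ≠ 0) : gen A B h2 ∈ minus A B := by
  rw [mem_minus, gen, fmap_pt, neg_pt, pt_inj]
  exact ⟨cj_io _, cj_om⟩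

lemma cj_fixed (h2 : (2 : k) ≠ 0) {z : FF A B} (h : cj A B z = z) :
    z = algebraMap _ (FF A B) z.re := by
  have e : cj A B z = algebraMap _ (FF A B) z.re +
      algebraMap _ (FF A B) z.im * -QuadraticAlgebra.omega := rfl
  have e2 := ff_eq z
  have : (2 : FF A B) * (z - algebraMap _ (FF A B) z.re) = 0 := by
    linear_combination e2 - h + e
  exact sub_eq_zero.1 ((mul_eq_zero.1 this).resolve_left (io_two h2))

lemma rep_of_ratFunc {x y : FF A B} (h : NS (io A B (C A)) (io A B (C B)) x y) (r : RatFunc k)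
    (e : x = algebraMap _ (FF A B) r) : Rep (io A B) (pt x y h) r.num r.denom := by
  have hd : io A B r.denom ≠ 0 :=
    (map_ne_zero_iff _ (io_injective A B)).2 (RatFunc.denom_ne_zero r)
  refine ⟨RatFunc.isCoprime_num_denom r, (io A B r.denom)⁻¹, inv_ne_zero hd, ?_, ?_⟩
  · rw [xn_pt, e]
    conv_lhs => rw [← RatFunc.num_div_denom r, map_div₀]
    rw [div_eq_inv_mul]; rfl
  · rw [xd_pt, inv_mul_cancel₀ hd]

lemma exists_rep (h2 : (2 : k) ≠ 0) {R : Pt (io A B (C A)) (io A B (C B))} (hR : R ∈ minus A B) :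
    ∃ φ D, Rep (io A B) R φ D := by
  rcases R.cases with rfl | ⟨x, y, h, rfl⟩
  · exact ⟨1, 0, isCoprime_one_left, 1, one_ne_zero, by simp, by simp⟩
  · rw [mem_minus, fmap_pt, neg_pt, pt_inj] at hR
    exact ⟨_, _, rep_of_ratFunc h _ (cj_fixed h2 hR.1)⟩

lemma rep_gen (h2 : (2 : k) ≠ 0) : Rep (io A B) (gen A B h2) X 1 :=
  ⟨isCoprime_one_right, 1, one_ne_zero, by simp [gen], by simp [gen]⟩

lemma lifts_cancel (O : Subring k) {p q : k[X]} (hq : q.Monic) (h1 : q ∈ liftsRing O.subtype)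
    (h2 : p * q ∈ liftsRing O.subtype) : p ∈ liftsRing O.subtype := by
  obtain ⟨q', e, -, hm⟩ := lifts_and_natDegree_eq_and_monic
    ((lifts_iff_liftsRing _ _).2 h1) hq
  obtain ⟨w, hw⟩ := h2
  refine ⟨w /ₘ q', ?_⟩
  change map O.subtype w = _ at hw
  change map O.subtype _ = _
  rw [map_divByMonic _ hm, hw, e, mul_comm, mul_divByMonic_cancel_left _ hq]

/-- The inductive invariant for division polynomials. -/
structure DP (h2 : (2 : k) ≠ 0) (A B : k) (O : Subring k) (n : ℕ) (φ D : k[X]) : Prop where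
  rep : Rep (io A B) (n • gen A B h2) φ D
  dφ : DC φ (n ^ 2) 1
  dD : DC (D * X) (n ^ 2) ((n : k) ^ 2)
  lφ : φ ∈ liftsRing O.subtype
  lD : D ∈ liftsRing O.subtype
  sp : ∀ x y (h : NS A B x y), ∃ ν : k, ν ≠ 0 ∧ xn (n • pt x y h) = ν * φ.eval x ∧
    xd (n • pt x y h) = ν * D.eval x

lemma DP.step (h2 : (2 : k) ≠ 0) (hD : 4 * A ^ 3 + 27 * B ^ 2 ≠ 0) (O : Subring k) (hA : A ∈ O)
    (hB : B ∈ O) {n : ℕ} {φ₀ D₀ φ₁ D₁ : k[X]} (p₀ : DP h2 A B O n φ₀ D₀)
    (p₁ : DP h2 A B O (n + 1) φ₁ D₁) : ∃ φ D, DP h2 A B O (n + 2) φ D := by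
  obtain ⟨φ', D', r'⟩ := exists_rep h2 (nsmul_mem (gen_mem (A := A) (B := B) h2) (n + 2))
  have s1 : ∀ {G : Type} [AddCommGroup G] (g : G), (n + 1) • g + g = (n + 2) • g :=
    fun g => (succ_nsmul g (n + 1)).symm
  have s0 : ∀ {G : Type} [AddCommGroup G] (g : G), (n + 1) • g - g = n • g :=
    fun g => by rw [succ_nsmul, add_sub_cancel_right]
  obtain ⟨c, hc, e0, e1, e2⟩ := rep_triple h2 hD (io_injective A B) p₁.rep (rep_gen h2)
    (by rw [s1]; exact r') (by rw [s0]; exact p₀.rep)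
  have r := r'.cmul hc
  rw [← mul_assoc] at e0 e2
  rw [mul_add, ← mul_assoc, ← mul_assoc] at e1
  generalize C c * φ' = φ at *
  generalize C c * D' = D at *
  simp only [mul_one] at e0 e1 e2
  have dD1 : DC D₁ (n ^ 2 + 2 * n) (((n + 1 : ℕ) : k) ^ 2) :=
    DC.cancel (n := 1) (p₁.dD.cast rfl (by ring) rfl) DC.X
  have ds := p₁.dφ.mul DC.X
  have dt := p₁.dφ.add p₁.dD
  have dφ : DC φ ((n + 2) ^ 2) 1 := by
    refine DC.cancel (n := n ^ 2) ?_ p₀.dφ
    have := (DC.g (A := A) (B := B) ds (dt.up (Nat.lt_succ_self _))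
      (dD1.up (show _ < (n + 1) ^ 2 + 1 by nlinarith))).1
    exact this.cast e0 (by ring) (by simp [g0])
  have lA : C A ∈ liftsRing O.subtype := ⟨C ⟨A, hA⟩, by simp⟩
  have lB : C B ∈ liftsRing O.subtype := ⟨C ⟨B, hB⟩, by simp⟩
  have lX : X ∈ liftsRing O.subtype := ⟨X, by simp⟩
  have ls := mul_mem p₁.lφ lX
  have lt := add_mem p₁.lφ (mul_mem p₁.lD lX)
  have lφ : φ ∈ liftsRing O.subtype := by
    refine lifts_cancel O p₀.dφ.monic p₀.lφ ?_
    rw [← e0, g0]
    exact sub_mem (pow_mem (sub_mem ls (mul_mem lA p₁.lD)) _)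
      (mul_mem (mul_mem (mul_mem (ofNat_mem _ 4) lB) lt) p₁.lD)
  refine ⟨φ, D, r, dφ, ?_, lφ, ?_, ?_⟩
  · refine DC.cancel (n := n ^ 2) ?_ p₀.dφ
    have a1 := ((dt.mul ((ds.mul DC.X).add ((p₁.dD.cmul A).up (by omega)))).cmul 2).add
      (((dD1.mul p₁.dD).cmul (4 * B)).up (by nlinarith))
    have a2 := (a1.cast rfl (show _ = (n + 2) ^ 2 + n ^ 2 by ring) rfl).sub (dφ.mul p₀.dD)
    refine a2.cast ?_ rfl (by push_cast; ring)
    simp only [g1, map_mul, map_ofNat] at e1 ⊢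
    linear_combination X * e1
  · refine lifts_cancel O p₀.dφ.monic p₀.lφ ?_
    rw [show D * φ₀ = g1 (C A) (C B) (φ₁ * X) (φ₁ + D₁ * X) D₁ - φ * D₀ by rw [e1]; ring, g1]
    exact sub_mem (add_mem (mul_mem (mul_mem (ofNat_mem _ 2) lt) (add_mem ls (mul_mem lA p₁.lD)))
      (mul_mem (mul_mem (ofNat_mem _ 4) lB) (pow_mem p₁.lD _))) (mul_mem lφ p₀.lD)
  · intro x y h
    obtain ⟨ν₀, n₀, a₀, b₀⟩ := p₀.sp x y h
    obtain ⟨ν₁, n₁, a₁, b₁⟩ := p₁.sp x y h
    obtain ⟨ν, hν, t0, t1, t2⟩ := tr_all h2 ((n + 1) • pt x y h) (pt x y h)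
    rw [s1, s0, a₁, b₁, a₀, xn_pt, xd_pt] at t0
    rw [s1, s0, a₁, b₁, a₀, b₀, xn_pt, xd_pt] at t1
    rw [s1, s0, a₁, b₁, b₀, xn_pt, xd_pt] at t2
    have f0 := congrArg (eval x) e0
    have f1 := congrArg (eval x) e1
    have f2 := congrArg (eval x) e2
    simp only [g0, g1, g2, eval_sub, eval_add, eval_mul, eval_pow, eval_C, eval_X, eval_ofNat]
      at f0 f1 f2 t0 t1 t2
    have hc0 : ¬(φ₀.eval x = 0 ∧ D₀.eval x = 0) := by
      rintro ⟨u, v⟩
      obtain ⟨a, b, e⟩ := p₀.rep.1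
      simpa [u, v] using congrArg (eval x) e
    generalize xn ((n + 2) • pt x y h) = w at *
    generalize xd ((n + 2) • pt x y h) = z at *
    have k0 : (ν₁ ^ 2 * φ.eval x - ν * ν₀ * w) * φ₀.eval x = 0 := by
      linear_combination t0 - ν₁ ^ 2 * f0
    have k1 : (ν₁ ^ 2 * φ.eval x - ν * ν₀ * w) * D₀.eval x +
        (ν₁ ^ 2 * D.eval x - ν * ν₀ * z) * φ₀.eval x = 0 := by
      linear_combination t1 - ν₁ ^ 2 * f1
    have k2 : (ν₁ ^ 2 * D.eval x - ν * ν₀ * z) * D₀.eval x = 0 := by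
      linear_combination t2 - ν₁ ^ 2 * f2
    have key : ν₁ ^ 2 * φ.eval x - ν * ν₀ * w = 0 ∧ ν₁ ^ 2 * D.eval x - ν * ν₀ * z = 0 := by
      generalize ν₁ ^ 2 * φ.eval x - ν * ν₀ * w = a at *
      generalize ν₁ ^ 2 * D.eval x - ν * ν₀ * z = b at *
      by_cases u : φ₀.eval x = 0
      · have v : D₀.eval x ≠ 0 := fun v => hc0 ⟨u, v⟩
        exact ⟨(mul_eq_zero.1 (by simpa [u] using k1)).resolve_right v,
          (mul_eq_zero.1 k2).resolve_right v⟩
      · have ha := (mul_eq_zero.1 k0).resolve_right u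
        exact ⟨ha, (mul_eq_zero.1 (by simpa [ha] using k1)).resolve_right u⟩
    refine ⟨ν₁ ^ 2 / (ν * ν₀), div_ne_zero (pow_ne_zero _ n₁) (mul_ne_zero hν n₀), ?_, ?_⟩
    · field_simp; linear_combination -key.1
    · field_simp; linear_combination -key.2

lemma exists_DP (h2 : (2 : k) ≠ 0) (hD : 4 * A ^ 3 + 27 * B ^ 2 ≠ 0) (O : Subring k) (hA : A ∈ O)
    (hB : B ∈ O) (n : ℕ) : ∃ φ D, DP h2 A B O n φ D := by
  induction n using Nat.twoStepInduction with
  | zero =>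
    refine ⟨1, 0, ⟨isCoprime_one_left, 1, one_ne_zero, by simp, by simp⟩, ⟨by simp, by simp⟩,
      ⟨by simp, by simp⟩, one_mem _, zero_mem _, fun x y h => ⟨1, one_ne_zero, by simp, by simp⟩⟩
  | one =>
    refine ⟨X, 1, by rw [one_nsmul]; exact rep_gen h2, by simpa using DC.X, by simpa using DC.X,
      ⟨X, by simp⟩, one_mem _, fun x y h => ⟨1, one_ne_zero, by simp, by simp⟩⟩
  | more n i0 i1 =>
    obtain ⟨_, _, p₀⟩ := i0
    obtain ⟨_, _, p₁⟩ := i1
    exact DP.step h2 hD O hA hB p₀ p₁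

/-- Division polynomials. -/
theorem divpoly (h2 : (2 : k) ≠ 0) (hD : 4 * A ^ 3 + 27 * B ^ 2 ≠ 0) (O : Subring k) (hA : A ∈ O)
    (hB : B ∈ O) (n : ℕ) (hn : 1 ≤ n) : ∃ D : k[X], (∀ i, D.coeff i ∈ O) ∧
      DC D (n ^ 2 - 1) ((n : k) ^ 2) ∧ ∀ x y (h : NS A B x y), n • pt x y h = 0 ↔ D.eval x = 0 := by
  obtain ⟨φ, D, p⟩ := exists_DP h2 hD O hA hB n
  refine ⟨D, fun i => ?_, DC.cancel (n := 1) (p.dD.cast rfl ?_ rfl) DC.X, fun x y h => ?_⟩
  · obtain ⟨z, hz⟩ := (lifts_iff_coeff_lifts _).1 ((lifts_iff_liftsRing _ _).2 p.lD) i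
    rw [← hz]; exact z.2
  · have : 1 ≤ n ^ 2 := Nat.one_le_pow _ _ hn
    omega
  · obtain ⟨ν, hν, -, e⟩ := p.sp x y h
    rw [← xd_eq_zero, e, mul_eq_zero, or_iff_right hν]

end Pool.Agent.Lib.MP_e97e2b_nt
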