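import Pool.Agent.Lib.MP_e97e2b_nt.Defs
import Pool.Agent.Lib.MP_e97e2b_nt.Gal
import Pool.Agent.Lib.MP_e97e2b_nt.Generic

/- An eigenvector of order `l` defined over `K(μ_l)`. -/

namespace Pool.Agent.Lib.MP_e97e2b_nt

open NumberField IsDedekindDomain WeierstrassCurve Polynomial

section transfer

variable {F : Type} [Field F]

/-- The long model obtained from a short model by `x = X - r`, `y = Y - s x - t`. -/
def lw (A B r s t : F) : WeierstrassCurve.Affine F :=
  ⟨2 * s, 3 * r - s ^ 2, 2 * t, A - 2 * s * t + 3 * r ^ 2, B - t ^ 2 + r ^ 3 + r * A⟩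

variable {A B : F} (r s t : F)

lemma NS.lw {x y : F} (h : NS A B x y) :
    (lw A B r s t).Nonsingular (x - r) (y - s * (x - r) - t) := by
  rw [Affine.nonsingular_iff', Affine.equation_iff]
  simp only [Pool.Agent.Lib.MP_e97e2b_nt.lw]
  refine ⟨by linear_combination h.1, ?_⟩
  by_contra hc
  push Not at hc
  obtain ⟨h1, h2⟩ := hc
  rcases h.2 with h3 | h3
  · exact h3 (by linear_combination s * h2 - h1)
  · exact h3 (by linear_combination h2)

/-- The underlying map of `lwHom`. -/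
noncomputable def lwFun (P : Pt A B) : (lw A B r s t).Point :=
  match P with
  | .zero => 0
  | .some x y h => .some (x - r) (y - s * (x - r) - t) ((ns_iff.1 h).lw r s t)

/-- The isomorphism from the short model to the long model. -/
noncomputable def lwHom [DecidableEq F] : Pt A B →+ (lw A B r s t).Point where
  toFun := lwFun r s t
  map_zero' := rfl
  map_add' := by
    have hp : ∀ x y (h : NS A B x y), lwFun r s t (pt x y h) =
        .some (x - r) (y - s * (x - r) - t) (h.lw r s t) := fun _ _ _ => rfl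
    have h0 : lwFun r s t (0 : Pt A B) = 0 := rfl
    intro P Q
    rcases P.cases with rfl | ⟨x₁, y₁, h₁, rfl⟩
    · rw [zero_add, h0, zero_add]
    rcases Q.cases with rfl | ⟨x₂, y₂, h₂, rfl⟩
    · rw [add_zero, h0, add_zero]
    by_cases hne : x₁ = x₂ ∧ y₁ = -y₂
    · rw [add_neg_case h₁ h₂ hne.1 hne.2, h0, hp, hp, Affine.Point.add_of_Y_eq]
      · rw [hne.1]
      · simp only [lw, Affine.negY]
        rw [hne.1, hne.2]; ring
    obtain ⟨l, e₁, e₂⟩ := exists_lam h₁ h₂ hne
    obtain ⟨h₃, e⟩ := add_char h₁ h₂ hne e₁ e₂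
    have hne' : ¬(x₁ - r = x₂ - r ∧
        y₁ - s * (x₁ - r) - t = (lw A B r s t).negY (x₂ - r) (y₂ - s * (x₂ - r) - t)) := by
      rintro ⟨a, b⟩
      simp only [lw, Affine.negY] at b
      exact hne ⟨by linear_combination a, by linear_combination b + s * a⟩
    have hs : (lw A B r s t).slope (x₁ - r) (x₂ - r) (y₁ - s * (x₁ - r) - t)
        (y₂ - s * (x₂ - r) - t) = l - s := by
      by_cases hx : x₁ = x₂
      · subst hx
        have hy : y₁ + y₂ ≠ 0 := fun h => hne ⟨rfl, by linear_combination h⟩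
        have hyy : y₁ = y₂ := by linear_combination -e₁
        subst hyy
        rw [Affine.slope_of_Y_ne rfl fun h => hne' ⟨rfl, h⟩]
        simp only [lw, Affine.negY]
        rw [div_eq_iff fun h => hy (by linear_combination h)]
        linear_combination -e₂
      · have hx' : x₁ - r ≠ x₂ - r := fun h => hx (by linear_combination h)
        rw [Affine.slope_of_X_ne hx', div_eq_iff (sub_ne_zero.2 hx')]
        linear_combination -e₁
    rw [e, hp, hp, hp, Affine.Point.add_some hne', Affine.Point.some.injEq, hs]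
    simp only [lw, Affine.addX, Affine.addY, Affine.negAddY, Affine.negY]
    constructor <;> ring

lemma lw_tors [DecidableEq F] (E : WeierstrassCurve.Affine F) (hE : E = lw A B r s t) (n : ℕ)
    {x y : F} (h : NS A B x y) (hn : n • pt x y h = 0) :
    ∃ h' : E.Nonsingular (x - r) (y - s * (x - r) - t), n • Affine.Point.some _ _ h' = 0 := by
  subst hE
  refine ⟨h.lw r s t, ?_⟩
  have := congrArg (lwHom r s t) hn
  rw [map_nsmul, map_zero] at this
  exact this

end transfer

section linear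

lemma eigen_aux {F V : Type} [Field F] [AddCommGroup V] [Module F V] (T : Module.End F V)
    (m : Multiset F) {v : V} (hv : v ≠ 0) (h : aeval T (m.map fun c => X - C c).prod v = 0) :
    ∃ w, w ≠ 0 ∧ ∃ c : F, T w = c • w := by
  induction m using Multiset.induction_on with
  | empty => exact absurd (by simpa using h) hv
  | cons a m ih =>
    by_cases h0 : aeval T (m.map fun c => X - C c).prod v = 0
    · exact ih h0
    · refine ⟨_, h0, a, ?_⟩
      rw [Multiset.map_cons, Multiset.prod_cons, map_mul, Module.End.mul_apply, map_sub,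
        aeval_X, aeval_C, LinearMap.sub_apply, Module.algebraMap_end_apply] at h
      exact sub_eq_zero.1 h

lemma eigen_mod {U : Type} [AddCommGroup U] {l : ℕ} (hl : l.Prime) [Module (ZMod l) U]
    (g : U →+ U) (hg : ∀ v, g^[l] v = g v) {v : U} (hv : v ≠ 0) :
    ∃ w, w ≠ 0 ∧ ∃ c : ℕ, g w = c • w := by
  have : Fact l.Prime := ⟨hl⟩
  have hm : (X ^ l - X : (ZMod l)[X]).Monic :=
    (monic_X_pow l).sub_of_left (by rw [degree_X, degree_X_pow]; exact_mod_cast hl.one_lt)
  have hr : (X ^ l - X : (ZMod l)[X]).roots = Finset.univ.val := by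
    have := FiniteField.roots_X_pow_card_sub_X (ZMod l)
    rwa [ZMod.card] at this
  have hp := prod_multiset_X_sub_C_of_monic_of_roots_card_eq hm (by
    rw [hr, FiniteField.X_pow_card_sub_X_natDegree_eq _ hl.one_lt, ← Finset.card_def,
      Finset.card_univ, ZMod.card])
  obtain ⟨w, hw, c, hc⟩ := eigen_aux (g.toZModLinearMap l) (X ^ l - X : (ZMod l)[X]).roots hv (by
    rw [hp, map_sub, map_pow, aeval_X, LinearMap.sub_apply, Module.End.pow_apply, sub_eq_zero]
    exact hg v)
  refine ⟨w, hw, c.val, ?_⟩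
  rw [← Nat.cast_smul_eq_nsmul (ZMod l), ZMod.natCast_zmod_val]
  exact hc

lemma eigen_grp {G : Type} [AddCommGroup G] {l : ℕ} (hl : l.Prime) (f : G →+ G)
    (hf : ∀ P, f^[l] P = f P) {P : G} (hP : P ≠ 0) (hlP : l • P = 0) :
    ∃ Q, Q ≠ 0 ∧ l • Q = 0 ∧ ∃ c : ℕ, f Q = c • Q := by
  let U : AddSubgroup G := (nsmulAddMonoidHom l : G →+ G).ker
  have hU : ∀ Q, Q ∈ U ↔ l • Q = 0 := fun Q => Iff.rfl
  let g : U →+ U := (f.comp U.subtype).codRestrict U fun x => (hU _).2 (by
    change l • f x = 0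
    rw [← map_nsmul, (hU _).1 x.2, map_zero])
  have hT : ∀ (n : ℕ) (v : U), (g^[n] v : G) = f^[n] v := by
    intro n
    induction n with
    | zero => intro v; rfl
    | succ n ih => intro v; rw [Function.iterate_succ_apply, ih]; rfl
  let _ : Module (ZMod l) U := AddCommGroup.zmodModule fun x => Subtype.ext ((hU _).1 x.2)
  obtain ⟨w, hw, c, hc⟩ := eigen_mod hl g (fun v => Subtype.ext (by rw [hT, hf]; rfl))
    (v := ⟨P, (hU _).2 hlP⟩) fun h => hP (congrArg Subtype.val h)
  exact ⟨w, fun h => hw (Subtype.ext h), (hU _).1 w.2, c, congrArg Subtype.val hc⟩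

end linear

section fixed

variable {L E : Type} [Field L] [Field E] [Algebra L E] {A B : L}

lemma tors_fin {F : Type} [Field F] [CharZero F] {A B : F} (hD : 4 * A ^ 3 + 27 * B ^ 2 ≠ 0)
    {l : ℕ} (hl : 1 ≤ l) : {P : Pt A B | l • P = 0}.Finite := by
  obtain ⟨D, -, hd, hD'⟩ := divpoly two_ne_zero hD ⊤ trivial trivial l hl
  have hD0 : D ≠ 0 := fun h => by
    have := hd.2
    rw [h, coeff_zero] at this
    exact pow_ne_zero 2 (Nat.cast_ne_zero.2 (by omega : l ≠ 0)) this.symm
  have h1 : {x : F | D.IsRoot x}.Finite := finite_setOfPred_isRoot hD0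
  have h2 : ∀ x : F, {P : Pt A B | ∃ y h, P = pt x y h}.Finite := by
    intro x
    by_cases hx : ∃ y, NS A B x y
    · obtain ⟨y, hy⟩ := hx
      refine (Set.toFinite {pt x y hy, -pt x y hy}).subset ?_
      rintro _ ⟨y', h', rfl⟩
      exact pt_eq_or h' hy
    · refine Set.finite_empty.subset ?_
      rintro _ ⟨y', h', rfl⟩
      exact hx ⟨y', h'⟩
  refine ((h1.biUnion fun x _ => h2 x).insert 0).subset fun P hP => ?_
  rcases P.cases with rfl | ⟨x, y, h, rfl⟩
  · exact Set.mem_insert _ _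
  · exact Set.mem_insert_of_mem _ (Set.mem_biUnion ((hD' x y h).1 hP) ⟨y, h, rfl⟩)

lemma tors_ne {F : Type} [Field F] [CharZero F] [IsAlgClosed F] {A B : F}
    (hD : 4 * A ^ 3 + 27 * B ^ 2 ≠ 0) {l : ℕ} (hl : 2 ≤ l) : ∃ P : Pt A B, P ≠ 0 ∧ l • P = 0 := by
  obtain ⟨D, -, hd, hD'⟩ := divpoly two_ne_zero hD ⊤ trivial trivial l (by omega)
  have hc : D.coeff (l ^ 2 - 1) ≠ 0 := by
    rw [hd.2]
    exact pow_ne_zero 2 (Nat.cast_ne_zero.2 (by omega : l ≠ 0))
  have h4 : 0 < l ^ 2 - 1 := by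
    have : 2 ^ 2 ≤ l ^ 2 := Nat.pow_le_pow_left hl 2
    omega
  have hdeg : 0 < D.degree :=
    natDegree_pos_iff_degree_pos.1 (h4.trans_le (le_natDegree_of_ne_zero hc))
  obtain ⟨x, hx⟩ := IsAlgClosed.exists_root D hdeg.ne'
  obtain ⟨y, hy⟩ := IsAlgClosed.exists_pow_nat_eq (x ^ 3 + A * x + B) (n := 2) two_pos
  exact ⟨pt x y (ns_of_eq two_ne_zero hD hy), pt_ne_zero _, (hD' _ _ _).2 hx⟩

lemma fixed_pt [CharZero E] [IsAlgClosed E] [IsGalois L E] (hD : 4 * A ^ 3 + 27 * B ^ 2 ≠ 0)
    {l n : ℕ} (hl : l.Prime) (M : IntermediateField L E) (hn : Module.finrank L M = l ^ n)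
    (hM : ∀ x y (h : NS (algebraMap L E A) (algebraMap L E B) x y), l • pt x y h = 0 →
      x ∈ M ∧ y ∈ M) : ∃ P : Pt A B, P ≠ 0 ∧ l • P = 0 := by
  have : Fact l.Prime := ⟨hl⟩
  have hD' : 4 * (algebraMap L E A) ^ 3 + 27 * (algebraMap L E B) ^ 2 ≠ 0 := by
    have := (map_ne_zero (algebraMap L E)).2 hD
    simpa only [map_add, map_mul, map_pow, map_ofNat] using this
  let U : AddSubgroup (PtL E A B) := (nsmulAddMonoidHom l : PtL E A B →+ PtL E A B).ker
  have hU : ∀ Q, Q ∈ U ↔ l • Q = 0 := fun Q => Iff.rfl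
  have : Finite U := (tors_fin hD' hl.one_le).to_subtype
  let _ : MulAction (E ≃ₐ[L] E) U :=
    { smul := fun σ v => ⟨gal σ v, (hU _).2 (by rw [← map_nsmul, (hU _).1 v.2, map_zero])⟩
      one_smul := fun v => Subtype.ext (gal_one _)
      mul_smul := fun σ τ v => Subtype.ext (gal_mul σ τ _) }
  have hs : ∀ (σ : E ≃ₐ[L] E) (v : U), ((σ • v : U) : PtL E A B) = gal σ v := fun _ _ => rfl
  let φ := MulAction.toPermHom (E ≃ₐ[L] E) U
  have hle : M.fixingSubgroup ≤ φ.ker := by
    intro σ hσ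
    rw [MonoidHom.mem_ker]
    ext v
    change gal σ (v : PtL E A B) = v
    obtain ⟨v, hv⟩ := v
    rcases v.cases with rfl | ⟨x, y, h, rfl⟩
    · exact map_zero _
    · obtain ⟨hx, hy⟩ := hM x y h ((hU _).1 hv)
      rw [IntermediateField.mem_fixingSubgroup_iff] at hσ
      change gal σ (pt x y h) = pt x y h
      rw [gal_pt, pt_inj]
      exact ⟨hσ x hx, hσ y hy⟩
  have hp : IsPGroup l φ.range := by
    refine IsPGroup.of_card_dvd_pow (n := n) ?_
    rw [← Subgroup.index_ker, ← hn, IntermediateField.finrank_eq_fixingSubgroup_index]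
    exact Subgroup.index_dvd_of_le hle
  obtain ⟨P, hP, hlP⟩ := tors_ne hD' hl.two_le
  have hdvd : l ∣ Nat.card U := by
    have e : addOrderOf (⟨P, (hU _).2 hlP⟩ : U) = l :=
      addOrderOf_eq_prime (Subtype.ext hlP) fun h => hP (congrArg Subtype.val h)
    rw [← e]
    exact addOrderOf_dvd_natCard _
  obtain ⟨b, hb, hb0⟩ := hp.exists_fixed_point_of_prime_dvd_card_of_fixed_point U hdvd (a := 0) (by
    rintro ⟨_, σ, rfl⟩
    exact Subtype.ext (map_zero (gal σ)))
  have hfix : ∀ σ : E ≃ₐ[L] E, gal σ (b : PtL E A B) = b := fun σ =>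
    congrArg Subtype.val (hb ⟨φ σ, σ, rfl⟩)
  obtain ⟨Q, hQ⟩ := (mem_range_fmap (algebraMap L E) rfl rfl (b : PtL E A B)).2 (by
    intro x y h e
    have key : ∀ σ : E ≃ₐ[L] E, σ x = x ∧ σ y = y := fun σ => by
      have := hfix σ
      rwa [e, gal_pt, pt_inj] at this
    exact ⟨(InfiniteGalois.mem_range_algebraMap_iff_fixed x).2 fun σ => (key σ).1,
      (InfiniteGalois.mem_range_algebraMap_iff_fixed y).2 fun σ => (key σ).2⟩)
  refine ⟨Q, fun h => hb0 (Subtype.ext ?_), fmap_injective (algebraMap L E) rfl rfl ?_⟩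
  · rw [← hQ, h, map_zero]; rfl
  · rw [map_nsmul, hQ, map_zero]
    exact (hU _).1 b.2

end fixed

variable {K : Type} [Field K] [NumberField K]

/-- Basic facts on the cyclotomic extension. -/
theorem cyc_facts (K : Type) [Field K] [NumberField K] {l : ℕ} (hl : l.Prime) :
    IsCyclotomicExtension {l} K (cycField K l) := by
  have : NeZero l := ⟨hl.ne_zero⟩
  have e : {z : AlgebraicClosure K | z ^ l = 1} =
      {b | ∃ n ∈ ({l} : Set ℕ), n ≠ 0 ∧ b ^ n = 1} := by
    ext z
    simp [hl.ne_zero]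
  rw [cycField, e]
  refine IntermediateField.isCyclotomicExtension_adjoin_of_exists_isPrimitiveRoot _ _ _ ?_
  rintro n rfl -
  exact HasEnoughRootsOfUnity.exists_primitiveRoot _ _

/-- The coordinates of `l`-torsion points of the short model lie in the torsion field. -/
theorem tors_mem (W : WeierstrassCurve K) (l : ℕ) (x y : AlgebraicClosure K)
    (h : NS (algebraMap K (AlgebraicClosure K) (-W.c₄ / 48))
      (algebraMap K (AlgebraicClosure K) (-W.c₆ / 864)) x y) (hl : l • pt x y h = 0) :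
    x ∈ torsField W l ∧ y ∈ torsField W l := by
  classical
  obtain ⟨h', e⟩ := lw_tors (algebraMap K (AlgebraicClosure K) (W.b₂ / 12))
    (algebraMap K (AlgebraicClosure K) (W.a₁ / 2)) (algebraMap K (AlgebraicClosure K) (W.a₃ / 2))
    (W.baseChange (AlgebraicClosure K)).toAffine (by
      ext <;> simp [lw, b₂, b₄, b₆, c₄, c₆, map_ofNat] <;> ring) l h hl
  have m1 := IntermediateField.subset_adjoin K _ (show _ ∈ {z | ∃ (x y : AlgebraicClosure K)
    (h : (W.baseChange (AlgebraicClosure K)).toAffine.Nonsingular x y),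
    l • Affine.Point.some x y h = 0 ∧ (z = x ∨ z = y)} from ⟨_, _, h', e, Or.inl rfl⟩)
  have m2 := IntermediateField.subset_adjoin K _ (show _ ∈ {z | ∃ (x y : AlgebraicClosure K)
    (h : (W.baseChange (AlgebraicClosure K)).toAffine.Nonsingular x y),
    l • Affine.Point.some x y h = 0 ∧ (z = x ∨ z = y)} from ⟨_, _, h', e, Or.inr rfl⟩)
  have a := fun z : K => (torsField W l).algebraMap_mem z
  constructor
  · have := add_mem (show _ ∈ torsField W l from m1) (a (W.b₂ / 12))
    rwa [sub_add_cancel] at this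
  · have := add_mem (add_mem (show _ ∈ torsField W l from m2) (a (W.a₃ / 2)))
      (mul_mem (a (W.a₁ / 2)) (show _ ∈ torsField W l from m1))
    rwa [sub_add_cancel, sub_add_cancel] at this

theorem eigen_main (W : WeierstrassCurve K) [W.IsElliptic] {l : ℕ} (hl : l.Prime) (h5 : 5 ≤ l)
    (hn : ∃ n : ℕ, (cycField K l).relfinrank (cycField K l ⊔ torsField W l) = l ^ n) :
    ∃ P : PtL (cycField K l) (-W.c₄ / 48) (-W.c₆ / 864), P ≠ 0 ∧ l • P = 0 ∧
      ∀ σ : cycField K l ≃ₐ[K] cycField K l, ∃ c : ℕ, gal σ P = c • P := by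
  have : Fact l.Prime := ⟨hl⟩
  have hc := cyc_facts K hl
  obtain ⟨n, hn⟩ := hn
  rw [IntermediateField.relfinrank_eq_finrank_of_le le_sup_left] at hn
  have hD : 4 * (-W.c₄ / 48) ^ 3 + 27 * (-W.c₆ / 864) ^ 2 ≠ 0 := by
    intro h
    apply W.isUnit_Δ.ne_zero
    linear_combination (1 / 1728) * W.c_relation - 16 * h
  have hD' : 4 * (algebraMap K (cycField K l) (-W.c₄ / 48)) ^ 3 +
      27 * (algebraMap K (cycField K l) (-W.c₆ / 864)) ^ 2 ≠ 0 := by
    have := (map_ne_zero (algebraMap K (cycField K l))).2 hD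
    simpa only [map_add, map_mul, map_pow, map_ofNat] using this
  obtain ⟨P, hP, hlP⟩ := fixed_pt hD' hl _ hn fun x y h e => by
    obtain ⟨hx, hy⟩ := tors_mem W l x y h e
    exact ⟨(le_sup_right : torsField W l ≤ _) hx, (le_sup_right : torsField W l ≤ _) hy⟩
  obtain ⟨ζ, hζ⟩ := IsCyclotomicExtension.exists_isPrimitiveRoot K (cycField K l)
    (Set.mem_singleton l) hl.ne_zero
  have hinj := hζ.autToPow_injective K
  have : IsCyclic (cycField K l ≃ₐ[K] cycField K l) := isCyclic_of_injective _ hinj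
  have : Finite (cycField K l ≃ₐ[K] cycField K l) := Finite.of_injective _ hinj
  obtain ⟨g, hg⟩ := IsCyclic.exists_monoid_generator (α := cycField K l ≃ₐ[K] cycField K l)
  have hgl : g ^ l = g := by
    apply hinj
    rw [map_pow]
    ext
    rw [Units.val_pow_eq_pow_val, ZMod.pow_card]
  have hit : ∀ (m : ℕ) (Q : PtL (cycField K l) (-W.c₄ / 48) (-W.c₆ / 864)),
      (gal g)^[m] Q = gal (g ^ m) Q := by
    intro m
    induction m with
    | zero => intro Q; rw [pow_zero, gal_one]; rfl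
    | succ m ih => intro Q; rw [pow_succ, gal_mul, ← ih]; rfl
  obtain ⟨Q, hQ, hlQ, c, hc⟩ := eigen_grp hl (gal g) (fun Q => by rw [hit, hgl]) hP hlP
  refine ⟨Q, hQ, hlQ, fun σ => ?_⟩
  obtain ⟨m, rfl⟩ := hg σ
  exact ⟨c ^ m, gal_pow g hc m⟩

end Pool.Agent.Lib.MP_e97e2b_nt
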