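import Pool.Agent.Lib.MP_e97e2b_nt.Generic

/- Frobenius eigenvalues on torsion points and the Hasse bound. -/

namespace Pool.Agent.Lib.MP_e97e2b_nt

open Polynomial

variable {k : Type} [Field k] {A B : k}

open Classical in
/-- The degree of the `x`-coordinate. -/
noncomputable def ht (R : Pt (io A B (C A)) (io A B (C B))) : ℕ :=
  if h : ∃ φ D, Rep (io A B) R φ D then hgt h.choose h.choose_spec.choose else 0

lemma rep_zero : Rep (io A B) (0 : Pt (io A B (C A)) (io A B (C B))) 1 0 :=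
  ⟨isCoprime_one_left, 1, one_ne_zero, by simp, by simp⟩

lemma ht_eq (h2 : (2 : k) ≠ 0) (hD : 4 * A ^ 3 + 27 * B ^ 2 ≠ 0)
    {R : Pt (io A B (C A)) (io A B (C B))} {φ D : k[X]} (r : Rep (io A B) R φ D) :
    ht R = hgt φ D := by
  have h : ∃ φ D, Rep (io A B) R φ D := ⟨_, _, r⟩
  rw [ht, dif_pos h]
  have := rep_par h2 hD (io_injective A B) r rep_zero
    (by rw [add_zero]; exact h.choose_spec.choose_spec)
    (by rw [sub_zero]; exact h.choose_spec.choose_spec)
  have e : hgt (1 : k[X]) 0 = 0 := by simp [hgt]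
  omega

lemma ht_par (h2 : (2 : k) ≠ 0) (hD : 4 * A ^ 3 + 27 * B ^ 2 ≠ 0)
    {R S : Pt (io A B (C A)) (io A B (C B))} (hR : R ∈ minus A B) (hS : S ∈ minus A B) :
    ht (R + S) + ht (R - S) = 2 * ht R + 2 * ht S := by
  obtain ⟨_, _, r₁⟩ := exists_rep h2 hR
  obtain ⟨_, _, r₂⟩ := exists_rep h2 hS
  obtain ⟨_, _, r₃⟩ := exists_rep h2 (add_mem hR hS)
  obtain ⟨_, _, r₄⟩ := exists_rep h2 (sub_mem hR hS)
  rw [ht_eq h2 hD r₁, ht_eq h2 hD r₂, ht_eq h2 hD r₃, ht_eq h2 hD r₄]
  exact rep_par h2 hD (io_injective A B) r₁ r₂ r₃ r₄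

lemma quad_of_rec (d : ℤ → ℤ) (h : ∀ n, d (n + 1) + d (n - 1) = 2 * d n + 2) (n : ℤ) :
    d n = n ^ 2 - (d 0 + 1 - d 1) * n + d 0 := by
  have key : ∀ n : ℤ, d (n + 1) - d n = 2 * n + d 1 - d 0 := by
    intro n
    induction n using Int.induction_on with
    | zero => simp
    | succ i ih =>
      have := h (i + 1)
      rw [add_sub_cancel_right] at this
      linarith
    | pred i ih =>
      have := h (-i)
      rw [sub_add_cancel]
      linarith
  induction n using Int.induction_on with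
  | zero => simp
  | succ i ih => linear_combination key i + ih
  | pred i ih =>
    have := key (-i - 1)
    rw [sub_add_cancel] at this
    linear_combination ih - this

lemma hasse_of_quad (a q : ℤ) (h0 : ∀ n : ℤ, 0 ≤ n ^ 2 - a * n + q)
    (h1 : ∀ n : ℤ, ¬(n ^ 2 - a * n + q = 0 ∧ (n + 1) ^ 2 - a * (n + 1) + q = 0)) :
    a ^ 2 ≤ 4 * q := by
  obtain ⟨m, rfl | rfl⟩ := Int.even_or_odd' a
  · nlinarith [h0 m]
  · have e : (m + 1) ^ 2 - (2 * m + 1) * (m + 1) + q = m ^ 2 - (2 * m + 1) * m + q := by ring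
    have := h1 m
    rw [e, and_self] at this
    have := lt_of_le_of_ne (h0 m) (Ne.symm this)
    nlinarith

lemma fmap_pow_comm {F : Type} [Field F] {a b : F} (σ τ : F →+* F) (h : ∀ z, σ (τ z) = τ (σ z))
    (h1 : σ a = a) (h2 : σ b = b) (h3 : τ a = a) (h4 : τ b = b) (R : Pt a b) :
    fmap σ h1 h2 (fmap τ h3 h4 R) = fmap τ h3 h4 (fmap σ h1 h2 R) := by
  rcases R.cases with rfl | ⟨x, y, hx, rfl⟩
  · simp
  · simp only [fmap_pt, h]

lemma io_C (c : k) : io A B (C c) = algebraMap k (FF A B) c := rfl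

lemma io_X_transcendental : Transcendental k (io A B X) := by
  have : io A B X = algebraMap (RatFunc k) (FF A B) RatFunc.X := by
    rw [← RatFunc.algebraMap_X]; rfl
  rw [this, transcendental_algebraMap_iff (algebraMap (RatFunc k) (FF A B)).injective]
  exact RatFunc.transcendental_X

/-- The translation endomorphism of the function field. -/
lemma exists_translation (h2 : (2 : k) ≠ 0) (P : Pt A B) :
    ∃ (σ : FF A B →+* FF A B) (hσ : ∀ c, σ (io A B (C c)) = io A B (C c)),
      fmap σ (hσ A) (hσ B) (gen A B h2) =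
        gen A B h2 + fmap ((io A B).comp C) rfl rfl P := by
  set S := algebraicClosure k (FF A B)
  let f : S →+* FF A B := S.val.toRingHom
  have fr : ∀ z, z ∈ f.range ↔ IsAlgebraic k z := fun z => by
    rw [← mem_algebraicClosure_iff]
    exact ⟨fun ⟨w, e⟩ => e ▸ w.2, fun h => ⟨⟨z, h⟩, rfl⟩⟩
  have fA : f (algebraMap k S A) = io A B (C A) := rfl
  have fB : f (algebraMap k S B) = io A B (C B) := rfl
  have hG : gen A B h2 ∉ (fmap f fA fB).range := fun h =>
    io_X_transcendental ((fr _).1 ((mem_range_fmap f fA fB _).1 h _ _ _ rfl).1)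
  have hP : fmap ((io A B).comp C) rfl rfl P ∈ (fmap f fA fB).range := by
    rw [mem_range_fmap]
    intro x y h e
    obtain ⟨⟨a, rfl⟩, ⟨b, rfl⟩⟩ := (mem_range_fmap _ rfl rfl _).1 ⟨P, rfl⟩ x y h e
    exact ⟨(fr _).2 (isAlgebraic_algebraMap a), (fr _).2 (isAlgebraic_algebraMap b)⟩
  have hGP : gen A B h2 + fmap ((io A B).comp C) rfl rfl P ∉ (fmap f fA fB).range := fun h =>
    hG (by simpa using sub_mem h hP)
  rcases (gen A B h2 + fmap ((io A B).comp C) rfl rfl P).cases with e | ⟨x, y, h, e⟩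
  · exact absurd (e ▸ zero_mem _) hGP
  have hx : Transcendental k x := by
    intro hx
    refine hGP ((mem_range_fmap f fA fB _).2 fun x' y' h' e' => ?_)
    obtain ⟨rfl, rfl⟩ := pt_inj.1 (e.symm.trans e')
    refine ⟨(fr _).2 hx, (fr _).2 (IsAlgebraic.of_pow two_pos ?_)⟩
    rw [h.1, ← mem_algebraicClosure_iff]
    rw [← mem_algebraicClosure_iff] at hx
    exact add_mem (add_mem (pow_mem hx 3) (mul_mem (S.algebraMap_mem A) hx)) (S.algebraMap_mem B)
  have hinj : Function.Injective (aeval x : k[X] →ₐ[k] FF A B).toRingHom :=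
    transcendental_iff_injective.1 hx
  let ρ : RatFunc k →+* FF A B := RatFunc.liftRingHom (aeval x : k[X] →ₐ[k] FF A B).toRingHom
    (nonZeroDivisors_le_comap_nonZeroDivisors_of_injective _ hinj)
  have hρ : ∀ p : k[X], ρ (algebraMap _ _ p) = aeval x p := fun p =>
    RatFunc.liftRingHom_algebraMap _ _ _
  have hy : y ^ 2 = ρ (fp A B) := by
    rw [show ρ (fp A B) = _ from hρ _, h.1]; simp [io_C]
  have hs : ∀ p, ffLift ρ y hy (io A B p) = aeval x p := fun p => (ffLift_alg _ _ _ _).trans (hρ p)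
  refine ⟨ffLift ρ y hy, fun c => by rw [hs, aeval_C, io_C], ?_⟩
  rw [e, gen, fmap_pt, pt_inj, hs, aeval_X, ffLift_om]
  exact ⟨rfl, rfl⟩

lemma ff_ext {E : Type} [Field E] {σ τ : FF A B →+* E}
    (hC : ∀ c, σ (io A B (C c)) = τ (io A B (C c))) (hX : σ (io A B X) = τ (io A B X))
    (hω : σ QuadraticAlgebra.omega = τ QuadraticAlgebra.omega) : σ = τ := by
  have h1 : σ.comp (io A B) = τ.comp (io A B) := Polynomial.ringHom_ext hC hX
  have h2 : σ.comp (algebraMap (RatFunc k) (FF A B)) = τ.comp (algebraMap (RatFunc k) (FF A B)) :=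
    IsFractionRing.ringHom_ext (A := k[X]) fun p => RingHom.congr_fun h1 p
  refine RingHom.ext fun z => ?_
  have a := RingHom.congr_fun h2 z.re
  have b := RingHom.congr_fun h2 z.im
  simp only [RingHom.comp_apply] at a b
  rw [ff_eq z, map_add, map_add, map_mul, map_mul, a, b, hω]

lemma orderOf_dvd_finrank {E F : Type} [Field E] [Field F] [Algebra E F] [FiniteDimensional E F]
    (τ : F ≃ₐ[E] F) : orderOf τ ∣ Module.finrank E F := by
  rw [← Nat.card_zpowers, ← IntermediateField.finrank_fixedField_eq_card,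
    ← Module.finrank_mul_finrank E (IntermediateField.fixedField (Subgroup.zpowers τ))]
  exact dvd_mul_left _ _

/-- A point fixed by the translation by a point of odd prime order `l` has degree divisible
by `l`. -/
lemma dvd_ht (h2 : (2 : k) ≠ 0) (hD : 4 * A ^ 3 + 27 * B ^ 2 ≠ 0) {l : ℕ} (hl : l.Prime)
    (hl2 : l ≠ 2) {P : Pt A B} (hP : P ≠ 0) (hlP : l • P = 0) (σ : FF A B →+* FF A B)
    (hσ : ∀ c, σ (io A B (C c)) = io A B (C c))
    (hG : fmap σ (hσ A) (hσ B) (gen A B h2) = gen A B h2 + fmap ((io A B).comp C) rfl rfl P)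
    {R : Pt (io A B (C A)) (io A B (C B))} (hR : R ∈ minus A B)
    (hfix : fmap σ (hσ A) (hσ B) R = R) : l ∣ ht R := by
  have hP' : fmap σ (hσ A) (hσ B) (fmap ((io A B).comp C) rfl rfl P) =
      fmap ((io A B).comp C) rfl rfl P := by
    rcases P.cases with rfl | ⟨x, y, h, rfl⟩
    · simp
    · simp only [fmap_pt, pt_inj]
      exact ⟨hσ x, hσ y⟩
  have hpow : ∀ n : ℕ, ∃ h, pt ((σ ^ n) (io A B X)) ((σ ^ n) QuadraticAlgebra.omega) h =
      gen A B h2 + n • fmap ((io A B).comp C) rfl rfl P := by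
    intro n
    induction n with
    | zero => exact ⟨gen_ns h2, by rw [zero_nsmul, add_zero]; rfl⟩
    | succ n ih =>
      obtain ⟨h, e⟩ := ih
      have := congrArg (fmap σ (hσ A) (hσ B)) e
      rw [fmap_pt, map_add, map_nsmul, hG, hP', add_assoc, ← succ_nsmul'] at this
      simp only [pow_succ', RingHom.coe_mul, Function.comp_apply]
      exact ⟨(NS.fmap_iff σ (hσ A) (hσ B)).2 h, this⟩
  have hCn : ∀ (n : ℕ) c, (σ ^ n) (io A B (C c)) = io A B (C c) := by
    intro n c
    induction n with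
    | zero => rfl
    | succ n ih => rw [pow_succ', RingHom.coe_mul, Function.comp_apply, ih, hσ]
  have hσl : σ ^ l = 1 := by
    obtain ⟨h, e⟩ := hpow l
    rw [← map_nsmul, hlP, map_zero, add_zero, gen, pt_inj] at e
    exact ff_ext (hCn l) e.1 e.2
  have hσ1 : σ ≠ 1 := by
    rintro rfl
    have : fmap (1 : FF A B →+* FF A B) (hσ A) (hσ B) (gen A B h2) = gen A B h2 := by
      rw [gen, fmap_pt]; rfl
    rw [this, left_eq_add] at hG
    exact hP ((map_eq_zero_iff _ (fmap_injective _ _ _)).1 hG)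
  rcases R.cases with rfl | ⟨x, y, h, rfl⟩
  · rw [ht_eq h2 hD rep_zero]; simp [hgt]
  rw [fmap_pt, pt_inj] at hfix
  rw [mem_minus, fmap_pt, neg_pt, pt_inj] at hR
  have hx := cj_fixed h2 hR.1
  rw [ht_eq h2 hD (rep_of_ratFunc h _ hx), hgt, ← RatFunc.finrank_eq_max_natDegree]
  set E₀ := IntermediateField.adjoin k {x.re}
  rcases Nat.eq_zero_or_pos (Module.finrank E₀ (RatFunc k)) with h0 | hpos
  · rw [h0]; exact dvd_zero _
  have : FiniteDimensional E₀ (RatFunc k) := Module.finite_of_finrank_pos hpos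
  have : FiniteDimensional E₀ (FF A B) := Module.Finite.trans (RatFunc k) (FF A B)
  have hfix0 : ∀ z : RatFunc k, z ∈ E₀ →
      σ (algebraMap _ (FF A B) z) = algebraMap _ (FF A B) z := by
    intro z hz
    induction hz using IntermediateField.adjoin_induction with
    | mem w hw => rw [Set.mem_singleton_iff.1 hw, ← hx, hfix.1]
    | algebraMap c => exact hσ c
    | add a b _ _ ha hb => rw [map_add, map_add, ha, hb]
    | inv a _ ha => rw [map_inv₀, map_inv₀, ha]
    | mul a b _ _ ha hb => rw [map_mul, map_mul, ha, hb]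
  let τ₀ : FF A B →ₐ[E₀] FF A B := { σ with commutes' := fun z => hfix0 z.1 z.2 }
  let τ : FF A B ≃ₐ[E₀] FF A B := AlgEquiv.ofBijective τ₀ (AlgHom.bijective τ₀)
  have hτ : ∀ (n : ℕ) z, (τ ^ n) z = (σ ^ n) z := by
    intro n z
    induction n with
    | zero => rfl
    | succ n ih =>
      rw [pow_succ', pow_succ', AlgEquiv.mul_apply, ih, RingHom.coe_mul, Function.comp_apply]
      rfl
  have : Fact l.Prime := ⟨hl⟩
  have ho : orderOf τ = l := by
    refine orderOf_eq_prime (AlgEquiv.ext fun z => by rw [hτ, hσl]; rfl) fun e => hσ1 ?_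
    exact RingHom.ext fun z => AlgEquiv.congr_fun e z
  have hd : l ∣ Module.finrank E₀ (FF A B) := ho ▸ orderOf_dvd_finrank τ
  rw [← Module.finrank_mul_finrank E₀ (RatFunc k), QuadraticAlgebra.finrank_eq_two] at hd
  exact ((Nat.coprime_primes hl Nat.prime_two).2 hl2).dvd_of_dvd_mul_right hd

/-- Frobenius eigenvalues satisfy a quadratic congruence with the Hasse bound. -/
theorem hasse_eig (p f : ℕ) [Fact p.Prime] [CharP k p] (h2 : (2 : k) ≠ 0)
    (hD : 4 * A ^ 3 + 27 * B ^ 2 ≠ 0) (hA : iterateFrobenius k p f A = A)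
    (hB : iterateFrobenius k p f B = B) {l : ℕ} (hl : l.Prime) (hl2 : l ≠ 2) {P : Pt A B}
    (hP : P ≠ 0) (hlP : l • P = 0) (c : ℕ) (hc : fmap (iterateFrobenius k p f) hA hB P = c • P) :
    ∃ a : ℤ, a ^ 2 ≤ 4 * (p ^ f : ℕ) ∧ (l : ℤ) ∣ (c : ℤ) ^ 2 - a * c + (p ^ f : ℕ) := by
  have : CharP (FF A B) p := charP_of_injective_ringHom (algebraMap k (FF A B)).injective p
  let Fr := iterateFrobenius (FF A B) p f
  have hF : ∀ z, Fr (io A B (C z)) = io A B (C (iterateFrobenius k p f z)) := fun z => by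
    simp only [Fr, iterateFrobenius_def, map_pow]
  have FA : Fr (io A B (C A)) = io A B (C A) := by rw [hF, hA]
  have FB : Fr (io A B (C B)) = io A B (C B) := by rw [hF, hB]
  have comm : ∀ σ : FF A B →+* FF A B, ∀ z, σ (Fr z) = Fr (σ z) := fun σ z => by
    simp only [Fr, iterateFrobenius_def, map_pow]
  set G := gen A B h2 with hGdef
  have hG : G ∈ minus A B := gen_mem h2
  have hπ : fmap Fr FA FB G ∈ minus A B := by
    rw [mem_minus, fmap_pow_comm _ _ (comm _), mem_minus.1 hG, map_neg]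
  have hR : ∀ n : ℤ, fmap Fr FA FB G - n • G ∈ minus A B := fun n => sub_mem hπ (zsmul_mem hG n)
  have h1 : ht G = 1 := by rw [ht_eq h2 hD (rep_gen h2)]; simp [hgt]
  let d : ℤ → ℤ := fun n => ht (fmap Fr FA FB G - n • G)
  have hrec : ∀ n, d (n + 1) + d (n - 1) = 2 * d n + 2 := by
    intro n
    have := ht_par h2 hD (hR n) hG
    rw [h1, show fmap Fr FA FB G - n • G + G = fmap Fr FA FB G - (n - 1) • G by module,
      show fmap Fr FA FB G - n • G - G = fmap Fr FA FB G - (n + 1) • G by module] at this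
    simp only [d]
    omega
  have d0 : d 0 = (p ^ f : ℕ) := by
    have r : Rep (io A B) (fmap Fr FA FB G) (X ^ p ^ f) 1 :=
      ⟨isCoprime_one_right, 1, one_ne_zero,
        by simp [hGdef, gen, fmap_pt, Fr, iterateFrobenius_def], by simp [hGdef, gen, fmap_pt]⟩
    simp only [d, zero_zsmul, sub_zero, ht_eq h2 hD r]
    simp [hgt]
  have hq := quad_of_rec d hrec
  refine ⟨d 0 + 1 - d 1, ?_, ?_⟩
  · rw [← d0]
    refine hasse_of_quad _ _ (fun n => by rw [← hq]; exact Int.natCast_nonneg _) fun n hn => ?_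
    rw [← hq, ← hq] at hn
    have := ht_par h2 hD (hR n) (hR (n + 1))
    rw [show fmap Fr FA FB G - n • G - (fmap Fr FA FB G - (n + 1) • G) = G by module, h1] at this
    simp only [d] at hn
    omega
  · rw [← d0, ← hq]
    obtain ⟨σ, hσ, e⟩ := exists_translation h2 P
    refine Int.natCast_dvd_natCast.2 (dvd_ht h2 hD hl hl2 hP hlP σ hσ e (hR c) ?_)
    have hP' : fmap Fr FA FB (fmap ((io A B).comp C) rfl rfl P) =
        c • fmap ((io A B).comp C) rfl rfl P := by
      rw [← map_nsmul, ← hc]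
      rcases P.cases with rfl | ⟨x, y, h, rfl⟩
      · simp
      · simp only [fmap_pt, pt_inj]
        exact ⟨hF x, hF y⟩
    rw [map_sub, map_zsmul, fmap_pow_comm _ _ (comm _), ← hGdef] at *
    rw [e, map_add, hP', natCast_zsmul, natCast_zsmul, nsmul_add]
    abel

end Pool.Agent.Lib.MP_e97e2b_nt
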