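import Pool.Agent.Lib.MP_e97e2b_nt.Short

/- Reduction of points modulo the maximal ideal of a valuation ring. -/

namespace Pool.Agent.Lib.MP_e97e2b_nt

open IsLocalRing

variable {F : Type} [Field F] (O : ValuationSubring F)

lemma mem_of_sq_mem {x : F} (h : x ^ 2 ∈ O) : x ∈ O := by
  rw [← O.valuation_le_one_iff] at h ⊢
  rw [map_pow] at h
  exact (pow_le_one_iff_of_nonneg zero_le two_ne_zero).1 h

/-- The `x`-coordinate is integral. -/
def Intg {A B : F} (P : Pt A B) : Prop := ∀ x y h, P = pt x y h → x ∈ O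

lemma y_mem {a b : O} {x y : F} (h : NS (a : F) (b : F) x y) (hx : x ∈ O) : y ∈ O := by
  refine mem_of_sq_mem O ?_
  rw [h.1]
  exact add_mem (add_mem (pow_mem hx 3) (mul_mem a.2 hx)) b.2

/-- `Q` is the reduction of `P`. -/
def Red {a b : O} (P : Pt (a : F) (b : F)) (Q : Pt (residue O a) (residue O b)) : Prop :=
  (P = 0 ∧ Q = 0) ∨ ∃ (x y : O) (h : NS (a : F) (b : F) x y)
    (h' : NS (residue O a) (residue O b) (residue O x) (residue O y)),
    P = pt (x : F) (y : F) h ∧ Q = pt _ _ h'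

variable {O} {a b : O}

lemma Red.eq_zero {P : Pt (a : F) (b : F)} (h : Red O P 0) : P = 0 := by
  rcases h with h | ⟨x, y, h, h', -, e⟩
  · exact h.1
  · exact absurd e.symm (pt_ne_zero _)

lemma Red.unique {P : Pt (a : F) (b : F)} {Q Q'} (h : Red O P Q) (h' : Red O P Q') : Q = Q' := by
  rcases h with h | ⟨x, y, h1, h2, e, rfl⟩ <;> rcases h' with h' | ⟨x', y', h1', h2', e', rfl⟩
  · rw [h.2, h'.2]
  · exact absurd (h.1.symm.trans e').symm (pt_ne_zero _)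
  · exact absurd (h'.1.symm.trans e).symm (pt_ne_zero _)
  · obtain ⟨ex, ey⟩ := pt_inj.1 (e.symm.trans e')
    exact pt_inj.2 ⟨by rw [Subtype.ext ex], by rw [Subtype.ext ey]⟩

lemma Red.add {P₁ P₂ : Pt (a : F) (b : F)} {Q₁ Q₂} (r₁ : Red O P₁ Q₁) (r₂ : Red O P₂ Q₂)
    (hI : Intg O (P₁ + P₂)) : Red O (P₁ + P₂) (Q₁ + Q₂) := by
  rcases r₁ with ⟨rfl, rfl⟩ | ⟨x₁, y₁, h₁, h₁', rfl, rfl⟩
  · rwa [zero_add, zero_add]
  rcases r₂ with ⟨rfl, rfl⟩ | ⟨x₂, y₂, h₂, h₂', rfl, rfl⟩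
  · rw [add_zero, add_zero]
    exact Or.inr ⟨x₁, y₁, h₁, h₁', rfl, rfl⟩
  by_cases hne : (x₁ : F) = x₂ ∧ (y₁ : F) = -y₂
  · refine Or.inl ⟨add_neg_case _ _ hne.1 hne.2, add_neg_case _ _ ?_ ?_⟩
    · rw [Subtype.ext hne.1]
    · rw [← map_neg, show y₁ = -y₂ from Subtype.ext hne.2]
  obtain ⟨l, e₁, e₂⟩ := exists_lam h₁ h₂ hne
  obtain ⟨h₃, e⟩ := add_char h₁ h₂ hne e₁ e₂
  have hl : l ∈ O := by
    refine mem_of_sq_mem O ?_
    have := add_mem (add_mem (hI _ _ _ e) x₁.2) x₂.2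
    rwa [show l ^ 2 - x₁ - x₂ + x₁ + x₂ = l ^ 2 by ring] at this
  lift l to O using hl
  have f₁ : l * (x₁ - x₂) = y₁ - y₂ := Subtype.ext (by simpa using e₁)
  have f₂ : l * (y₁ + y₂) = x₁ ^ 2 + x₁ * x₂ + x₂ ^ 2 + a := Subtype.ext (by simpa using e₂)
  have g₁ := congrArg (residue O) f₁
  have g₂ := congrArg (residue O) f₂
  simp only [map_sub, map_add, map_pow, map_mul] at g₁ g₂
  have hne' : ¬(residue O x₁ = residue O x₂ ∧ residue O y₁ = -residue O y₂) := by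
    rintro ⟨u, w⟩
    rcases h₁'.2 with t | t
    · exact t (by rw [w, ← u] at g₂; linear_combination -g₂)
    · exact t (by rw [u] at g₁; linear_combination w - g₁)
  obtain ⟨h₄, e'⟩ := add_char h₁' h₂' hne' g₁ g₂
  refine Or.inr ⟨l ^ 2 - x₁ - x₂, -(l * (l ^ 2 - x₁ - x₂ - x₁) + y₁), by simpa using h₃,
    by simpa using h₄, ?_, ?_⟩
  · rw [e, pt_inj]; simp
  · rw [e', pt_inj]; simp

lemma Red.nsmul {P : Pt (a : F) (b : F)} {Q} (r : Red O P Q) (hI : ∀ n : ℕ, Intg O (n • P))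
    (n : ℕ) : Red O (n • P) (n • Q) := by
  induction n with
  | zero => exact Or.inl ⟨zero_nsmul _, zero_nsmul _⟩
  | succ n ih =>
    rw [succ_nsmul, succ_nsmul]
    exact ih.add r (by rw [← succ_nsmul]; exact hI _)

/-- If two multiples of a point have the same reduction then they agree. -/
lemma Red.nsmul_inj {P : Pt (a : F) (b : F)} {Q} (r : Red O P Q) (hI : ∀ n : ℕ, Intg O (n • P))
    {m n : ℕ} (h : m • Q = n • Q) : m • P = n • P := by
  wlog hmn : m ≤ n generalizing m n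
  · exact (this h.symm (le_of_not_ge hmn)).symm
  obtain ⟨k, rfl⟩ := Nat.exists_eq_add_of_le hmn
  rw [add_nsmul] at h ⊢
  have hk : k • Q = 0 := by simpa using h
  have := r.nsmul hI k
  rw [hk] at this
  rw [this.eq_zero, add_zero]

/-- Multiples of `(1, 1)` on the cuspidal cubic. -/
lemma cusp_nsmul {k : Type} [Field k] (h : NS (0 : k) 0 1 1) (n : ℕ)
    (hn : ∀ m : ℕ, 1 ≤ m → m ≤ n + 1 → (m : k) ≠ 0) :
    ∃ h', (n + 1) • pt (1 : k) 1 h = pt (((n + 1 : ℕ) : k)⁻¹ ^ 2) (((n + 1 : ℕ) : k)⁻¹ ^ 3) h' := by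
  induction n with
  | zero => exact ⟨by simpa using h, (one_nsmul _).trans (pt_inj.2 (by simp))⟩
  | succ n ih =>
    obtain ⟨h', e⟩ := ih fun m a b => hn m a (by omega)
    have n1 : ((n + 1 : ℕ) : k) ≠ 0 := hn _ (by omega) (by omega)
    have n2 : ((n + 1 : ℕ) : k) + 1 ≠ 0 := by
      have := hn (n + 1 + 1) (by omega) le_rfl
      rwa [Nat.cast_succ] at this
    rw [succ_nsmul, e, Nat.cast_succ (n + 1)]
    generalize ((n + 1 : ℕ) : k) = c at *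
    have hne : ¬(c⁻¹ ^ 2 = 1 ∧ c⁻¹ ^ 3 = -1) := by
      rintro ⟨u, w⟩
      apply n2
      have : c⁻¹ = -1 := by rw [pow_succ, u, one_mul] at w; exact w
      have t : c * c⁻¹ = 1 := mul_inv_cancel₀ n1
      rw [this] at t
      linear_combination -t
    obtain ⟨h₃, e₃⟩ := add_char h' h hne (l := (c ^ 2 + c + 1) / (c * (c + 1)))
      (by field_simp; ring) (by field_simp; ring)
    have hx : ((c ^ 2 + c + 1) / (c * (c + 1))) ^ 2 - c⁻¹ ^ 2 - 1 = (c + 1)⁻¹ ^ 2 := by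
      field_simp; ring
    have hy : -((c ^ 2 + c + 1) / (c * (c + 1)) *
        (((c ^ 2 + c + 1) / (c * (c + 1))) ^ 2 - c⁻¹ ^ 2 - 1 - c⁻¹ ^ 2) + c⁻¹ ^ 3) =
        (c + 1)⁻¹ ^ 3 := by
      field_simp; ring
    exact ⟨by rw [← hy, ← hx]; exact h₃, e₃.trans (pt_inj.2 ⟨hx, hy⟩)⟩

/-- Four points `P, Q, P + Q, P - Q` reducing to a node: `y(P)`, `y(Q)` have different sizes. -/
lemma node_false {A B x₀ x₁ y₁ x₂ y₂ x₃ y₃ x₄ y₄ : F} (h₁ : NS A B x₁ y₁) (h₂ : NS A B x₂ y₂)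
    (h₃ : NS A B x₃ y₃) (h₄ : NS A B x₄ y₄) (e₃ : pt x₁ y₁ h₁ + pt x₂ y₂ h₂ = pt x₃ y₃ h₃)
    (e₄ : pt x₁ y₁ h₁ - pt x₂ y₂ h₂ = pt x₄ y₄ h₄) (v2 : O.valuation 2 = 1)
    (v3 : O.valuation (3 * x₀) = 1) (c₁ : O.valuation (x₁ - x₀) < 1)
    (c₂ : O.valuation (x₂ - x₀) < 1) (c₃ : O.valuation (x₃ - x₀) < 1)
    (c₄ : O.valuation (x₄ - x₀) < 1) (hy : O.valuation y₁ = O.valuation y₂) : False := by
  have hx : x₁ ≠ x₂ := by
    rintro rfl
    rcases pt_eq_or h₁ h₂ with e | e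
    · rw [e, sub_self] at e₄; exact pt_ne_zero _ e₄.symm
    · rw [e, neg_add_cancel] at e₃; exact pt_ne_zero _ e₃.symm
  obtain ⟨l, a₁, a₂⟩ := exists_lam h₁ h₂ fun h => hx h.1
  obtain ⟨_, ea⟩ := add_char h₁ h₂ (fun h => hx h.1) a₁ a₂
  obtain ⟨m, b₁, b₂⟩ := exists_lam h₁ h₂.neg fun h => hx h.1
  obtain ⟨_, eb⟩ := add_char h₁ h₂.neg (fun h => hx h.1) b₁ b₂
  rw [sub_eq_add_neg, neg_pt, eb, pt_inj] at e₄
  rw [ea, pt_inj] at e₃
  have key : ∀ z w : F, O.valuation (w - x₀) < 1 → z ^ 2 - x₁ - x₂ = w →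
      O.valuation (z ^ 2 - 3 * x₀) < 1 := by
    intro z w hw e
    rw [show z ^ 2 - 3 * x₀ = (x₁ - x₀) + (x₂ - x₀) + (w - x₀) by linear_combination e]
    exact O.valuation.map_add_lt (O.valuation.map_add_lt c₁ c₂) hw
  have kl := key l _ c₃ e₃.1
  have km := key m _ c₄ e₄.1
  have vm : O.valuation m = 1 := by
    have : O.valuation (m ^ 2) = 1 := by
      rw [show m ^ 2 = 3 * x₀ + (m ^ 2 - 3 * x₀) by ring,
        O.valuation.map_add_eq_of_lt_left (by rwa [v3]), v3]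
    rw [map_pow] at this
    exact (pow_eq_one_iff_of_nonneg zero_le two_ne_zero).1 this
  have hd : O.valuation (x₁ - x₂) ≠ 0 := by simpa [sub_eq_zero] using hx
  have s : O.valuation (m + l) = O.valuation (m - l) := by
    refine mul_right_cancel₀ hd ?_
    rw [← map_mul, ← map_mul, show (m + l) * (x₁ - x₂) = 2 * y₁ by linear_combination a₁ + b₁,
      show (m - l) * (x₁ - x₂) = 2 * y₂ by linear_combination b₁ - a₁, map_mul, map_mul, hy]
  have p : O.valuation (m - l) ^ 2 < 1 := by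
    rw [pow_two]
    nth_rewrite 1 [← s]
    rw [← map_mul, show (m + l) * (m - l) = (m ^ 2 - 3 * x₀) - (l ^ 2 - 3 * x₀) by ring]
    exact O.valuation.map_sub_lt km kl
  have p' : O.valuation (m - l) < 1 := (pow_lt_one_iff_of_nonneg zero_le two_ne_zero).1 p
  have := O.valuation.map_add_lt (s ▸ p' : O.valuation (m + l) < 1) p'
  rw [show m + l + (m - l) = 2 * m by ring, map_mul, v2, vm, one_mul] at this
  exact lt_irrefl _ this

end Pool.Agent.Lib.MP_e97e2b_nt
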