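import Pool.Agent.Lib.MP_e97e2b_nt.Defs
import Pool.Agent.Lib.MP_e97e2b_nt.Gal
import Pool.Agent.Lib.MP_e97e2b_nt.Red
import Pool.Agent.Lib.MP_e97e2b_nt.Hasse

/- The Frobenius eigenvalue at a prime of good reduction. -/

namespace Pool.Agent.Lib.MP_e97e2b_nt

open NumberField IsDedekindDomain WeierstrassCurve Polynomial

lemma mem_of_root {F : Type} [Field F] (O : ValuationSubring F) {D : F[X]} {N : ℕ} {c x : F}
    (hD : ∀ i, D.coeff i ∈ O) (h : DC D N c) (hc : O.valuation c = 1) (hx : D.eval x = 0) :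
    x ∈ O := by
  by_contra hxO
  rw [← O.valuation_le_one_iff, not_le] at hxO
  rw [eval_eq_sum_range' (n := N + 1) (Nat.lt_succ_of_le h.1), Finset.sum_range_succ, h.2] at hx
  have h0 : O.valuation x ^ N ≠ 0 := pow_ne_zero _ (lt_trans zero_lt_one hxO).ne'
  have h1 : O.valuation (∑ i ∈ Finset.range N, D.coeff i * x ^ i) < O.valuation x ^ N := by
    refine O.valuation.map_sum_lt h0 fun i hi => ?_
    rw [map_mul, map_pow]
    calc O.valuation (D.coeff i) * O.valuation x ^ i ≤ 1 * O.valuation x ^ i :=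
          mul_le_mul_left ((O.valuation_le_one_iff _).2 (hD i)) _
      _ = O.valuation x ^ i := one_mul _
      _ < O.valuation x ^ N := pow_lt_pow_right₀ hxO (Finset.mem_range.1 hi)
  have h2 : ∑ i ∈ Finset.range N, D.coeff i * x ^ i = -(c * x ^ N) := eq_neg_of_add_eq_zero_left hx
  rw [h2, Valuation.map_neg, map_mul, hc, one_mul, map_pow] at h1
  exact lt_irrefl _ h1

lemma residue_eq_zero_iff' {F : Type} [Field F] (O : ValuationSubring F) (z : O) :
    IsLocalRing.residue O z = 0 ↔ O.valuation (z : F) < 1 := by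
  rw [IsLocalRing.residue_eq_zero_iff, O.valuation_lt_one_iff]

lemma frob_abs {F : Type} [Field F] (O : ValuationSubring F) (σ : F →+* F) (p f : ℕ)
    (hp : p.Prime) (hσ : ∀ z ∈ O, O.valuation (σ z - z ^ p ^ f) < 1)
    (hpO : O.valuation (p : F) < 1) {a b : O} (ha : σ a = a) (hb : σ b = b)
    (h2 : O.valuation (2 : F) = 1) (hD : O.valuation (4 * (a : F) ^ 3 + 27 * (b : F) ^ 2) = 1)
    {l : ℕ} (hl : l.Prime) (hlO : O.valuation (l : F) = 1) {P : Pt (a : F) (b : F)} (hP : P ≠ 0)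
    (hlP : l • P = 0) (c : ℕ) (hc : fmap σ ha hb P = c • P) :
    ∃ t : ℤ, t ^ 2 ≤ 4 * (p ^ f : ℕ) ∧ (l : ℤ) ∣ (c : ℤ) ^ 2 - t * c + (p ^ f : ℕ) := by
  have : Fact p.Prime := ⟨hp⟩
  have hch : CharP (IsLocalRing.ResidueField O) p := by
    rw [CharP.charP_iff_prime_eq_zero hp, ← map_natCast (IsLocalRing.residue O),
      residue_eq_zero_iff']
    simpa using hpO
  have h2F : (2 : F) ≠ 0 := by
    intro h
    rw [h, map_zero] at h2
    exact zero_ne_one h2
  have hDF : 4 * (a : F) ^ 3 + 27 * (b : F) ^ 2 ≠ 0 := by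
    intro h
    rw [h, map_zero] at hD
    exact zero_ne_one hD
  have h2k : (2 : IsLocalRing.ResidueField O) ≠ 0 := by
    intro h
    have h' : IsLocalRing.residue O 2 = 0 := by rw [map_ofNat]; exact h
    rw [residue_eq_zero_iff'] at h'
    exact absurd h2 (ne_of_lt h')
  have hDk : 4 * IsLocalRing.residue O a ^ 3 + 27 * IsLocalRing.residue O b ^ 2 ≠ 0 := by
    intro h
    have h' : IsLocalRing.residue O (4 * a ^ 3 + 27 * b ^ 2) = 0 := by
      rw [map_add, map_mul, map_mul, map_pow, map_pow, map_ofNat, map_ofNat]; exact h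
    rw [residue_eq_zero_iff'] at h'
    exact absurd hD (ne_of_lt h')
  have hmem : ∀ z : O, σ z ∈ O := by
    intro z
    have h1 : σ z - (z : F) ^ p ^ f ∈ O := (O.valuation_le_one_iff _).1 (hσ z z.2).le
    have h3 := add_mem h1 (pow_mem z.2 (p ^ f))
    rwa [sub_add_cancel] at h3
  have hres : ∀ z : O, IsLocalRing.residue O ⟨σ z, hmem z⟩
      = iterateFrobenius (IsLocalRing.ResidueField O) p f (IsLocalRing.residue O z) := by
    intro z
    rw [iterateFrobenius_def, ← map_pow, ← sub_eq_zero, ← map_sub, residue_eq_zero_iff']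
    simpa using hσ z z.2
  have hA : iterateFrobenius (IsLocalRing.ResidueField O) p f (IsLocalRing.residue O a)
      = IsLocalRing.residue O a := by
    rw [← hres]
    exact congrArg _ (Subtype.ext ha)
  have hB : iterateFrobenius (IsLocalRing.ResidueField O) p f (IsLocalRing.residue O b)
      = IsLocalRing.residue O b := by
    rw [← hres]
    exact congrArg _ (Subtype.ext hb)
  obtain ⟨D, hD1, hD2, hD3⟩ := divpoly h2F hDF O.toSubring a.2 b.2 l hl.one_le
  have hI : ∀ n : ℕ, Intg O (n • P) := by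
    intro n x y h e
    refine mem_of_root O hD1 hD2 (by rw [map_pow, hlO, one_pow]) ((hD3 x y h).1 ?_)
    rw [← e, smul_comm, hlP, nsmul_zero]
  rcases P.cases with rfl | ⟨x, y, h, rfl⟩
  · exact absurd rfl hP
  have hx : x ∈ O := hI 1 x y h (one_nsmul _)
  have hy : y ∈ O := y_mem O h hx
  lift x to O using hx
  lift y to O using hy
  have hk : NS (IsLocalRing.residue O a) (IsLocalRing.residue O b) (IsLocalRing.residue O x)
      (IsLocalRing.residue O y) := by
    refine ns_of_eq h2k hDk ?_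
    have e : y ^ 2 = x ^ 3 + a * x + b := Subtype.ext (by simpa using h.1)
    have e' := congrArg (IsLocalRing.residue O) e
    simpa only [map_add, map_mul, map_pow] using e'
  have r : Red O (pt (x : F) (y : F) h) (pt _ _ hk) := Or.inr ⟨x, y, h, hk, rfl, rfl⟩
  have hlQ : l • pt _ _ hk = 0 := by
    have r1 := r.nsmul hI l
    rw [hlP] at r1
    exact r1.unique (Or.inl ⟨rfl, rfl⟩)
  have hcQ : fmap (iterateFrobenius (IsLocalRing.ResidueField O) p f) hA hB (pt _ _ hk)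
      = c • pt _ _ hk := by
    have r1 := r.nsmul hI c
    rw [← hc, fmap_pt] at r1
    refine Red.unique ?_ r1
    refine Or.inr ⟨⟨σ x, hmem x⟩, ⟨σ y, hmem y⟩, (NS.fmap_iff σ ha hb).2 h, ?_, rfl, ?_⟩
    · rw [hres, hres]
      exact (NS.fmap_iff _ hA hB).2 hk
    · rw [fmap_pt, pt_inj, hres, hres]
      exact ⟨rfl, rfl⟩
  by_cases hl2 : l = 2
  · subst hl2
    refine ⟨0, by positivity, ?_⟩
    have hc2 : ¬2 ∣ c := by
      rintro ⟨d, rfl⟩
      rw [mul_nsmul, hlQ, nsmul_zero, fmap_pt] at hcQ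
      exact pt_ne_zero _ hcQ
    have hp2 : ¬2 ∣ p ^ f := by
      intro hd
      have h3 := (Nat.prime_dvd_prime_iff_eq Nat.prime_two hp).1 (Nat.prime_two.dvd_of_dvd_pow hd)
      subst h3
      exact h2k (CharP.cast_eq_zero (IsLocalRing.ResidueField O) 2)
    obtain ⟨d, hd⟩ : ∃ d, c = 2 * d + 1 := ⟨c / 2, by omega⟩
    obtain ⟨e, he⟩ : ∃ e, p ^ f = 2 * e + 1 := ⟨p ^ f / 2, by omega⟩
    rw [he, hd]
    exact ⟨2 * d ^ 2 + 2 * d + e + 1, by push_cast; ring⟩
  · exact hasse_eig p f h2k hDk hA hB hl hl2 (pt_ne_zero hk) hlQ c hcQ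

variable {K : Type} [Field K] [NumberField K]

lemma short_disc (W : WeierstrassCurve K) [W.IsElliptic] :
    4 * (-W.c₄ / 48) ^ 3 + 27 * (-W.c₆ / 864) ^ 2 ≠ 0 := by
  have h := W.c_relation
  have h1 : 4 * (-W.c₄ / 48) ^ 3 + 27 * (-W.c₆ / 864) ^ 2 = -W.Δ / 16 := by
    linear_combination (1 / 27648 : K) * h
  rw [h1]
  exact div_ne_zero (neg_ne_zero.2 W.isUnit_Δ.ne_zero) (by norm_num)

lemma val_natCast (v : HeightOneSpectrum (𝓞 K)) {m n : ℕ} (hv : ((n : ℕ) : 𝓞 K) ∉ v.asIdeal)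
    (h : m ∣ n) : v.valuation K (m : K) = 1 := by
  rw [← map_natCast (algebraMap (𝓞 K) K), HeightOneSpectrum.valuation_eq_one_iff_notMem]
  exact fun hm => hv (v.asIdeal.mem_of_dvd (Nat.cast_dvd_cast h) hm)

/-- A short model with good reduction. -/
theorem good_short (W : WeierstrassCurve K) (v : HeightOneSpectrum (𝓞 K))
    (hv : ((6 : ℕ) : 𝓞 K) ∉ v.asIdeal) (hg : GoodAt W v) : ∃ u : K, u ≠ 0 ∧
      v.valuation K (u ^ 4 * (-W.c₄ / 48)) ≤ 1 ∧ v.valuation K (u ^ 6 * (-W.c₆ / 864)) ≤ 1 ∧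
      v.valuation K (4 * (u ^ 4 * (-W.c₄ / 48)) ^ 3 + 27 * (u ^ 6 * (-W.c₆ / 864)) ^ 2) = 1 := by
  obtain ⟨C, h1, h2, h3, h4, h6, hΔ⟩ := hg
  have v2 : v.valuation K (2 : K) = 1 := by simpa using val_natCast v hv (m := 2) (by norm_num)
  have v3 : v.valuation K (3 : K) = 1 := by simpa using val_natCast v hv (m := 3) (by norm_num)
  have e4 : ((C.u⁻¹ : Kˣ) : K) ^ 4 * (-W.c₄ / 48) = -(C • W).c₄ / (2 ^ 4 * 3) := by
    rw [variableChange_c₄]; ring
  have e6 : ((C.u⁻¹ : Kˣ) : K) ^ 6 * (-W.c₆ / 864) = -(C • W).c₆ / (2 ^ 5 * 3 ^ 3) := by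
    rw [variableChange_c₆]; ring
  have m1 : (C • W).a₁ ∈ (v.valuation K).integer := h1
  have m2 : (C • W).a₂ ∈ (v.valuation K).integer := h2
  have m3 : (C • W).a₃ ∈ (v.valuation K).integer := h3
  have m4 : (C • W).a₄ ∈ (v.valuation K).integer := h4
  have m6 : (C • W).a₆ ∈ (v.valuation K).integer := h6
  have b2 : (C • W).b₂ ∈ (v.valuation K).integer :=
    add_mem (pow_mem m1 2) (mul_mem (ofNat_mem _ 4) m2)
  have b4 : (C • W).b₄ ∈ (v.valuation K).integer :=
    add_mem (mul_mem (ofNat_mem _ 2) m4) (mul_mem m1 m3)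
  have b6 : (C • W).b₆ ∈ (v.valuation K).integer :=
    add_mem (pow_mem m3 2) (mul_mem (ofNat_mem _ 4) m6)
  have c4 : (C • W).c₄ ∈ (v.valuation K).integer :=
    sub_mem (pow_mem b2 2) (mul_mem (ofNat_mem _ 24) b4)
  have c6 : (C • W).c₆ ∈ (v.valuation K).integer :=
    sub_mem (add_mem (neg_mem (pow_mem b2 3)) (mul_mem (mul_mem (ofNat_mem _ 36) b2) b4))
      (mul_mem (ofNat_mem _ 216) b6)
  refine ⟨((C.u⁻¹ : Kˣ) : K), Units.ne_zero _, ?_, ?_, ?_⟩
  · rw [e4, map_div₀, Valuation.map_neg, map_mul, map_pow, v2, v3, one_pow, one_mul, div_one]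
    exact c4
  · rw [e6, map_div₀, Valuation.map_neg, map_mul, map_pow, map_pow, v2, v3, one_pow, one_pow,
      one_mul, div_one]
    exact c6
  · have h := (C • W).c_relation
    have e : 4 * (-(C • W).c₄ / (2 ^ 4 * 3)) ^ 3 + 27 * (-(C • W).c₆ / (2 ^ 5 * 3 ^ 3)) ^ 2
        = -(C • W).Δ / 2 ^ 4 := by
      linear_combination (1 / 27648 : K) * h
    rw [e4, e6, e, map_div₀, Valuation.map_neg, map_pow, v2, one_pow, div_one, hΔ]

lemma exists_frob {L : Type} [Field L] [NumberField L] [Algebra K L] [IsGalois K L]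
    (v : HeightOneSpectrum (𝓞 K)) : ∃ (w : HeightOneSpectrum (𝓞 L)) (σ : L ≃ₐ[K] L),
      w.asIdeal.LiesOver v.asIdeal ∧
      (∀ z : L, w.valuation L z ≤ 1 → w.valuation L (σ z - z ^ Ideal.absNorm v.asIdeal) < 1) ∧
      ∀ (ζ : L) (m : ℕ), IsPrimitiveRoot ζ m → 0 < m → (m : 𝓞 K) ∉ v.asIdeal →
        σ ζ = ζ ^ Ideal.absNorm v.asIdeal := by
  have hvm := v.isMaximal
  obtain ⟨Q, hQ, hQv⟩ := Ideal.exists_maximal_ideal_liesOver_of_isIntegral (S := 𝓞 L) v.asIdeal
  have hQ0 : Q ≠ ⊥ := Ideal.ne_bot_of_liesOver_of_ne_bot v.ne_bot Q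
  have hfin : Finite (𝓞 L ⧸ Q) := Ideal.finiteQuotientOfFreeOfNeBot Q hQ0
  have hG : IsGaloisGroup (L ≃ₐ[K] L) (𝓞 K) (𝓞 L) := inferInstance
  have := hG.commutes
  have := hG.isInvariant
  obtain ⟨σ, hσ⟩ := IsArithFrobAt.exists_of_isInvariant (𝓞 K) (L ≃ₐ[K] L) Q
  have hq : Nat.card (𝓞 K ⧸ Q.under (𝓞 K)) = Ideal.absNorm v.asIdeal := by
    rw [← hQv.over, Ideal.absNorm_apply, Submodule.cardQuot_apply]
  have hcoe : ∀ r : 𝓞 L, algebraMap (𝓞 L) L (MulSemiringAction.toAlgHom (𝓞 K) (𝓞 L) σ r)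
      = σ (algebraMap (𝓞 L) L r) := fun r => rfl
  let w : HeightOneSpectrum (𝓞 L) := ⟨Q, hQ.isPrime, hQ0⟩
  have hint : ∀ r : 𝓞 L, w.valuation L (σ (algebraMap (𝓞 L) L r)
      - algebraMap (𝓞 L) L r ^ Ideal.absNorm v.asIdeal) < 1 := by
    intro r
    have h1 := hσ r
    rw [hq] at h1
    have h2 := (w.valuation_lt_one_iff_mem (K := L) _).2 h1
    rw [← hcoe, ← map_pow, ← map_sub]
    exact h2
  refine ⟨w, σ, hQv, fun z hz => ?_, fun ζ m hζ hm hmv => ?_⟩
  · have hz' : z ∈ HeightOneSpectrum.valuationSubringAtPrime L w := by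
      rw [HeightOneSpectrum.valuationSubringAtPrime_eq_valuationSubring]
      exact hz
    obtain ⟨r, s, hs, rfl⟩ := hz'
    have vs : w.valuation L (algebraMap (𝓞 L) L s) = 1 :=
      (HeightOneSpectrum.valuation_eq_one_iff_notMem w).2 hs
    have vr : w.valuation L (algebraMap (𝓞 L) L r) ≤ 1 := w.valuation_le_one r
    have hr := hint r
    have hs' := hint s
    generalize algebraMap (𝓞 L) L s = S at *
    generalize algebraMap (𝓞 L) L r = R at *
    generalize Ideal.absNorm v.asIdeal = q at *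
    have vσs : w.valuation L (σ S) = 1 := by
      have e : σ S = S ^ q + (σ S - S ^ q) := by ring
      have vq : w.valuation L (S ^ q) = 1 := by rw [map_pow, vs, one_pow]
      rw [e, (w.valuation L).map_add_eq_of_lt_left (by rwa [vq]), vq]
    have hS0 : S ≠ 0 := by
      intro h
      rw [h, map_zero] at vs
      exact zero_ne_one vs
    have hσS0 : σ S ≠ 0 := by simpa using hS0
    have e : σ (R * S⁻¹) - (R * S⁻¹) ^ q
        = ((σ R - R ^ q) * S ^ q - R ^ q * (σ S - S ^ q)) / (σ S * S ^ q) := by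
      rw [map_mul, map_inv₀, mul_pow, inv_pow]
      field_simp
      ring
    rw [e, map_div₀, map_mul, map_pow, vσs, vs, one_pow, one_mul, div_one]
    refine (w.valuation L).map_sub_lt ?_ ?_
    · rw [map_mul, map_pow, vs, one_pow, mul_one]
      exact hr
    · rw [map_mul, map_pow]
      calc w.valuation L R ^ q * w.valuation L (σ S - S ^ q)
          ≤ 1 * w.valuation L (σ S - S ^ q) := mul_le_mul_left (pow_le_one' vr q) _
        _ < 1 := by rwa [one_mul]
  · let z : 𝓞 L := ⟨ζ, hζ.isIntegral hm⟩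
    have hz : z ^ m = 1 := RingOfIntegers.ext (by simpa [z] using hζ.pow_eq_one)
    have hmQ : (m : 𝓞 L) ∉ Q := by
      intro h
      apply hmv
      rw [hQv.over, Ideal.under_def, Ideal.mem_comap, map_natCast]
      exact h
    have h1 := AlgHom.IsArithFrobAt.apply_of_pow_eq_one hσ hz hmQ
    rw [hq] at h1
    have h2 := congrArg (algebraMap (𝓞 L) L) h1
    rw [hcoe, map_pow] at h2
    exact h2

lemma absNorm_eq_pow (v : HeightOneSpectrum (𝓞 K)) : ∃ p f : ℕ, p.Prime ∧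
    Ideal.absNorm v.asIdeal = p ^ f ∧ (p : 𝓞 K) ∈ v.asIdeal := by
  have hvm := v.isMaximal
  have hfin : Finite (𝓞 K ⧸ v.asIdeal) := Ideal.finiteQuotientOfFreeOfNeBot _ v.ne_bot
  let _ := Ideal.Quotient.field v.asIdeal
  obtain ⟨p, hc⟩ := CharP.exists (𝓞 K ⧸ v.asIdeal)
  cases nonempty_fintype (𝓞 K ⧸ v.asIdeal)
  obtain ⟨f, hp, hf⟩ := FiniteField.card (𝓞 K ⧸ v.asIdeal) p
  refine ⟨p, f, hp, ?_, ?_⟩
  · rw [Ideal.absNorm_apply, Submodule.cardQuot_apply, Nat.card_eq_fintype_card, hf]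
  · rw [← Ideal.Quotient.eq_zero_iff_mem, map_natCast]
    exact CharP.cast_eq_zero _ p

theorem frob_main {L : Type} [Field L] [NumberField L] [Algebra K L] [IsGalois K L] {l : ℕ}
    (hl : l.Prime) {ζ : L} (hζ : IsPrimitiveRoot ζ l) (v : HeightOneSpectrum (𝓞 K))
    (hv : ((6 * l : ℕ) : 𝓞 K) ∉ v.asIdeal) {A B u : K} (hu : u ≠ 0)
    (hA : v.valuation K (u ^ 4 * A) ≤ 1) (hB : v.valuation K (u ^ 6 * B) ≤ 1)
    (hD : v.valuation K (4 * (u ^ 4 * A) ^ 3 + 27 * (u ^ 6 * B) ^ 2) = 1)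
    (P : PtL L A B) (hP : P ≠ 0) (hlP : l • P = 0)
    (he : ∀ σ : L ≃ₐ[K] L, ∃ c : ℕ, gal σ P = c • P) :
    ∃ (σ : L ≃ₐ[K] L) (c : ℕ) (a : ℤ), σ ζ = ζ ^ Ideal.absNorm v.asIdeal ∧ gal σ P = c • P ∧
      a ^ 2 ≤ 4 * (Ideal.absNorm v.asIdeal : ℕ) ∧
      (l : ℤ) ∣ (c : ℤ) ^ 2 - a * c + (Ideal.absNorm v.asIdeal : ℕ) := by
  obtain ⟨w, σ, hw, hσ, hroot⟩ := exists_frob (L := L) v
  obtain ⟨p, f, hp, hq, hpv⟩ := absNorm_eq_pow v
  obtain ⟨c, hc⟩ := he σ
  have hlv : (l : 𝓞 K) ∉ v.asIdeal := fun hm =>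
    hv (v.asIdeal.mem_of_dvd (Nat.cast_dvd_cast (Dvd.intro_left 6 rfl)) hm)
  have hE := (w.valuation L).isEquiv_valuation_valuationSubring
  have he0 : v.asIdeal.ramificationIdx' w.asIdeal ≠ 0 :=
    Ideal.IsDedekindDomain.ramificationIdx'_ne_zero_of_liesOver w.asIdeal v.ne_bot
  have hle : ∀ x : K, v.valuation K x ≤ 1 →
      algebraMap K L x ∈ (w.valuation L).valuationSubring := by
    intro x hx
    rw [Valuation.mem_valuationSubring_iff, ← HeightOneSpectrum.valuation_liesOver L v w]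
    exact pow_le_one' hx _
  have heq : ∀ x : K, v.valuation K x = 1 →
      (w.valuation L).valuationSubring.valuation (algebraMap K L x) = 1 := by
    intro x hx
    rw [← hE.eq_one_iff_eq_one, ← HeightOneSpectrum.valuation_liesOver L v w, hx, one_pow]
  have hlt : ∀ x : K, v.valuation K x < 1 →
      (w.valuation L).valuationSubring.valuation (algebraMap K L x) < 1 := by
    intro x hx
    rw [← hE.lt_one_iff_lt_one, ← HeightOneSpectrum.valuation_liesOver L v w]
    exact pow_lt_one' hx he0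
  let a : (w.valuation L).valuationSubring := ⟨algebraMap K L (u ^ 4 * A), hle _ hA⟩
  let b : (w.valuation L).valuationSubring := ⟨algebraMap K L (u ^ 6 * B), hle _ hB⟩
  have hu' : algebraMap K L u ≠ 0 := by simpa using hu
  have ha' : (a : L) = algebraMap K L u ^ 4 * RingHom.id L (algebraMap K L A) := by simp [a]
  have hb' : (b : L) = algebraMap K L u ^ 6 * RingHom.id L (algebraMap K L B) := by simp [b]
  have ha : (σ : L →+* L) a = a := σ.commutes _
  have hb : (σ : L →+* L) b = b := σ.commutes _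
  have hcomm : fmap (σ : L →+* L) ha hb (hom (RingHom.id L) _ hu' ha' hb' P)
      = hom (RingHom.id L) _ hu' ha' hb' (gal σ P) := by
    rcases P.cases with rfl | ⟨x, y, h, rfl⟩
    · simp only [map_zero]
    · rw [gal_pt, hom_pt, hom_pt, fmap_pt, pt_inj]
      simp
  obtain ⟨t, ht1, ht2⟩ := frob_abs (w.valuation L).valuationSubring (σ : L →+* L) p f hp
    (fun z hz => by
      rw [← hE.lt_one_iff_lt_one, ← hq]
      exact hσ z hz)
    (by
      have := hlt (p : K) (by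
        rw [← map_natCast (algebraMap (𝓞 K) K)]
        exact (v.valuation_lt_one_iff_mem (K := K) _).2 hpv)
      rwa [map_natCast] at this)
    ha hb
    (by
      have := heq ((2 : ℕ) : K) (val_natCast v hv (Dvd.dvd.mul_right (by norm_num) l))
      rwa [map_natCast, Nat.cast_ofNat] at this)
    (by
      have := heq _ hD
      simpa only [map_add, map_mul, map_pow, map_ofNat, a, b] using this)
    hl
    (by
      have := heq (l : K) (val_natCast v hv (Dvd.intro_left 6 rfl))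
      rwa [map_natCast] at this)
    (P := hom (RingHom.id L) _ hu' ha' hb' P)
    (fun h => hP (hom_injective _ _ hu' ha' hb' (by rw [h, map_zero])))
    (by rw [← map_nsmul, hlP, map_zero]) c (by rw [hcomm, hc, map_nsmul])
  refine ⟨σ, c, t, hroot ζ l hζ hl.pos hlv, hc, ?_, ?_⟩
  · rw [hq]; exact ht1
  · rw [hq]; exact ht2

end Pool.Agent.Lib.MP_e97e2b_nt
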