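import Pool.Agent.Lib.MP_e97e2b_nt.LocA

/- The isogeny character at a prime above `l`. -/

namespace Pool.Agent.Lib.MP_e97e2b_nt

open NumberField Polynomial IsLocalRing

variable {K L F : Type} [Field K] [Field L] [Field F] [Algebra K L] {j : L →+* F}
  {O : ValuationSubring F} {l : ℕ} {ζ : L} {w : O.ValueGroup} {A B : K}

/-- A scaling making the curve integral and primitive. -/
structure Scale (j : L →+* F) (O : ValuationSubring F) (A B : K) (u : F) : Prop where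
  ne : u ≠ 0
  a : u⁻¹ ^ 4 * j (algebraMap K L A) ∈ O
  b : u⁻¹ ^ 6 * j (algebraMap K L B) ∈ O
  one : u ^ 4 = j (algebraMap K L A) ∨ u ^ 6 = j (algebraMap K L B)

/-- The shape of the isogeny character. -/
def Concl (l : ℕ) (ζ : L) (P : PtL L A B) : Prop :=
  (∃ s : ℕ, s ≤ 24 ∧ s ≠ 6 ∧ ∀ (σ : L ≃ₐ[K] L) (t c : ℕ), σ ζ = ζ ^ t → gal σ P = c • P →
    (c : ZMod l) ^ 12 = (t : ZMod l) ^ s) ∨
  ∀ (σ : L ≃ₐ[K] L) (t c : ℕ), σ ζ = ζ ^ t → gal σ P = c • P →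
    (c : ZMod l) ^ 2 = (t : ZMod l) * (t : ZMod l) ^ (l / 2)

lemma exists_scale [IsAlgClosed F] (j : L →+* F) (O : ValuationSubring F)
    (hD : 4 * A ^ 3 + 27 * B ^ 2 ≠ 0) : ∃ u, Scale j O A B u := by
  set a := j (algebraMap K L A) with ha
  set b := j (algebraMap K L B) with hb
  have hab : a = 0 → b = 0 → False := fun h h' => by
    rw [ha, map_eq_zero, map_eq_zero] at h
    rw [hb, map_eq_zero, map_eq_zero] at h'
    simp [h, h'] at hD
  rcases le_total (O.valuation b ^ 2) (O.valuation a ^ 3) with h | h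
  · obtain ⟨u, hu⟩ := IsAlgClosed.exists_pow_nat_eq a (n := 4) (by norm_num)
    have u0 : u ≠ 0 := by
      rintro rfl
      have : a = 0 := by simpa using hu.symm
      exact hab this (by simpa [this] using h)
    refine ⟨u, u0, ?_, mem_of_sq_mem O ?_, Or.inl hu⟩
    · rw [← ha, ← hu, ← mul_pow, inv_mul_cancel₀ u0, one_pow]; exact one_mem _
    · rw [← hb, ← O.valuation_le_one_iff, show (u⁻¹ ^ 6 * b) ^ 2 = b ^ 2 / a ^ 3 by
        rw [← hu]; field_simp, map_div₀, map_pow, map_pow]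
      exact div_le_one_of_le₀ h zero_le
  · obtain ⟨u, hu⟩ := IsAlgClosed.exists_pow_nat_eq b (n := 6) (by norm_num)
    have u0 : u ≠ 0 := by
      rintro rfl
      have : b = 0 := by simpa using hu.symm
      exact hab (by simpa [this] using h) this
    refine ⟨u, u0, ?_, ?_, Or.inr hu⟩
    · rw [← ha, ← O.valuation_le_one_iff, ← pow_le_one_iff_of_nonneg zero_le three_ne_zero,
        ← map_pow, show (u⁻¹ ^ 4 * a) ^ 3 = a ^ 3 / b ^ 2 by rw [← hu]; field_simp, map_div₀,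
        map_pow, map_pow]
      exact div_le_one_of_le₀ h zero_le
    · rw [← hb, ← hu, ← mul_pow, inv_mul_cancel₀ u0, one_pow]; exact one_mem _

lemma Scale.val (T : TRam K j O l ζ w) {u : F} (S : Scale j O A B u) :
    ∃ m : ℤ, O.valuation u ^ 12 = w ^ (((l - 1 : ℕ) : ℤ) * (3 * m)) ∨
      O.valuation u ^ 12 = w ^ (((l - 1 : ℕ) : ℤ) * (2 * m)) := by
  rcases S.one with h | h
  · obtain ⟨m, e⟩ := T.base A (by rintro rfl; simp [S.ne] at h)
    refine ⟨m, Or.inl ?_⟩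
    rw [show 12 = 4 * 3 by rfl, pow_mul, ← map_pow, h, e, ← zpow_natCast, ← zpow_mul]
    congr 1; push_cast; ring
  · obtain ⟨m, e⟩ := T.base B (by rintro rfl; simp [S.ne] at h)
    refine ⟨m, Or.inr ?_⟩
    rw [show 12 = 6 * 2 by rfl, pow_mul, ← map_pow, h, e, ← zpow_natCast, ← zpow_mul]
    congr 1; push_cast; ring

lemma zmod_zpow {l : ℕ} [Fact l.Prime] {t : ZMod l} (ht : t ≠ 0) {a b : ℕ} (k : ℤ)
    (h : (a : ℤ) = b + ((l - 1 : ℕ) : ℤ) * k) : t ^ a = t ^ b := by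
  rw [← zpow_natCast, h, zpow_add₀ ht, zpow_mul, zpow_natCast, zpow_natCast,
    ZMod.pow_card_sub_one_eq_one ht, one_zpow, mul_one]

lemma loc_cusp (T : TRam K j O l ζ w) (hD : 4 * A ^ 3 + 27 * B ^ 2 ≠ 0) {u : F}
    (S : Scale j O A B u) {x₀ y₀ : L} (h₀ : NS (algebraMap K L A) (algebraMap K L B) x₀ y₀)
    (hlP : l • pt x₀ y₀ h₀ = 0)
    (hmax : ∀ (n : ℕ) x y h, n • pt x₀ y₀ h₀ = pt x y h → O.valuation (j x) ≤ O.valuation (j x₀))
    (hx : O.valuation u ^ 2 < O.valuation (j x₀)) : Concl l ζ (pt x₀ y₀ h₀) := by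
  have : Fact l.Prime := ⟨T.prime⟩
  have u0 : 0 < O.valuation u := zero_lt_iff.2 (by simpa using S.ne)
  have key : ∀ (n : ℕ) (a : F), n ≠ 0 → u⁻¹ ^ (2 * n) * a ∈ O →
      O.valuation a < O.valuation (j x₀) ^ n := by
    intro n a hn h
    rw [← O.valuation_le_one_iff, map_mul, map_pow, map_inv₀, inv_pow,
      inv_mul_le_one₀ (pow_pos u0 _), pow_mul] at h
    exact h.trans_lt (pow_lt_pow_left₀ hx zero_le hn)
  obtain ⟨vz, H⟩ := cusp_mult T h₀ hmax (key 2 _ two_ne_zero S.a) (key 3 _ three_ne_zero S.b)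
  have z0 : j (x₀ / y₀) ≠ 0 := fun h => by simp [h] at vz
  have zu : O.valuation (j (x₀ / y₀) * u) < 1 := by
    rw [← pow_lt_one_iff_of_nonneg zero_le two_ne_zero, map_mul, mul_pow, ← vz]
    exact mul_lt_mul_of_pos_left hx (pow_pos (zero_lt_iff.2 (by simpa using z0)) _)
  have bd := cusp_bound T hD h₀ hlP (fun k a b => by
    obtain ⟨x, y, h, e, e', -⟩ := H k a b
    exact ⟨x, y, h, e, e'⟩) S.ne S.a S.b zu.le
  obtain ⟨m, i, e1, e2⟩ := T.tr (x₀ / y₀) (by simpa using z0)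
  have hc : ∀ (σ : L ≃ₐ[K] L) (t c : ℕ), σ ζ = ζ ^ t → gal σ (pt x₀ y₀ h₀) = c • pt x₀ y₀ h₀ →
      (c : ZMod l) = (t : ZMod l) ^ i := fun σ t c a b => cusp_char T h₀ hlP z0 H (e2 σ t a) b
  have fin : ∀ M : ℤ, O.valuation u ^ 12 = w ^ (((l - 1 : ℕ) : ℤ) * M) → ∃ s : ℕ, s ≤ 24 ∧
      (s : ℤ) = 12 * i + ((l - 1 : ℕ) : ℤ) * (12 * m + M) := by
    intro M hM
    have e : O.valuation (j (x₀ / y₀) * u) ^ 12 =
        w ^ (12 * i + ((l - 1 : ℕ) : ℤ) * (12 * m + M)) := by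
      rw [map_mul, mul_pow, hM, e1, ← zpow_natCast, ← zpow_mul, ← zpow_add₀ T.w0.ne']
      congr 1; push_cast; ring
    have b1 := pow_le_pow_left₀ zero_le bd 12
    have b2 := pow_lt_one₀ zero_le zu (n := 12) (by norm_num)
    rw [e, ← pow_mul, ← zpow_natCast, zpow_le_zpow_iff_right_of_lt_one₀ T.w0 T.w1] at b1
    rw [e, zpow_lt_one_iff_right_of_lt_one₀ T.w0 T.w1] at b2
    exact ⟨_, by omega, Int.toNat_of_nonneg b2.le⟩
  obtain ⟨n, hn⟩ := T.prime.odd_of_ne_two (by have := T.five; omega)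
  have hn' : ((l - 1 : ℕ) : ℤ) = 2 * n := by omega
  obtain ⟨M, hM | hM⟩ := S.val T
  · obtain ⟨s, s1, s2⟩ := fin _ hM
    by_cases s6 : s = 6
    · right
      intro σ t c a b
      have : 2 * i + n * (4 * m + M) = 1 := by
        rw [s6, hn'] at s2; push_cast at s2; linarith
      obtain ⟨r, hr⟩ : Odd (4 * m + M) :=
        (Int.odd_mul.1 (⟨-i, by linarith⟩ : Odd ((n : ℤ) * (4 * m + M)))).2
      rw [hc σ t c a b, ← pow_mul, ← pow_succ', show l / 2 = n by omega]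
      exact zmod_zpow (T.tz a) (-(r + 1)) (by rw [hn']; push_cast; rw [hr] at this; linarith)
    · exact Or.inl ⟨s, s1, s6, fun σ t c a b => by
        rw [hc σ t c a b, ← pow_mul]
        exact (zmod_zpow (T.tz a) (12 * m + 3 * M) (by rw [s2]; push_cast; ring)).symm⟩
  · obtain ⟨s, s1, s2⟩ := fin _ hM
    refine Or.inl ⟨s, s1, ?_, fun σ t c a b => by
      rw [hc σ t c a b, ← pow_mul]
      exact (zmod_zpow (T.tz a) (12 * m + 2 * M) (by rw [s2]; push_cast; ring)).symm⟩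
    rintro rfl
    have : 2 * (3 * i + n * (6 * m + M)) = (3 : ℤ) := by
      rw [hn'] at s2; push_cast at s2; linarith
    omega

lemma res_fix (T : TRam K j O l ζ w) {u : F} (S : Scale j O A B u) {d e : ℕ} (hde : e * d = 12)
    {σ : L ≃ₐ[K] L} {t : ℕ} (ht : σ ζ = ζ ^ t) {x : L} (hx : u⁻¹ ^ e * j x ∈ O) :
    O.valuation (u⁻¹ ^ e * j ((σ ^ 12) x) - u⁻¹ ^ e * j x) < 1 := by
  have : Fact l.Prime := ⟨T.prime⟩
  by_cases x0 : x = 0
  · simp [x0]
  obtain ⟨m, i, e1, e2⟩ := T.tr x x0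
  have e3 := e2 _ _ (gal_pow_zeta σ ht 12)
  have u0 : 0 < O.valuation (u⁻¹ ^ e) := zero_lt_iff.2 (by simpa using fun h => (S.ne h).elim)
  rw [← O.valuation_le_one_iff] at hx
  rw [show u⁻¹ ^ e * j ((σ ^ 12) x) - u⁻¹ ^ e * j x =
    u⁻¹ ^ e * (j ((σ ^ 12) x) - ((t ^ 12 : ℕ) : F) ^ i * j x) +
      (((t ^ (12 * i) : ℕ) : F) - (1 : ℕ)) * (u⁻¹ ^ e * j x) by push_cast; ring]
  refine O.valuation.map_add_lt (lt_of_lt_of_le ?_ hx) ?_
  · rw [map_mul, map_mul]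
    exact mul_lt_mul_of_pos_left e3 u0
  rw [map_mul]
  rcases hx.lt_or_eq with h | h
  · refine mul_lt_one_of_nonneg_of_lt_one_right ?_ zero_le h
    simpa using val_int_le O ((t ^ (12 * i) : ℕ) - (1 : ℕ))
  rw [h, mul_one, T.cong]
  obtain ⟨M, hM⟩ : ∃ M : ℤ, O.valuation u ^ 12 = w ^ (((l - 1 : ℕ) : ℤ) * M) := by
    obtain ⟨M, h | h⟩ := S.val T <;> exact ⟨_, h⟩
  have h' := congrArg (· ^ d) h
  simp only [map_mul, map_pow, map_inv₀, mul_pow, ← pow_mul, hde, one_pow] at h'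
  rw [inv_pow, hM, e1, ← zpow_natCast, ← zpow_mul, ← zpow_neg, ← zpow_add₀ T.w0.ne',
    zpow_eq_one_iff_right₀ zero_le T.w1.ne] at h'
  push_cast
  rw [← pow_zero (t : ZMod l)]
  exact zmod_zpow (T.tz ht) (e * (M - m * d)) (by
    rw [← hde]; push_cast; linear_combination (e : ℤ) * h')

lemma loc_int (T : TRam K j O l ζ w) {u : F} (S : Scale j O A B u) {P : PtL L A B} (hP : P ≠ 0)
    (hlP : l • P = 0) (hint : ∀ (n : ℕ) x y h, n • P = pt x y h → u⁻¹ ^ 2 * j x ∈ O)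
    {σ : L ≃ₐ[K] L} {t c : ℕ} (ht : σ ζ = ζ ^ t) (hc : gal σ P = c • P) :
    (c : ZMod l) ^ 12 = 1 := by
  have : Fact l.Prime := ⟨T.prime⟩
  have l5 := T.five
  have hu := inv_ne_zero S.ne
  let a : O := ⟨_, S.a⟩
  let b : O := ⟨_, S.b⟩
  let J : PtL L A B →+ Pt (a : F) (b : F) := hom j u⁻¹ hu rfl rfl
  have Ji : Function.Injective J := hom_injective _ _ _ _ _
  have hI : ∀ n : ℕ, Intg O (n • J P) := by
    intro n x y h e
    rw [← map_nsmul] at e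
    rcases (n • P).cases with e' | ⟨x', y', h', e'⟩
    · rw [e', map_zero] at e
      exact absurd e.symm (pt_ne_zero _)
    · rw [e', hom_pt, pt_inj] at e
      exact e.1 ▸ hint n _ _ _ e'
  have two : (2 : ResidueField O) ≠ 0 := by
    simpa using T.res (m := 2) (Nat.not_dvd_of_pos_of_lt two_pos (by omega))
  have mult : ∀ k : ℕ, (k : ZMod l) ≠ 0 → ∃ (x y : L) (h : NS _ _ x y) (X Y : O),
      k • P = pt x y h ∧ (X : F) = u⁻¹ ^ 2 * j x ∧ (Y : F) = u⁻¹ ^ 3 * j y ∧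
      NS (a : F) (b : F) X Y := by
    intro k hk
    obtain ⟨x, y, h, e⟩ := (k • P).cases.resolve_left ((nsmul_eq_zero_iff' T.prime hP hlP).not.2 hk)
    have n := (NS.map_iff j u⁻¹ hu (A' := (a : F)) (B' := (b : F)) rfl rfl).2 h
    exact ⟨x, y, h, ⟨_, hint k _ _ _ e⟩, ⟨_, y_mem O n (hint k _ _ _ e)⟩, e, rfl, rfl, n⟩
  by_cases hg : ∃ (k : ℕ) (Q : _), (k : ZMod l) ≠ 0 ∧ Red O (J (k • P)) Q
  · obtain ⟨k, Q, hk, R⟩ := hg
    have k0 := (nsmul_eq_zero_iff' T.prime hP hlP).not.2 hk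
    obtain ⟨x, y, h, e⟩ := (k • P).cases.resolve_left k0
    have hI' : ∀ n : ℕ, Intg O (n • J (k • P)) := fun n => by
      rw [map_nsmul, ← mul_nsmul]; exact hI _
    have R1 := R.nsmul hI' (c ^ 12)
    have g : c ^ 12 • J (k • P) = J (gal (σ ^ 12) (k • P)) := by
      rw [map_nsmul (gal _), gal_pow σ hc, ← map_nsmul, ← mul_nsmul, ← mul_nsmul, mul_comm]
    have R2 : Red O (c ^ 12 • J (k • P)) Q := by
      rcases R with ⟨e0, -⟩ | ⟨X, Y, h1, h2, e1, rfl⟩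
      · exact absurd (Ji (e0.trans (map_zero J).symm)) k0
      rw [e, hom_pt, pt_inj] at e1
      have n := (NS.map_iff j u⁻¹ hu (A' := (a : F)) (B' := (b : F)) rfl rfl).2 (h.gal (σ ^ 12))
      have fx := res_fix T S (e := 2) (d := 6) rfl ht (e1.1 ▸ X.2)
      have fy := res_fix T S (e := 3) (d := 4) rfl ht (e1.2 ▸ Y.2)
      have mx : u⁻¹ ^ 2 * j ((σ ^ 12) x) ∈ O := by
        have := add_mem ((O.valuation_le_one_iff _).1 fx.le) (e1.1 ▸ X.2 : u⁻¹ ^ 2 * j x ∈ O)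
        rwa [sub_add_cancel] at this
      have rx : residue O ⟨_, mx⟩ = residue O X := res_eq_iff.2 (e1.1 ▸ fx)
      have ry : residue O ⟨_, y_mem O n mx⟩ = residue O Y := res_eq_iff.2 (e1.2 ▸ fy)
      refine Or.inr ⟨⟨_, mx⟩, ⟨_, y_mem O n mx⟩, n, by rwa [rx, ry], ?_, pt_inj.2 ⟨rx.symm, ry.symm⟩⟩
      rw [g, e, gal_pt, hom_pt]
    have := R.nsmul_inj hI' (m := c ^ 12) (n := 1) (by rw [one_nsmul]; exact R1.unique R2)
    rw [← map_nsmul, ← map_nsmul] at this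
    simpa using (nsmul_eq_iff T.prime k0 (by rw [← mul_nsmul, mul_nsmul', hlP, nsmul_zero])).1
      (Ji this)
  have sing : ∀ k : ℕ, ∀ x y h (X Y : O), k • P = pt x y h → (X : F) = u⁻¹ ^ 2 * j x →
      (Y : F) = u⁻¹ ^ 3 * j y → NS (a : F) (b : F) X Y →
      residue O a = -3 * residue O X ^ 2 ∧ residue O b = 2 * residue O X ^ 3 := by
    intro k x y h X Y e eX eY n
    have q := congrArg (residue O) (show Y ^ 2 = X ^ 3 + a * X + b from Subtype.ext n.1)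
    simp only [map_add, map_mul, map_pow] at q
    have : ¬ NS (residue O a) (residue O b) (residue O X) (residue O Y) := fun n' =>
      hg ⟨k, _, (nsmul_eq_zero_iff' T.prime hP hlP).not.1 (e ▸ pt_ne_zero _),
        Or.inr ⟨X, Y, n, n', by rw [e, hom_pt, pt_inj]; exact ⟨eX.symm, eY.symm⟩, rfl⟩⟩
    simp only [NS, q, true_and, not_or, not_not, ne_eq] at this
    have y0 := (mul_eq_zero.1 this.2).resolve_left two
    rw [y0] at q
    exact ⟨by linear_combination this.1, by linear_combination -q - residue O X * this.1⟩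
  by_contra hne
  obtain ⟨e, c1, cl⟩ := gal_mod T.prime hP hlP hc
  rw [← ZMod.natCast_mod] at hne
  have c0 : ((c % l : ℕ) : ZMod l) ≠ 0 :=
    (ZMod.natCast_eq_zero_iff _ _).not.2 (Nat.not_dvd_of_pos_of_lt c1 cl)
  generalize c % l = k at *
  obtain ⟨x₁, y₁, h₁, X₁, Y₁, e₁, a₁, b₁, n₁⟩ := mult 1 (by simp)
  obtain ⟨x₂, y₂, h₂, X₂, Y₂, e₂, a₂, b₂, n₂⟩ := mult k c0
  obtain ⟨x₃, y₃, h₃, X₃, Y₃, e₃, a₃, b₃, n₃⟩ := mult (1 + k) fun h => hne (by
    push_cast at h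
    rw [eq_neg_of_add_eq_zero_right h]; norm_num)
  obtain ⟨x₄, y₄, h₄, X₄, Y₄, e₄, a₄, b₄, n₄⟩ := mult (l + 1 - k) fun h => hne (by
    rw [Nat.cast_sub (by omega), sub_eq_zero] at h
    simp [← h])
  have s₁ := sing _ _ _ _ _ _ e₁ a₁ b₁ n₁
  have X0 : residue O X₁ ≠ 0 := by
    intro h
    rw [h] at s₁
    rcases S.one with h | h
    · have : a = 1 := Subtype.ext (by simp [a, ← h, S.ne])
      simpa [this] using s₁.1
    · have : b = 1 := Subtype.ext (by simp [b, ← h, S.ne])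
      simpa [this] using s₁.2
  have three : (3 : ResidueField O) ≠ 0 := by
    simpa using T.res (m := 3) (Nat.not_dvd_of_pos_of_lt (by norm_num) (by omega))
  have same : ∀ X : O, residue O a = -3 * residue O X ^ 2 ∧ residue O b = 2 * residue O X ^ 3 →
      O.valuation ((X : F) - X₁) < 1 := by
    intro X s
    have p2 : residue O X ^ 2 = residue O X₁ ^ 2 :=
      mul_left_cancel₀ (neg_ne_zero.2 three) (s.1.symm.trans s₁.1)
    have p3 : residue O X ^ 3 = residue O X₁ ^ 3 := mul_left_cancel₀ two (s.2.symm.trans s₁.2)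
    exact res_eq_iff.1 (mul_left_cancel₀ (pow_ne_zero 2 X0)
      (by linear_combination p3 - residue O X * p2))
  have pj : ∀ k : ℕ, ∀ x y h (X Y : O) n, k • P = pt x y h → (X : F) = u⁻¹ ^ 2 * j x →
      (Y : F) = u⁻¹ ^ 3 * j y → pt (X : F) (Y : F) n = J (k • P) := by
    intro k x y h X Y n e eX eY
    rw [e, hom_pt, pt_inj]
    exact ⟨eX, eY⟩
  have unit : ∀ z : O, residue O z ≠ 0 → O.valuation (z : F) = 1 := fun z hz =>
    (O.valuation_eq_one_iff z).1 ((residue_ne_zero_iff_isUnit z).1 hz)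
  refine node_false n₁ n₂ n₃ n₄ ?_ ?_ (unit 2 (by rwa [map_ofNat]))
    (unit (3 * X₁) (by rw [map_mul, map_ofNat]; exact mul_ne_zero three X0)) (same _ s₁)
    (same _ (sing _ _ _ _ _ _ e₂ a₂ b₂ n₂)) (same _ (sing _ _ _ _ _ _ e₃ a₃ b₃ n₃))
    (same _ (sing _ _ _ _ _ _ e₄ a₄ b₄ n₄)) ?_
  · rw [pj _ _ _ _ _ _ _ e₁ a₁ b₁, pj _ _ _ _ _ _ _ e₂ a₂ b₂, pj _ _ _ _ _ _ _ e₃ a₃ b₃, ← map_add,
      add_nsmul]
  · rw [pj _ _ _ _ _ _ _ e₁ a₁ b₁, pj _ _ _ _ _ _ _ e₂ a₂ b₂, pj _ _ _ _ _ _ _ e₄ a₄ b₄, ← map_sub,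
      sub_eq_iff_eq_add.2]
    rw [← add_nsmul, Nat.sub_add_cancel (by omega), add_nsmul, hlP, zero_add]
  · rw [one_nsmul] at e₁
    rw [e₂, e₁, gal_pt, pt_inj] at e
    rw [b₁, b₂, ← e.2, map_mul, map_mul, T.inv ht]

theorem loc_main {K L : Type} [Field K] [NumberField K] [Field L] [Algebra K L] {l : ℕ}
    (hl : l.Prime) (h5 : 5 ≤ l) (hd : ¬ (l : ℤ) ∣ discr K) {ζ : L} (hζ : IsPrimitiveRoot ζ l)
    (hL : ∀ x : L, ∃ p : K[X], aeval ζ p = x) {A B : K} (hD : 4 * A ^ 3 + 27 * B ^ 2 ≠ 0)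
    (P : PtL L A B) (hP : P ≠ 0) (hlP : l • P = 0) : Concl l ζ P := by
  let j := algebraMap L (AlgebraicClosure L)
  obtain ⟨O, h1, h2⟩ := exists_val (j.comp (algebraMap K L)) hl hd
  have T := tram_of j O hl h5 hζ hL h1 h2
  obtain ⟨u, S⟩ := exists_scale j O hD
  obtain ⟨k, hk, hm⟩ := Finset.exists_max_image (Finset.Ico 1 l)
    (fun k => O.valuation (j (xn (k • P)))) ⟨1, by simp [hl.one_lt]⟩
  rw [Finset.mem_Ico] at hk
  obtain ⟨x₀, y₀, h₀, e⟩ := (k • P).cases.resolve_left ((nsmul_eq_zero_iff' hl hP hlP).not.2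
    ((ZMod.natCast_eq_zero_iff _ _).not.2 (Nat.not_dvd_of_pos_of_lt hk.1 hk.2)))
  have hl' : l • pt x₀ y₀ h₀ = 0 := by rw [← e, ← mul_nsmul, mul_nsmul', hlP, nsmul_zero]
  have hmax : ∀ (n : ℕ) x y h, n • pt x₀ y₀ h₀ = pt x y h →
      O.valuation (j x) ≤ O.valuation (j x₀) := by
    intro n x y h e'
    rw [← e, ← mul_nsmul, (nsmul_eq_iff hl hP hlP).2 (ZMod.natCast_mod (k * n) l).symm] at e'
    have := hm (k * n % l) (Finset.mem_Ico.2 ⟨Nat.pos_of_ne_zero fun h => by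
      rw [h, zero_nsmul] at e'; exact pt_ne_zero _ e'.symm, Nat.mod_lt _ hl.pos⟩)
    rwa [e, e'] at this
  have tr : ∀ (σ : L ≃ₐ[K] L) (c : ℕ), gal σ P = c • P →
      gal σ (pt x₀ y₀ h₀) = c • pt x₀ y₀ h₀ := fun σ c h => by
    rw [← e, map_nsmul, h, ← mul_nsmul, ← mul_nsmul, mul_comm]
  have : Concl l ζ (pt x₀ y₀ h₀) := by
    rcases lt_or_ge (O.valuation u ^ 2) (O.valuation (j x₀)) with h | h
    · exact loc_cusp T hD S h₀ hl' hmax h
    refine Or.inl ⟨0, by norm_num, by norm_num, fun σ t c a b => ?_⟩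
    rw [pow_zero]
    refine loc_int T S (pt_ne_zero _) hl' (fun n x y h' e' => ?_) a b
    rw [← O.valuation_le_one_iff, map_mul, map_pow, map_inv₀, inv_pow]
    exact inv_mul_le_one_of_le₀ ((hmax n x y h' e').trans h) zero_le
  rcases this with ⟨s, s1, s2, H⟩ | H
  · exact Or.inl ⟨s, s1, s2, fun σ t c a b => H σ t c a (tr σ c b)⟩
  · exact Or.inr fun σ t c a b => H σ t c a (tr σ c b)

end Pool.Agent.Lib.MP_e97e2b_nt
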