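import Pool.Agent.Lib.MP_e97e2b_nt.ABasic
import Pool.Agent.Lib.MP_e97e2b_nt.Eigen
import Pool.Agent.Lib.MP_e97e2b_nt.Frob
import Pool.Agent.Lib.MP_e97e2b_nt.Loc

/- The elliptic curve analysis. -/

namespace Pool.Agent.Lib.MP_e97e2b_nt

open NumberField IsDedekindDomain WeierstrassCurve Polynomial

/-- `c` is congruent to a Weil number of size `√q`. -/
def IsWeil (l q c : ℤ) : Prop := ∃ a : ℤ, a ^ 2 ≤ 4 * q ∧ l ∣ c ^ 2 - a * c + q

lemma IsWeil.sq {l q c : ℤ} (h : IsWeil l q c) : IsWeil l (q ^ 2) (c ^ 2) := by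
  obtain ⟨a, h1, h2⟩ := h
  refine ⟨a ^ 2 - 2 * q, by nlinarith [mul_nonneg (sq_nonneg a) (sub_nonneg.2 h1)], ?_⟩
  exact (h2.mul_right (c ^ 2 + a * c + q)).trans (dvd_of_eq (by ring))

lemma IsWeil.cube {l q c : ℤ} (h : IsWeil l q c) : IsWeil l (q ^ 3) (c ^ 3) := by
  obtain ⟨a, h1, h2⟩ := h
  refine ⟨a ^ 3 - 3 * a * q,
    by nlinarith [mul_nonneg (sq_nonneg (a ^ 2 - q)) (sub_nonneg.2 h1)], ?_⟩
  exact (h2.mul_right (c ^ 4 + a * c ^ 3 + (a ^ 2 - q) * c ^ 2 + a * q * c + q ^ 2)).trans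
    (dvd_of_eq (by ring))

/-- Exclusion of the exponents other than six. -/
lemma weil_bound {q l c s : ℕ} (hq : 2 ≤ q) (hl : 4 * q ^ 48 < l) (h : IsWeil l q c)
    (h1 : s ≤ 24) (h2 : s ≠ 6) : (c : ZMod l) ^ 12 ≠ (q : ZMod l) ^ s := by
  intro e
  obtain ⟨a, a1, a2⟩ := h.sq.sq.cube
  simp only [← pow_mul] at a1 a2
  have q1 : (1 : ℤ) ≤ q := by omega
  have d : (l : ℤ) ∣ ((q : ℤ) ^ s) ^ 2 - a * q ^ s + (q ^ 6) ^ 2 := by
    rw [← ZMod.intCast_zmod_eq_zero_iff_dvd] at a2 ⊢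
    push_cast at a2 ⊢
    rw [← e]
    linear_combination a2
  have b1 : (q : ℤ) ^ s ≤ q ^ 24 := pow_le_pow_right₀ q1 h1
  have b2 : (q : ℤ) ^ 6 ≤ q ^ 24 := pow_le_pow_right₀ q1 (by norm_num)
  have b3 : (q : ℤ) ^ s ≠ q ^ 6 := fun h => h2 (pow_right_injective₀ (by omega) (by omega) h)
  have b4 : (0 : ℤ) < q ^ s := by positivity
  have b5 : (0 : ℤ) < q ^ 6 := by positivity
  have b6 : 4 * ((q : ℤ) ^ 24) ^ 2 < l := by rw [← pow_mul]; exact_mod_cast hl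
  have a3 : |a| ≤ 2 * (q : ℤ) ^ 6 :=
    abs_le.2 (abs_le_of_sq_le_sq' (by rw [mul_pow, ← pow_mul]; linarith) (by positivity))
  generalize (q : ℤ) ^ s = x, (q : ℤ) ^ 6 = y, (q : ℤ) ^ 24 = z at *
  rw [abs_le] at a3
  have := Int.le_of_dvd (by nlinarith [pow_pos (abs_pos.2 (sub_ne_zero.2 b3)) 2, sq_abs (x - y)]) d
  nlinarith

theorem ec_main (K : Type) [Field K] [NumberField K] : ∃ l0 : ℕ, ∀ l : ℕ, l.Prime → l0 < l →
    ∀ W : WeierstrassCurve K, W.IsElliptic → Heavenly W l → Bad K l := by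
  have p5 : Prime (5 : ℤ) := Nat.prime_iff_prime_int.1 Nat.prime_five
  have : (Ideal.span {(5 : ℤ)}).IsMaximal :=
    PrincipalIdealRing.isMaximal_of_irreducible p5.irreducible
  obtain ⟨P₀, hP₀, hPl⟩ := Ideal.exists_maximal_ideal_liesOver_of_isIntegral (S := 𝓞 K)
    (Ideal.span {(5 : ℤ)})
  let v₀ : HeightOneSpectrum (𝓞 K) := ⟨P₀, hP₀.isPrime, Ideal.ne_bot_of_liesOver_of_ne_bot
    (Ideal.span_singleton_eq_bot.not.2 p5.ne_zero) P₀⟩
  have m5 : ((5 : ℕ) : 𝓞 K) ∈ P₀ := by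
    simpa using (Ideal.mem_of_liesOver P₀ (Ideal.span {(5 : ℤ)}) 5).1
      (Ideal.mem_span_singleton_self _)
  have q2 : 2 ≤ Ideal.absNorm P₀ := by
    have h0 := Ideal.absNorm_eq_zero_iff.not.2 v₀.ne_bot
    have h1 := Ideal.absNorm_eq_one_iff.not.2 hP₀.ne_top
    change Ideal.absNorm P₀ ≠ 0 at h0
    omega
  refine ⟨4 * Ideal.absNorm P₀ ^ 48 + (discr K).natAbs + 5, fun l hl hlt W hW hH => ?_⟩
  have : Fact l.Prime := ⟨hl⟩
  have := cyc_facts K hl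
  have : NumberField (cycField K l) := IsCyclotomicExtension.numberField {l} K _
  have : IsGalois K (cycField K l) := IsCyclotomicExtension.isGalois {l} K _
  have hζ := IsCyclotomicExtension.zeta_spec l K (cycField K l)
  obtain ⟨P, hP, hlP, he⟩ := eigen_main W hl (by omega) hH.2
  have fr := fun (v : HeightOneSpectrum (𝓞 K)) (hv : ((6 * l : ℕ) : 𝓞 K) ∉ v.asIdeal) =>
    (good_short W v (fun h => hv (by
      rw [Nat.cast_mul]; exact Ideal.mul_mem_right _ _ h)) (hH.1 v fun h => hv (by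
      rw [Nat.cast_mul]; exact Ideal.mul_mem_left _ _ h))).elim
      fun u h => frob_main hl hζ v hv h.1 h.2.1 h.2.2.1 h.2.2.2 P hP hlP he
  have C := loc_main hl (by omega) (fun h => by
      have := Int.le_of_dvd (Int.natAbs_pos.2 (discr_ne_zero K) |> Int.natCast_pos.2)
        (Int.dvd_natAbs.2 h)
      omega) hζ (fun x => by
      have : x ∈ Algebra.adjoin K {IsCyclotomicExtension.zeta l K (cycField K l)} := by
        rw [IsCyclotomicExtension.adjoin_primitive_root_eq_top hζ]; trivial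
      rwa [Algebra.adjoin_singleton_eq_range_aeval] at this) (short_disc W) P hP hlP
  rcases C with ⟨s, s1, s2, H⟩ | H
  · obtain ⟨σ, c, a, e1, e2, e3, e4⟩ := fr v₀ fun h => by
      have co : IsCoprime ((5 : ℕ) : 𝓞 K) ((6 * l : ℕ) : 𝓞 K) := Nat.Coprime.cast
        (Nat.Coprime.mul_right (by norm_num) ((Nat.coprime_primes Nat.prime_five hl).2 (by omega)))
      obtain ⟨a, b, e⟩ := co
      exact hP₀.ne_top ((Ideal.eq_top_iff_one _).2
        (e ▸ add_mem (P₀.mul_mem_left _ m5) (P₀.mul_mem_left _ h)))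
    exact absurd (H σ _ c e1 e2) (weil_bound (q := Ideal.absNorm P₀) q2 (by omega) ⟨a, e3, e4⟩ s1 s2)
  · intro v hv hj
    obtain ⟨σ, c, a, e1, e2, e3, e4⟩ := fr v hv
    refine ⟨a, e3, ?_⟩
    have e5 := H σ _ c e1 e2
    have e6 := legendreSym.eq_pow l (Ideal.absNorm v.asIdeal : ℕ)
    have e7 : ((Ideal.absNorm v.asIdeal : ℕ) : ZMod l) ≠ 0 :=
      (ZMod.natCast_eq_zero_iff _ _).not.2 (not_dvd_of_gal hl hζ σ e1)
    rw [jacobiSym.legendreSym.to_jacobiSym, hj] at e6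
    rw [← ZMod.intCast_zmod_eq_zero_iff_dvd] at e4 ⊢
    push_cast at e4 e6 ⊢
    rw [← e6, mul_one] at e5
    refine mul_left_cancel₀ e7 ?_
    linear_combination (-(a : ZMod l) ^ 2 + a * c + 2 * (Ideal.absNorm v.asIdeal : ℕ)) * e5 -
      (a * c + 2 * (Ideal.absNorm v.asIdeal : ℕ)) * e4

end Pool.Agent.Lib.MP_e97e2b_nt
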