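import Pool.Agent.Lib.MP_e97e2b_nt.AMain
import Pool.Agent.Lib.MP_e97e2b_nt.EMain

namespace Pool.Agent.Lib.MP_e97e2b_nt.DegreeSevenOld

open Pool.Agent.Lib.MP_e97e2b_nt

theorem result (K : Type) [Field K] [NumberField K] (hd : Module.finrank ℚ K ≤ 7) :
    ∃ l0 : ℕ, ∀ l : ℕ, l.Prime → l0 < l →
      ∀ W : WeierstrassCurve K, W.IsElliptic → ¬ Heavenly W l := by
  obtain ⟨l1, h1⟩ := an_main K hd
  obtain ⟨l2, h2⟩ := ec_main K
  exact ⟨l1 + l2, fun l hl hlt W hW hH => h1 l hl (by omega) (h2 l hl (by omega) W hW hH)⟩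

end Pool.Agent.Lib.MP_e97e2b_nt.DegreeSevenOld
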