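import Pool.Agent.Lib.MP_e97e2b_nt.ABasic

/- Smooth sums over ideals as weighted lattice sums. -/

namespace Pool.Agent.Lib.MP_e97e2b_nt

open NumberField

section GeoAux

open NumberField.InfinitePlace NumberField.mixedEmbedding NumberField.Units
  NumberField.Units.dirichletUnitTheorem

/-- A smooth function whose integer translates sum to one. -/
noncomputable def ge_psi (t : ℝ) : ℝ := Real.smoothTransition (t + 1) - Real.smoothTransition t

/-- A smooth cutoff, equal to one on `[1/4, 2]`. -/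
noncomputable def ge_V (t : ℝ) : ℝ :=
  Real.smoothTransition (8 * t - 1) * Real.smoothTransition (3 - t)

lemma ge_psi_nonneg (t : ℝ) : 0 ≤ ge_psi t :=
  sub_nonneg.2 (Real.smoothTransition.monotone (by linarith))

lemma ge_psi_le (t : ℝ) : ge_psi t ≤ 1 := by
  have h1 := Real.smoothTransition.le_one (t + 1)
  have h2 := Real.smoothTransition.nonneg t
  unfold ge_psi
  linarith

lemma ge_psi_supp {t : ℝ} (h : ge_psi t ≠ 0) : -1 < t ∧ t < 1 := by
  constructor
  · by_contra h'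
    apply h
    unfold ge_psi
    rw [Real.smoothTransition.zero_of_nonpos (by linarith),
      Real.smoothTransition.zero_of_nonpos (by linarith), sub_self]
  · by_contra h'
    apply h
    unfold ge_psi
    rw [Real.smoothTransition.one_of_one_le (by linarith),
      Real.smoothTransition.one_of_one_le (by linarith), sub_self]

lemma ge_psi_add {t : ℝ} (h0 : 0 ≤ t) (h1 : t ≤ 1) : ge_psi (t - 1) + ge_psi t = 1 := by
  unfold ge_psi
  rw [Real.smoothTransition.one_of_one_le (x := t + 1) (by linarith),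
    Real.smoothTransition.zero_of_nonpos (x := t - 1) (by linarith), sub_add_cancel]
  ring

lemma ge_psi_contDiff : ContDiff ℝ 1 ge_psi := by
  unfold ge_psi
  exact (Real.smoothTransition.contDiff.comp (contDiff_id.add contDiff_const)).sub
    Real.smoothTransition.contDiff

lemma ge_V_nonneg (t : ℝ) : 0 ≤ ge_V t :=
  mul_nonneg (Real.smoothTransition.nonneg _) (Real.smoothTransition.nonneg _)

lemma ge_V_le (t : ℝ) : ge_V t ≤ 1 :=
  mul_le_one₀ (Real.smoothTransition.le_one _) (Real.smoothTransition.nonneg _)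
    (Real.smoothTransition.le_one _)

lemma ge_V_one {t : ℝ} (h0 : 1 / 4 ≤ t) (h1 : t ≤ 2) : ge_V t = 1 := by
  unfold ge_V
  rw [Real.smoothTransition.one_of_one_le (by linarith),
    Real.smoothTransition.one_of_one_le (by linarith), mul_one]

lemma ge_V_supp {t : ℝ} (h : ge_V t ≠ 0) : 1 / 8 < t ∧ t < 3 := by
  constructor
  · by_contra h'
    apply h
    unfold ge_V
    rw [Real.smoothTransition.zero_of_nonpos (x := 8 * t - 1) (by linarith), zero_mul]
  · by_contra h'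
    apply h
    unfold ge_V
    rw [Real.smoothTransition.zero_of_nonpos (x := 3 - t) (by linarith), mul_zero]

lemma ge_V_contDiff : ContDiff ℝ 1 ge_V := by
  unfold ge_V
  exact (Real.smoothTransition.contDiff.comp
    ((contDiff_const.mul contDiff_id).sub contDiff_const)).mul
    (Real.smoothTransition.contDiff.comp (contDiff_const.sub contDiff_id))

lemma ge_hasSum_psi {r : ℕ} (c : Fin r → ℝ) :
    ∃ S : Finset (Fin r → ℤ), (∀ n ∉ S, ∏ k, ge_psi (c k + (n k : ℝ)) = 0) ∧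
      ∑ n ∈ S, ∏ k, ge_psi (c k + (n k : ℝ)) = 1 := by
  refine ⟨Fintype.piFinset (fun k => ({-⌊c k⌋ - 1, -⌊c k⌋} : Finset ℤ)), ?_, ?_⟩
  · intro n hn
    rw [Fintype.mem_piFinset, not_forall] at hn
    obtain ⟨k, hk⟩ := hn
    refine Finset.prod_eq_zero (Finset.mem_univ k) ?_
    by_contra h
    obtain ⟨h1, h2⟩ := ge_psi_supp h
    apply hk
    have h3 := Int.floor_le (c k)
    have h4 := Int.lt_floor_add_one (c k)
    have h5 : ((-⌊c k⌋ - 2 : ℤ) : ℝ) < n k := by push_cast; linarith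
    have h6 : (n k : ℝ) < ((-⌊c k⌋ + 1 : ℤ) : ℝ) := by push_cast; linarith
    have h7 := Int.cast_lt.1 h5
    have h8 := Int.cast_lt.1 h6
    simp only [Finset.mem_insert, Finset.mem_singleton]
    omega
  · rw [← Finset.prod_univ_sum (fun k => ({-⌊c k⌋ - 1, -⌊c k⌋} : Finset ℤ))
      (fun k m => ge_psi (c k + (m : ℝ)))]
    refine Finset.prod_eq_one fun k _ => ?_
    rw [Finset.sum_pair (by omega)]
    have h3 := Int.floor_le (c k)
    have h4 := Int.lt_floor_add_one (c k)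
    have h := ge_psi_add (t := c k - ⌊c k⌋) (by linarith) (by linarith)
    rw [← h]
    congr 2
    · push_cast
      ring
    · push_cast
      ring

variable {K : Type} [Field K] [NumberField K]

open scoped Classical in
/-- A real basis of the logarithmic space made of images of units. -/
noncomputable def ge_B (K : Type) [Field K] [NumberField K] :
    Module.Basis (Fin (rank K)) ℝ (logSpace K) :=
  (basisUnitLattice K).ofZLatticeBasis ℝ _

lemma ge_B_apply (k : Fin (rank K)) :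
    ge_B K k = logEmbedding K (Additive.ofMul (fundSystem K k)) := by
  classical
  rw [logEmbedding_fundSystem, ge_B, Module.Basis.ofZLatticeBasis_apply]

/-- The weight for the action of the units. -/
noncomputable def ge_phi (x : mixedSpace K) : ℝ := ∏ k, ge_psi ((ge_B K).repr (logMap x) k)

/-- The weight with compact support. -/
noncomputable def ge_Phi (x : mixedSpace K) : ℝ := ge_V (mixedEmbedding.norm x) * ge_phi x

lemma ge_phi_nonneg (x : mixedSpace K) : 0 ≤ ge_phi x :=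
  Finset.prod_nonneg fun _ _ => ge_psi_nonneg _

lemma ge_phi_le (x : mixedSpace K) : ge_phi x ≤ 1 :=
  Finset.prod_le_one (fun _ _ => ge_psi_nonneg _) fun _ _ => ge_psi_le _

lemma ge_Phi_abs (x : mixedSpace K) : |ge_Phi x| ≤ 1 := by
  unfold ge_Phi
  rw [abs_of_nonneg (mul_nonneg (ge_V_nonneg _) (ge_phi_nonneg _))]
  exact mul_le_one₀ (ge_V_le _) (ge_phi_nonneg _) (ge_phi_le _)

lemma ge_phi_hasSum (x : mixedSpace K) (hx : mixedEmbedding.norm x ≠ 0) :
    HasSum (fun u : (𝓞 K)ˣ => ge_phi (u • x)) (torsionOrder K : ℝ) := by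
  classical
  let g : torsion K × (Fin (rank K) → ℤ) → (𝓞 K)ˣ := fun p =>
    p.1 * ∏ i, (fundSystem K i) ^ (p.2 i)
  have hg : Function.Bijective g := by
    constructor
    · intro p q hpq
      exact (exist_unique_eq_mul_prod K (g p)).unique rfl hpq
    · intro u
      obtain ⟨p, hp, _⟩ := exist_unique_eq_mul_prod K u
      exact ⟨p, hp.symm⟩
  rw [← (Equiv.ofBijective g hg).hasSum_iff]
  obtain ⟨S, hS0, hS1⟩ := ge_hasSum_psi (fun k => (ge_B K).repr (logMap x) k)
  have key : ∀ p : torsion K × (Fin (rank K) → ℤ), ge_phi (g p • x) =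
      ∏ k, ge_psi ((ge_B K).repr (logMap x) k + (p.2 k : ℝ)) := by
    intro p
    have e : logEmbedding K (Additive.ofMul (g p)) = ∑ i, (p.2 i : ℝ) • ge_B K i := by
      simp only [g]
      rw [ofMul_mul, map_add, logEmbedding_eq_zero_iff.2 p.1.2, zero_add, ofMul_prod, map_sum]
      refine Finset.sum_congr rfl fun i _ => ?_
      rw [ofMul_zpow, map_zsmul, ge_B_apply, Int.cast_smul_eq_zsmul]
    unfold ge_phi
    rw [logMap_unit_smul _ hx, e]
    refine Finset.prod_congr rfl fun k _ => ?_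
    rw [map_add, Finsupp.add_apply, Module.Basis.repr_sum_self, add_comm]
  have : Fintype (torsion K) := Fintype.ofFinite _
  have h := hasSum_sum_of_ne_finset_zero (L := SummationFilter.unconditional _)
    (f := fun p : torsion K × (Fin (rank K) → ℤ) => ge_phi (g p • x))
    (s := Finset.univ ×ˢ S) (by
      intro p hp
      rw [key]
      apply hS0
      intro h'
      exact hp (Finset.mem_product.2 ⟨Finset.mem_univ _, h'⟩))
  have e : ∑ p ∈ Finset.univ ×ˢ S, ge_phi (g p • x) = (torsionOrder K : ℝ) := by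
    rw [Finset.sum_product]
    simp only [key, hS1]
    rw [Finset.sum_const, Finset.card_univ, torsionOrder, Nat.card_eq_fintype_card, nsmul_eq_mul,
      mul_one]
  rw [e] at h
  exact h

open scoped Classical in
lemma ge_nap_contDiffAt (w : InfinitePlace K) (x : mixedSpace K) (hx : normAtPlace w x ≠ 0) :
    ContDiffAt ℝ 1 (fun y : mixedSpace K => normAtPlace w y) x := by
  rcases isReal_or_isComplex w with hw | hw
  · simp only [normAtPlace_apply_of_isReal hw] at hx ⊢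
    exact ContDiffAt.norm ℝ (by fun_prop) (norm_ne_zero_iff.1 hx)
  · simp only [normAtPlace_apply_of_isComplex hw] at hx ⊢
    exact ContDiffAt.norm ℂ (by fun_prop) (norm_ne_zero_iff.1 hx)

open scoped Classical in
lemma ge_Phi_contDiff : ContDiff ℝ 1 (fun x : mixedSpace K => ge_Phi x) := by
  rw [contDiff_iff_contDiffAt]
  intro x
  by_cases hx : mixedEmbedding.norm x = 0
  · have h : ∀ᶠ y in nhds x, mixedEmbedding.norm y < 1 / 8 :=
      (mixedEmbedding.continuous_norm K).continuousAt.eventually_lt continuousAt_const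
        (by rw [hx]; norm_num)
    refine (contDiffAt_const (c := (0 : ℝ))).congr_of_eventuallyEq ?_
    filter_upwards [h] with y hy
    unfold ge_Phi
    have : ge_V (mixedEmbedding.norm y) = 0 := by
      by_contra h'
      linarith [(ge_V_supp h').1]
    rw [this, zero_mul]
  · have hw := mixedEmbedding.norm_ne_zero_iff.1 hx
    have hn : ContDiffAt ℝ 1 (fun y : mixedSpace K => mixedEmbedding.norm y) x := by
      simp only [mixedEmbedding.norm_apply]
      exact contDiffAt_prod fun w _ => (ge_nap_contDiffAt w x (hw w)).pow _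
    have hl : ContDiffAt ℝ 1 (fun y : mixedSpace K => logMap y) x := by
      rw [contDiffAt_pi]
      intro w
      simp only [logMap_apply]
      exact contDiffAt_const.mul (((ge_nap_contDiffAt w.1 x (hw w.1)).log (hw w.1)).sub
        ((hn.log hx).mul contDiffAt_const))
    unfold ge_Phi ge_phi
    refine (ge_V_contDiff.contDiffAt.comp x hn).mul (contDiffAt_prod fun k _ => ?_)
    refine ge_psi_contDiff.contDiffAt.comp x ?_
    exact (LinearMap.toContinuousLinearMap ((ge_B K).coord k)).contDiff.contDiffAt.comp x hl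

open scoped Classical in
lemma ge_Phi_supp (K : Type) [Field K] [NumberField K] :
    ∃ R : ℝ, ∀ x : mixedSpace K, ge_Phi x ≠ 0 → ‖x‖ ≤ R := by
  set R0 : ℝ := ∑ k, ‖ge_B K k‖ with hR0
  have hR0' : 0 ≤ R0 := Finset.sum_nonneg fun _ _ => norm_nonneg _
  set R1 : ℝ := (Fintype.card {w : InfinitePlace K // w ≠ w₀} + 1) * R0 with hR1
  have hc : (0 : ℝ) ≤ Fintype.card {w : InfinitePlace K // w ≠ w₀} := Nat.cast_nonneg _
  refine ⟨Real.exp (R1 + 3), fun x hx => ?_⟩
  unfold ge_Phi at hx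
  obtain ⟨hV, hp⟩ := mul_ne_zero_iff.1 hx
  obtain ⟨hV1, hV2⟩ := ge_V_supp hV
  have hn : mixedEmbedding.norm x ≠ 0 := by linarith
  have hw := mixedEmbedding.norm_ne_zero_iff.1 hn
  have hlog : ‖logMap x‖ ≤ R0 := by
    rw [← (ge_B K).sum_repr (logMap x)]
    refine (norm_sum_le _ _).trans (Finset.sum_le_sum fun k _ => ?_)
    rw [_root_.norm_smul]
    have h := ge_psi_supp (Finset.prod_ne_zero_iff.1 hp k (Finset.mem_univ k))
    refine mul_le_of_le_one_left (norm_nonneg _) ?_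
    rw [Real.norm_eq_abs]
    exact (abs_lt.2 h).le
  let S : InfinitePlace K → ℝ := fun w => mult w * (Real.log (normAtPlace w x) -
    Real.log (mixedEmbedding.norm x) * (Module.finrank ℚ K : ℝ)⁻¹)
  have hd : (1 : ℝ) ≤ Module.finrank ℚ K := by exact_mod_cast Module.finrank_pos
  have hS : ∑ w, S w = 0 := by
    have e1 : Real.log (mixedEmbedding.norm x) = ∑ w, (mult w : ℝ) * Real.log (normAtPlace w x) := by
      rw [mixedEmbedding.norm_apply, Real.log_prod (fun w _ => pow_ne_zero _ (hw w))]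
      exact Finset.sum_congr rfl fun w _ => Real.log_pow _ _
    have e2 : ∑ w : InfinitePlace K, (mult w : ℝ) = Module.finrank ℚ K := by
      rw [← sum_mult_eq]
      push_cast
      rfl
    simp only [S, mul_sub]
    rw [Finset.sum_sub_distrib, ← e1, ← Finset.sum_mul, e2]
    field_simp
    ring
  have hS1 : ∀ w : {w : InfinitePlace K // w ≠ w₀}, |S w.1| ≤ R0 := fun w =>
    (norm_le_pi_norm (logMap x) w).trans hlog
  have hS2 : ∀ w, S w ≤ R1 := by
    intro w
    by_cases h : w = w₀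
    · rw [Fintype.sum_eq_add_sum_subtype_ne _ w₀] at hS
      have h1 : ∑ v : {w : InfinitePlace K // w ≠ w₀}, -S v.1 ≤
          ∑ _v : {w : InfinitePlace K // w ≠ w₀}, R0 :=
        Finset.sum_le_sum fun v _ => (neg_le_abs _).trans (hS1 v)
      rw [Finset.sum_neg_distrib, Finset.sum_const, Finset.card_univ, nsmul_eq_mul] at h1
      rw [h, hR1]
      nlinarith
    · have := (le_abs_self _).trans (hS1 ⟨w, h⟩)
      rw [hR1]
      nlinarith
  have hR1' : 0 ≤ R1 := by positivity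
  rw [norm_eq_sup'_normAtPlace, Finset.sup'_le_iff]
  intro w _
  have hpos : 0 < normAtPlace w x := lt_of_le_of_ne (normAtPlace_nonneg w x) (hw w).symm
  rw [← Real.log_le_iff_le_exp hpos]
  have hm : (1 : ℝ) ≤ mult w := by exact_mod_cast mult_pos
  have h3 : Real.log (mixedEmbedding.norm x) * (Module.finrank ℚ K : ℝ)⁻¹ ≤ 3 := by
    have h4 : Real.log (mixedEmbedding.norm x) ≤ 3 :=
      (Real.log_le_self (by linarith)).trans hV2.le
    rw [← div_eq_mul_inv, div_le_iff₀ (by linarith)]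
    linarith
  have h5 := hS2 w
  simp only [S] at h5
  by_contra h6
  have h7 : R1 < Real.log (normAtPlace w x) -
      Real.log (mixedEmbedding.norm x) * (Module.finrank ℚ K : ℝ)⁻¹ := by linarith
  nlinarith

end GeoAux

section GeoLat

open NumberField.InfinitePlace NumberField.mixedEmbedding NumberField.Units

variable {K : Type} [Field K] [NumberField K]

lemma ge_exists_lat (c : Ideal (𝓞 K)) (hc : c ≠ ⊥) :
    ∃ e : (Fin (Module.finrank ℚ K) → ℤ) →+ 𝓞 K, Lat c e := by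
  have hr : Module.finrank ℤ c = Module.finrank ℚ K := by
    rw [← RingOfIntegers.rank]
    exact Ideal.finrank_eq_finrank (RingOfIntegers.basis K) c hc
  let b := Module.finBasisOfFinrankEq ℤ c hr
  refine ⟨(c.subtype.toAddMonoidHom).comp b.equivFun.symm.toAddEquiv.toAddMonoidHom, hc, ?_, ?_⟩
  · exact Subtype.val_injective.comp b.equivFun.symm.injective
  · intro x
    constructor
    · intro hx
      exact ⟨b.equivFun ⟨x, hx⟩, by simp⟩
    · rintro ⟨v, rfl⟩
      exact (b.equivFun.symm v).2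

omit [NumberField K] in
lemma ge_e_sum {d : ℕ} (e : (Fin d → ℤ) →+ 𝓞 K) (v : Fin d → ℤ) :
    e v = ∑ i, v i • e (Pi.single i 1) := by
  conv_lhs => rw [pi_eq_sum_univ' v]
  rw [map_sum]
  exact Finset.sum_congr rfl fun i _ => map_zsmul e _ _

/-- The real linear extension of the embedding of the lattice. -/
noncomputable def ge_L {d : ℕ} (e : (Fin d → ℤ) →+ 𝓞 K) : (Fin d → ℝ) →ₗ[ℝ] mixedSpace K :=
  Fintype.linearCombination ℝ (fun i => mixedEmbedding K (e (Pi.single i 1) : 𝓞 K))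

omit [NumberField K] in
lemma ge_L_int {d : ℕ} (e : (Fin d → ℤ) →+ 𝓞 K) (v : Fin d → ℤ) (H : ℝ) :
    ge_L e (fun i => (v i : ℝ) / H) = H⁻¹ • mixedEmbedding K (e v : 𝓞 K) := by
  let m : 𝓞 K →+* mixedSpace K := (mixedEmbedding K).comp (algebraMap (𝓞 K) K)
  have hm : ∀ y : 𝓞 K, mixedEmbedding K (y : K) = m y := fun _ => rfl
  rw [ge_L, Fintype.linearCombination_apply, ge_e_sum e v]
  simp only [hm]
  rw [map_sum, Finset.smul_sum]
  refine Finset.sum_congr rfl fun i _ => ?_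
  rw [map_zsmul, ← Int.cast_smul_eq_zsmul ℝ, smul_smul, div_eq_inv_mul]

open scoped Classical in
lemma ge_L_bound {c : Ideal (𝓞 K)} {e : (Fin (Module.finrank ℚ K) → ℤ) →+ 𝓞 K} (h : Lat c e) :
    ∃ C : ℝ, 0 ≤ C ∧ ∀ x, ‖x‖ ≤ C * ‖ge_L e x‖ := by
  have hs : Function.Surjective (ge_L e) := by
    rw [← LinearMap.range_eq_top, eq_top_iff, ← (latticeBasis K).span_eq, Submodule.span_le]
    rintro _ ⟨i, rfl⟩
    have hN : ((Ideal.absNorm c : ℕ) : ℝ) ≠ 0 := by
      rw [Nat.cast_ne_zero, Ne, Ideal.absNorm_eq_zero_iff]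
      exact h.ne
    obtain ⟨v, hv⟩ := (h.mem _).1 (c.mul_mem_right (RingOfIntegers.basis K i) c.absNorm_mem)
    refine ⟨fun k => (v k : ℝ) / (Ideal.absNorm c : ℕ), ?_⟩
    rw [ge_L_int, hv, latticeBasis_apply, integralBasis_apply, RingOfIntegers.coe_eq_algebraMap,
      map_mul, map_mul, map_natCast, map_natCast, ← nsmul_eq_mul, ← Nat.cast_smul_eq_nsmul ℝ,
      smul_smul, inv_mul_cancel₀ hN, one_smul]
  have hi : Function.Injective (ge_L e) :=
    (LinearMap.injective_iff_surjective_of_finrank_eq_finrank (by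
      rw [mixedEmbedding.finrank, Module.finrank_fin_fun])).2 hs
  obtain ⟨C, _, hC⟩ := (ge_L e).exists_antilipschitzWith (LinearMap.ker_eq_bot.2 hi)
  exact ⟨C, C.2, fun x => ZeroHomClass.bound_of_antilipschitz _ hC x⟩

/-- The norm form. -/
noncomputable def ge_Nm {d : ℕ} (e : (Fin d → ℤ) →+ 𝓞 K) (x : Fin d → ℝ) : ℝ :=
  Matrix.det (∑ i, x i • (Algebra.leftMulMatrix (RingOfIntegers.basis K)
    (e (Pi.single i 1))).map (Int.castRingHom ℝ))

lemma ge_Nm_int {d : ℕ} (e : (Fin d → ℤ) →+ 𝓞 K) (v : Fin d → ℤ) (H : ℝ) :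
    ge_Nm e (fun i => (v i : ℝ) / H) =
      (Algebra.norm ℤ (e v) : ℤ) / H ^ Module.finrank ℚ K := by
  have h : (∑ i, ((v i : ℝ) / H) • (Algebra.leftMulMatrix (RingOfIntegers.basis K)
      (e (Pi.single i 1))).map (Int.castRingHom ℝ)) =
      H⁻¹ • (Int.castRingHom ℝ).mapMatrix (Algebra.leftMulMatrix (RingOfIntegers.basis K) (e v)) := by
    rw [ge_e_sum e v, map_sum, map_sum, Finset.smul_sum]
    refine Finset.sum_congr rfl fun i _ => ?_
    rw [map_zsmul, map_zsmul, ← Int.cast_smul_eq_zsmul ℝ, smul_smul, div_eq_inv_mul]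
    rfl
  rw [ge_Nm, h, Matrix.det_smul, ← RingHom.map_det, ← Algebra.norm_eq_matrix_det,
    ← Module.finrank_eq_card_chooseBasisIndex, RingOfIntegers.rank, inv_pow, div_eq_inv_mul]
  rfl

lemma ge_Nm_contDiff {d : ℕ} (e : (Fin d → ℤ) →+ 𝓞 K) : ContDiff ℝ 1 (ge_Nm e) := by
  unfold ge_Nm
  simp only [Matrix.det_apply', Matrix.sum_apply, Matrix.smul_apply, smul_eq_mul]
  fun_prop

lemma ge_glue {ι : Type} [Fintype ι] (F : (ι → ℝ) → ℝ) (ρ L : ℝ) (hL : 0 ≤ L)
    (hb : ∀ x, |F x| ≤ 1) (hs : ∀ x, ρ < ‖x‖ → F x = 0)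
    (hl : ∀ x y, ‖x‖ ≤ ρ + 1 → ‖y‖ ≤ ρ + 1 → |F x - F y| ≤ L * ‖x - y‖) (x y : ι → ℝ) :
    |F x - F y| ≤ (L + 2) * ‖x - y‖ := by
  have h0 := norm_nonneg (x - y)
  by_cases h1 : 1 ≤ ‖x - y‖
  · have := abs_sub (F x) (F y)
    have := hb x
    have := hb y
    nlinarith
  have h2 : ‖x‖ - ‖y‖ ≤ ‖x - y‖ := norm_sub_norm_le x y
  have h3 : ‖y‖ - ‖x‖ ≤ ‖x - y‖ := by rw [norm_sub_rev]; exact norm_sub_norm_le y x
  by_cases h4 : ρ < ‖x‖ ∧ ρ < ‖y‖
  · rw [hs x h4.1, hs y h4.2, sub_self, abs_zero]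
    positivity
  · have h5 : ‖x‖ ≤ ρ + 1 ∧ ‖y‖ ≤ ρ + 1 := by
      rcases not_and_or.1 h4 with h | h <;> constructor <;> linarith
    have := hl x y h5.1 h5.2
    nlinarith

/-- The weights. -/
noncomputable def ge_Fm {d : ℕ} (e : (Fin d → ℤ) →+ 𝓞 K) (s : ℤ) (U : ℝ → ℝ)
    (x : Fin d → ℝ) : ℝ :=
  U (s * ge_Nm e x) * ge_Phi (ge_L e x)

lemma ge_Wt {c : Ideal (𝓞 K)} {e : (Fin (Module.finrank ℚ K) → ℤ) →+ 𝓞 K} (h : Lat c e) :
    ∃ ρ Λ₀ : ℝ, 0 ≤ ρ ∧ 0 ≤ Λ₀ ∧ ∀ s : ℤ, (s = 1 ∨ s = -1) → ∀ Λ U, 1 ≤ Λ → Bump Λ U →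
      Wt ρ (Λ₀ * Λ) (ge_Fm e s U) := by
  classical
  obtain ⟨C, hC0, hC⟩ := ge_L_bound h
  obtain ⟨R, hR⟩ := ge_Phi_supp K
  have hPhi : ContDiff ℝ 1 (fun x => ge_Phi (ge_L e x)) :=
    ge_Phi_contDiff.comp (LinearMap.toContinuousLinearMap (ge_L e)).contDiff
  obtain ⟨L1, hL1⟩ := (ge_Nm_contDiff e).contDiffOn.exists_lipschitzOnWith one_ne_zero
    (convex_closedBall 0 (C * |R| + 1)) (isCompact_closedBall _ _)
  obtain ⟨L2, hL2⟩ := hPhi.contDiffOn.exists_lipschitzOnWith one_ne_zero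
    (convex_closedBall 0 (C * |R| + 1)) (isCompact_closedBall _ _)
  refine ⟨C * |R|, L1 + L2 + 2, by positivity, by positivity, ?_⟩
  intro s hs Λ U hΛ hU
  have hb : ∀ x, |ge_Fm e s U x| ≤ 1 := by
    intro x
    unfold ge_Fm
    rw [abs_mul]
    exact mul_le_one₀ (hU.bdd _) (abs_nonneg _) (ge_Phi_abs _)
  have hsupp : ∀ x, C * |R| < ‖x‖ → ge_Fm e s U x = 0 := by
    intro x hx
    unfold ge_Fm
    have : ge_Phi (ge_L e x) = 0 := by
      by_contra h'
      have h1 := (hR _ h').trans (le_abs_self R)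
      have h2 := hC x
      have h3 := mul_le_mul_of_nonneg_left h1 hC0
      linarith
    rw [this, mul_zero]
  refine ⟨fun x y => ?_, hb, hsupp⟩
  have hL1' : (0 : ℝ) ≤ L1 := L1.2
  have hL2' : (0 : ℝ) ≤ L2 := L2.2
  refine (ge_glue _ (C * |R|) (L1 * Λ + L2) (by positivity) hb hsupp ?_ x y).trans ?_
  · intro x y hx hy
    have e1 := hL1.dist_le_mul x (mem_closedBall_zero_iff.2 hx) y (mem_closedBall_zero_iff.2 hy)
    have e2 := hL2.dist_le_mul x (mem_closedBall_zero_iff.2 hx) y (mem_closedBall_zero_iff.2 hy)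
    rw [Real.dist_eq, dist_eq_norm] at e1 e2
    have e3 := hU.lip (s * ge_Nm e x) (s * ge_Nm e y)
    have e4 : |(s : ℝ) * ge_Nm e x - s * ge_Nm e y| = |ge_Nm e x - ge_Nm e y| := by
      rw [← mul_sub, abs_mul]
      rcases hs with rfl | rfl <;> simp
    rw [e4] at e3
    have e5 : ge_Fm e s U x - ge_Fm e s U y =
        (U (s * ge_Nm e x) - U (s * ge_Nm e y)) * ge_Phi (ge_L e x) +
          U (s * ge_Nm e y) * (ge_Phi (ge_L e x) - ge_Phi (ge_L e y)) := by
      unfold ge_Fm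
      ring
    rw [e5]
    refine (abs_add_le _ _).trans ?_
    rw [abs_mul, abs_mul]
    have e6 := mul_le_of_le_one_right (abs_nonneg (U (s * ge_Nm e x) - U (s * ge_Nm e y)))
      (ge_Phi_abs (ge_L e x))
    have e7 := mul_le_of_le_one_left (abs_nonneg (ge_Phi (ge_L e x) - ge_Phi (ge_L e y)))
      (hU.bdd (s * ge_Nm e y))
    have e8 := mul_le_mul_of_nonneg_left e1 (by linarith : (0 : ℝ) ≤ Λ)
    nlinarith
  · refine mul_le_mul_of_nonneg_right ?_ (norm_nonneg _)
    nlinarith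

lemma ge_Wt_mono {ι : Type} [Fintype ι] {ρ ρ' Λ Λ' : ℝ} {F : (ι → ℝ) → ℝ} (h : Wt ρ Λ F)
    (h1 : ρ ≤ ρ') (h2 : Λ ≤ Λ') : Wt ρ' Λ' F :=
  ⟨fun x y => (h.lip x y).trans (mul_le_mul_of_nonneg_right h2 (norm_nonneg _)), h.bdd,
    fun x hx => h.supp x (h1.trans_lt hx)⟩

open scoped Classical in
lemma ge_hasSum_ideal {c : Ideal (𝓞 K)} {e : (Fin (Module.finrank ℚ K) → ℤ) →+ 𝓞 K}
    (h : Lat c e) (a : Ideal (𝓞 K)) (ha : a ≠ ⊥) :
    HasSum (fun v => if a * c = Ideal.span {e v} then ge_phi (mixedEmbedding K (e v : 𝓞 K)) else 0)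
      (if ∃ x : 𝓞 K, a * c = Ideal.span {x} then (torsionOrder K : ℝ) else 0) := by
  split_ifs with hx
  · obtain ⟨β, hβ⟩ := hx
    have hβ0 : β ≠ 0 := by
      rintro rfl
      rw [Ideal.span_singleton_eq_bot.2 rfl] at hβ
      exact mul_ne_zero ha h.ne hβ
    have hβc : β ∈ c := by
      have h1 : β ∈ a * c := by
        rw [hβ]
        exact Ideal.mem_span_singleton_self β
      exact (Ideal.mul_le_inf (I := a) (J := c) h1).2
    have hex : ∀ u : (𝓞 K)ˣ, ∃ v, e v = u * β := fun u => (h.mem _).1 (c.mul_mem_left _ hβc)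
    choose g hg using hex
    have hgi : Function.Injective g := by
      intro u u' huu
      have h1 := hg u
      rw [huu, hg u'] at h1
      exact (Units.ext (mul_right_cancel₀ hβ0 h1)).symm
    rw [← hgi.hasSum_iff]
    · have hn : mixedEmbedding.norm (mixedEmbedding K (β : K)) ≠ 0 := by
        rw [Ne, norm_eq_zero_iff' ⟨_, rfl⟩, map_eq_zero]
        exact RingOfIntegers.coe_ne_zero_iff.2 hβ0
      have key := ge_phi_hasSum _ hn
      have e1 : ((fun v => if a * c = Ideal.span {e v} then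
          ge_phi (mixedEmbedding K (e v : 𝓞 K)) else 0) ∘ g) =
          fun u : (𝓞 K)ˣ => ge_phi (u • mixedEmbedding K (β : K)) := by
        funext u
        rw [Function.comp_apply, hg u, if_pos, unit_smul_eq_iff_mul_eq.2 rfl]
        rw [hβ, Ideal.span_singleton_mul_left_unit u.isUnit]
      rw [e1]
      exact key
    · intro v hv
      rw [if_neg]
      intro h1
      apply hv
      rw [hβ, Ideal.span_singleton_eq_span_singleton] at h1
      obtain ⟨u, hu⟩ := h1
      exact ⟨u, h.inj (by rw [hg u, ← hu, mul_comm])⟩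
  · have e1 : (fun v => if a * c = Ideal.span {e v} then
        ge_phi (mixedEmbedding K (e v : 𝓞 K)) else 0) = fun _ => 0 := by
      funext v
      rw [if_neg]
      exact fun h1 => hx ⟨_, h1⟩
    rw [e1]
    exact hasSum_zero

open scoped Classical in
lemma ge_point {c : Ideal (𝓞 K)} {e : (Fin (Module.finrank ℚ K) → ℤ) →+ 𝓞 K}
    (h : Lat c e) {Λ : ℝ} {U : ℝ → ℝ} (hU : Bump Λ U) {T : ℝ} (hT : 0 < T) {f : ℤ → ℝ}
    (hf : ∀ a b, f (a * b) = f a * f b) (hfc : f (Ideal.absNorm c : ℕ) ^ 2 = 1)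
    (A : Finset (Ideal (𝓞 K))) (hA : ∀ a, a ∈ A ↔ Ideal.absNorm a ∈ Finset.Ioc 0 ⌊2 * T⌋₊)
    (s : ℤ) (hs : s = 1 ∨ s = -1) (v : Fin (Module.finrank ℚ K) → ℤ) :
    f (s * (Ideal.absNorm c : ℕ)) * (f (Algebra.norm ℤ (e v)) *
      ge_Fm e s U (fun i => (v i : ℝ) /
        ((Ideal.absNorm c * T) ^ (1 / (Module.finrank ℚ K : ℝ))))) =
    if 0 < s * Algebra.norm ℤ (e v) then
      ∑ a ∈ A, f (Ideal.absNorm a : ℕ) * U (Ideal.absNorm a / T) *
        (if a * c = Ideal.span {e v} then ge_phi (mixedEmbedding K (e v : 𝓞 K)) else 0)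
    else 0 := by
  have hN : 0 < Ideal.absNorm c := by
    rw [Nat.pos_iff_ne_zero, Ne, Ideal.absNorm_eq_zero_iff]
    exact h.ne
  have hN' : (0 : ℝ) < Ideal.absNorm c := by exact_mod_cast hN
  have hNT : (0 : ℝ) < Ideal.absNorm c * T := mul_pos hN' hT
  set H : ℝ := (Ideal.absNorm c * T) ^ (1 / (Module.finrank ℚ K : ℝ)) with hH
  have hH0 : 0 < H := Real.rpow_pos_of_pos hNT _
  have hHd : H ^ Module.finrank ℚ K = Ideal.absNorm c * T := by
    rw [hH, one_div, Real.rpow_inv_natCast_pow hNT.le Module.finrank_pos.ne']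
  unfold ge_Fm
  rw [ge_Nm_int, ge_L_int, hHd]
  split_ifs with hpos
  · have hβ0 : e v ≠ 0 := by
      intro h0
      rw [h0, Algebra.norm_zero, mul_zero] at hpos
      exact lt_irrefl _ hpos
    have hβc : e v ∈ c := (h.mem _).2 ⟨v, rfl⟩
    obtain ⟨a, ha⟩ : c ∣ Ideal.span {e v} :=
      Ideal.dvd_iff_le.2 ((Ideal.span_singleton_le_iff_mem _).2 hβc)
    have hnorm : (Algebra.norm ℤ (e v)).natAbs = Ideal.absNorm c * Ideal.absNorm a := by
      rw [← Ideal.absNorm_span_singleton, ha, map_mul]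
    have hs2 : s * s = 1 := by rcases hs with rfl | rfl <;> norm_num
    have hnorm' : s * Algebra.norm ℤ (e v) =
        ((Ideal.absNorm c : ℕ) : ℤ) * ((Ideal.absNorm a : ℕ) : ℤ) := by
      rw [← Nat.cast_mul, ← hnorm, Int.natCast_natAbs]
      rcases hs with rfl | rfl
      · rw [one_mul] at hpos ⊢
        exact (abs_of_pos hpos).symm
      · rw [neg_one_mul] at hpos ⊢
        exact (abs_of_neg (by linarith)).symm
    have hnorm2 : Algebra.norm ℤ (e v) =
        s * ((Ideal.absNorm c : ℕ) : ℤ) * ((Ideal.absNorm a : ℕ) : ℤ) := by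
      rw [mul_assoc, ← hnorm', ← mul_assoc, hs2, one_mul]
    have hf1 : f 1 = 1 := by
      have h1 := hf 1 (Ideal.absNorm c : ℕ)
      rw [one_mul] at h1
      have h2 : f (Ideal.absNorm c : ℕ) ≠ 0 := by
        intro h3
        rw [h3] at hfc
        norm_num at hfc
      exact (mul_left_eq_self₀.1 h1.symm).resolve_right h2
    have hff : f (s * (Ideal.absNorm c : ℕ)) * f (Algebra.norm ℤ (e v)) =
        f (Ideal.absNorm a : ℕ) := by
      have h1 := hf s s
      rw [hs2, hf1] at h1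
      rw [hnorm2, hf (s * _), hf s]
      linear_combination (f (Ideal.absNorm a : ℕ) * f s * f s) * hfc -
        f (Ideal.absNorm a : ℕ) * h1
    have hU1 : (s : ℝ) * (((Algebra.norm ℤ (e v) : ℤ) : ℝ) / (Ideal.absNorm c * T)) =
        Ideal.absNorm a / T := by
      have h1 : (s : ℝ) * ((Algebra.norm ℤ (e v) : ℤ) : ℝ) =
          (Ideal.absNorm c : ℝ) * (Ideal.absNorm a : ℝ) := by exact_mod_cast hnorm'
      rw [← mul_div_assoc, h1]
      field_simp
    have hn : mixedEmbedding.norm (mixedEmbedding K (e v : 𝓞 K)) =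
        (Ideal.absNorm c : ℝ) * (Ideal.absNorm a : ℝ) := by
      rw [norm_eq_norm, ← Algebra.coe_norm_int, ← Nat.cast_mul, ← hnorm, ← Int.cast_abs,
        Rat.cast_intCast, Nat.cast_natAbs]
    have ha0 : 0 < Ideal.absNorm a := by
      rw [Nat.pos_iff_ne_zero]
      intro h0
      rw [hnorm', h0] at hpos
      simp at hpos
    have ha0' : (0 : ℝ) < Ideal.absNorm a := by exact_mod_cast ha0
    have hPhi : ge_Phi (H⁻¹ • mixedEmbedding K (e v : 𝓞 K)) =
        ge_V (Ideal.absNorm a / T) * ge_phi (mixedEmbedding K (e v : 𝓞 K)) := by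
      unfold ge_Phi ge_phi
      rw [logMap_real_smul (by rw [hn]; positivity) (inv_ne_zero hH0.ne'),
        mixedEmbedding.norm_smul, hn, abs_of_pos (inv_pos.2 hH0), inv_pow, hHd]
      congr 2
      field_simp
    have hUV : U (Ideal.absNorm a / T) * ge_V (Ideal.absNorm a / T) = U (Ideal.absNorm a / T) := by
      by_cases h1 : (Ideal.absNorm a : ℝ) / T < 1 / 4
      · rw [hU.lo _ h1, zero_mul]
      by_cases h2 : 2 < (Ideal.absNorm a : ℝ) / T
      · rw [hU.hi _ h2, zero_mul]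
      rw [ge_V_one (not_lt.1 h1) (not_lt.1 h2), mul_one]
    rw [hU1, hPhi, ← mul_assoc, hff, ← mul_assoc (U _), hUV, Finset.sum_eq_single a]
    · rw [if_pos (by rw [ha, mul_comm]), mul_assoc]
    · intro b _ hb
      rw [if_neg, mul_zero]
      intro h1
      rw [ha, mul_comm c a] at h1
      exact hb (mul_right_cancel₀ h.ne h1)
    · intro h1
      rw [hA, Finset.mem_Ioc, not_and] at h1
      have h2 := Nat.lt_of_floor_lt (not_le.1 (h1 ha0))
      rw [hU.hi, mul_zero, zero_mul]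
      rw [lt_div_iff₀ hT]
      exact h2
  · rw [hU.lo, zero_mul, mul_zero, mul_zero]
    have h1 : (s : ℝ) * ((Algebra.norm ℤ (e v) : ℤ) : ℝ) ≤ 0 := by
      exact_mod_cast not_lt.1 hpos
    rw [← mul_div_assoc]
    have := div_nonpos_of_nonpos_of_nonneg h1 hNT.le
    linarith

open scoped Classical in
lemma ge_class {c : Ideal (𝓞 K)} {e : (Fin (Module.finrank ℚ K) → ℤ) →+ 𝓞 K}
    (h : Lat c e) {Λ : ℝ} {U : ℝ → ℝ} (hU : Bump Λ U) {T : ℝ} (hT : 0 < T) {f : ℤ → ℝ}
    (hf : ∀ a b, f (a * b) = f a * f b) (hfc : f (Ideal.absNorm c : ℕ) ^ 2 = 1)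
    (A : Finset (Ideal (𝓞 K))) (hA : ∀ a, a ∈ A ↔ Ideal.absNorm a ∈ Finset.Ioc 0 ⌊2 * T⌋₊) :
    f (1 * (Ideal.absNorm c : ℕ)) * LS (fun v => f (Algebra.norm ℤ (e v))) (ge_Fm e 1 U)
        ((Ideal.absNorm c * T) ^ (1 / (Module.finrank ℚ K : ℝ))) +
      f (-1 * (Ideal.absNorm c : ℕ)) * LS (fun v => f (Algebra.norm ℤ (e v))) (ge_Fm e (-1) U)
        ((Ideal.absNorm c * T) ^ (1 / (Module.finrank ℚ K : ℝ))) =
      ∑ a ∈ A, f (Ideal.absNorm a : ℕ) * U (Ideal.absNorm a / T) *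
        (if ∃ x : 𝓞 K, a * c = Ideal.span {x} then (torsionOrder K : ℝ) else 0) := by
  have hA0 : ∀ a ∈ A, a ≠ ⊥ := by
    intro a ha h0
    rw [hA, Finset.mem_Ioc, h0, Ideal.absNorm_bot] at ha
    exact lt_irrefl _ ha.1
  have key := hasSum_sum (s := A) fun a ha =>
    (ge_hasSum_ideal h a (hA0 a ha)).mul_left (f (Ideal.absNorm a : ℕ) * U (Ideal.absNorm a / T))
  set tot : (Fin (Module.finrank ℚ K) → ℤ) → ℝ := fun v =>
    ∑ a ∈ A, f (Ideal.absNorm a : ℕ) * U (Ideal.absNorm a / T) *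
      (if a * c = Ideal.span {e v} then ge_phi (mixedEmbedding K (e v : 𝓞 K)) else 0) with htot
  have hsum : ∀ s : ℤ, Summable (fun v => if 0 < s * Algebra.norm ℤ (e v) then tot v else 0) :=
    fun s => (key.summable.indicator {v | 0 < s * Algebra.norm ℤ (e v)}).congr fun v => by
      simp only [Set.indicator_apply, Set.mem_ofPred_eq]
  unfold LS
  rw [← tsum_mul_left, ← tsum_mul_left]
  simp only [ge_point h hU hT hf hfc A hA 1 (Or.inl rfl),
    ge_point h hU hT hf hfc A hA (-1) (Or.inr rfl)]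
  rw [← (hsum 1).tsum_add (hsum (-1)), ← key.tsum_eq]
  refine tsum_congr fun v => ?_
  rcases lt_trichotomy 0 (Algebra.norm ℤ (e v)) with h1 | h1 | h1
  · rw [if_pos (by linarith), if_neg (by linarith), add_zero]
  · rw [if_neg (by linarith), if_neg (by linarith), add_zero]
    symm
    refine Finset.sum_eq_zero fun a ha => ?_
    rw [if_neg, mul_zero]
    intro h2
    rw [Algebra.norm_eq_zero_iff.1 h1.symm, Ideal.span_singleton_eq_bot.2 rfl] at h2
    exact mul_ne_zero (hA0 a ha) h.ne h2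
  · rw [if_neg (by linarith), if_pos (by linarith), zero_add]

lemma ge_cnt_sum (N : ℕ) (g : ℕ → ℝ) (A : Finset (Ideal (𝓞 K)))
    (hA : ∀ a, a ∈ A ↔ Ideal.absNorm a ∈ Finset.Ioc 0 N) :
    ∑ n ∈ Finset.Ioc 0 N, cnt K n * g n = ∑ a ∈ A, g (Ideal.absNorm a) := by
  classical
  rw [← Finset.sum_fiberwise_of_maps_to (g := fun a => Ideal.absNorm a) (fun a ha => (hA a).1 ha)]
  refine Finset.sum_congr rfl fun n hn => ?_
  rw [Finset.sum_congr rfl (g := fun _ => g n) (fun a ha => by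
    rw [(Finset.mem_filter.1 ha).2]), Finset.sum_const, nsmul_eq_mul]
  congr 1
  change (if n = 0 then (0 : ℝ) else _) = _
  rw [if_neg (Finset.mem_Ioc.1 hn).1.ne', Nat.subtype_card]
  intro a
  rw [Finset.mem_filter, hA]
  exact ⟨fun h => h.2, fun h => ⟨h ▸ hn, h⟩⟩

end GeoLat

theorem geo (K : Type) [Field K] [NumberField K] :
    ∃ (J : Type) (_ : Fintype J) (c : J → Ideal (𝓞 K))
      (e : J → (Fin (Module.finrank ℚ K) → ℤ) →+ 𝓞 K) (sg : J → ℤ) (ρ Λ₀ w : ℝ)
      (Fm : J → (ℝ → ℝ) → (Fin (Module.finrank ℚ K) → ℝ) → ℝ),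
      (∀ j, Lat (c j) (e j)) ∧ (∀ j, sg j = 1 ∨ sg j = -1) ∧ 1 ≤ Λ₀ ∧ 1 ≤ w ∧
      (∀ j Λ U, 1 ≤ Λ → Bump Λ U → Wt ρ (Λ₀ * Λ) (Fm j U)) ∧
      ∀ Λ U, Bump Λ U → ∀ T : ℝ, 0 < T → ∀ f : ℤ → ℝ, (∀ a b, f (a * b) = f a * f b) →
        (∀ j, f (Ideal.absNorm (c j) : ℕ) ^ 2 = 1) →
        w * ∑ n ∈ Finset.Ioc 0 ⌊2 * T⌋₊, cnt K n * f n * U (n / T) =
          ∑ j, f (sg j * (Ideal.absNorm (c j) : ℕ)) *
            LS (fun v => f (Algebra.norm ℤ (e j v))) (Fm j U)
              ((Ideal.absNorm (c j) * T) ^ (1 / (Module.finrank ℚ K : ℝ))) := by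
  classical
  choose c hc using ClassGroup.mk0_surjective (R := 𝓞 K)
  have hc0 : ∀ C, (c C : Ideal (𝓞 K)) ≠ ⊥ := fun C => nonZeroDivisors.coe_ne_zero (c C)
  choose e he using fun C => ge_exists_lat (c C : Ideal (𝓞 K)) (hc0 C)
  choose ρ Λ₀ hρ hΛ₀ hW using fun C => ge_Wt (he C)
  have hΛs : 0 ≤ ∑ C, Λ₀ C := Finset.sum_nonneg fun C _ => hΛ₀ C
  refine ⟨ClassGroup (𝓞 K) × Bool, inferInstance, fun j => c j.1, fun j => e j.1,
    fun j => if j.2 then 1 else -1, ∑ C, ρ C, ∑ C, Λ₀ C + 1, Units.torsionOrder K,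
    fun j U => ge_Fm (e j.1) (if j.2 then 1 else -1) U, fun j => he j.1, ?_, by linarith, ?_, ?_, ?_⟩
  · rintro ⟨C, b⟩
    cases b <;> simp
  · exact_mod_cast Units.torsionOrder_pos K
  · rintro ⟨C, b⟩ Λ U hΛ hU
    refine ge_Wt_mono (hW C _ (by cases b <;> simp) Λ U hΛ hU)
      (Finset.single_le_sum (fun C _ => hρ C) (Finset.mem_univ C)) ?_
    have := Finset.single_le_sum (fun C _ => hΛ₀ C) (Finset.mem_univ C)
    exact mul_le_mul_of_nonneg_right (by linarith) (by linarith)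
  · intro Λ U hU T hT f hf hfc
    let A : Finset (Ideal (𝓞 K)) :=
      (Ideal.finite_setOfPred_absNorm_le (S := 𝓞 K) ⌊2 * T⌋₊).toFinset.filter
        fun a => 0 < Ideal.absNorm a
    have hA : ∀ a, a ∈ A ↔ Ideal.absNorm a ∈ Finset.Ioc 0 ⌊2 * T⌋₊ := by
      intro a
      simp only [A, Finset.mem_filter, Set.Finite.mem_toFinset, Finset.mem_Ioc]
      exact ⟨fun h => ⟨h.2, h.1⟩, fun h => ⟨h.2, h.1⟩⟩
    have h1 := ge_cnt_sum ⌊2 * T⌋₊ (fun n => f n * U (n / T)) A hA
    simp only [mul_assoc]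
    rw [h1, Fintype.sum_prod_type]
    have h2 := fun C => ge_class (he C) hU hT hf (hfc (C, true)) A hA
    simp only [Fintype.sum_bool, if_true, Bool.false_eq_true, if_false, h2]
    rw [Finset.sum_comm, Finset.mul_sum]
    refine Finset.sum_congr rfl fun a ha => ?_
    have ha0 : a ∈ nonZeroDivisors (Ideal (𝓞 K)) :=
      Ideal.absNorm_pos_iff_mem_nonZeroDivisors.1 (Finset.mem_Ioc.1 ((hA a).1 ha)).1
    have h3 : ∀ C, (∃ x : 𝓞 K, a * (c C : Ideal (𝓞 K)) = Ideal.span {x}) ↔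
        C = (ClassGroup.mk0 ⟨a, ha0⟩)⁻¹ := by
      intro C
      rw [eq_comm, inv_eq_iff_eq_inv]
      conv_rhs => rw [← hc C]
      rw [ClassGroup.mk0_eq_mk0_inv_iff]
      constructor
      · rintro ⟨x, hx⟩
        refine ⟨x, ?_, hx⟩
        rintro rfl
        rw [Ideal.span_singleton_eq_bot.2 rfl] at hx
        exact mul_ne_zero (nonZeroDivisors.ne_zero ha0) (hc0 C) hx
      · rintro ⟨x, _, hx⟩
        exact ⟨x, hx⟩
    simp only [h3]
    rw [← Finset.mul_sum, Finset.sum_ite_eq' Finset.univ, if_pos (Finset.mem_univ _), mul_comm]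

end Pool.Agent.Lib.MP_e97e2b_nt
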