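import Mathlib

/- Algebraic preliminaries for the character `chi l ∘ norm` on `O_K / l`. -/

namespace Pool.Agent.Lib.MP_e97e2b_nt

lemma mo_norm_prod {k S T : Type} [Field k] [CommRing S] [CommRing T] [Algebra k S] [Algebra k T]
    [Module.Finite k S] [Module.Finite k T] (x : S × T) :
    Algebra.norm k x = Algebra.norm k x.1 * Algebra.norm k x.2 := by
  rw [Algebra.norm_apply, Algebra.norm_apply, Algebra.norm_apply, ← LinearMap.det_prodMap]
  rfl

lemma mo_norm_pi (k : Type) [Field k] (ι : Type) [Fintype ι] :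
    ∀ (F : ι → Type) [∀ i, CommRing (F i)] [∀ i, Algebra k (F i)] [∀ i, Module.Finite k (F i)]
      (x : ∀ i, F i), Algebra.norm k x = ∏ i, Algebra.norm k (x i) := by
  refine Fintype.induction_empty_option (P := fun ι _ => ∀ (F : ι → Type) [∀ i, CommRing (F i)]
    [∀ i, Algebra k (F i)] [∀ i, Module.Finite k (F i)] (x : ∀ i, F i),
      Algebra.norm k x = ∏ i, Algebra.norm k (x i)) ?_ ?_ ?_ ι
  · intro α β _ e ih F _ _ _ x
    let : Fintype α := Fintype.ofEquiv β e.symm
    rw [← Algebra.norm_eq_of_algEquiv (AlgEquiv.piCongrLeft k F e).symm, ih,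
      ← e.prod_comp fun i => Algebra.norm k (x i)]
    rfl
  · intro F _ _ _ x
    rw [Subsingleton.elim x 1, map_one]
    simp
  · intro α _ ih F _ _ _ x
    let e : (∀ i, F i) ≃ₐ[k] F none × (∀ i, F (some i)) :=
      { RingEquiv.piOptionEquivProd with commutes' := fun _ => rfl }
    rw [← Algebra.norm_eq_of_algEquiv e, mo_norm_prod, ih, Fintype.prod_option]
    rfl

lemma mo_quad_norm {l : ℕ} [Fact l.Prime] (hl : l ≠ 2) {F : Type} [Field F] [Fintype F]
    [DecidableEq F] [Algebra (ZMod l) F] (y : F) :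
    quadraticChar (ZMod l) (Algebra.norm (ZMod l) y) = quadraticChar F y := by
  have hp : l.Prime := Fact.out
  have : CharP F l := charP_of_injective_algebraMap (algebraMap (ZMod l) F).injective l
  have hF : ringChar F ≠ 2 := by rw [ringChar.eq F l]; exact hl
  have hk : ringChar (ZMod l) ≠ 2 := by rw [ZMod.ringChar_zmod_n]; exact hl
  by_cases hy : y = 0
  · rw [hy, Algebra.norm_zero, MulChar.map_zero, MulChar.map_zero]
  have hN : Algebra.norm (ZMod l) y ≠ 0 := Algebra.norm_ne_zero_iff.mpr hy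
  rw [quadraticChar_eq_pow_of_char_ne_two hk hN, quadraticChar_eq_pow_of_char_ne_two hF hy,
    ZMod.card]
  obtain ⟨a, ha⟩ := hp.odd_of_ne_two hl
  obtain ⟨n, -, hn⟩ := FiniteField.card F l
  obtain ⟨c, hc⟩ : l - 1 ∣ Fintype.card F - 1 := by
    rw [hn]
    exact Nat.sub_one_dvd_pow_sub_one l n
  have hq : 1 ≤ Fintype.card F := Fintype.card_pos
  have hl1 : 0 < l - 1 := by have := hp.two_le; omega
  have hexp : (Fintype.card F - 1) / (l - 1) * (l / 2) = Fintype.card F / 2 := by
    rw [hc, Nat.mul_div_cancel_left _ hl1]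
    have h1 : l / 2 = a := by omega
    have h2 : l - 1 = 2 * a := by omega
    have h3 : Fintype.card F = 2 * (c * a) + 1 := by
      rw [h2] at hc
      have : 2 * a * c = 2 * (c * a) := by ring
      omega
    rw [h1]
    omega
  have hiff : Algebra.norm (ZMod l) y ^ (l / 2) = 1 ↔ y ^ (Fintype.card F / 2) = 1 := by
    rw [← (algebraMap (ZMod l) F).injective.eq_iff, map_pow, FiniteField.algebraMap_norm_eq_pow,
      map_one, ← pow_mul, Nat.card_zmod, Nat.card_eq_fintype_card, hexp]
  simp only [hiff]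

section Red

variable {O R ι : Type} [CommRing O] [CommRing R] [Fintype ι] [DecidableEq ι] {l : ℕ}
  [Fact l.Prime] [Algebra (ZMod l) R]

lemma mo_exists_basis (b : Module.Basis ι ℤ O) (π : O →+* R) (hπ : Function.Surjective π)
    (hd : Fintype.card ι = Module.finrank (ZMod l) R) :
    ∃ c : Module.Basis ι (ZMod l) R, ∀ i, c i = π (b i) := by
  refine ⟨basisOfTopLeSpanOfCardEqFinrank (fun i => π (b i)) ?_ hd,
    fun i => congrFun (coe_basisOfTopLeSpanOfCardEqFinrank _ _ _) i⟩
  intro y _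
  obtain ⟨x, rfl⟩ := hπ y
  rw [← b.sum_repr x, map_sum]
  refine Submodule.sum_mem _ fun i _ => ?_
  rw [map_zsmul, ← Int.cast_smul_eq_zsmul (ZMod l)]
  exact Submodule.smul_mem _ _ (Submodule.subset_span ⟨i, rfl⟩)

lemma mo_repr (b : Module.Basis ι ℤ O) (π : O →+* R) (c : Module.Basis ι (ZMod l) R)
    (hc : ∀ i, c i = π (b i)) (x : O) (i : ι) : c.repr (π x) i = ((b.repr x i : ℤ) : ZMod l) := by
  have h : π x = ∑ j, ((b.repr x j : ℤ) : ZMod l) • c j := by
    conv_lhs => rw [← b.sum_repr x, map_sum]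
    refine Finset.sum_congr rfl fun j _ => ?_
    rw [map_zsmul, Int.cast_smul_eq_zsmul, hc]
  rw [h, c.repr_sum_self]

lemma mo_leftMul (b : Module.Basis ι ℤ O) (π : O →+* R) (c : Module.Basis ι (ZMod l) R)
    (hc : ∀ i, c i = π (b i)) (x : O) :
    Algebra.leftMulMatrix c (π x) =
      (Int.castRingHom (ZMod l)).mapMatrix (Algebra.leftMulMatrix b x) := by
  ext i j
  rw [Algebra.leftMulMatrix_eq_repr_mul, hc, ← map_mul, mo_repr b π c hc]
  simp [Algebra.leftMulMatrix_eq_repr_mul]

lemma mo_norm_red (b : Module.Basis ι ℤ O) (π : O →+* R) (c : Module.Basis ι (ZMod l) R)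
    (hc : ∀ i, c i = π (b i)) (x : O) :
    Algebra.norm (ZMod l) (π x) = ((Algebra.norm ℤ x : ℤ) : ZMod l) := by
  rw [Algebra.norm_eq_matrix_det c, Algebra.norm_eq_matrix_det b, mo_leftMul b π c hc,
    ← RingHom.map_det]
  rfl

lemma mo_trace_red (b : Module.Basis ι ℤ O) (π : O →+* R) (c : Module.Basis ι (ZMod l) R)
    (hc : ∀ i, c i = π (b i)) (x : O) :
    Algebra.trace (ZMod l) R (π x) = ((Algebra.trace ℤ O x : ℤ) : ZMod l) := by
  rw [Algebra.trace_eq_matrix_trace c, Algebra.trace_eq_matrix_trace b, mo_leftMul b π c hc]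
  simp [Matrix.trace]

lemma mo_reduced (b : Module.Basis ι ℤ O) (π : O →+* R) (c : Module.Basis ι (ZMod l) R)
    (hc : ∀ i, c i = π (b i)) (hd : ¬ (l : ℤ) ∣ Algebra.discr ℤ b) : IsReduced R := by
  have h1 : Algebra.traceMatrix (ZMod l) c =
      (Int.castRingHom (ZMod l)).mapMatrix (Algebra.traceMatrix ℤ b) := by
    ext i j
    rw [Algebra.traceMatrix_apply, Algebra.traceForm_apply, hc, hc, ← map_mul,
      mo_trace_red b π c hc]
    simp
  have h2 : (Algebra.traceMatrix (ZMod l) c).det ≠ 0 := by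
    rw [h1, ← RingHom.map_det, ← Algebra.discr_def]
    simpa [ZMod.intCast_zmod_eq_zero_iff_dvd] using hd
  refine ⟨fun x hx => ?_⟩
  have h3 : Matrix.vecMul (c.equivFun x) (Algebra.traceMatrix (ZMod l) c) = 0 := by
    ext j
    have h4 : IsNilpotent (x * c j) := (Commute.all _ _).isNilpotent_mul_right hx
    have h5 := (Algebra.isNilpotent_trace_of_isNilpotent (R := ZMod l) h4).eq_zero
    rw [← c.sum_equivFun x, Finset.sum_mul, map_sum] at h5
    simpa [Matrix.vecMul, dotProduct, Algebra.traceMatrix_apply] using h5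
  have h6 := Matrix.eq_zero_of_vecMul_eq_zero h2 h3
  exact c.equivFun.injective (by rw [h6, map_zero])

end Red

/-- Tuples in which every value is repeated. -/
lemma mo_count (r B : ℕ) :
    ((Fintype.piFinset fun _ : Fin (2 * r) => Finset.range B).filter
      fun t => ¬ ∃ j₀, ∀ j, j ≠ j₀ → t j ≠ t j₀).card ≤ B ^ r * r ^ (2 * r) := by
  classical
  have hsub : ((Fintype.piFinset fun _ : Fin (2 * r) => Finset.range B).filter
      fun t => ¬ ∃ j₀, ∀ j, j ≠ j₀ → t j ≠ t j₀) ⊆
      ((Fintype.piFinset fun _ : Fin r => Finset.range B) ×ˢ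
        (Finset.univ : Finset (Fin (2 * r) → Fin r))).image fun p => p.1 ∘ p.2 := by
    intro t ht
    rw [Finset.mem_filter, Fintype.mem_piFinset] at ht
    obtain ⟨ht1, ht2⟩ := ht
    have hcard : 2 * (Finset.univ.image t).card ≤ (Finset.univ : Finset (Fin (2 * r))).card := by
      refine Finset.mul_card_image_le_card _ 2 fun a ha => ?_
      obtain ⟨j₀, -, rfl⟩ := Finset.mem_image.mp ha
      obtain ⟨j, hj1, hj2⟩ : ∃ j, j ≠ j₀ ∧ t j = t j₀ := by
        by_contra hcon
        exact ht2 ⟨j₀, fun j hj h => hcon ⟨j, hj, h⟩⟩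
      exact Finset.one_lt_card.mpr ⟨j, by simp [hj2], j₀, by simp, hj1⟩
    rw [Finset.card_univ, Fintype.card_fin] at hcard
    obtain ⟨em⟩ : Nonempty ((Finset.univ.image t) ↪ Fin r) := by
      apply Function.Embedding.nonempty_of_card_le
      rw [Fintype.card_coe, Fintype.card_fin]
      omega
    refine Finset.mem_image.mpr ⟨(Function.extend em Subtype.val
      (fun k => t ⟨0, by have := k.2; omega⟩), fun j => em ⟨t j, by simp⟩), ?_, ?_⟩
    · simp only [Finset.mem_product, Fintype.mem_piFinset, Finset.mem_univ, and_true]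
      intro k
      by_cases hk : ∃ a, em a = k
      · obtain ⟨a, rfl⟩ := hk
        rw [em.injective.extend_apply]
        obtain ⟨j, -, hj⟩ := Finset.mem_image.mp a.2
        rw [← hj]
        exact ht1 j
      · rw [Function.extend_apply' _ _ _ hk]
        exact ht1 _
    · funext j
      simp only [Function.comp_apply]
      rw [em.injective.extend_apply]
  refine (Finset.card_le_card hsub).trans (Finset.card_image_le.trans ?_)
  simp [Fintype.card_piFinset]

end Pool.Agent.Lib.MP_e97e2b_nt
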