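import Pool.Agent.Lib.MP_e97e2b_nt.ABasic
import Pool.Agent.Lib.MP_e97e2b_nt.Weil
import Pool.Agent.Lib.MP_e97e2b_nt.Moment1

/- The character `chi l ∘ norm` on `O_K / l`. -/

namespace Pool.Agent.Lib.MP_e97e2b_nt

open NumberField

variable {K : Type} [Field K] [NumberField K]

lemma norm_modEq (M : ℕ) {x y : 𝓞 K} (h : x - y ∈ Ideal.span {(M : 𝓞 K)}) :
    Algebra.norm ℤ x ≡ Algebra.norm ℤ y [ZMOD M] := by
  classical
  obtain ⟨z, hz⟩ := Ideal.mem_span_singleton'.mp h
  have hx : x = y + M • z := by rw [nsmul_eq_mul, mul_comm, hz]; ring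
  let b := RingOfIntegers.basis K
  rw [← ZMod.intCast_eq_intCast_iff, Algebra.norm_eq_matrix_det b, Algebra.norm_eq_matrix_det b]
  have h1 : (Int.castRingHom (ZMod M)).mapMatrix (Algebra.leftMulMatrix b x) =
      (Int.castRingHom (ZMod M)).mapMatrix (Algebra.leftMulMatrix b y) := by
    rw [hx, map_add, map_add, map_nsmul, map_nsmul, add_eq_left]
    ext i j
    rw [Matrix.smul_apply, nsmul_eq_mul, ZMod.natCast_self, zero_mul, Matrix.zero_apply]
  have h2 := congrArg Matrix.det h1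
  rwa [← RingHom.map_det, ← RingHom.map_det] at h2

lemma etaQ_mk (M : ℕ) (x : 𝓞 K) :
    etaQ K M (Ideal.Quotient.mk _ x) = chi M (Algebra.norm ℤ x) := by
  unfold etaQ chi
  have h : (Quotient.out (Ideal.Quotient.mk (Ideal.span {(M : 𝓞 K)}) x) : 𝓞 K) - x ∈
      Ideal.span {(M : 𝓞 K)} := by
    rw [← Ideal.Quotient.eq]
    exact Ideal.Quotient.mk_out _
  rw [jacobiSym.mod_left' (norm_modEq M h)]

lemma etaQ_mul (M : ℕ) (x y : RM K M) : etaQ K M (x * y) = etaQ K M x * etaQ K M y := by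
  obtain ⟨x, rfl⟩ := Ideal.Quotient.mk_surjective x
  obtain ⟨y, rfl⟩ := Ideal.Quotient.mk_surjective y
  rw [← map_mul, etaQ_mk, etaQ_mk, etaQ_mk, map_mul, chi_mul]

lemma card_RM (M : ℕ) : Nat.card (RM K M) = M ^ Module.finrank ℚ K := by
  rw [← RingOfIntegers.rank, ← Ideal.absNorm_span_natCast, Ideal.absNorm_apply,
    Submodule.cardQuot_apply]

/-- Structure of the residue ring at an odd unramified prime. -/
lemma mo_struct {l : ℕ} (hl : l.Prime) (hl2 : l ≠ 2) (hd : ¬ (l : ℤ) ∣ discr K) :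
    ∃ (ι : Type) (_ : Fintype ι) (F : ι → Type) (_ : ∀ i, Field (F i)) (_ : ∀ i, Fintype (F i))
      (_ : ∀ i, DecidableEq (F i)) (e : RM K l ≃+* ∀ i, F i),
      Nonempty ι ∧ Fintype.card ι ≤ Module.finrank ℚ K ∧ (∀ i, CharP (F i) l) ∧
      ∏ i, Fintype.card (F i) = l ^ Module.finrank ℚ K ∧
      ∀ x, etaQ K l x = ∏ i, ((quadraticChar (F i) (e x i) : ℤ) : ℝ) := by
  classical
  have : Fact l.Prime := ⟨hl⟩
  have hd0 : Module.finrank ℚ K ≠ 0 := Module.finrank_pos.ne'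
  have hcard := card_RM (K := K) l
  have hone : 1 < Nat.card (RM K l) := by
    rw [hcard]
    exact Nat.one_lt_pow hd0 hl.one_lt
  have : Finite (RM K l) := Nat.finite_of_card_ne_zero (by omega)
  have : Nontrivial (RM K l) := Finite.one_lt_card_iff_nontrivial.mp hone
  have hl0 : (l : RM K l) = 0 := by
    rw [← map_natCast (Ideal.Quotient.mk (Ideal.span {(l : 𝓞 K)})),
      Ideal.Quotient.eq_zero_iff_mem]
    exact Ideal.mem_span_singleton_self _
  have : CharP (RM K l) l := (CharP.charP_iff_prime_eq_zero hl).mpr hl0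
  let : Algebra (ZMod l) (RM K l) := ZMod.algebra _ l
  have hrank : Module.finrank (ZMod l) (RM K l) = Module.finrank ℚ K := by
    have h1 := Module.natCard_eq_pow_finrank (K := ZMod l) (V := RM K l)
    rw [hcard, Nat.card_zmod] at h1
    exact (Nat.pow_right_injective hl.two_le h1).symm
  obtain ⟨c, hc⟩ := mo_exists_basis (l := l) (RingOfIntegers.basis K)
    (Ideal.Quotient.mk (Ideal.span {(l : 𝓞 K)})) Ideal.Quotient.mk_surjective (by
      rw [hrank, ← RingOfIntegers.rank, Module.finrank_eq_card_chooseBasisIndex])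
  have : IsReduced (RM K l) := mo_reduced _ _ c hc hd
  let ι := MaximalSpectrum (RM K l)
  let : Fintype ι := Fintype.ofFinite _
  let F : ι → Type := fun i => RM K l ⧸ i.asIdeal
  let : ∀ i, Field (F i) := fun i => Ideal.Quotient.field i.asIdeal
  have : ∀ i, Finite (F i) := fun i =>
    Finite.of_surjective _ (Ideal.Quotient.mk_surjective (I := i.asIdeal))
  let : ∀ i, Fintype (F i) := fun i => Fintype.ofFinite _
  let e : RM K l ≃ₐ[ZMod l] ∀ i, F i := (IsArtinianRing.equivPi (RM K l)).restrictScalars (ZMod l)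
  have hprod : ∏ i, Fintype.card (F i) = l ^ Module.finrank ℚ K := by
    rw [← Fintype.card_pi, ← Nat.card_eq_fintype_card, ← hcard]
    exact (Nat.card_congr e.toEquiv).symm
  have hchar : ∀ i, CharP (F i) l := fun i =>
    charP_of_injective_algebraMap (algebraMap (ZMod l) (F i)).injective l
  refine ⟨ι, inferInstance, F, inferInstance, inferInstance, inferInstance, e.toRingEquiv,
    inferInstance, ?_, hchar, hprod, fun x => ?_⟩
  · have h1 : l ^ Fintype.card ι ≤ ∏ i, Fintype.card (F i) := by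
      rw [← Finset.card_univ, ← Finset.prod_const]
      refine Finset.prod_le_prod' fun i _ => ?_
      obtain ⟨n, -, hn⟩ := FiniteField.card (F i) l
      rw [hn]
      exact Nat.le_self_pow n.ne_zero l
    rw [hprod] at h1
    exact (Nat.pow_le_pow_iff_right hl.one_lt).mp h1
  · obtain ⟨x, rfl⟩ := Ideal.Quotient.mk_surjective x
    rw [etaQ_mk, chi, ← jacobiSym.legendreSym.to_jacobiSym, legendreSym,
      ← mo_norm_red _ _ c hc, ← Algebra.norm_eq_of_algEquiv e, mo_norm_pi, map_prod, Int.cast_prod]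
    refine Finset.prod_congr rfl fun i _ => ?_
    rw [mo_quad_norm hl2]
    rfl

lemma mo_good {l : ℕ} (h : max 2 (discr K).natAbs < l) : l ≠ 2 ∧ ¬ (l : ℤ) ∣ discr K := by
  rw [max_lt_iff] at h
  refine ⟨by omega, fun hd => ?_⟩
  have h1 := Nat.le_of_dvd (Int.natAbs_pos.mpr (discr_ne_zero K)) (Int.natCast_dvd.mp hd)
  omega

lemma mo_exists_prime {l : ℕ} (hl : l.Prime) (h : max 2 (discr K).natAbs < l) :
    ∃ y : 𝓞 K, chi l (Algebra.norm ℤ y) = -1 := by
  classical
  obtain ⟨hl2, hd⟩ := mo_good h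
  obtain ⟨ι, _, F, _, _, _, e, ⟨i₀⟩, -, hchar, -, he⟩ := mo_struct hl hl2 hd
  obtain ⟨a, ha⟩ := quadraticChar_exists_neg_one (F := F i₀)
    (by rw [ringChar.eq (F i₀) l]; exact hl2)
  obtain ⟨y, hy⟩ := Ideal.Quotient.mk_surjective (e.symm (Function.update 1 i₀ a))
  refine ⟨y, ?_⟩
  rw [← etaQ_mk, hy, he, e.apply_symm_apply, Finset.prod_eq_single i₀]
  · rw [Function.update_self, ha]; simp
  · intro i _ hi
    rw [Function.update_of_ne hi]
    simp
  · simp

lemma mo_chi_congr (M : ℕ) {x y : 𝓞 K} (h : x - y ∈ Ideal.span {(M : 𝓞 K)}) :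
    chi M (Algebra.norm ℤ x) = chi M (Algebra.norm ℤ y) := by
  unfold chi
  rw [jacobiSym.mod_left' (norm_modEq M h)]

/-- An element whose norm is a non-residue. -/
theorem exists_chi_norm_neg : ∃ l0 : ℕ, ∀ M, Adm l0 M →
    ∃ y : 𝓞 K, chi M (Algebra.norm ℤ y) = -1 := by
  refine ⟨max 2 (discr K).natAbs, fun M hM => ?_⟩
  rcases hM with ⟨hp, h⟩ | ⟨p, q, hp, hq, hpq, h1, -, rfl⟩
  · exact mo_exists_prime hp h
  obtain ⟨y, hy⟩ := mo_exists_prime hp h1
  obtain ⟨u, v, huv⟩ : IsCoprime (p : 𝓞 K) (q : 𝓞 K) :=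
    Nat.Coprime.cast ((Nat.coprime_primes hp hq).mpr hpq)
  refine ⟨y * (v * q) + u * p, ?_⟩
  have e1 : chi p (Algebra.norm ℤ (y * (v * q) + u * p)) = chi p (Algebra.norm ℤ y) :=
    mo_chi_congr p (Ideal.mem_span_singleton'.mpr ⟨u - y * u, by linear_combination -y * huv⟩)
  have e2 : chi q (Algebra.norm ℤ (y * (v * q) + u * p)) = chi q (Algebra.norm ℤ (1 : 𝓞 K)) :=
    mo_chi_congr q (Ideal.mem_span_singleton'.mpr ⟨y * v - v, by linear_combination -huv⟩)
  rw [chi_mul_right p q hp.ne_zero hq.ne_zero, e1, e2, hy, map_one, chi_one, mul_one]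

/-- The `2r`-th moment bound used in Burgess' method. -/
theorem moment (r : ℕ) : ∃ (C : ℝ) (l0 : ℕ), ∀ l : ℕ, l.Prime → l0 < l → ∀ B : ℕ, B ≤ l →
    ∑ᶠ x : RM K l, (∑ b ∈ Finset.range B, etaQ K l (x + (b : RM K l))) ^ (2 * r) ≤
      C * ((B : ℝ) ^ r * (l : ℝ) ^ Module.finrank ℚ K +
        (B : ℝ) ^ (2 * r) * Real.sqrt ((l : ℝ) ^ Module.finrank ℚ K)) := by
  classical
  obtain ⟨C, hC⟩ := weil (2 * r)
  refine ⟨max ((r : ℝ) ^ (2 * r)) (max C 1 ^ Module.finrank ℚ K), max 2 (discr K).natAbs,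
    fun l hl h B hB => ?_⟩
  obtain ⟨hl2, hd⟩ := mo_good h
  obtain ⟨ι, _, F, _, _, _, e, -, hι, hchar, hprod, he⟩ := mo_struct hl hl2 hd
  let : Fintype (RM K l) := Fintype.ofEquiv _ e.toEquiv.symm
  have hcard : (Fintype.card (RM K l) : ℝ) = (l : ℝ) ^ Module.finrank ℚ K := by
    rw [← Nat.card_eq_fintype_card, card_RM, Nat.cast_pow]
  set L : ℝ := (l : ℝ) ^ Module.finrank ℚ K with hL
  set S : (Fin (2 * r) → ℕ) → ℝ := fun t => ∑ x : RM K l, ∏ j, etaQ K l (x + (t j : RM K l))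
    with hS
  have hexp : ∑ᶠ x : RM K l, (∑ b ∈ Finset.range B, etaQ K l (x + (b : RM K l))) ^ (2 * r) =
      ∑ t ∈ Fintype.piFinset fun _ : Fin (2 * r) => Finset.range B, S t := by
    rw [finsum_eq_sum_of_fintype]
    simp only [Finset.sum_pow']
    rw [Finset.sum_comm]
  have htriv : ∀ t, S t ≤ L := by
    intro t
    rw [← hcard, ← Finset.card_univ, ← mul_one (Finset.univ.card : ℝ), ← nsmul_eq_mul]
    refine Finset.sum_le_card_nsmul _ _ _ fun x _ => (le_abs_self _).trans ?_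
    rw [Finset.abs_prod]
    exact Finset.prod_le_one (fun j _ => abs_nonneg _) fun j _ => abs_chi_le _ _
  have hfac : ∀ t, S t =
      ∏ i, ∑ y : F i, ((quadraticChar (F i) (∏ j, (y + (t j : F i))) : ℤ) : ℝ) := by
    intro t
    rw [Fintype.prod_sum]
    refine Fintype.sum_equiv e.toEquiv _ _ fun x => ?_
    simp only [he, map_prod, Int.cast_prod]
    rw [Finset.prod_comm]
    refine Finset.prod_congr rfl fun i _ => Finset.prod_congr rfl fun j _ => ?_
    rw [map_add, map_natCast]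
    rfl
  have hgood : ∀ t ∈ Fintype.piFinset fun _ : Fin (2 * r) => Finset.range B,
      (∃ j₀, ∀ j, j ≠ j₀ → t j ≠ t j₀) → S t ≤ max C 1 ^ Module.finrank ℚ K * Real.sqrt L := by
    rintro t ht ⟨j₀, hj₀⟩
    have hlt : ∀ j, t j < l := fun j =>
      (Finset.mem_range.mp (Fintype.mem_piFinset.mp ht j)).trans_le hB
    rw [hfac]
    refine (le_abs_self _).trans ?_
    rw [Finset.abs_prod]
    calc ∏ i, |∑ y : F i, ((quadraticChar (F i) (∏ j, (y + (t j : F i))) : ℤ) : ℝ)|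
        ≤ ∏ i, max C 1 * Real.sqrt (Fintype.card (F i)) := by
          refine Finset.prod_le_prod (fun i _ => abs_nonneg _) fun i _ => ?_
          refine (hC (F i) (by rw [ringChar.eq (F i) l]; exact hl2) (fun j => (t j : F i)) j₀
            fun j hj hh => hj₀ j hj ?_).trans ?_
          · exact CharP.natCast_injOn_Iio (F i) l (hlt j) (hlt j₀) hh
          · exact mul_le_mul_of_nonneg_right (le_max_left _ _) (Real.sqrt_nonneg _)
      _ = max C 1 ^ Fintype.card ι * Real.sqrt L := by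
          rw [Finset.prod_mul_distrib, Finset.prod_const, Finset.card_univ,
            ← Real.sqrt_prod _ (fun i _ => Nat.cast_nonneg _), ← Nat.cast_prod, hprod,
            Nat.cast_pow]
      _ ≤ max C 1 ^ Module.finrank ℚ K * Real.sqrt L :=
          mul_le_mul_of_nonneg_right (pow_le_pow_right₀ (le_max_right _ _) hι)
            (Real.sqrt_nonneg _)
  have hL0 : 0 ≤ L := by positivity
  have hC0 : 0 ≤ max C 1 ^ Module.finrank ℚ K * Real.sqrt L :=
    mul_nonneg (pow_nonneg (zero_le_one.trans (le_max_right _ _)) _) (Real.sqrt_nonneg _)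
  rw [hexp, ← Finset.sum_filter_add_sum_filter_not _ (fun t => ∃ j₀, ∀ j, j ≠ j₀ → t j ≠ t j₀)]
  have h1 : ∑ t ∈ (Fintype.piFinset fun _ : Fin (2 * r) => Finset.range B).filter
      (fun t => ∃ j₀, ∀ j, j ≠ j₀ → t j ≠ t j₀), S t ≤
      (B : ℝ) ^ (2 * r) * (max C 1 ^ Module.finrank ℚ K * Real.sqrt L) := by
    refine (Finset.sum_le_card_nsmul _ _ _ fun t ht =>
      hgood t (Finset.mem_filter.mp ht).1 (Finset.mem_filter.mp ht).2).trans ?_
    rw [nsmul_eq_mul]
    refine mul_le_mul_of_nonneg_right ?_ hC0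
    have h3 := Finset.card_filter_le (Fintype.piFinset fun _ : Fin (2 * r) => Finset.range B)
      (fun t => ∃ j₀, ∀ j, j ≠ j₀ → t j ≠ t j₀)
    rw [Fintype.card_piFinset_const, Finset.card_range] at h3
    exact_mod_cast h3
  have h2 : ∑ t ∈ (Fintype.piFinset fun _ : Fin (2 * r) => Finset.range B).filter
      (fun t => ¬ ∃ j₀, ∀ j, j ≠ j₀ → t j ≠ t j₀), S t ≤ (B : ℝ) ^ r * (r : ℝ) ^ (2 * r) * L := by
    refine (Finset.sum_le_card_nsmul _ _ _ fun t _ => htriv t).trans ?_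
    rw [nsmul_eq_mul]
    refine mul_le_mul_of_nonneg_right ?_ hL0
    exact_mod_cast mo_count r B
  have h4 : (B : ℝ) ^ (2 * r) * (max C 1 ^ Module.finrank ℚ K * Real.sqrt L) ≤
      max ((r : ℝ) ^ (2 * r)) (max C 1 ^ Module.finrank ℚ K) *
        ((B : ℝ) ^ (2 * r) * Real.sqrt L) := by
    rw [mul_left_comm]
    exact mul_le_mul_of_nonneg_right (le_max_right _ _) (by positivity)
  have h5 : (B : ℝ) ^ r * (r : ℝ) ^ (2 * r) * L ≤
      max ((r : ℝ) ^ (2 * r)) (max C 1 ^ Module.finrank ℚ K) * ((B : ℝ) ^ r * L) := by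
    rw [mul_comm ((B : ℝ) ^ r), mul_assoc]
    exact mul_le_mul_of_nonneg_right (le_max_left _ _) (by positivity)
  rw [mul_add]
  linarith

end Pool.Agent.Lib.MP_e97e2b_nt
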