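import Mathlib

/- Total ramification of `K(ζ_l) / K` above an unramified prime. -/

namespace Pool.Agent.Lib.MP_e97e2b_nt

open Polynomial NumberField IsDedekindDomain

variable {K L F : Type} [Field K] [Field L] [Field F] [Algebra K L]

/-- The local data at a prime above `l`. -/
structure TRam (K : Type) [Field K] [Algebra K L] (j : L →+* F) (O : ValuationSubring F) (l : ℕ)
    (ζ : L) (w : O.ValueGroup) : Prop where
  prime : l.Prime
  five : 5 ≤ l
  prim : IsPrimitiveRoot ζ l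
  w0 : 0 < w
  w1 : w < 1
  wl : O.valuation (l : F) = w ^ (l - 1)
  base : ∀ a : K, a ≠ 0 → ∃ m : ℤ, O.valuation (j (algebraMap K L a)) = w ^ (((l - 1 : ℕ) : ℤ) * m)
  tr : ∀ x : L, x ≠ 0 → ∃ (m : ℤ) (i : ℕ),
    O.valuation (j x) = w ^ (((l - 1 : ℕ) : ℤ) * m + i) ∧
    ∀ (σ : L ≃ₐ[K] L) (t : ℕ), σ ζ = ζ ^ t →
      O.valuation (j (σ x) - (t : F) ^ i * j x) < O.valuation (j x)

lemma val_int_le (O : ValuationSubring F) (n : ℤ) : O.valuation (n : F) ≤ 1 :=
  (O.valuation_le_one_iff _).2 (intCast_mem O n)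

lemma val_int_lt_iff (O : ValuationSubring F) {l : ℕ} (hl : l.Prime)
    (h : O.valuation (l : F) < 1) (n : ℤ) : O.valuation (n : F) < 1 ↔ (l : ℤ) ∣ n := by
  constructor
  · intro hn
    by_contra hd
    obtain ⟨a, b, e⟩ := (Nat.prime_iff_prime_int.1 hl).irreducible.coprime_iff_not_dvd.2 hd
    have e' : (a : F) * l + b * n = 1 := by exact_mod_cast congrArg (Int.cast : ℤ → F) e
    have := O.valuation.map_add_lt (x := (a : F) * l) (y := (b : F) * n) (g := 1)
      (by rw [map_mul]; exact mul_lt_one_of_nonneg_of_lt_one_right (val_int_le O a) zero_le h)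
      (by rw [map_mul]; exact mul_lt_one_of_nonneg_of_lt_one_right (val_int_le O b) zero_le hn)
    rw [e', map_one] at this
    exact lt_irrefl _ this
  · rintro ⟨c, rfl⟩
    push_cast
    rw [map_mul]
    exact mul_lt_one_of_nonneg_of_lt_one_left zero_le h (val_int_le O c)

lemma val_nat_eq_one (O : ValuationSubring F) {l : ℕ} (hl : l.Prime)
    (h : O.valuation (l : F) < 1) {n : ℕ} (hn : ¬ l ∣ n) : O.valuation (n : F) = 1 := by
  have h1 := val_int_le O n
  have h2 := (val_int_lt_iff O hl h n).not.2 (by exact_mod_cast hn)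
  rw [Int.cast_natCast] at h1 h2
  exact le_antisymm h1 (not_lt.1 h2)

lemma not_dvd_of_gal {l : ℕ} (hl : l.Prime) {ζ : L} (hζ : IsPrimitiveRoot ζ l) (σ : L ≃ₐ[K] L)
    {t : ℕ} (h : σ ζ = ζ ^ t) : ¬ l ∣ t := by
  intro hd
  rw [(hζ.pow_eq_one_iff_dvd t).2 hd, map_eq_one_iff _ σ.injective] at h
  exact hζ.ne_one hl.one_lt h

theorem tram_of (j : L →+* F) (O : ValuationSubring F) {l : ℕ} (hl : l.Prime) (h5 : 5 ≤ l) {ζ : L}
    (hζ : IsPrimitiveRoot ζ l) (hL : ∀ x : L, ∃ p : K[X], aeval ζ p = x)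
    (h1 : O.valuation (l : F) < 1)
    (hK : ∀ a : K, a ≠ 0 → ∃ m : ℤ, O.valuation (j (algebraMap K L a)) = O.valuation (l : F) ^ m) :
    TRam K j O l ζ (O.valuation (j ζ - 1)) := by
  set v := O.valuation with hv
  have hz : IsPrimitiveRoot (j ζ) l := hζ.map_of_injective j.injective
  set z := j ζ with hzdef
  have root1 : ∀ y : F, y ^ l = 1 → v y = 1 := fun y hy =>
    (pow_eq_one_iff_of_nonneg zero_le hl.ne_zero).1 (by rw [← map_pow, hy, map_one])
  have le1 : ∀ y : F, y ^ l = 1 → ∀ t : ℕ, v (y ^ t - 1) ≤ v (y - 1) := by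
    intro y hy t
    rw [← geom_sum_mul, map_mul]
    refine mul_le_of_le_one_left zero_le (v.map_sum_le fun i _ => ?_)
    rw [map_pow, root1 y hy, one_pow]
  have eq1 : ∀ t : ℕ, ¬ l ∣ t → v (z ^ t - 1) = v (z - 1) := by
    intro t ht
    refine le_antisymm (le1 z hz.pow_eq_one t) ?_
    have hp := hz.pow_of_coprime t ((Nat.coprime_comm.1 (hl.coprime_iff_not_dvd.2 ht)))
    have : NeZero l := ⟨hl.ne_zero⟩
    obtain ⟨s, -, hs⟩ := hp.eq_pow_of_pow_eq_one hz.pow_eq_one
    conv_lhs => rw [← hs]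
    exact le1 _ hp.pow_eq_one s
  set w := v (z - 1) with hw
  have w0 : 0 < w := zero_lt_iff.2 (by
    rw [hw, ne_eq, map_eq_zero, sub_eq_zero]; exact hz.ne_one hl.one_lt)
  have wl : v (l : F) = w ^ (l - 1) := by
    have hz' : IsPrimitiveRoot z (l - 1 + 1) := by rwa [Nat.sub_add_cancel hl.one_lt.le]
    have := congrArg v hz'.prod_one_sub_pow_eq_order
    rw [← Nat.cast_succ, Nat.succ_eq_add_one, Nat.sub_add_cancel hl.one_lt.le, map_prod,
      Finset.prod_congr rfl (g := fun _ => w), Finset.prod_const, Finset.card_range] at this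
    · exact this.symm
    · intro i hi
      rw [v.map_sub_swap, eq1]
      exact Nat.not_dvd_of_pos_of_lt (by omega) (by have := Finset.mem_range.1 hi; omega)
  have w1 : w < 1 := (pow_lt_one_iff_of_nonneg zero_le (by omega)).1 (wl ▸ h1)
  have base : ∀ a : K, a ≠ 0 → ∃ m : ℤ, v (j (algebraMap K L a)) = w ^ (((l - 1 : ℕ) : ℤ) * m) := by
    intro a ha
    obtain ⟨m, e⟩ := hK a ha
    exact ⟨m, by rw [e, wl, zpow_mul, zpow_natCast]⟩
  refine ⟨hl, h5, hζ, w0, w1, wl, base, ?_⟩
  let Good : L → ℤ → ℕ → Prop := fun x m i => v (j x) = w ^ (((l - 1 : ℕ) : ℤ) * m + i) ∧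
    ∀ (σ : L ≃ₐ[K] L) (t : ℕ), σ ζ = ζ ^ t → v (j (σ x) - (t : F) ^ i * j x) < v (j x)
  have vt : ∀ (σ : L ≃ₐ[K] L) (t : ℕ), σ ζ = ζ ^ t → v (t : F) = 1 := fun σ t h =>
    val_nat_eq_one O hl h1 (not_dvd_of_gal hl hζ σ h)
  have inv : ∀ x m i, Good x m i → ∀ (σ : L ≃ₐ[K] L) (t : ℕ), σ ζ = ζ ^ t →
      v (j (σ x)) = v (j x) := by
    intro x m i h σ t ht
    have e : v ((t : F) ^ i * j x) = v (j x) := by rw [map_mul, map_pow, vt σ t ht]; simp
    rw [show j (σ x) = (t : F) ^ i * j x + (j (σ x) - (t : F) ^ i * j x) by ring,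
      v.map_add_eq_of_lt_left (by rw [e]; exact h.2 σ t ht), e]
  have add : ∀ x m i y m' i', Good x m i → Good y m' i' → v (j y) < v (j x) →
      Good (x + y) m i := by
    intro x m i y m' i' h h' hlt
    have e : v (j (x + y)) = v (j x) := by rw [map_add, v.map_add_eq_of_lt_left hlt]
    refine ⟨e.trans h.1, fun σ t ht => ?_⟩
    rw [e, show j (σ (x + y)) - (t : F) ^ i * j (x + y) =
      (j (σ x) - (t : F) ^ i * j x) + j (σ y) - (t : F) ^ i * j y by simp only [map_add]; ring]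
    refine v.map_sub_lt (v.map_add_lt (h.2 σ t ht) (by rwa [inv y m' i' h' σ t ht])) ?_
    rw [map_mul, map_pow, vt σ t ht]
    simpa using hlt
  have hπ : ∀ (σ : L ≃ₐ[K] L) (t : ℕ), σ ζ = ζ ^ t → ∀ i : ℕ,
      v ((z ^ t - 1) ^ i - ((t : F) * (z - 1)) ^ i) < w ^ i := by
    intro σ t ht i
    have a1 : v ((z ^ t - 1) - (t : F) * (z - 1)) < w := by
      rw [show (z ^ t - 1) - (t : F) * (z - 1) = (∑ k ∈ Finset.range t, (z ^ k - 1)) * (z - 1) by
        rw [Finset.sum_sub_distrib, sub_mul, geom_sum_mul]; simp, map_mul]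
      refine mul_lt_of_lt_one_left w0 (lt_of_le_of_lt (v.map_sum_le fun k _ => ?_) w1)
      exact le1 z hz.pow_eq_one k
    induction i with
    | zero => simp
    | succ i ih =>
      rw [show (z ^ t - 1) ^ (i + 1) - ((t : F) * (z - 1)) ^ (i + 1) =
        ((z ^ t - 1) ^ i - ((t : F) * (z - 1)) ^ i) * (z ^ t - 1) +
          ((t : F) * (z - 1)) ^ i * ((z ^ t - 1) - (t : F) * (z - 1)) by ring]
      refine v.map_add_lt ?_ ?_
      · rw [map_mul, eq1 t (not_dvd_of_gal hl hζ σ ht), pow_succ]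
        exact mul_lt_mul_of_pos_right ih w0
      · rw [map_mul, map_pow, map_mul, vt σ t ht, one_mul, pow_succ]
        exact mul_lt_mul_of_pos_left a1 (pow_pos w0 i)
  have term : ∀ (a : K) (i : ℕ), a ≠ 0 → ∃ m, Good (algebraMap K L a * (ζ - 1) ^ i) m i := by
    intro a i ha
    obtain ⟨m, e⟩ := base a ha
    have e' : v (j (algebraMap K L a * (ζ - 1) ^ i)) = v (j (algebraMap K L a)) * w ^ i := by
      simp only [map_mul, map_pow, map_sub, map_one, hw, hzdef]
    refine ⟨m, by rw [e', e, zpow_add₀ w0.ne', zpow_natCast], fun σ t ht => ?_⟩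
    rw [e', show j (σ (algebraMap K L a * (ζ - 1) ^ i)) - (t : F) ^ i *
      j (algebraMap K L a * (ζ - 1) ^ i) = j (algebraMap K L a) *
        ((z ^ t - 1) ^ i - ((t : F) * (z - 1)) ^ i) by
      simp only [map_mul, map_pow, map_sub, map_one, AlgEquiv.commutes, ht, hzdef, mul_pow]
      ring, map_mul]
    exact mul_lt_mul_of_pos_left (hπ σ t ht i) (by rw [e]; exact zpow_pos w0 _)
  have sum : ∀ (a : ℕ → K) (J : Finset ℕ), J ⊆ Finset.range (l - 1) →
      (∑ i ∈ J, algebraMap K L (a i) * (ζ - 1) ^ i = 0 ∨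
        ∃ m, ∃ i ∈ J, Good (∑ i ∈ J, algebraMap K L (a i) * (ζ - 1) ^ i) m i) := by
    intro a J
    induction J using Finset.induction_on with
    | empty => simp
    | insert i J hi ih =>
      intro hJ
      rw [Finset.sum_insert hi]
      have ih := ih ((Finset.subset_insert _ _).trans hJ)
      by_cases ha : a i = 0
      · rw [ha, map_zero, zero_mul, zero_add]
        exact ih.imp id fun ⟨m, k, hk, h⟩ => ⟨m, k, Finset.mem_insert_of_mem hk, h⟩
      obtain ⟨m, hm⟩ := term (a i) i ha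
      right
      rcases ih with e | ⟨m', k, hk, h⟩
      · exact ⟨m, i, Finset.mem_insert_self _ _, by rwa [e, add_zero]⟩
      rcases lt_trichotomy (v (j (algebraMap K L (a i) * (ζ - 1) ^ i)))
        (v (j (∑ i ∈ J, algebraMap K L (a i) * (ζ - 1) ^ i))) with c | c | c
      · exact ⟨m', k, Finset.mem_insert_of_mem hk, by rw [add_comm]; exact add _ _ _ _ _ _ h hm c⟩
      · exfalso
        rw [hm.1, h.1, zpow_right_inj₀ w0 w1.ne] at c
        have i1 := Finset.mem_range.1 (hJ (Finset.mem_insert_self _ _))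
        have k1 := Finset.mem_range.1 (hJ (Finset.mem_insert_of_mem hk))
        have : ((l - 1 : ℕ) : ℤ) ∣ (k : ℤ) - i := ⟨m - m', by linear_combination -c⟩
        have := Int.eq_zero_of_abs_lt_dvd this (abs_lt.2 ⟨by omega, by omega⟩)
        exact hi (by rwa [show i = k by omega])
      · exact ⟨m, i, Finset.mem_insert_self _ _, add _ _ _ _ _ _ hm h c⟩
  intro x hx
  obtain ⟨p, rfl⟩ := hL x
  have : Fact l.Prime := ⟨hl⟩
  let g : K[X] := (cyclotomic l K).comp (X + C 1)
  have gm : g.Monic := (cyclotomic.monic l K).comp_X_add_C 1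
  have gd : g.natDegree = l - 1 := by
    simp only [g, natDegree_comp, natDegree_X_add_C, natDegree_cyclotomic, mul_one,
      Nat.totient_prime hl]
  have g0 : aeval (ζ - 1) g = 0 := by
    simp only [g, aeval_comp, map_add, aeval_X, map_one, sub_add_cancel, cyclotomic_prime,
      map_sum, map_pow]
    exact hζ.geom_sum_eq_zero hl.one_lt
  have e : aeval ζ p = ∑ i ∈ Finset.range (l - 1),
      algebraMap K L ((p.comp (X + C 1) %ₘ g).coeff i) * (ζ - 1) ^ i := by
    have hlt : (p.comp (X + C 1) %ₘ g).natDegree < l - 1 := by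
      rw [← gd]
      exact natDegree_modByMonic_lt _ gm fun h => by rw [h] at gd; simp at gd; omega
    have := aeval_eq_sum_range' hlt (ζ - 1)
    simp only [Algebra.smul_def] at this
    rw [← this, aeval_modByMonic_eq_self_of_root g0]
    simp [aeval_comp]
  rw [e] at hx ⊢
  obtain ⟨m, i, -, h⟩ := (sum _ _ le_rfl).resolve_left hx
  exact ⟨m, i, h⟩

/-- A valuation ring above an unramified prime. -/
theorem exists_val [NumberField K] (f : K →+* F) {l : ℕ} (hl : l.Prime)
    (hd : ¬ (l : ℤ) ∣ discr K) : ∃ O : ValuationSubring F, O.valuation (l : F) < 1 ∧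
      ∀ a : K, a ≠ 0 → ∃ m : ℤ, O.valuation (f a) = O.valuation (l : F) ^ m := by
  have hp := Nat.prime_iff_prime_int.1 hl
  have : (Ideal.span {(l : ℤ)}).IsMaximal :=
    PrincipalIdealRing.isMaximal_of_irreducible hp.irreducible
  obtain ⟨P, hP, hPl⟩ := Ideal.exists_maximal_ideal_liesOver_of_isIntegral (S := 𝓞 K)
    (Ideal.span {(l : ℤ)})
  have hu := (not_dvd_discr_iff_forall_liesOver K (𝓞 K) hp).1 hd P hP hPl
  let _ := Localization.AtPrime.algebraOfLiesOver (Ideal.span {(l : ℤ)}) P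
  have hm := ((Algebra.isUnramifiedAt_iff_map_eq ℤ (Ideal.span {(l : ℤ)}) P).1 hu).2
  have hP0 : P ≠ ⊥ := Ideal.ne_bot_of_liesOver_of_ne_bot
    (Ideal.span_singleton_eq_bot.not.2 hp.ne_zero) P
  have : IsDiscreteValuationRing (Localization.AtPrime P) :=
    IsLocalization.AtPrime.isDiscreteValuationRing_of_dedekind_domain (𝓞 K) hP0 _
  rw [Ideal.map_span, Set.image_singleton, map_natCast] at hm
  have hirr := (IsDiscreteValuationRing.irreducible_iff_uniformizer _).2 hm.symm
  let g : Localization.AtPrime P →+* F := IsLocalization.lift (M := P.primeCompl)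
    (g := f.comp (algebraMap (𝓞 K) K)) fun y => Ne.isUnit (by
      simp only [RingHom.comp_apply, ne_eq, map_eq_zero]
      intro h
      exact y.2 (by rw [RingOfIntegers.coe_injective.eq_iff' (map_zero _) |>.1 h]; exact P.zero_mem))
  obtain ⟨O, hO, hloc⟩ := IsLocalRing.exists_factor_valuationRing g
  have h1 : O.valuation (l : F) < 1 := by
    have := (O.valuation_lt_one_iff (g.codRestrict O.toSubring hO l)).1 fun h =>
      hirr.not_isUnit (hloc.1 _ h)
    simpa using this
  have key : ∀ x : 𝓞 K, x ≠ 0 → ∃ n : ℕ, O.valuation (f x) = O.valuation (l : F) ^ n := by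
    intro x hx
    obtain ⟨n, u, e⟩ := IsDiscreteValuationRing.eq_unit_mul_pow_irreducible
      (x := algebraMap (𝓞 K) (Localization.AtPrime P) x) ((map_ne_zero_iff _
        (IsLocalization.injective _ P.primeCompl_le_nonZeroDivisors)).2 hx) hirr
    have e2 : g (algebraMap (𝓞 K) _ x) = f x := IsLocalization.lift_eq _ x
    have e3 : O.valuation (g u) = 1 :=
      (O.valuation_eq_one_iff (g.codRestrict O.toSubring hO u)).1 (u.isUnit.map _)
    exact ⟨n, by rw [← e2, e, map_mul, map_mul, e3, one_mul, map_pow, map_pow, map_natCast]⟩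
  refine ⟨O, h1, fun a ha => ?_⟩
  obtain ⟨x, y, hy, rfl⟩ := IsFractionRing.div_surjective (A := 𝓞 K) a
  obtain ⟨m, e⟩ := key x (by rintro rfl; simp at ha)
  obtain ⟨n, e'⟩ := key y (nonZeroDivisors.ne_zero hy)
  have l0 : O.valuation (l : F) ≠ 0 := by
    have : f (l : K) ≠ 0 := (map_ne_zero f).2 (by exact_mod_cast hl.ne_zero)
    simpa using this
  exact ⟨m - n, by rw [map_div₀, map_div₀, zpow_sub₀ l0, zpow_natCast, zpow_natCast, ← e, ← e']⟩

end Pool.Agent.Lib.MP_e97e2b_nt
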