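import Pool.Agent.Lib.MP_e97e2b_nt.Gal
import Pool.Agent.Lib.MP_e97e2b_nt.Red
import Pool.Agent.Lib.MP_e97e2b_nt.Ram
import Pool.Agent.Lib.MP_e97e2b_nt.Generic

/- The isogeny character at a prime above `l`: points in the formal group. -/

namespace Pool.Agent.Lib.MP_e97e2b_nt

open NumberField Polynomial IsLocalRing

variable {K L F : Type} [Field K] [Field L] [Field F] [Algebra K L]

lemma roots_bound (O : ValuationSubring F) (S : Finset F) : ∀ D : F[X], (∀ i, D.coeff i ∈ O) →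
    (∀ r ∈ S, D.eval r = 0 ∧ r⁻¹ ∈ O ∧ r ≠ 0) → D.leadingCoeff * ∏ r ∈ S, r ∈ O := by
  classical
  induction S using Finset.induction_on with
  | empty => intro D hD _; rw [Finset.prod_empty, mul_one]; exact hD _
  | insert r S hr ih =>
    intro D hD h
    obtain ⟨h0, h1, h2⟩ := h r (Finset.mem_insert_self _ _)
    obtain ⟨E, rfl⟩ := dvd_iff_isRoot.2 h0
    have hE : ∀ i, r * E.coeff i ∈ O := by
      intro i
      induction i with
      | zero => simpa using neg_mem (hD 0)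
      | succ i ih =>
        have := sub_mem (mul_mem h1 ih) (hD (i + 1))
        rwa [coeff_X_sub_C_mul, inv_mul_cancel_left₀ h2, sub_sub_cancel] at this
    have := ih (C r * E) (by simpa using hE) fun s hs => by
      obtain ⟨a, b⟩ := h s (Finset.mem_insert_of_mem hs)
      have : s - r ≠ 0 := sub_ne_zero.2 fun e => hr (e ▸ hs)
      exact ⟨by simpa [this, h2] using a, b⟩
    rw [leadingCoeff_mul, leadingCoeff_C] at this
    rw [Finset.prod_insert hr, leadingCoeff_mul, leadingCoeff_X_sub_C, one_mul, ← mul_assoc,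
      mul_comm _ r]
    exact this

variable {j : L →+* F} {O : ValuationSubring F} {l : ℕ} {ζ : L} {w : O.ValueGroup}

lemma TRam.lt (T : TRam K j O l ζ w) : O.valuation (l : F) < 1 := by
  rw [T.wl]
  exact pow_lt_one₀ zero_le T.w1 (by have := T.five; omega)

lemma TRam.vt (T : TRam K j O l ζ w) {σ : L ≃ₐ[K] L} {t : ℕ} (h : σ ζ = ζ ^ t) :
    O.valuation (t : F) = 1 :=
  val_nat_eq_one O T.prime T.lt (not_dvd_of_gal T.prime T.prim σ h)

lemma TRam.tz (T : TRam K j O l ζ w) {σ : L ≃ₐ[K] L} {t : ℕ} (h : σ ζ = ζ ^ t) :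
    (t : ZMod l) ≠ 0 :=
  (ZMod.natCast_eq_zero_iff _ _).not.2 (not_dvd_of_gal T.prime T.prim σ h)

lemma TRam.inv (T : TRam K j O l ζ w) {σ : L ≃ₐ[K] L} {t : ℕ} (h : σ ζ = ζ ^ t) (x : L) :
    O.valuation (j (σ x)) = O.valuation (j x) := by
  by_cases hx : x = 0
  · simp [hx]
  obtain ⟨m, i, -, e⟩ := T.tr x hx
  have e' : O.valuation ((t : F) ^ i * j x) = O.valuation (j x) := by
    rw [map_mul, map_pow, T.vt h]; simp
  rw [show j (σ x) = (t : F) ^ i * j x + (j (σ x) - (t : F) ^ i * j x) by ring,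
    O.valuation.map_add_eq_of_lt_left (by rw [e']; exact e σ t h), e']

lemma TRam.cong (T : TRam K j O l ζ w) {m n : ℕ} :
    O.valuation ((m : F) - n) < 1 ↔ (m : ZMod l) = n := by
  have := val_int_lt_iff O T.prime T.lt ((m : ℤ) - n)
  rw [← ZMod.intCast_zmod_eq_zero_iff_dvd] at this
  simpa [sub_eq_zero] using this

lemma TRam.res (T : TRam K j O l ζ w) {m : ℕ} (h : ¬ l ∣ m) : (m : ResidueField O) ≠ 0 := by
  rw [← map_natCast (residue O), ne_eq, residue_eq_zero_iff, O.valuation_lt_one_iff]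
  simp [val_nat_eq_one O T.prime T.lt h]

lemma res_eq_iff {x y : O} : residue O x = residue O y ↔ O.valuation ((x : F) - y) < 1 := by
  rw [← sub_eq_zero, ← map_sub, residue_eq_zero_iff, O.valuation_lt_one_iff]; rfl

lemma val_eq_one {x : F} (h : O.valuation (x - 1) < 1) : O.valuation x = 1 := by
  simpa using O.valuation.map_add_eq_of_lt_left (x := 1) (y := x - 1) (by simpa using h)

lemma cusp_nsmul' {k : Type} [Field k] {A B x y : k} (hA : A = 0) (hB : B = 0) (hx : x = 1)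
    (hy : y = 1) (h : NS A B x y) (n : ℕ) (h1 : 1 ≤ n)
    (hn : ∀ m : ℕ, 1 ≤ m → m ≤ n → (m : k) ≠ 0) :
    ∃ h', n • pt x y h = pt ((n : k)⁻¹ ^ 2) ((n : k)⁻¹ ^ 3) h' := by
  subst hA hB hx hy
  obtain ⟨n, rfl⟩ := Nat.exists_eq_add_of_le' h1
  exact cusp_nsmul h n hn

variable {A B : K}

/-- Multiples of a point of the formal group. -/
lemma cusp_mult (T : TRam K j O l ζ w) {x₀ y₀ : L}
    (h₀ : NS (algebraMap K L A) (algebraMap K L B) x₀ y₀)
    (hmax : ∀ (n : ℕ) x y h, n • pt x₀ y₀ h₀ = pt x y h → O.valuation (j x) ≤ O.valuation (j x₀))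
    (hA : O.valuation (j (algebraMap K L A)) < O.valuation (j x₀) ^ 2)
    (hB : O.valuation (j (algebraMap K L B)) < O.valuation (j x₀) ^ 3) :
    O.valuation (j (x₀ / y₀)) ^ 2 * O.valuation (j x₀) = 1 ∧ ∀ k : ℕ, 1 ≤ k → k < l →
      ∃ x y h, k • pt x₀ y₀ h₀ = pt x y h ∧
        O.valuation ((k * j (x₀ / y₀)) ^ 2 * j x - 1) < 1 ∧
        O.valuation ((k * j (x₀ / y₀)) ^ 3 * j y - 1) < 1 := by
  set v := O.valuation with hv
  have x0 : 0 < v (j x₀) := zero_lt_iff.2 fun h => by simp [h] at hA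
  have e₀ := congrArg j h₀.1
  simp only [map_add, map_mul, map_pow] at e₀
  have s1 : v (j (algebraMap K L A) * j x₀ + j (algebraMap K L B)) < v (j x₀) ^ 3 := by
    refine v.map_add_lt ?_ hB
    rw [map_mul, pow_succ]
    exact mul_lt_mul_of_pos_right hA x0
  have vy : v (j y₀) ^ 2 = v (j x₀) ^ 3 := by
    rw [← map_pow, e₀, add_assoc, v.map_add_eq_of_lt_left (by rwa [map_pow]), map_pow]
  have y0 : v (j y₀) ≠ 0 := fun h => (pow_pos x0 3).ne' (by rw [← vy, h]; simp)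
  have y1 : j y₀ ≠ 0 := by simpa using y0
  have x1 : j x₀ ≠ 0 := by simpa using x0.ne'
  set z := j (x₀ / y₀) with hz
  have ez : z = j x₀ / j y₀ := map_div₀ _ _ _
  have vz : v z ^ 2 * v (j x₀) = 1 := by
    rw [ez, map_div₀, div_pow, vy]
    field_simp
  have z0 : z ≠ 0 := by rw [ez]; exact div_ne_zero x1 y1
  have vz0 : 0 < v z := zero_lt_iff.2 (by simpa using z0)
  refine ⟨vz, ?_⟩
  have va : v (z ^ 4 * j (algebraMap K L A)) < 1 := by
    rw [map_mul, map_pow, ← one_pow 2, ← vz, mul_pow, ← pow_mul]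
    exact mul_lt_mul_of_pos_left hA (pow_pos vz0 _)
  have vb : v (z ^ 6 * j (algebraMap K L B)) < 1 := by
    rw [map_mul, map_pow, ← one_pow 3, ← vz, mul_pow, ← pow_mul]
    exact mul_lt_mul_of_pos_left hB (pow_pos vz0 _)
  let a : O := ⟨_, (O.valuation_le_one_iff _).1 va.le⟩
  let b : O := ⟨_, (O.valuation_le_one_iff _).1 vb.le⟩
  let J : PtL L A B →+ Pt (a : F) (b : F) := hom j z z0 rfl rfl
  have ra : residue O a = 0 := by rwa [residue_eq_zero_iff, O.valuation_lt_one_iff]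
  have rb : residue O b = 0 := by rwa [residue_eq_zero_iff, O.valuation_lt_one_iff]
  have hI : ∀ n : ℕ, Intg O (n • J (pt x₀ y₀ h₀)) := by
    intro n x y h e
    rw [← map_nsmul] at e
    rcases (n • pt x₀ y₀ h₀).cases with e' | ⟨x', y', h', e'⟩
    · rw [e', map_zero] at e
      exact absurd e.symm (pt_ne_zero _)
    · rw [e', hom_pt, pt_inj] at e
      rw [← e.1, ← O.valuation_le_one_iff, map_mul, map_pow, ← vz]
      exact mul_le_mul_right (hmax n _ _ _ e') _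
  have r1 : v (z ^ 2 * j x₀ - 1) < 1 := by
    rw [show z ^ 2 * j x₀ - 1 = -(j (algebraMap K L A) * j x₀ + j (algebraMap K L B)) / j y₀ ^ 2 by
      rw [ez]; field_simp; linear_combination -e₀, map_div₀, v.map_neg, map_pow, vy]
    exact (div_lt_one₀ (pow_pos x0 3)).2 s1
  have r2 : z ^ 3 * j y₀ = z ^ 2 * j x₀ := by rw [ez]; field_simp
  let X : O := ⟨_, (O.valuation_le_one_iff _).1 (val_eq_one r1).le⟩
  have rX : residue O X = 1 := by rw [← map_one (residue O), res_eq_iff]; exact r1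
  have nQ : NS (residue O a) (residue O b) (residue O X) (residue O X) := by
    rw [ra, rb, rX]
    refine ⟨by ring, Or.inr ?_⟩
    simpa using T.res (m := 2) (Nat.not_dvd_of_pos_of_lt two_pos (by have := T.five; omega))
  have nP : NS (a : F) (b : F) X X := by
    have := (NS.map_iff j z z0 (A' := (a : F)) (B' := (b : F)) rfl rfl).2 h₀
    rwa [r2] at this
  have R : Red O (J (pt x₀ y₀ h₀)) (pt _ _ nQ) :=
    Or.inr ⟨X, X, nP, nQ, by rw [hom_pt, pt_inj]; exact ⟨rfl, r2⟩, rfl⟩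
  intro k k1 kl
  have kr : ∀ m : ℕ, 1 ≤ m → m ≤ k → (m : ResidueField O) ≠ 0 := fun m m1 mk =>
    T.res (Nat.not_dvd_of_pos_of_lt m1 (by omega))
  obtain ⟨h', e⟩ := cusp_nsmul' ra rb rX rX nQ k k1 kr
  have Rk := R.nsmul hI k
  rw [e, ← map_nsmul] at Rk
  rcases Rk with ⟨-, e0⟩ | ⟨X', Y', h1, h2, e1, e2⟩
  · exact absurd e0 (pt_ne_zero _)
  rcases (k • pt x₀ y₀ h₀).cases with e' | ⟨x, y, h, e'⟩
  · rw [e', map_zero] at e1
    exact absurd e1.symm (pt_ne_zero _)
  rw [e', hom_pt, pt_inj] at e1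
  rw [pt_inj] at e2
  have k0 := kr k k1 le_rfl
  refine ⟨x, y, h, e', ?_, ?_⟩
  · have := (res_eq_iff (x := (k : O) ^ 2 * X') (y := 1)).1 (by
      rw [map_mul, map_pow, map_natCast, ← e2.1, map_one]; field_simp)
    simpa [← e1.1, mul_pow, mul_assoc] using this
  · have := (res_eq_iff (x := (k : O) ^ 3 * Y') (y := 1)).1 (by
      rw [map_mul, map_pow, map_natCast, ← e2.2, map_one]; field_simp)
    simpa [← e1.2, mul_pow, mul_assoc] using this

lemma gal_mod {l : ℕ} (hl : l.Prime) {P : PtL L A B} (hP : P ≠ 0) (hlP : l • P = 0)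
    {σ : L ≃ₐ[K] L} {c : ℕ} (hc : gal σ P = c • P) :
    gal σ P = (c % l) • P ∧ 1 ≤ c % l ∧ c % l < l := by
  have e : gal σ P = (c % l) • P := hc.trans ((nsmul_eq_iff hl hP hlP).2 (by simp))
  refine ⟨e, Nat.pos_of_ne_zero fun h => hP (gal_injective σ ?_), Nat.mod_lt _ hl.pos⟩
  rw [e, h, zero_nsmul, map_zero]

lemma cusp_char (T : TRam K j O l ζ w) {x₀ y₀ : L}
    (h₀ : NS (algebraMap K L A) (algebraMap K L B) x₀ y₀) (hlP : l • pt x₀ y₀ h₀ = 0)
    (z0 : j (x₀ / y₀) ≠ 0) (H : ∀ k : ℕ, 1 ≤ k → k < l → ∃ x y h, k • pt x₀ y₀ h₀ = pt x y h ∧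
        O.valuation ((k * j (x₀ / y₀)) ^ 2 * j x - 1) < 1 ∧
        O.valuation ((k * j (x₀ / y₀)) ^ 3 * j y - 1) < 1) {i : ℕ} {σ : L ≃ₐ[K] L} {t c : ℕ}
    (hi : O.valuation (j (σ (x₀ / y₀)) - (t : F) ^ i * j (x₀ / y₀)) < O.valuation (j (x₀ / y₀)))
    (hc : gal σ (pt x₀ y₀ h₀) = c • pt x₀ y₀ h₀) : (c : ZMod l) = (t : ZMod l) ^ i := by
  obtain ⟨e, c1, cl⟩ := gal_mod T.prime (pt_ne_zero h₀) hlP hc
  obtain ⟨x, y, h, e', a, b⟩ := H _ c1 cl
  rw [e', gal_pt, pt_inj] at e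
  rw [← ZMod.natCast_mod, ← Nat.cast_pow, ← T.cong]
  have kv := val_nat_eq_one O T.prime T.lt (Nat.not_dvd_of_pos_of_lt c1 cl)
  generalize c % l = k at *
  set z := j (x₀ / y₀)
  have vz : 0 < O.valuation z := zero_lt_iff.2 (by simpa using z0)
  have b1 := val_eq_one b
  have y0 : j y ≠ 0 := fun h => by simp [h] at b1
  have k0 : (k : F) ≠ 0 := fun h => by simp [h] at kv
  have key : O.valuation (j (σ (x₀ / y₀)) - k * z) < O.valuation z := by
    rw [show j (σ (x₀ / y₀)) - k * z = k * z * ((((k * z) ^ 2 * j x - 1) -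
      ((k * z) ^ 3 * j y - 1)) / ((k * z) ^ 3 * j y)) by
        rw [map_div₀, map_div₀, e.1, e.2]; field_simp; ring,
      map_mul, map_mul, kv, one_mul, map_div₀, b1, div_one]
    exact mul_lt_of_lt_one_right vz (O.valuation.map_sub_lt a b)
  have := O.valuation.map_sub_lt hi key
  rw [show j (σ (x₀ / y₀)) - (t : F) ^ i * z - (j (σ (x₀ / y₀)) - k * z) =
    ((k : F) - (t ^ i : ℕ)) * z by push_cast; ring, map_mul] at this
  exact lt_of_mul_lt_mul_right (by rwa [one_mul]) vz.le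

lemma pt_eq_or' {A B x x' y y' : F} (h : NS A B x y) (h' : NS A B x' y') (e : x = x') :
    pt x y h = pt x' y' h' ∨ pt x y h = -pt x' y' h' := by
  subst e
  exact pt_eq_or _ _

lemma cusp_bound (T : TRam K j O l ζ w) (hD : 4 * A ^ 3 + 27 * B ^ 2 ≠ 0) {x₀ y₀ : L}
    (h₀ : NS (algebraMap K L A) (algebraMap K L B) x₀ y₀) (hlP : l • pt x₀ y₀ h₀ = 0) {z u : F}
    (H : ∀ k : ℕ, 1 ≤ k → k < l → ∃ x y h, k • pt x₀ y₀ h₀ = pt x y h ∧
        O.valuation ((k * z) ^ 2 * j x - 1) < 1) (hu : u ≠ 0)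
    (hA : u⁻¹ ^ 4 * j (algebraMap K L A) ∈ O) (hB : u⁻¹ ^ 6 * j (algebraMap K L B) ∈ O)
    (hz : O.valuation (z * u) ≤ 1) : w ^ 2 ≤ O.valuation (z * u) := by
  classical
  have l5 := T.five
  have v2 := val_nat_eq_one O T.prime T.lt (n := 2) (Nat.not_dvd_of_pos_of_lt two_pos (by omega))
  have h2 : (2 : F) ≠ 0 := fun h => by simp [h] at v2
  have l0 : (l : F) ≠ 0 := fun h => by
    have := T.wl
    rw [h, map_zero] at this
    exact (pow_pos T.w0 _).ne this
  have hu' := inv_ne_zero hu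
  obtain ⟨D, d1, d2, d3⟩ := divpoly h2 (A := u⁻¹ ^ 4 * j (algebraMap K L A))
    (B := u⁻¹ ^ 6 * j (algebraMap K L B)) (by
      have := mul_ne_zero (pow_ne_zero 12 hu') ((map_ne_zero (j.comp (algebraMap K L))).2 hD)
      simp only [map_add, map_mul, map_pow, map_ofNat, RingHom.comp_apply] at this
      intro h
      exact this (by linear_combination h)) O.toSubring hA hB l T.prime.pos
  have lc : D.leadingCoeff = (l : F) ^ 2 := by
    rw [leadingCoeff, natDegree_eq_of_le_of_coeff_ne_zero d2.1 (by rw [d2.2]; positivity), d2.2]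
  choose! x y h e1 e2 using H
  obtain ⟨n, hn⟩ := T.prime.odd_of_ne_two (by omega)
  have vx : ∀ k ∈ Finset.Icc 1 n, O.valuation (u⁻¹ ^ 2 * j (x k)) * O.valuation (z * u) ^ 2 = 1 := by
    intro k hk
    rw [Finset.mem_Icc] at hk
    have := val_eq_one (e2 k hk.1 (by omega))
    rw [mul_pow, mul_assoc, map_mul, map_pow,
      val_nat_eq_one O T.prime T.lt (Nat.not_dvd_of_pos_of_lt hk.1 (by omega))] at this
    rw [← map_pow, ← map_mul, show u⁻¹ ^ 2 * j (x k) * (z * u) ^ 2 = z ^ 2 * j (x k) by field_simp]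
    simpa using this
  have inj : Set.InjOn (fun k => u⁻¹ ^ 2 * j (x k)) (Finset.Icc 1 n : Set ℕ) := by
    intro k hk k' hk' e
    simp only [Finset.coe_Icc, Set.mem_Icc] at hk hk'
    have e := j.injective (mul_left_cancel₀ (pow_ne_zero 2 hu') e)
    have a := e1 k hk.1 (by omega)
    have a' := e1 k' hk'.1 (by omega)
    have : k • pt x₀ y₀ h₀ = k' • pt x₀ y₀ h₀ ∨ (k + k') • pt x₀ y₀ h₀ = 0 := by
      rw [add_nsmul, add_eq_zero_iff_eq_neg, a, a']
      exact pt_eq_or' _ _ e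
    rcases this with t | t
    · have := (ZMod.natCast_eq_natCast_iff' _ _ _).1 ((nsmul_eq_iff T.prime (pt_ne_zero _) hlP).1 t)
      rwa [Nat.mod_eq_of_lt (by omega), Nat.mod_eq_of_lt (by omega)] at this
    · have := (ZMod.natCast_eq_zero_iff _ _).1 ((nsmul_eq_zero_iff' T.prime (pt_ne_zero _) hlP).1 t)
      exact absurd this (Nat.not_dvd_of_pos_of_lt (by omega) (by omega))
  have := roots_bound O ((Finset.Icc 1 n).image fun k => u⁻¹ ^ 2 * j (x k)) D d1 (by
    simp only [Finset.mem_image]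
    rintro r ⟨k, hk, rfl⟩
    have a := vx k hk
    rw [Finset.mem_Icc] at hk
    have b := e1 k hk.1 (by omega)
    refine ⟨(d3 _ _ ((NS.map_iff j u⁻¹ hu' rfl rfl).2 (h k hk.1 (by omega)))).1 ?_, ?_,
      fun h => by rw [h] at a; simp at a⟩
    · rw [← hom_pt j u⁻¹ hu' rfl rfl (h k hk.1 (by omega)), ← b, ← map_nsmul, ← mul_nsmul,
        mul_nsmul', hlP, nsmul_zero, map_zero]
    · rw [← O.valuation_le_one_iff, map_inv₀, ← eq_inv_of_mul_eq_one_right a]
      exact pow_le_one₀ zero_le hz)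
  rw [Finset.prod_image inj, ← O.valuation_le_one_iff, lc, map_mul, map_prod, map_pow, T.wl] at this
  have p := Finset.prod_congr rfl vx
  rw [Finset.prod_mul_distrib, Finset.prod_const, Finset.prod_const_one, Nat.card_Icc] at p
  have := mul_le_mul_left this ((O.valuation (z * u) ^ 2) ^ (n + 1 - 1))
  rw [mul_assoc, p, mul_one, one_mul, ← pow_mul, ← pow_mul,
    show (l - 1) * 2 = 2 * (2 * n) by omega, pow_mul, Nat.add_sub_cancel] at this
  exact (pow_le_pow_iff_left₀ zero_le zero_le (by omega)).1 this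

end Pool.Agent.Lib.MP_e97e2b_nt
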