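import Pool.Agent.Lib.MP_e97e2b_nt.Moment
import Pool.Agent.Lib.MP_e97e2b_nt.Lattice

/- The trivial bound for `chi M ∘ norm` on an ideal lattice. -/

namespace Pool.Agent.Lib.MP_e97e2b_nt

open NumberField

variable {K : Type} [Field K] [NumberField K]

theorem pe_adm {l0 l1 M : ℕ} (h : Adm (max l0 l1) M) :
    Adm l0 M ∧ 1 ≤ M ∧ ∀ n, n ≠ 0 → n ≤ l1 → Nat.Coprime n M := by
  have key : ∀ p n : ℕ, p.Prime → max l0 l1 < p → n ≠ 0 → n ≤ l1 → Nat.Coprime n p := by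
    intro p n hp hlt hn hle
    refine ((Nat.Prime.coprime_iff_not_dvd hp).mpr fun hd => ?_).symm
    have h1 := Nat.le_of_dvd (Nat.pos_of_ne_zero hn) hd
    have h2 := le_max_right l0 l1
    omega
  rcases h with ⟨hp, hlt⟩ | ⟨p, q, hp, hq, hpq, h1, h2, rfl⟩
  · exact ⟨Or.inl ⟨hp, (le_max_left _ _).trans_lt hlt⟩, hp.pos,
      fun n hn hle => key _ n hp hlt hn hle⟩
  · exact ⟨Or.inr ⟨p, q, hp, hq, hpq, (le_max_left _ _).trans_lt h1,
      (le_max_left _ _).trans_lt h2, rfl⟩, Nat.mul_pos hp.pos hq.pos,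
      fun n hn hle => Nat.Coprime.mul_right (key _ n hp h1 hn hle) (key _ n hq h2 hn hle)⟩

/-- An ideal of norm prime to `M` surjects onto the residue ring. -/
theorem pe_surj (c : Ideal (𝓞 K)) (M : ℕ) (h : Nat.Coprime (Ideal.absNorm c) M) (x : RM K M) :
    ∃ y ∈ c, Ideal.Quotient.mk _ y = x := by
  obtain ⟨x, rfl⟩ := Ideal.Quotient.mk_surjective x
  obtain ⟨a, b, hab⟩ := (Nat.Coprime.cast (R := 𝓞 K) h)
  refine ⟨x * a * (Ideal.absNorm c : ℕ), c.mul_mem_left _ (Ideal.absNorm_mem c), ?_⟩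
  rw [Ideal.Quotient.eq, Ideal.mem_span_singleton']
  exact ⟨-(x * b), by linear_combination (-x) * hab⟩

theorem pe_sum (M : ℕ) (hM : 1 ≤ M) [Fintype (RM K M)] (y : 𝓞 K)
    (hy : chi M (Algebra.norm ℤ y) = -1) : ∑ x : RM K M, etaQ K M x = 0 := by
  have : NeZero M := ⟨by omega⟩
  have h1 : Nat.Coprime (Ideal.absNorm (Ideal.span {y})) M := by
    rw [Ideal.absNorm_span_singleton]
    by_contra h2
    have h3 : jacobiSym (Algebra.norm ℤ y) M = 0 :=
      jacobiSym.eq_zero_iff_not_coprime.mpr h2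
    rw [chi, h3] at hy
    norm_num at hy
  obtain ⟨z, hz, hz1⟩ := pe_surj (Ideal.span {y}) M h1 1
  obtain ⟨w, rfl⟩ := Ideal.mem_span_singleton'.mp hz
  rw [map_mul] at hz1
  have hu : IsUnit (Ideal.Quotient.mk (Ideal.span {(M : 𝓞 K)}) y) :=
    IsUnit.of_mul_eq_one_right _ hz1
  have h4 : ∑ x : RM K M, etaQ K M (Ideal.Quotient.mk _ y * x) = ∑ x : RM K M, etaQ K M x :=
    Function.Bijective.sum_comp (IsUnit.isUnit_iff_mulLeft_bijective.mp hu) _
  simp only [etaQ_mul, etaQ_mk, hy, neg_mul, one_mul, Finset.sum_neg_distrib] at h4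
  linarith

theorem periodic_lat (c : Ideal (𝓞 K)) (e : (Fin (Module.finrank ℚ K) → ℤ) →+ 𝓞 K)
    (he : Lat c e) (ρ : ℝ) : ∃ (C : ℝ) (l0 : ℕ), ∀ M, Adm l0 M →
    ∀ (Λ : ℝ) (F : (Fin (Module.finrank ℚ K) → ℝ) → ℝ), 1 ≤ Λ → Wt ρ Λ F → ∀ H : ℝ, 1 ≤ H →
    |LS (fun v => chi M (Algebra.norm ℤ (e v))) F H| ≤
      C * Λ * M * (H ^ Module.finrank ℚ K / H) := by
  obtain ⟨C, hC⟩ := LS_periodic (ι := Fin (Module.finrank ℚ K)) ρ
  obtain ⟨l0, hl0⟩ := exists_chi_norm_neg (K := K)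
  refine ⟨C, max l0 (Ideal.absNorm c), fun M hM Λ F hΛ hF H hH => ?_⟩
  obtain ⟨h1, h2, h3⟩ := pe_adm hM
  obtain ⟨y, hy⟩ := hl0 M h1
  have hcop := h3 _ (Ideal.absNorm_eq_zero_iff.not.mpr he.ne) le_rfl
  have hper : ∀ v w : Fin (Module.finrank ℚ K) → ℤ, (∀ i, (M : ℤ) ∣ v i - w i) →
      (Ideal.Quotient.mk _ (e v) : RM K M) = Ideal.Quotient.mk _ (e w) := by
    intro v w h
    choose u hu using h
    have h4 : v - w = M • u := funext fun i => by simpa using hu i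
    rw [Ideal.Quotient.eq, ← map_sub, h4, map_nsmul, nsmul_eq_mul]
    exact Ideal.mul_mem_right _ _ (Ideal.mem_span_singleton_self _)
  have h5 := hC Λ F hΛ hF H hH M h2 (fun v => chi M (Algebra.norm ℤ (e v)))
    (fun v => abs_chi_le _ _) (fun v w h => by rw [← etaQ_mk, ← etaQ_mk, hper v w h]) ?_
  · rwa [Fintype.card_fin] at h5
  · have hs : Function.Surjective fun s : Fin (Module.finrank ℚ K) → Fin M =>
        (Ideal.Quotient.mk _ (e fun i => ((s i : ℕ) : ℤ)) : RM K M) := by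
      intro x
      obtain ⟨z, hz, rfl⟩ := pe_surj c M hcop x
      obtain ⟨v, rfl⟩ := (he.mem z).mp hz
      obtain ⟨⟨s, w⟩, rfl⟩ := (la_bij M h2).2 v
      exact ⟨s, (hper _ _ fun i => by simp).symm⟩
    have hb := hs.bijective_of_nat_card_le (by simp [card_RM])
    have : Finite (RM K M) := Finite.of_surjective _ hs
    have := Fintype.ofFinite (RM K M)
    rw [finsum_eq_sum_of_fintype, ← pe_sum M h2 y hy, ← hb.sum_comp]
    exact Finset.sum_congr rfl fun s _ => (etaQ_mk _ _).symm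

end Pool.Agent.Lib.MP_e97e2b_nt
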