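import Pool.Agent.Lib.MP_e97e2b_nt.Geo
import Pool.Agent.Lib.MP_e97e2b_nt.Burgess
import Pool.Agent.Lib.MP_e97e2b_nt.Periodic

/- Sharp sums over ideals. -/

namespace Pool.Agent.Lib.MP_e97e2b_nt

open NumberField Filter Topology

/-- Trapezoid supported in `[a, b]`, equal to one on `[a + dl, b - dl]`. -/
noncomputable def sh_trap (a b dl t : ℝ) : ℝ :=
  max 0 (min 1 (min ((t - a) / dl) ((b - t) / dl)))

lemma sh_trap_nonneg (a b dl t : ℝ) : 0 ≤ sh_trap a b dl t := le_max_left _ _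

lemma sh_trap_le_one (a b dl t : ℝ) : sh_trap a b dl t ≤ 1 :=
  max_le zero_le_one (min_le_left _ _)

lemma sh_trap_lo {a b dl t : ℝ} (hdl : 0 < dl) (h : t ≤ a) : sh_trap a b dl t = 0 := by
  apply max_eq_left
  exact (min_le_right _ _).trans ((min_le_left _ _).trans
    (div_nonpos_of_nonpos_of_nonneg (by linarith) hdl.le))

lemma sh_trap_hi {a b dl t : ℝ} (hdl : 0 < dl) (h : b ≤ t) : sh_trap a b dl t = 0 := by
  apply max_eq_left
  exact (min_le_right _ _).trans ((min_le_right _ _).trans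
    (div_nonpos_of_nonpos_of_nonneg (by linarith) hdl.le))

lemma sh_trap_mid {a b dl t : ℝ} (hdl : 0 < dl) (h1 : a + dl ≤ t) (h2 : t ≤ b - dl) :
    sh_trap a b dl t = 1 := by
  have e : min 1 (min ((t - a) / dl) ((b - t) / dl)) = 1 := by
    apply min_eq_left
    apply le_min
    · rw [le_div_iff₀ hdl]; linarith
    · rw [le_div_iff₀ hdl]; linarith
  unfold sh_trap
  rw [e]
  exact max_eq_right zero_le_one

lemma sh_trap_bump {a b dl : ℝ} (hdl : 0 < dl) (ha : 1 / 4 ≤ a) (hb : b ≤ 2) :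
    Bump (1 / dl) (sh_trap a b dl) := by
  refine ⟨fun s t => ?_, fun t => ?_, fun t ht => sh_trap_lo hdl (by linarith),
    fun t ht => sh_trap_hi hdl (by linarith)⟩
  · have e1 : |(s - a) / dl - (t - a) / dl| = 1 / dl * |s - t| := by
      rw [← sub_div, abs_div, abs_of_pos hdl]
      have : s - a - (t - a) = s - t := by ring
      rw [this]; ring
    have e2 : |(b - s) / dl - (b - t) / dl| = 1 / dl * |s - t| := by
      rw [← sub_div, abs_div, abs_of_pos hdl]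
      have : b - s - (b - t) = -(s - t) := by ring
      rw [this, abs_neg]; ring
    have h0 : 0 ≤ 1 / dl * |s - t| := by positivity
    unfold sh_trap
    refine (abs_max_sub_max_le_max _ _ _ _).trans (max_le (by simpa using h0) ?_)
    refine (abs_min_sub_min_le_max _ _ _ _).trans (max_le (by simpa using h0) ?_)
    refine (abs_min_sub_min_le_max _ _ _ _).trans (max_le e1.le e2.le)
  · rw [abs_of_nonneg (sh_trap_nonneg _ _ _ _)]
    exact sh_trap_le_one _ _ _ _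

lemma sh_Sm_eq (f : ℕ → ℝ) {x z : ℝ} (hx : 0 ≤ x) (hz : x ≤ z) :
    Sm f x = ∑ n ∈ Finset.Ioc 0 ⌊z⌋₊, if (n : ℝ) ≤ x then f n else 0 := by
  rw [← Finset.sum_filter]
  unfold Sm
  refine Finset.sum_congr ?_ fun _ _ => rfl
  ext n
  simp only [Finset.mem_Ioc, Finset.mem_filter]
  constructor
  · rintro ⟨h1, h2⟩
    exact ⟨⟨h1, h2.trans (Nat.floor_le_floor hz)⟩, (Nat.le_floor_iff hx).1 h2⟩
  · rintro ⟨⟨h1, _⟩, h3⟩
    exact ⟨h1, (Nat.le_floor_iff hx).2 h3⟩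

lemma sh_Sm_small (f : ℕ → ℝ) {x : ℝ} (hx : x < 1) : Sm f x = 0 := by
  unfold Sm
  rw [Nat.floor_eq_zero.2 hx]
  simp

/-- Dyadic summation. -/
lemma sh_dyadic (g : ℝ → ℝ) {T0 B C β : ℝ} (hT0 : 0 < T0) (hC : 0 ≤ C) (hβ : 1 / 2 ≤ β)
    (h0 : ∀ x, 0 ≤ x → x < T0 → |g x| ≤ B)
    (h : ∀ T, T0 ≤ T → |g T - g (T / 2)| ≤ C * T ^ β) (x : ℝ) (hx : 0 ≤ x) :
    |g x| ≤ B + 4 * C * x ^ β := by
  have hhalf : (1 / 2 : ℝ) ^ β ≤ 3 / 4 := by
    have h1 : (1 / 2 : ℝ) ^ β ≤ (1 / 2 : ℝ) ^ (1 / 2 : ℝ) :=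
      Real.rpow_le_rpow_of_exponent_ge (by norm_num) (by norm_num) hβ
    refine h1.trans ?_
    rw [← Real.sqrt_eq_rpow]
    apply Real.sqrt_le_iff.2
    norm_num
  have key : ∀ n : ℕ, ∀ x, 0 ≤ x → x < 2 ^ n * T0 → |g x| ≤ B + 4 * C * x ^ β := by
    intro n
    induction n with
    | zero =>
      intro x hx hlt
      have := h0 x hx (by simpa using hlt)
      have : 0 ≤ 4 * C * x ^ β := by positivity
      linarith
    | succ n ih =>
      intro x hx hlt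
      by_cases hxT : x < T0
      · have := h0 x hx hxT
        have : 0 ≤ 4 * C * x ^ β := by positivity
        linarith
      · have h1 := h x (not_lt.1 hxT)
        have h2 := ih (x / 2) (by linarith) (by rw [pow_succ] at hlt; linarith)
        have h3 : (x / 2) ^ β ≤ 3 / 4 * x ^ β := by
          rw [show x / 2 = (1 / 2) * x by ring, Real.mul_rpow (by norm_num) hx]
          exact mul_le_mul_of_nonneg_right hhalf (by positivity)
        have h4 : |g x| ≤ |g x - g (x / 2)| + |g (x / 2)| := by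
          have := abs_add_le (g x - g (x / 2)) (g (x / 2))
          simpa using this
        have h5 : 4 * C * (x / 2) ^ β ≤ 4 * C * (3 / 4 * x ^ β) :=
          mul_le_mul_of_nonneg_left h3 (by positivity)
        linarith
  obtain ⟨n, hn⟩ := pow_unbounded_of_one_lt (x / T0) (one_lt_two (α := ℝ))
  exact key n x hx (by rwa [div_lt_iff₀ hT0] at hn)

variable (K : Type) [Field K] [NumberField K]

/-- Smooth sum over ideals. -/
noncomputable def sh_S (f : ℤ → ℝ) (U : ℝ → ℝ) (T : ℝ) : ℝ :=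
  ∑ n ∈ Finset.Ioc 0 ⌊2 * T⌋₊, cnt K n * f n * U (n / T)

lemma sh_S_le {a b dl T : ℝ} (hdl : 0 < dl) (ha : 0 ≤ a) (hab : a ≤ b) (hb : b ≤ 2)
    (hT : 0 < T) :
    sh_S K (fun _ => 1) (sh_trap a b dl) T ≤ Sm (cnt K) (b * T) - Sm (cnt K) (a * T) := by
  rw [sh_Sm_eq _ (x := b * T) (z := 2 * T) (by nlinarith) (by nlinarith),
    sh_Sm_eq _ (x := a * T) (z := 2 * T) (by nlinarith) (by nlinarith), ← Finset.sum_sub_distrib]
  refine Finset.sum_le_sum fun n _ => ?_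
  have hc := cnt_nonneg K n
  have hab' : a * T ≤ b * T := by nlinarith
  by_cases h1 : (n : ℝ) ≤ a * T
  · rw [if_pos h1, if_pos (h1.trans hab'), sh_trap_lo hdl (by rwa [div_le_iff₀ hT])]
    simp
  · by_cases h2 : (n : ℝ) ≤ b * T
    · rw [if_neg h1, if_pos h2]
      have := sh_trap_le_one a b dl (n / T)
      nlinarith
    · rw [if_neg h1, if_neg h2, sh_trap_hi hdl (by rw [le_div_iff₀ hT]; linarith)]
      simp

lemma sh_le_S {a b dl T : ℝ} (hdl : 0 < dl) (ha : 0 ≤ a + dl) (ha2 : a + dl ≤ 2)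
    (hb0 : 0 ≤ b - dl) (hb : b - dl ≤ 2) (hT : 0 < T) :
    Sm (cnt K) ((b - dl) * T) - Sm (cnt K) ((a + dl) * T) ≤
      sh_S K (fun _ => 1) (sh_trap a b dl) T := by
  rw [sh_Sm_eq _ (x := (b - dl) * T) (z := 2 * T) (by nlinarith) (by nlinarith),
    sh_Sm_eq _ (x := (a + dl) * T) (z := 2 * T) (by nlinarith) (by nlinarith),
    ← Finset.sum_sub_distrib]
  refine Finset.sum_le_sum fun n _ => ?_
  have hc := cnt_nonneg K n
  have h0 : 0 ≤ cnt K n * 1 * sh_trap a b dl (n / T) :=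
    mul_nonneg (by simpa using hc) (sh_trap_nonneg _ _ _ _)
  by_cases h1 : (n : ℝ) ≤ (a + dl) * T
  · rw [if_pos h1]
    split_ifs <;> linarith
  · by_cases h2 : (n : ℝ) ≤ (b - dl) * T
    · rw [if_neg h1, if_pos h2, sh_trap_mid hdl (by rw [le_div_iff₀ hT]; linarith)
        (by rwa [div_le_iff₀ hT])]
      simp
    · rw [if_neg h1, if_neg h2]
      linarith

lemma sh_cmp (f : ℤ → ℝ) (hf : ∀ n, |f n| ≤ 1) {dl T : ℝ} (hdl : 0 < dl) (hT : 0 < T) :
    |Sm (tw (cnt K) fun n => f n) T - Sm (tw (cnt K) fun n => f n) (T / 2) -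
        sh_S K f (sh_trap (1 / 2) 1 dl) T| ≤
      Sm (cnt K) T - Sm (cnt K) (T / 2) - sh_S K (fun _ => 1) (sh_trap (1 / 2) 1 dl) T := by
  rw [sh_Sm_eq _ (x := T) (z := 2 * T) (by linarith) (by linarith),
    sh_Sm_eq _ (x := T / 2) (z := 2 * T) (by linarith) (by linarith),
    sh_Sm_eq (cnt K) (x := T) (z := 2 * T) (by linarith) (by linarith),
    sh_Sm_eq (cnt K) (x := T / 2) (z := 2 * T) (by linarith) (by linarith)]
  unfold sh_S
  rw [← Finset.sum_sub_distrib, ← Finset.sum_sub_distrib, ← Finset.sum_sub_distrib,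
    ← Finset.sum_sub_distrib]
  refine (Finset.abs_sum_le_sum_abs _ _).trans (Finset.sum_le_sum fun n _ => ?_)
  have hc := cnt_nonneg K n
  by_cases h1 : (n : ℝ) ≤ T / 2
  · rw [if_pos h1, if_pos h1, if_pos (by linarith), if_pos (by linarith),
      sh_trap_lo hdl (by rw [div_le_iff₀ hT]; linarith)]
    simp
  · by_cases h2 : (n : ℝ) ≤ T
    · rw [if_neg h1, if_neg h1, if_pos h2, if_pos h2, tw_apply]
      have h3 := sh_trap_le_one (1 / 2) 1 dl (n / T)
      have e : cnt K n * f n - 0 - cnt K n * f n * sh_trap (1 / 2) 1 dl (n / T) =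
          (cnt K n * (1 - sh_trap (1 / 2) 1 dl (n / T))) * f n := by ring
      have h4 : 0 ≤ cnt K n * (1 - sh_trap (1 / 2) 1 dl (n / T)) :=
        mul_nonneg hc (by linarith)
      rw [e, abs_mul, abs_of_nonneg h4]
      have := mul_le_mul_of_nonneg_left (hf n) h4
      linarith
    · rw [if_neg h1, if_neg h1, if_neg h2, if_neg h2,
        sh_trap_hi hdl (by rw [le_div_iff₀ hT]; linarith)]
      simp

lemma sh_tendsto : Tendsto (fun x : ℝ => Sm (cnt K) x / x) atTop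
    (𝓝 (dedekindZeta_residue K)) := by
  refine (Ideal.tendsto_norm_le_div_atTop₀ K).congr' ?_
  filter_upwards [eventually_ge_atTop 0] with s hs
  congr 1
  have e : Sm (cnt K) s = ∑ n ∈ Finset.Ioc 0 ⌊s⌋₊,
      (Nat.card {I : Ideal (𝓞 K) // Ideal.absNorm I = n} : ℝ) := by
    unfold Sm
    refine Finset.sum_congr rfl fun n hn => ?_
    have hn0 : n ≠ 0 := (Finset.mem_Ioc.1 hn).1.ne'
    change (if n = 0 then (0 : ℝ) else _) = _
    rw [if_neg hn0]
  rw [e, ← Nat.cast_sum]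
  simp_rw [← Nat.le_floor_iff hs]
  congr 1
  rw [← add_left_inj 1, ← Ideal.card_norm_le_eq_card_norm_le_add_one,
    show 1 = Nat.card {I : Ideal (𝓞 K) // Ideal.absNorm I = 0} by
      simp [Ideal.absNorm_eq_zero_iff],
    Finset.sum_Ioc_add_eq_sum_Icc (Nat.zero_le _),
    ← Finset.card_preimage_eq_sum_card_image_eq
      (fun k _ => Ideal.finite_setOfPred_absNorm_eq k)]
  simp [Set.coe_eq_subtype]

lemma sh_d_pos : 1 ≤ Module.finrank ℚ K := Module.finrank_pos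

lemma sh_tendsto2 {c : ℝ} (hc : 0 < c) :
    Tendsto (fun k : ℕ => Sm (cnt K) (c * (k : ℝ) ^ Module.finrank ℚ K) /
      (k : ℝ) ^ Module.finrank ℚ K) atTop (𝓝 (dedekindZeta_residue K * c)) := by
  have h1 : Tendsto (fun k : ℕ => c * (k : ℝ) ^ Module.finrank ℚ K) atTop atTop :=
    Tendsto.const_mul_atTop hc
      ((tendsto_pow_atTop (by have := sh_d_pos K; omega)).comp tendsto_natCast_atTop_atTop)
  refine (((sh_tendsto K).comp h1).mul_const c).congr fun k => ?_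
  simp only [Function.comp]
  by_cases hk : (k : ℝ) ^ Module.finrank ℚ K = 0
  · simp [hk]
  · field_simp

lemma sh_pow_H {N T : ℝ} (hN : 1 ≤ N) (hT : 1 ≤ T) :
    1 ≤ (N * T) ^ (1 / (Module.finrank ℚ K : ℝ)) ∧
    ((N * T) ^ (1 / (Module.finrank ℚ K : ℝ))) ^ Module.finrank ℚ K = N * T ∧
    ((N * T) ^ (1 / (Module.finrank ℚ K : ℝ))) ^ Module.finrank ℚ K /
        (N * T) ^ (1 / (Module.finrank ℚ K : ℝ)) ≤
      N * T ^ (1 - 1 / (Module.finrank ℚ K : ℝ)) := by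
  have hd : (Module.finrank ℚ K) ≠ 0 := by have := sh_d_pos K; omega
  have hNT : 1 ≤ N * T := by nlinarith
  have e : ((N * T) ^ (1 / (Module.finrank ℚ K : ℝ))) ^ Module.finrank ℚ K = N * T := by
    rw [one_div, Real.rpow_inv_natCast_pow (by linarith) hd]
  refine ⟨Real.one_le_rpow hNT (by positivity), e, ?_⟩
  rw [e, Real.rpow_sub (by linarith), Real.rpow_one, ← mul_div_assoc]
  apply div_le_div_of_nonneg_left (by linarith) (Real.rpow_pos_of_pos (by linarith) _)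
  exact Real.rpow_le_rpow (by linarith) (by nlinarith) (by positivity)

lemma sh_norm_ge {c : Ideal (𝓞 K)} {e : (Fin (Module.finrank ℚ K) → ℤ) →+ 𝓞 K}
    (he : Lat c e) : (1 : ℝ) ≤ (Ideal.absNorm c : ℕ) := by
  have : Ideal.absNorm c ≠ 0 := fun h => he.ne (Ideal.absNorm_eq_zero_iff.1 h)
  exact_mod_cast Nat.one_le_iff_ne_zero.2 this

lemma sh_div_w {w S B : ℝ} (hw : 1 ≤ w) (h : |w * S| ≤ B) : |S| ≤ B := by
  rw [abs_mul, abs_of_pos (by linarith : 0 < w)] at h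
  nlinarith [abs_nonneg S]

lemma sh_scale : ∃ C : ℝ, 0 ≤ C ∧ ∀ Λ U, 1 ≤ Λ → Bump Λ U → ∀ T : ℝ, 1 ≤ T → ∀ k : ℕ, 1 ≤ k →
    |sh_S K (fun _ => 1) U ((k : ℝ) ^ Module.finrank ℚ K * T) -
        (k : ℝ) ^ Module.finrank ℚ K * sh_S K (fun _ => 1) U T| ≤
      (k : ℝ) ^ Module.finrank ℚ K * (C * Λ * T ^ (1 - 1 / (Module.finrank ℚ K : ℝ))) := by
  obtain ⟨J, _, c, e, sg, ρ, Λ₀, w, Fm, hlat, -, hΛ₀, hw, hwt, hgeo⟩ := geo K
  obtain ⟨C, hC⟩ := LS_scale (ι := Fin (Module.finrank ℚ K)) ρ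
  refine ⟨∑ j, |C| * Λ₀ * (Ideal.absNorm (c j) : ℕ), Finset.sum_nonneg fun j _ => by positivity,
    fun Λ U hΛ hU T hT k hk => ?_⟩
  have hd : (Module.finrank ℚ K) ≠ 0 := by have := sh_d_pos K; omega
  have hk' : (1 : ℝ) ≤ k := by exact_mod_cast hk
  have hkd : (1 : ℝ) ≤ (k : ℝ) ^ Module.finrank ℚ K := one_le_pow₀ hk'
  have h1 := hgeo Λ U hU T (by linarith) (fun _ => 1) (by simp) (by simp)
  have h2 := hgeo Λ U hU ((k : ℝ) ^ Module.finrank ℚ K * T) (by nlinarith) (fun _ => 1)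
    (by simp) (by simp)
  apply sh_div_w hw
  unfold sh_S
  rw [mul_sub, h2, mul_left_comm, h1, Finset.mul_sum, ← Finset.sum_sub_distrib, Finset.sum_mul,
    Finset.sum_mul, Finset.mul_sum]
  refine (Finset.abs_sum_le_sum_abs _ _).trans (Finset.sum_le_sum fun j _ => ?_)
  have hN := sh_norm_ge K (hlat j)
  obtain ⟨g1, -, g3⟩ := sh_pow_H K hN hT
  have e1 : (((Ideal.absNorm (c j) : ℕ) : ℝ) * ((k : ℝ) ^ Module.finrank ℚ K * T)) ^
      (1 / (Module.finrank ℚ K : ℝ)) =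
      k * (((Ideal.absNorm (c j) : ℕ) : ℝ) * T) ^ (1 / (Module.finrank ℚ K : ℝ)) := by
    rw [mul_left_comm, Real.mul_rpow (by positivity) (by positivity), one_div,
      Real.pow_rpow_inv_natCast (by positivity) hd]
  have h3 := hC (Λ₀ * Λ) (Fm j U) (by positivity) (hwt j Λ U hΛ hU) _ g1 k hk
  rw [Fintype.card_fin] at h3
  rw [e1, one_mul, one_mul]
  refine h3.trans ?_
  have h4 : C * (Λ₀ * Λ) * (k : ℝ) ^ Module.finrank ℚ K ≤
      |C| * (Λ₀ * Λ) * (k : ℝ) ^ Module.finrank ℚ K := by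
    gcongr
    exact le_abs_self C
  refine (mul_le_mul h4 g3 (by positivity) (by positivity)).trans (le_of_eq ?_)
  ring

lemma sh_key : ∃ C : ℝ, 0 ≤ C ∧ ∀ T : ℝ, 1 ≤ T → ∀ dl : ℝ, 0 < dl → dl ≤ 1 / 4 →
    Sm (cnt K) T - Sm (cnt K) (T / 2) ≤ dedekindZeta_residue K * T * (1 / 2 + 2 * dl) +
      C * (1 / dl) * T ^ (1 - 1 / (Module.finrank ℚ K : ℝ)) ∧
    dedekindZeta_residue K * T * (1 / 2 - 2 * dl) -
      C * (1 / dl) * T ^ (1 - 1 / (Module.finrank ℚ K : ℝ)) ≤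
      sh_S K (fun _ => 1) (sh_trap (1 / 2) 1 dl) T := by
  obtain ⟨C, hC0, hC⟩ := sh_scale K
  refine ⟨C, hC0, fun T hT dl hdl hdl4 => ?_⟩
  have hΛ : 1 ≤ 1 / dl := by rw [le_div_iff₀ hdl]; linarith
  have hT0 : 0 < T := by linarith
  set E := C * (1 / dl) * T ^ (1 - 1 / (Module.finrank ℚ K : ℝ)) with hE
  constructor
  · have h1 := sh_le_S K (a := 1 / 2 - dl) (b := 1 + dl) (T := T) hdl (by linarith) (by linarith)
      (by linarith) (by linarith) hT0
    rw [show (1 + dl - dl) * T = T by ring, show (1 / 2 - dl + dl) * T = T / 2 by ring] at h1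
    refine h1.trans ?_
    have lim := (((sh_tendsto2 K (c := (1 + dl) * T) (by positivity)).sub
      (sh_tendsto2 K (c := (1 / 2 - dl) * T) (mul_pos (by linarith) hT0))).add_const E)
    refine le_of_le_of_eq (ge_of_tendsto lim ?_) (by ring)
    filter_upwards [eventually_ge_atTop 1] with k hk
    have hk' : (1 : ℝ) ≤ k := by exact_mod_cast hk
    have hkd : (0 : ℝ) < (k : ℝ) ^ Module.finrank ℚ K := by positivity
    have h2 := hC (1 / dl) _ hΛ (sh_trap_bump (a := 1 / 2 - dl) (b := 1 + dl) hdl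
      (by linarith) (by linarith)) T hT k hk
    have h3 := sh_S_le K (a := 1 / 2 - dl) (b := 1 + dl) (T := (k : ℝ) ^ Module.finrank ℚ K * T)
      hdl (by linarith) (by linarith) (by linarith) (by positivity)
    rw [show (1 + dl) * ((k : ℝ) ^ Module.finrank ℚ K * T) =
        (1 + dl) * T * (k : ℝ) ^ Module.finrank ℚ K by ring,
      show (1 / 2 - dl) * ((k : ℝ) ^ Module.finrank ℚ K * T) =
        (1 / 2 - dl) * T * (k : ℝ) ^ Module.finrank ℚ K by ring] at h3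
    rw [← sub_div, ← sub_le_iff_le_add, le_div_iff₀ hkd]
    have := (abs_le.1 h2).1
    rw [← hE] at this
    linarith
  · have lim := (((sh_tendsto2 K (c := (1 - dl) * T) (mul_pos (by linarith) hT0)).sub
      (sh_tendsto2 K (c := (1 / 2 + dl) * T) (by positivity))).sub_const E)
    refine le_of_eq_of_le (by ring) (le_of_tendsto lim ?_)
    filter_upwards [eventually_ge_atTop 1] with k hk
    have hk' : (1 : ℝ) ≤ k := by exact_mod_cast hk
    have hkd : (0 : ℝ) < (k : ℝ) ^ Module.finrank ℚ K := by positivity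
    have h2 := hC (1 / dl) _ hΛ (sh_trap_bump (a := 1 / 2) (b := 1) hdl
      (by linarith) (by linarith)) T hT k hk
    have h3 := sh_le_S K (a := 1 / 2) (b := 1) (T := (k : ℝ) ^ Module.finrank ℚ K * T)
      hdl (by linarith) (by linarith) (by linarith) (by linarith) (by positivity)
    rw [show (1 - dl) * ((k : ℝ) ^ Module.finrank ℚ K * T) =
        (1 - dl) * T * (k : ℝ) ^ Module.finrank ℚ K by ring,
      show (1 / 2 + dl) * ((k : ℝ) ^ Module.finrank ℚ K * T) =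
        (1 / 2 + dl) * T * (k : ℝ) ^ Module.finrank ℚ K by ring] at h3
    rw [← sub_div, sub_le_iff_le_add, div_le_iff₀ hkd]
    have := (abs_le.1 h2).2
    rw [← hE] at this
    linarith

/-- The choice of the smoothing parameter for the first two bounds. -/
lemma sh_param {T : ℝ} (hT : 1 ≤ T) : ∃ dl : ℝ, 0 < dl ∧ dl ≤ 1 / 4 ∧
    T * dl = T ^ (1 - 1 / (2 * (Module.finrank ℚ K : ℝ))) / 4 ∧
    (1 / dl) * T ^ (1 - 1 / (Module.finrank ℚ K : ℝ)) =
      4 * T ^ (1 - 1 / (2 * (Module.finrank ℚ K : ℝ))) := by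
  have hT0 : 0 < T := by linarith
  have hd : (0 : ℝ) < Module.finrank ℚ K := by exact_mod_cast sh_d_pos K
  refine ⟨T ^ (-(1 / (2 * (Module.finrank ℚ K : ℝ)))) / 4, by positivity, ?_, ?_, ?_⟩
  · have := Real.rpow_le_one_of_one_le_of_nonpos hT
      (z := -(1 / (2 * (Module.finrank ℚ K : ℝ)))) (by simp)
    linarith
  · rw [sub_eq_add_neg, Real.rpow_add hT0, Real.rpow_one]; ring
  · have e : (1 - 1 / (Module.finrank ℚ K : ℝ)) = (1 - 1 / (2 * (Module.finrank ℚ K : ℝ))) +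
        -(1 / (2 * (Module.finrank ℚ K : ℝ))) := by field_simp; ring
    have hp : 0 < T ^ (-(1 / (2 * (Module.finrank ℚ K : ℝ)))) := by positivity
    rw [e, Real.rpow_add hT0]
    field_simp

lemma sh_beta : 1 / 2 ≤ 1 - 1 / (2 * (Module.finrank ℚ K : ℝ)) := by
  have hd : (1 : ℝ) ≤ Module.finrank ℚ K := by exact_mod_cast sh_d_pos K
  have : 1 / (2 * (Module.finrank ℚ K : ℝ)) ≤ 1 / 2 :=
    one_div_le_one_div_of_le (by norm_num) (by linarith)
  linarith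

theorem sharp0 : ∃ κ C : ℝ, 0 < κ ∧ ∀ x : ℝ, 1 ≤ x →
    |Sm (cnt K) x - κ * x| ≤ C * x ^ (1 - 1 / (2 * (Module.finrank ℚ K : ℝ))) := by
  obtain ⟨C, hC0, hC⟩ := sh_key K
  have hκ := dedekindZeta_residue_pos K
  set κ := dedekindZeta_residue K
  refine ⟨κ, κ + 4 * (κ / 2 + 4 * C), hκ, fun x hx => ?_⟩
  have h := sh_dyadic (fun x => Sm (cnt K) x - κ * x) (T0 := 1) (B := κ) (C := κ / 2 + 4 * C)
    one_pos (by positivity) (sh_beta K) ?_ ?_ x (by linarith)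
  · have h1 : 1 ≤ x ^ (1 - 1 / (2 * (Module.finrank ℚ K : ℝ))) :=
      Real.one_le_rpow hx (by have := sh_beta K; linarith)
    nlinarith
  · intro y hy0 hy1
    rw [sh_Sm_small _ hy1, zero_sub, abs_neg, abs_of_nonneg (by positivity)]
    nlinarith
  · intro T hT
    obtain ⟨dl, h1, h2, h3, h4⟩ := sh_param K hT
    obtain ⟨g1, g2⟩ := hC T hT dl h1 h2
    have g3 := sh_S_le K (a := 1 / 2) (b := 1) (T := T) h1 (by norm_num) (by norm_num)
      (by norm_num) (by linarith)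
    rw [one_mul, show 1 / 2 * T = T / 2 by ring] at g3
    rw [mul_assoc C, h4] at g1 g2
    have e1 : κ * T * (1 / 2 + 2 * dl) = κ * T / 2 + 2 * κ * (T * dl) := by ring
    have e2 : κ * T * (1 / 2 - 2 * dl) = κ * T / 2 - 2 * κ * (T * dl) := by ring
    rw [e1, h3] at g1
    rw [e2, h3] at g2
    rw [abs_le]
    constructor <;> linarith

lemma sh_chi_sq {M : ℕ} {n : ℕ} (h : Nat.Coprime n M) : chi M n ^ 2 = 1 := by
  have := jacobiSym.sq_one (a := (n : ℤ)) (b := M) (by simpa using h)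
  unfold chi
  exact_mod_cast this

lemma sh_coprime {n p : ℕ} (hn : (1 : ℝ) ≤ n) (hp : p.Prime) (h : n < p) : Nat.Coprime n p := by
  have hn' : 0 < n := by exact_mod_cast (lt_of_lt_of_le one_pos hn)
  exact (Nat.coprime_of_lt_prime hn'.ne' h hp).symm

lemma sh_per : ∃ (C : ℝ) (l0 : ℕ), 0 ≤ C ∧ ∀ M, Adm l0 M → ∀ Λ U, 1 ≤ Λ → Bump Λ U →
    ∀ T : ℝ, 1 ≤ T → |sh_S K (chi M) U T| ≤
      C * M * (Λ * T ^ (1 - 1 / (Module.finrank ℚ K : ℝ))) := by
  obtain ⟨J, _, c, e, sg, ρ, Λ₀, w, Fm, hlat, -, hΛ₀, hw, hwt, hgeo⟩ := geo K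
  choose C l0 hC using fun j => periodic_lat (c j) (e j) (hlat j) ρ
  refine ⟨∑ j, |C j| * Λ₀ * (Ideal.absNorm (c j) : ℕ),
    ∑ j, (l0 j + Ideal.absNorm (c j)), Finset.sum_nonneg fun j _ => by positivity,
    fun M hM Λ U hΛ hU T hT => ?_⟩
  have hle : ∀ j, l0 j + Ideal.absNorm (c j) ≤ ∑ j, (l0 j + Ideal.absNorm (c j)) := fun j =>
    Finset.single_le_sum (f := fun j => l0 j + Ideal.absNorm (c j)) (fun _ _ => Nat.zero_le _)
      (Finset.mem_univ j)
  have hadm : ∀ j, Adm (l0 j) M := fun j => by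
    have := hle j
    rcases hM with ⟨h1, h2⟩ | ⟨p, q, h1, h2, h3, h4, h5, h6⟩
    · exact Or.inl ⟨h1, by omega⟩
    · exact Or.inr ⟨p, q, h1, h2, h3, by omega, by omega, h6⟩
  have hsq : ∀ j, chi M (Ideal.absNorm (c j) : ℕ) ^ 2 = 1 := fun j => by
    have := hle j
    have hN := sh_norm_ge K (hlat j)
    apply sh_chi_sq
    rcases hM with ⟨h1, h2⟩ | ⟨p, q, h1, h2, h3, h4, h5, h6⟩
    · exact sh_coprime hN h1 (by omega)
    · rw [h6]
      exact Nat.Coprime.mul_right (sh_coprime hN h1 (by omega)) (sh_coprime hN h2 (by omega))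
  have h1 := hgeo Λ U hU T (by linarith) (chi M) (chi_mul M) hsq
  apply sh_div_w hw
  unfold sh_S
  rw [h1, Finset.sum_mul, Finset.sum_mul]
  refine (Finset.abs_sum_le_sum_abs _ _).trans (Finset.sum_le_sum fun j _ => ?_)
  have hN := sh_norm_ge K (hlat j)
  obtain ⟨g1, -, g3⟩ := sh_pow_H K hN hT
  have h3 := hC j M (hadm j) (Λ₀ * Λ) (Fm j U) (by nlinarith) (hwt j Λ U hΛ hU) _ g1
  rw [abs_mul]
  refine (mul_le_of_le_one_left (abs_nonneg _) (abs_chi_le _ _)).trans (h3.trans ?_)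
  have h4 : C j * (Λ₀ * Λ) * M ≤ |C j| * (Λ₀ * Λ) * M := by
    gcongr
    exact le_abs_self _
  refine (mul_le_mul h4 g3 (by positivity) (by positivity)).trans (le_of_eq ?_)
  ring

theorem sharp1 : ∃ (C : ℝ) (l0 : ℕ), ∀ M, Adm l0 M → ∀ x : ℝ, 1 ≤ x →
    |Sm (tw (cnt K) fun n => chi M n) x| ≤
      C * M * x ^ (1 - 1 / (2 * (Module.finrank ℚ K : ℝ))) := by
  obtain ⟨C, hC0, hC⟩ := sh_key K
  obtain ⟨C2, l0, hC20, hC2⟩ := sh_per K
  have hκ := dedekindZeta_residue_pos K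
  set κ := dedekindZeta_residue K
  refine ⟨4 * (κ + 8 * C + 4 * C2), l0, fun M hM x hx => ?_⟩
  have hM1 : (1 : ℝ) ≤ M := by
    rcases hM with ⟨h1, _⟩ | ⟨p, q, h1, h2, _, _, _, h6⟩
    · exact_mod_cast h1.one_le
    · rw [h6]; exact_mod_cast Nat.mul_pos h1.pos h2.pos
  have h := sh_dyadic (fun x => Sm (tw (cnt K) fun n => chi M n) x) (T0 := 1) (B := 0)
    (C := (κ + 8 * C + 4 * C2) * M) one_pos (by positivity) (sh_beta K) ?_ ?_ x (by linarith)
  · refine h.trans (le_of_eq ?_)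
    ring
  · intro y _ hy1
    rw [sh_Sm_small _ hy1, abs_zero]
  · intro T hT
    obtain ⟨dl, h1, h2, h3, h4⟩ := sh_param K hT
    obtain ⟨g1, g2⟩ := hC T hT dl h1 h2
    have hΛ : 1 ≤ 1 / dl := by rw [le_div_iff₀ h1]; linarith
    have g3 := hC2 M hM (1 / dl) _ hΛ (sh_trap_bump (a := 1 / 2) (b := 1) h1 (by norm_num)
      (by norm_num)) T hT
    have g4 := sh_cmp K (chi M) (abs_chi_le M) h1 (T := T) (by linarith)
    rw [mul_assoc C, h4] at g1 g2
    rw [h4] at g3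
    have e1 : κ * T * (1 / 2 + 2 * dl) = κ * T / 2 + 2 * κ * (T * dl) := by ring
    have e2 : κ * T * (1 / 2 - 2 * dl) = κ * T / 2 - 2 * κ * (T * dl) := by ring
    rw [e1, h3] at g1
    rw [e2, h3] at g2
    have hp : 0 ≤ (κ + 8 * C) * T ^ (1 - 1 / (2 * (Module.finrank ℚ K : ℝ))) := by positivity
    have g5 := mul_le_mul_of_nonneg_left hM1 hp
    rw [abs_le] at g3 g4 ⊢
    constructor <;> linarith [g3.1, g3.2, g4.1, g4.2]

lemma sh_bur (ε : ℝ) (hε : 0 < ε) : ∃ (δ C : ℝ) (l0 : ℕ), 0 < δ ∧ 0 ≤ C ∧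
    ∀ l : ℕ, l.Prime → l0 < l → ∀ Λ U, 1 ≤ Λ → Bump Λ U →
    ∀ T : ℝ, (l : ℝ) ^ ((Module.finrank ℚ K : ℝ) / 4 + ε) ≤ T → |sh_S K (chi l) U T| ≤
      C * Λ * T * (l : ℝ) ^ (-δ) := by
  obtain ⟨J, _, c, e, sg, ρ, Λ₀, w, Fm, hlat, -, hΛ₀, hw, hwt, hgeo⟩ := geo K
  have hd : (0 : ℝ) < Module.finrank ℚ K := by exact_mod_cast sh_d_pos K
  choose δ C l0 hδ hC using fun j => burgess_lat (c j) (e j) (hlat j) ρ
    (ε / Module.finrank ℚ K) (by positivity)
  obtain ⟨δ0, hδ0, hδ1⟩ : ∃ δ0 : ℝ, 0 < δ0 ∧ ∀ j, δ0 ≤ δ j := by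
    refine ⟨1 / (1 + ∑ j, 1 / δ j), ?_, fun j => ?_⟩
    · have : 0 ≤ ∑ j, 1 / δ j := Finset.sum_nonneg fun j _ => (one_div_pos.2 (hδ j)).le
      positivity
    · have h1 : 1 / δ j ≤ ∑ j, 1 / δ j :=
        Finset.single_le_sum (f := fun j => 1 / δ j) (fun j _ => (one_div_pos.2 (hδ j)).le)
          (Finset.mem_univ j)
      have h2 := one_div_le_one_div_of_le (one_div_pos.2 (hδ j))
        (show 1 / δ j ≤ 1 + ∑ j, 1 / δ j by linarith)
      rwa [one_div_one_div] at h2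
  refine ⟨δ0, ∑ j, |C j| * Λ₀ * (Ideal.absNorm (c j) : ℕ),
    ∑ j, (l0 j + Ideal.absNorm (c j)), hδ0, Finset.sum_nonneg fun j _ => by positivity,
    fun l hl hl0 Λ U hΛ hU T hT => ?_⟩
  have hle : ∀ j, l0 j + Ideal.absNorm (c j) ≤ ∑ j, (l0 j + Ideal.absNorm (c j)) := fun j =>
    Finset.single_le_sum (f := fun j => l0 j + Ideal.absNorm (c j)) (fun _ _ => Nat.zero_le _)
      (Finset.mem_univ j)
  have hsq : ∀ j, chi l (Ideal.absNorm (c j) : ℕ) ^ 2 = 1 := fun j => by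
    have := hle j
    exact sh_chi_sq (sh_coprime (sh_norm_ge K (hlat j)) hl (by omega))
  have hl1 : (1 : ℝ) ≤ l := by exact_mod_cast hl.one_le
  have hT1 : 1 ≤ T := (Real.one_le_rpow hl1 (by positivity)).trans hT
  have h1 := hgeo Λ U hU T (by linarith) (chi l) (chi_mul l) hsq
  apply sh_div_w hw
  unfold sh_S
  rw [h1, Finset.sum_mul, Finset.sum_mul, Finset.sum_mul]
  refine (Finset.abs_sum_le_sum_abs _ _).trans (Finset.sum_le_sum fun j _ => ?_)
  have hN := sh_norm_ge K (hlat j)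
  obtain ⟨-, g2, -⟩ := sh_pow_H K hN hT1
  have g1 : (l : ℝ) ^ (1 / 4 + ε / Module.finrank ℚ K) ≤
      (((Ideal.absNorm (c j) : ℕ) : ℝ) * T) ^ (1 / (Module.finrank ℚ K : ℝ)) := by
    have e1 : (1 / 4 + ε / Module.finrank ℚ K) =
        ((Module.finrank ℚ K : ℝ) / 4 + ε) * (1 / (Module.finrank ℚ K : ℝ)) := by
      field_simp
    rw [e1, Real.rpow_mul (by positivity)]
    exact Real.rpow_le_rpow (by positivity) (by nlinarith) (by positivity)
  have h3 := hC j l hl (by have := hle j; omega) (Λ₀ * Λ) (Fm j U) (by nlinarith)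
    (hwt j Λ U hΛ hU) _ g1
  rw [abs_mul]
  refine (mul_le_of_le_one_left (abs_nonneg _) (abs_chi_le _ _)).trans (h3.trans ?_)
  rw [g2]
  have h4 : C j * (Λ₀ * Λ) * (((Ideal.absNorm (c j) : ℕ) : ℝ) * T) ≤
      |C j| * (Λ₀ * Λ) * (((Ideal.absNorm (c j) : ℕ) : ℝ) * T) := by
    gcongr
    exact le_abs_self _
  have h5 : (l : ℝ) ^ (-δ j) ≤ (l : ℝ) ^ (-δ0) :=
    Real.rpow_le_rpow_of_exponent_le hl1 (by have := hδ1 j; linarith)
  refine (mul_le_mul h4 h5 (by positivity) (by positivity)).trans (le_of_eq ?_)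
  ring

lemma sh_lin : ∃ C : ℝ, 0 ≤ C ∧ ∀ (f : ℕ → ℝ), (∀ n, |f n| ≤ 1) → ∀ x : ℝ, 0 ≤ x →
    |Sm (tw (cnt K) f) x| ≤ C * x := by
  obtain ⟨κ, C, hκ, hC⟩ := sharp0 K
  refine ⟨κ + |C|, by positivity, fun f hf x hx => ?_⟩
  by_cases hx1 : x < 1
  · rw [sh_Sm_small _ hx1, abs_zero]
    positivity
  have hx1 := not_lt.1 hx1
  have h1 : |Sm (tw (cnt K) f) x| ≤ Sm (cnt K) x := by
    refine (Finset.abs_sum_le_sum_abs _ _).trans (Finset.sum_le_sum fun n _ => ?_)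
    rw [tw_apply, abs_mul, abs_of_nonneg (cnt_nonneg K n)]
    exact mul_le_of_le_one_right (cnt_nonneg K n) (hf n)
  have h2 := (abs_le.1 (hC x hx1)).2
  have h3 : x ^ (1 - 1 / (2 * (Module.finrank ℚ K : ℝ))) ≤ x := by
    refine (Real.rpow_le_rpow_of_exponent_le hx1 (z := 1) ?_).trans (Real.rpow_one x).le
    have : 0 ≤ 1 / (2 * (Module.finrank ℚ K : ℝ)) := by positivity
    linarith
  have h4 : C * x ^ (1 - 1 / (2 * (Module.finrank ℚ K : ℝ))) ≤ |C| * x :=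
    mul_le_mul (le_abs_self C) h3 (by positivity) (abs_nonneg C)
  linarith

theorem sharp2 (ε : ℝ) (hε : 0 < ε) : ∃ (δ C : ℝ) (l0 : ℕ), 0 < δ ∧
    ∀ l : ℕ, l.Prime → l0 < l → ∀ x : ℝ, (l : ℝ) ^ ((Module.finrank ℚ K : ℝ) / 4 + ε) ≤ x →
    |Sm (tw (cnt K) fun n => chi l n) x| ≤ C * x * (l : ℝ) ^ (-δ) := by
  obtain ⟨C, hC0, hC⟩ := sh_key K
  obtain ⟨δ, C3, l0, hδ, hC30, hC3⟩ := sh_bur K (ε / 2) (by positivity)
  obtain ⟨C5, hC50, hC5⟩ := sh_lin K
  have hκ := dedekindZeta_residue_pos K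
  set κ := dedekindZeta_residue K
  have hd : (0 : ℝ) < Module.finrank ℚ K := by exact_mod_cast sh_d_pos K
  obtain ⟨η, hη0, hη1, hη2, hη3⟩ : ∃ η : ℝ, 0 < η ∧ 2 * η ≤ δ ∧ 2 * η ≤ 1 / 4 ∧ η ≤ ε / 2 := by
    refine ⟨min (δ / 2) (min (1 / 8) (ε / 2)), by positivity, ?_, ?_, ?_⟩
    · have := min_le_left (δ / 2) (min (1 / 8) (ε / 2)); linarith
    · have := (min_le_right (δ / 2) (min (1 / 8) (ε / 2))).trans (min_le_left _ _); linarith
    · exact (min_le_right _ _).trans (min_le_right _ _)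
  refine ⟨η, C5 + 4 * (κ + 8 * C + 4 * C3), l0, hη0, fun l hl hl0 x hx => ?_⟩
  have hl1 : (1 : ℝ) ≤ l := by exact_mod_cast hl.one_le
  have hlp : (0 : ℝ) < l := by linarith
  set u : ℝ := (l : ℝ) ^ (-η) with hu
  have hu0 : 0 < u := by positivity
  have hu1 : u ≤ 1 := Real.rpow_le_one_of_one_le_of_nonpos hl1 (by linarith)
  have huu : ∀ a : ℝ, 2 * η ≤ a → (l : ℝ) ^ (-a) ≤ u * u := fun a ha => by
    rw [hu, ← Real.rpow_add hlp]
    exact Real.rpow_le_rpow_of_exponent_le hl1 (by linarith)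
  set T0 : ℝ := (l : ℝ) ^ ((Module.finrank ℚ K : ℝ) / 4 + ε / 2) with hT0
  have hT01 : 1 ≤ T0 := Real.one_le_rpow hl1 (by positivity)
  have hx0 : 0 ≤ x := le_trans (by positivity) hx
  have h := sh_dyadic (fun x => Sm (tw (cnt K) fun n => chi l n) x) (T0 := T0) (B := C5 * T0)
    (C := (κ + 8 * C + 4 * C3) * u) (β := 1) (by linarith) (by positivity) (by norm_num)
    ?_ ?_ x hx0
  · rw [Real.rpow_one] at h
    have h1 : T0 ≤ x * u := by
      have e : T0 = (l : ℝ) ^ ((Module.finrank ℚ K : ℝ) / 4 + ε) * (l : ℝ) ^ (-(ε / 2)) := by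
        rw [hT0, ← Real.rpow_add hlp]
        congr 1
        ring
      rw [e]
      exact mul_le_mul hx (Real.rpow_le_rpow_of_exponent_le hl1 (by linarith)) (by positivity) hx0
    have h2 := mul_le_mul_of_nonneg_left h1 hC50
    refine h.trans ?_
    linarith
  · intro y hy0 hy1
    exact (hC5 _ (fun n => abs_chi_le l n) y hy0).trans (mul_le_mul_of_nonneg_left hy1.le hC50)
  · intro T hT
    have hT1 : 1 ≤ T := hT01.trans hT
    have hTp : 0 < T := by linarith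
    obtain ⟨g1, g2⟩ := hC T hT1 (u / 4) (by positivity) (by linarith)
    have hΛ : 1 ≤ 1 / (u / 4) := by rw [le_div_iff₀ (by positivity)]; linarith
    have g3 := hC3 l hl hl0 (1 / (u / 4)) _ hΛ (sh_trap_bump (a := 1 / 2) (b := 1)
      (by positivity) (by norm_num) (by norm_num)) T hT
    have g4 := sh_cmp K (chi l) (abs_chi_le l) (dl := u / 4) (by positivity) (T := T) hTp
    have g5 : T ^ (1 - 1 / (Module.finrank ℚ K : ℝ)) ≤ T * (u * u) := by
      rw [sub_eq_add_neg, Real.rpow_add hTp, Real.rpow_one]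
      refine mul_le_mul_of_nonneg_left (le_trans ?_ (huu (1 / 4) hη2)) hTp.le
      have h1 : (l : ℝ) ^ ((Module.finrank ℚ K : ℝ) / 4) ≤ T :=
        (Real.rpow_le_rpow_of_exponent_le hl1 (by linarith)).trans hT
      have h2 := Real.rpow_le_rpow_of_nonpos (by positivity) h1
        (z := -(1 / (Module.finrank ℚ K : ℝ))) (by simp)
      refine h2.trans (le_of_eq ?_)
      rw [← Real.rpow_mul hlp.le]
      congr 1
      field_simp
    have g6 : C * (1 / (u / 4)) * T ^ (1 - 1 / (Module.finrank ℚ K : ℝ)) ≤ 4 * C * u * T := by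
      refine (mul_le_mul_of_nonneg_left g5 (by positivity)).trans (le_of_eq ?_)
      field_simp
    have g7 : C3 * (1 / (u / 4)) * T * (l : ℝ) ^ (-δ) ≤ 4 * C3 * u * T := by
      refine (mul_le_mul_of_nonneg_left (huu δ hη1) (by positivity)).trans (le_of_eq ?_)
      field_simp
    have g8 := g3.trans g7
    rw [Real.rpow_one]
    rw [abs_le] at g8 g4 ⊢
    constructor <;> linarith [g8.1, g8.2, g4.1, g4.2]

end Pool.Agent.Lib.MP_e97e2b_nt
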