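import Pool.Agent.Lib.MP_e97e2b_nt.Short

/- The addition-subtraction map on `x`-coordinates and the parallelogram law for degrees. -/

namespace Pool.Agent.Lib.MP_e97e2b_nt

open Polynomial

section ring
variable {R : Type} [CommRing R]

def g0 (A B s t u : R) : R := (s - A * u) ^ 2 - 4 * B * t * u
def g1 (A B s t u : R) : R := 2 * t * (s + A * u) + 4 * B * u ^ 2
def g2 (s t u : R) : R := t ^ 2 - 4 * s * u

/-- Unimodular triples. -/
def Uni (x y z : R) : Prop := ∃ a b c, a * x + b * y + c * z = 1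

lemma uni_of_max {x y z : R} (h : ∀ m : Ideal R, m.IsMaximal → x ∈ m → y ∈ m → z ∈ m → False) :
    Uni x y z := by
  have : Ideal.span {x, y, z} = ⊤ := by
    by_contra hne
    obtain ⟨m, hm, hle⟩ := Ideal.exists_le_maximal _ hne
    exact h m hm (hle (Ideal.subset_span (by simp))) (hle (Ideal.subset_span (by simp)))
      (hle (Ideal.subset_span (by simp)))
  rw [Ideal.eq_top_iff_one, Ideal.mem_span_insert] at this
  obtain ⟨a, w, hw, e⟩ := this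
  rw [Ideal.mem_span_pair] at hw
  obtain ⟨b, c, rfl⟩ := hw
  exact ⟨a, b, c, by rw [e]; ring⟩

lemma Uni.not_mem {x y z : R} (h : Uni x y z) {m : Ideal R} (hm : m.IsMaximal) (hx : x ∈ m)
    (hy : y ∈ m) (hz : z ∈ m) : False := by
  obtain ⟨a, b, c, e⟩ := h
  exact hm.ne_top ((Ideal.eq_top_iff_one _).2 (e ▸ add_mem (add_mem (m.mul_mem_left _ hx)
    (m.mul_mem_left _ hy)) (m.mul_mem_left _ hz)))

lemma uni_sym {a b c d : R} (h : IsCoprime a b) (h' : IsCoprime c d) :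
    Uni (a * c) (a * d + b * c) (b * d) := by
  refine uni_of_max fun m hm h1 h2 h3 => ?_
  have key : ∀ {x y : R}, IsCoprime x y → x ∈ m → y ∈ m → False := by
    rintro x y ⟨u, v, e⟩ hx hy
    exact hm.ne_top ((Ideal.eq_top_iff_one _).2
      (e ▸ add_mem (m.mul_mem_left _ hx) (m.mul_mem_left _ hy)))
  have hp := hm.isPrime
  rcases hp.mem_or_mem h1 with ha | hc
  · have : b * c ∈ m := by simpa using sub_mem h2 (m.mul_mem_right d ha)
    rcases hp.mem_or_mem this with hb | hc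
    · exact key h ha hb
    · rcases hp.mem_or_mem h3 with hb | hd
      · exact key h ha hb
      · exact key h' hc hd
  · have : a * d ∈ m := by simpa using sub_mem h2 (m.mul_mem_left b hc)
    rcases hp.mem_or_mem this with ha | hd
    · rcases hp.mem_or_mem h3 with hb | hd
      · exact key h ha hb
      · exact key h' hc hd
    · exact key h' hc hd

end ring

variable {F : Type} [Field F] {A B : F}

lemma g_eq_zero (h2 : (2 : F) ≠ 0) (hD : 4 * A ^ 3 + 27 * B ^ 2 ≠ 0) {s t u : F}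
    (e0 : g0 A B s t u = 0) (e1 : g1 A B s t u = 0) (e2 : g2 s t u = 0) :
    s = 0 ∧ t = 0 ∧ u = 0 := by
  unfold g0 at e0
  unfold g1 at e1
  unfold g2 at e2
  by_cases hu : u = 0
  · subst hu
    exact ⟨pow_eq_zero_iff two_ne_zero |>.1 (by linear_combination e0),
      pow_eq_zero_iff two_ne_zero |>.1 (by linear_combination e2), rfl⟩
  exfalso
  have h4 : (4 : F) ≠ 0 := by
    rw [show (4 : F) = 2 * 2 by norm_num]; exact mul_ne_zero h2 h2
  obtain ⟨x, rfl⟩ : ∃ x, t = 2 * x * u := ⟨t / (2 * u), by field_simp⟩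
  have hs : s = x ^ 2 * u := by
    refine mul_left_cancel₀ (mul_ne_zero h4 hu) ?_
    linear_combination -e2
  subst hs
  have hB : B = -x ^ 3 - A * x := by
    refine mul_left_cancel₀ (mul_ne_zero h4 (pow_ne_zero 2 hu)) ?_
    linear_combination e1
  have : (3 * x ^ 2 + A) ^ 2 = 0 := by
    refine mul_left_cancel₀ (pow_ne_zero 2 hu) ?_
    rw [hB] at e0
    linear_combination e0
  have hA : A = -3 * x ^ 2 := by linear_combination pow_eq_zero_iff two_ne_zero |>.1 this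
  apply hD
  rw [hB, hA]; ring

/-- Numerator of the `x`-coordinate. -/
def xn (P : Pt A B) : F :=
  match P with
  | .zero => 1
  | .some x _ _ => x

/-- Denominator of the `x`-coordinate. -/
def xd (P : Pt A B) : F :=
  match P with
  | .zero => 0
  | .some _ _ _ => 1

@[simp] lemma xn_zero : xn (0 : Pt A B) = 1 := rfl
@[simp] lemma xd_zero : xd (0 : Pt A B) = 0 := rfl
@[simp] lemma xn_pt {x y : F} (h : NS A B x y) : xn (pt x y h) = x := rfl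
@[simp] lemma xd_pt {x y : F} (h : NS A B x y) : xd (pt x y h) = 1 := rfl

@[simp] lemma xn_neg (P : Pt A B) : xn (-P) = xn P := by
  rcases P.cases with rfl | ⟨x, y, h, rfl⟩
  · rw [neg_zero]
  · rw [neg_pt]; rfl

@[simp] lemma xd_neg (P : Pt A B) : xd (-P) = xd P := by
  rcases P.cases with rfl | ⟨x, y, h, rfl⟩
  · rw [neg_zero]
  · rw [neg_pt]; rfl

lemma xd_eq_zero {P : Pt A B} : xd P = 0 ↔ P = 0 := by
  rcases P.cases with rfl | ⟨x, y, h, rfl⟩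
  · simp
  · simp [pt_ne_zero]

/-- The triple identity. -/
def Tr (P Q : Pt A B) : Prop := ∃ ν : F, ν ≠ 0 ∧
  g0 A B (xn P * xn Q) (xn P * xd Q + xd P * xn Q) (xd P * xd Q) = ν * (xn (P + Q) * xn (P - Q)) ∧
  g1 A B (xn P * xn Q) (xn P * xd Q + xd P * xn Q) (xd P * xd Q) =
    ν * (xn (P + Q) * xd (P - Q) + xd (P + Q) * xn (P - Q)) ∧
  g2 (xn P * xn Q) (xn P * xd Q + xd P * xn Q) (xd P * xd Q) = ν * (xd (P + Q) * xd (P - Q))

lemma Tr.neg {P Q : Pt A B} (h : Tr P Q) : Tr P (-Q) := by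
  obtain ⟨ν, hν, a, b, c⟩ := h
  refine ⟨ν, hν, ?_, ?_, ?_⟩ <;> simp only [xn_neg, xd_neg, sub_neg_eq_add, ← sub_eq_add_neg]
  · rw [a]; ring
  · rw [b]; ring
  · rw [c]; ring

lemma tr_self (h2 : (2 : F) ≠ 0) {x y : F} (h : NS A B x y) : Tr (pt x y h) (pt x y h) := by
  have he := h.1
  by_cases hy : y = -y
  · have y0 : y = 0 := (mul_eq_zero.1 (by linear_combination hy : 2 * y = 0)).resolve_left h2
    subst y0
    have h3 : 3 * x ^ 2 + A ≠ 0 := h.2.resolve_right (by simp)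
    refine ⟨(3 * x ^ 2 + A) ^ 2, pow_ne_zero _ h3, ?_, ?_, ?_⟩ <;>
      simp only [add_neg_case h h rfl hy, sub_self, xn_zero, xd_zero, xn_pt, xd_pt, g0, g1, g2]
    · linear_combination 8 * x * he
    · linear_combination -4 * he
    · ring
  · have hne : ¬(x = x ∧ y = -y) := fun h => hy h.2
    obtain ⟨l, e₁, e₂⟩ := exists_lam h h hne
    obtain ⟨h₃, e⟩ := add_char h h hne e₁ e₂
    have y0 : y + y ≠ 0 := fun h => hy (by linear_combination h)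
    refine ⟨(y + y) ^ 2, pow_ne_zero _ y0, ?_, ?_, ?_⟩ <;>
      simp only [e, sub_self, xn_zero, xd_zero, xn_pt, xd_pt, g0, g1, g2]
    · linear_combination 8 * x * he - (l * (y + y) + (x ^ 2 + x * x + x ^ 2 + A)) * e₂
    · linear_combination -4 * he
    · ring

theorem tr_all (h2 : (2 : F) ≠ 0) (P Q : Pt A B) : Tr P Q := by
  rcases P.cases with rfl | ⟨x₁, y₁, h₁, rfl⟩
  · refine ⟨1, one_ne_zero, ?_, ?_, ?_⟩ <;>
      simp only [zero_add, zero_sub, xn_neg, xd_neg, xn_zero, xd_zero, g0, g1, g2] <;> ring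
  rcases Q.cases with rfl | ⟨x₂, y₂, h₂, rfl⟩
  · refine ⟨1, one_ne_zero, ?_, ?_, ?_⟩ <;>
      simp only [add_zero, sub_zero, xn_zero, xd_zero, g0, g1, g2] <;> ring
  by_cases hx : x₁ = x₂
  · subst hx
    rcases pt_eq_or h₂ h₁ with e | e <;> rw [e]
    · exact tr_self h2 h₁
    · exact (tr_self h2 h₁).neg
  obtain ⟨l, a₁, a₂⟩ := exists_lam h₁ h₂ fun h => hx h.1
  obtain ⟨_, ea⟩ := add_char h₁ h₂ (fun h => hx h.1) a₁ a₂
  obtain ⟨m, b₁, b₂⟩ := exists_lam h₁ h₂.neg fun h => hx h.1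
  obtain ⟨_, eb⟩ := add_char h₁ h₂.neg (fun h => hx h.1) b₁ b₂
  have hd : x₁ - x₂ ≠ 0 := sub_ne_zero.2 hx
  have hl : l = (y₁ - y₂) / (x₁ - x₂) := by rw [← a₁]; field_simp
  have hm : m = (y₁ + y₂) / (x₁ - x₂) := by
    rw [show y₁ + y₂ = m * (x₁ - x₂) by linear_combination -b₁]; field_simp
  have q₁ := h₁.1
  have q₂ := h₂.1
  have hs : (l ^ 2 - x₁ - x₂) * (x₁ - x₂) ^ 2 =
      (x₁ + x₂) * (A + x₁ * x₂) + 2 * B - 2 * y₁ * y₂ := by
    linear_combination (l * (x₁ - x₂) + (y₁ - y₂)) * a₁ + q₁ + q₂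
  have ht : (m ^ 2 - x₁ - x₂) * (x₁ - x₂) ^ 2 =
      (x₁ + x₂) * (A + x₁ * x₂) + 2 * B + 2 * y₁ * y₂ := by
    linear_combination (m * (x₁ - x₂) + (y₁ + y₂)) * b₁ + q₁ + q₂
  refine ⟨(x₁ - x₂) ^ 2, pow_ne_zero _ hd, ?_, ?_, ?_⟩ <;>
    simp only [sub_eq_add_neg (pt x₁ y₁ h₁), neg_pt, ea, eb, xn_pt, xd_pt, g0, g1, g2]
  · refine mul_left_cancel₀ (pow_ne_zero 2 hd) ?_
    rw [show (x₁ - x₂) ^ 2 * ((x₁ - x₂) ^ 2 * ((l ^ 2 - x₁ - x₂) * (m ^ 2 - x₁ - x₂))) =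
      ((l ^ 2 - x₁ - x₂) * (x₁ - x₂) ^ 2) * ((m ^ 2 - x₁ - x₂) * (x₁ - x₂) ^ 2) by ring, hs, ht]
    linear_combination 4 * y₂ ^ 2 * q₁ + 4 * (x₁ ^ 3 + A * x₁ + B) * q₂
  · linear_combination -hs - ht
  · ring

/-- Degree at most `n` with coefficient `c` in degree `n`. -/
def DC (p : F[X]) (n : ℕ) (c : F) : Prop := p.natDegree ≤ n ∧ p.coeff n = c

lemma DC.mul {p q : F[X]} {m n a b} (h : DC p m a) (h' : DC q n b) : DC (p * q) (m + n) (a * b) :=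
  ⟨natDegree_mul_le_of_le h.1 h'.1, by rw [coeff_mul_add_eq_of_natDegree_le h.1 h'.1, h.2, h'.2]⟩

lemma DC.add {p q : F[X]} {n a b} (h : DC p n a) (h' : DC q n b) : DC (p + q) n (a + b) :=
  ⟨by simpa using natDegree_add_le_of_le h.1 h'.1, by rw [coeff_add, h.2, h'.2]⟩

lemma DC.sub {p q : F[X]} {n a b} (h : DC p n a) (h' : DC q n b) : DC (p - q) n (a - b) :=
  ⟨by simpa using natDegree_sub_le_of_le h.1 h'.1, by rw [coeff_sub, h.2, h'.2]⟩

lemma DC.cmul {p : F[X]} {n a} (r : F) (h : DC p n a) : DC (C r * p) n (r * a) :=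
  ⟨(natDegree_C_mul_le _ _).trans h.1, by rw [coeff_C_mul, h.2]⟩

lemma DC.up {p : F[X]} {m n a} (h : DC p m a) (hmn : m < n) : DC p n 0 :=
  ⟨h.1.trans hmn.le, coeff_eq_zero_of_natDegree_lt (h.1.trans_lt hmn)⟩

lemma DC.X : DC (X : F[X]) 1 1 := ⟨natDegree_X_le, coeff_X_one⟩

lemma DC.cast {p q : F[X]} {m n a b} (h : DC p m a) (e : p = q) (e' : m = n) (e'' : a = b) :
    DC q n b := e ▸ e' ▸ e'' ▸ h

lemma DC.monic {p : F[X]} {n} (h : DC p n 1) : p.Monic :=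
  monic_of_natDegree_le_of_coeff_eq_one n h.1 h.2

lemma DC.natDegree {p : F[X]} {n} (h : DC p n 1) : p.natDegree = n :=
  natDegree_eq_of_le_of_coeff_ne_zero h.1 (by rw [h.2]; exact one_ne_zero)

lemma DC.cancel {p q : F[X]} {m n c} (h : DC (p * q) (m + n) c) (hq : DC q n 1) : DC p m c := by
  have h1 : p.natDegree ≤ m := by
    by_cases hp : p = 0
    · simp [hp]
    · have := h.1
      rw [natDegree_mul hp hq.monic.ne_zero, hq.natDegree] at this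
      omega
  exact ⟨h1, by simpa using ((DC.mul ⟨h1, rfl⟩ hq).2.symm.trans h.2)⟩

lemma DC.g {s t u : F[X]} {n a b c} (hs : DC s n a) (ht : DC t n b) (hu : DC u n c) :
    DC (g0 (C A) (C B) s t u) (n + n) (g0 A B a b c) ∧
    DC (g1 (C A) (C B) s t u) (n + n) (g1 A B a b c) ∧ DC (g2 s t u) (n + n) (g2 a b c) := by
  refine ⟨?_, ?_, ?_⟩
  · exact (((hs.sub (hu.cmul A)).mul (hs.sub (hu.cmul A))).sub ((ht.mul hu).cmul (4 * B))).cast
      (by simp only [g0, map_mul, map_ofNat]; ring) rfl (by simp only [g0]; ring)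
  · exact (((ht.mul (hs.add (hu.cmul A))).cmul 2).add ((hu.mul hu).cmul (4 * B))).cast
      (by simp only [g1, map_mul, map_ofNat]; ring) rfl (by simp only [g1]; ring)
  · exact ((ht.mul ht).sub ((hs.mul hu).cmul 4)).cast
      (by simp only [g2, map_ofNat]; ring) rfl (by simp only [g2]; ring)

/-- `n` is the degree of a triple. -/
def Top (x y z : F[X]) (n : ℕ) : Prop :=
  ∃ a b c, DC x n a ∧ DC y n b ∧ DC z n c ∧ ¬(a = 0 ∧ b = 0 ∧ c = 0)

lemma Top.unique {x y z : F[X]} {m n} (h : Top x y z m) (h' : Top x y z n) : m = n := by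
  wlog hmn : m ≤ n generalizing m n
  · exact (this h' h (le_of_not_ge hmn)).symm
  obtain ⟨a, b, c, ha, hb, hc, -⟩ := h
  obtain ⟨a', b', c', ha', hb', hc', hne⟩ := h'
  by_contra hlt
  have hlt : m < n := lt_of_le_of_ne hmn hlt
  exact hne ⟨ha'.2.symm.trans (ha.up hlt).2, hb'.2.symm.trans (hb.up hlt).2,
    hc'.2.symm.trans (hc.up hlt).2⟩

/-- Height of a pair of polynomials. -/
def hgt (p q : F[X]) : ℕ := max p.natDegree q.natDegree

lemma hgt_dc {p q : F[X]} (h : IsCoprime p q) :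
    ∃ a b, DC p (hgt p q) a ∧ DC q (hgt p q) b ∧ ¬(a = 0 ∧ b = 0) := by
  refine ⟨_, _, ⟨le_max_left _ _, rfl⟩, ⟨le_max_right _ _, rfl⟩, ?_⟩
  rintro ⟨a, b⟩
  unfold hgt at a b
  rcases le_total p.natDegree q.natDegree with l | l
  · rw [max_eq_right l] at a b
    have hq : q = 0 := leadingCoeff_eq_zero.1 b
    subst hq
    have : p.natDegree = 0 := by simpa using l
    rw [natDegree_zero, ← this] at a
    have hp : p = 0 := leadingCoeff_eq_zero.1 a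
    subst hp
    exact not_isCoprime_zero_zero h
  · rw [max_eq_left l] at a b
    have hp : p = 0 := leadingCoeff_eq_zero.1 a
    subst hp
    have : q.natDegree = 0 := by simpa using l
    rw [natDegree_zero, ← this] at b
    have hq : q = 0 := leadingCoeff_eq_zero.1 b
    subst hq
    exact not_isCoprime_zero_zero h

lemma top_sym {p q r s : F[X]} (h : IsCoprime p q) (h' : IsCoprime r s) :
    Top (p * r) (p * s + q * r) (q * s) (hgt p q + hgt r s) := by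
  obtain ⟨a, b, ha, hb, hab⟩ := hgt_dc h
  obtain ⟨c, d, hc, hd, hcd⟩ := hgt_dc h'
  refine ⟨_, _, _, ha.mul hc, (ha.mul hd).add (hb.mul hc), hb.mul hd, ?_⟩
  rintro ⟨e1, e2, e3⟩
  rcases mul_eq_zero.1 e1 with rfl | rfl
  · have hb0 : b ≠ 0 := fun h => hab ⟨rfl, h⟩
    exact hcd ⟨(mul_eq_zero.1 (by simpa using e2)).resolve_left hb0,
      (mul_eq_zero.1 e3).resolve_left hb0⟩
  · have hd0 : d ≠ 0 := fun h => hcd ⟨rfl, h⟩
    exact hab ⟨(mul_eq_zero.1 (by simpa using e2)).resolve_right hd0,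
      (mul_eq_zero.1 e3).resolve_right hd0⟩

section rep

variable {E : Type} [Field E] (ι : F[X] →+* E)

/-- `(φ : D)` represents the `x`-coordinate of `R` in lowest terms. -/
def Rep (R : Pt (ι (C A)) (ι (C B))) (φ D : F[X]) : Prop :=
  IsCoprime φ D ∧ ∃ ν : E, ν ≠ 0 ∧ xn R = ν * ι φ ∧ xd R = ν * ι D

variable {ι}

lemma Rep.cmul {R : Pt (ι (C A)) (ι (C B))} {φ D : F[X]} (h : Rep ι R φ D) {c : F} (hc : c ≠ 0) :
    Rep ι R (C c * φ) (C c * D) := by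
  obtain ⟨h, ν, hν, a, b⟩ := h
  have hu : IsUnit (C c : F[X]) := isUnit_C.2 (Ne.isUnit hc)
  have hc' : ι (C c) ≠ 0 := (hu.map ι).ne_zero
  refine ⟨(isCoprime_mul_unit_left hu _ _).2 h, ν / ι (C c), div_ne_zero hν hc', ?_, ?_⟩
  · rw [a, map_mul]; field_simp
  · rw [b, map_mul]; field_simp

theorem rep_triple (h2 : (2 : F) ≠ 0) (hD : 4 * A ^ 3 + 27 * B ^ 2 ≠ 0)
    (hι : Function.Injective ι) {P Q : Pt (ι (C A)) (ι (C B))} {φ₁ D₁ φ₂ D₂ φ₃ D₃ φ₄ D₄ : F[X]}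
    (r₁ : Rep ι P φ₁ D₁) (r₂ : Rep ι Q φ₂ D₂) (r₃ : Rep ι (P + Q) φ₃ D₃)
    (r₄ : Rep ι (P - Q) φ₄ D₄) : ∃ c : F, c ≠ 0 ∧
      g0 (C A) (C B) (φ₁ * φ₂) (φ₁ * D₂ + D₁ * φ₂) (D₁ * D₂) = C c * (φ₃ * φ₄) ∧
      g1 (C A) (C B) (φ₁ * φ₂) (φ₁ * D₂ + D₁ * φ₂) (D₁ * D₂) = C c * (φ₃ * D₄ + D₃ * φ₄) ∧
      g2 (φ₁ * φ₂) (φ₁ * D₂ + D₁ * φ₂) (D₁ * D₂) = C c * (D₃ * D₄) := by
  obtain ⟨c₁, ν₁, n₁, a₁, b₁⟩ := r₁
  obtain ⟨c₂, ν₂, n₂, a₂, b₂⟩ := r₂
  obtain ⟨c₃, ν₃, n₃, a₃, b₃⟩ := r₃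
  obtain ⟨c₄, ν₄, n₄, a₄, b₄⟩ := r₄
  have h2' : (2 : E) ≠ 0 := by
    have := ((isUnit_C.2 (Ne.isUnit h2)).map ι).ne_zero
    rwa [map_ofNat, map_ofNat] at this
  obtain ⟨ν, n, e0, e1, e2⟩ := tr_all h2' P Q
  rw [a₁, a₂, b₁, b₂, a₃, a₄] at e0
  rw [a₁, a₂, b₁, b₂, a₃, a₄, b₃, b₄] at e1
  rw [a₁, a₂, b₁, b₂, b₃, b₄] at e2
  have u34 := uni_sym c₃ c₄
  have u12 := uni_sym c₁ c₂
  generalize hs : φ₁ * φ₂ = s at *
  generalize ht : φ₁ * D₂ + D₁ * φ₂ = t at *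
  generalize hu : D₁ * D₂ = u at *
  have ug : Uni (g0 (C A) (C B) s t u) (g1 (C A) (C B) s t u) (g2 s t u) := by
    refine uni_of_max fun m hm k0 k1 k2 => ?_
    let _ := Ideal.Quotient.field m
    let π := Ideal.Quotient.mk m
    have hc : ∀ r : F, r ≠ 0 → π (C r) ≠ 0 := fun r hr =>
      ((isUnit_C.2 (Ne.isUnit hr)).map π).ne_zero
    have := g_eq_zero (F := F[X] ⧸ m) (A := π (C A)) (B := π (C B)) (s := π s) (t := π t)
      (u := π u) (by simpa only [map_ofNat] using hc _ h2)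
      (by simpa only [map_add, map_mul, map_pow, map_ofNat] using hc _ hD)
      (by simpa only [g0, map_sub, map_mul, map_pow, map_ofNat] using
        Ideal.Quotient.eq_zero_iff_mem.2 k0)
      (by simpa only [g1, map_add, map_mul, map_pow, map_ofNat] using
        Ideal.Quotient.eq_zero_iff_mem.2 k1)
      (by simpa only [g2, map_sub, map_mul, map_pow, map_ofNat] using
        Ideal.Quotient.eq_zero_iff_mem.2 k2)
    exact u12.not_mem hm (Ideal.Quotient.eq_zero_iff_mem.1 this.1)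
      (Ideal.Quotient.eq_zero_iff_mem.1 this.2.1) (Ideal.Quotient.eq_zero_iff_mem.1 this.2.2)
  have n12 : (ν₁ * ν₂) ^ 2 ≠ 0 := pow_ne_zero _ (mul_ne_zero n₁ n₂)
  obtain ⟨μ, hμ⟩ : ∃ μ, ν * ν₃ * ν₄ = (ν₁ * ν₂) ^ 2 * μ := ⟨ν * ν₃ * ν₄ / (ν₁ * ν₂) ^ 2, by field_simp⟩
  have f0 : ι (g0 (C A) (C B) s t u) = μ * ι (φ₃ * φ₄) := by
    refine mul_left_cancel₀ n12 ?_
    rw [← hs, ← ht, ← hu]
    simp only [g0, map_sub, map_add, map_mul, map_pow, map_ofNat] at e0 ⊢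
    linear_combination e0 + ι φ₃ * ι φ₄ * hμ
  have f1 : ι (g1 (C A) (C B) s t u) = μ * ι (φ₃ * D₄ + D₃ * φ₄) := by
    refine mul_left_cancel₀ n12 ?_
    rw [← hs, ← ht, ← hu]
    simp only [g1, map_add, map_mul, map_pow, map_ofNat] at e1 ⊢
    linear_combination e1 + (ι φ₃ * ι D₄ + ι D₃ * ι φ₄) * hμ
  have f2 : ι (g2 s t u) = μ * ι (D₃ * D₄) := by
    refine mul_left_cancel₀ n12 ?_
    rw [← hs, ← ht, ← hu]
    simp only [g2, map_sub, map_add, map_mul, map_pow, map_ofNat] at e2 ⊢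
    linear_combination e2 + ι D₃ * ι D₄ * hμ
  generalize g0 (C A) (C B) s t u = w0 at *
  generalize g1 (C A) (C B) s t u = w1 at *
  generalize g2 s t u = w2 at *
  generalize φ₃ * φ₄ = v0 at *
  generalize φ₃ * D₄ + D₃ * φ₄ = v1 at *
  generalize D₃ * D₄ = v2 at *
  obtain ⟨a, b, c, e⟩ := u34
  have hm : μ = ι (a * w0 + b * w1 + c * w2) := by
    have := congrArg ι e
    simp only [map_add, map_mul, map_one] at this ⊢
    rw [f0, f1, f2]
    linear_combination -μ * this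
  rw [hm, ← map_mul] at f0 f1 f2
  generalize a * w0 + b * w1 + c * w2 = z at *
  have k0 := hι f0
  have k1 := hι f1
  have k2 := hι f2
  obtain ⟨a', b', c', e'⟩ := ug
  have hz : IsUnit z := by
    refine IsUnit.of_mul_eq_one (a' * v0 + b' * v1 + c' * v2) ?_
    rw [k0, k1, k2] at e'
    linear_combination e'
  obtain ⟨r, hr, rfl⟩ := Polynomial.isUnit_iff.1 hz
  exact ⟨r, hr.ne_zero, k0, k1, k2⟩

/-- The parallelogram law. -/
theorem rep_par (h2 : (2 : F) ≠ 0) (hD : 4 * A ^ 3 + 27 * B ^ 2 ≠ 0)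
    (hι : Function.Injective ι) {P Q : Pt (ι (C A)) (ι (C B))} {φ₁ D₁ φ₂ D₂ φ₃ D₃ φ₄ D₄ : F[X]}
    (r₁ : Rep ι P φ₁ D₁) (r₂ : Rep ι Q φ₂ D₂) (r₃ : Rep ι (P + Q) φ₃ D₃)
    (r₄ : Rep ι (P - Q) φ₄ D₄) :
    hgt φ₃ D₃ + hgt φ₄ D₄ = 2 * hgt φ₁ D₁ + 2 * hgt φ₂ D₂ := by
  obtain ⟨c, hc, e0, e1, e2⟩ := rep_triple h2 hD hι r₁ r₂ r₃ r₄
  obtain ⟨a, b, d, ha, hb, hd, hne⟩ := top_sym r₁.1 r₂.1
  obtain ⟨a', b', d', ha', hb', hd', hne'⟩ := top_sym r₃.1 r₄.1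
  obtain ⟨k0, k1, k2⟩ := DC.g (A := A) (B := B) ha hb hd
  rw [e0] at k0
  rw [e1] at k1
  rw [e2] at k2
  have := Top.unique ⟨_, _, _, ha'.cmul c, hb'.cmul c, hd'.cmul c, fun h => hne'
    ⟨(mul_eq_zero.1 h.1).resolve_left hc, (mul_eq_zero.1 h.2.1).resolve_left hc,
      (mul_eq_zero.1 h.2.2).resolve_left hc⟩⟩
    ⟨_, _, _, k0, k1, k2, fun h => hne (g_eq_zero h2 hD h.1 h.2.1 h.2.2)⟩
  omega

end rep

end Pool.Agent.Lib.MP_e97e2b_nt
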